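import Pool.Agent.Lib.MP_a37012_nt.Defs
import Pool.Agent.Lib.MP_a37012_nt.Fields
import Pool.Agent.Lib.MP_a37012_nt.Normal

section

/-!
# Dyadic cubes and the abstract stopping time argument
-/

set_option autoImplicit false

open MeasureTheory MvPolynomial

namespace Pool.Agent.Lib.MP_a37012_nt

/-- Index of the dyadic cube of level `j` containing `x`. -/
noncomputable def kmIdx {d : ℕ} (j : ℕ) (x : Fin d → ℝ) : Fin d → ℤ := fun i => ⌊x i * 2 ^ j⌋

lemma km_mem_cube {d : ℕ} {j : ℕ} {k : Fin d → ℤ} {x : Fin d → ℝ} :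
    x ∈ cube j k ↔ kmIdx j x = k := by
  have h2 : (0 : ℝ) < 2 ^ j := by positivity
  unfold cube kmIdx
  rw [funext_iff, Set.mem_ofPred_eq]
  refine forall_congr' fun i => ?_
  rw [Int.floor_eq_iff, div_le_iff₀ h2, lt_div_iff₀ h2]

lemma km_self_mem {d : ℕ} (j : ℕ) (x : Fin d → ℝ) : x ∈ cube j (kmIdx j x) :=
  km_mem_cube.mpr rfl

lemma km_idx_mono {d : ℕ} {j j' : ℕ} (h : j' ≤ j) {x y : Fin d → ℝ}
    (hxy : kmIdx j x = kmIdx j y) : kmIdx j' x = kmIdx j' y := by
  have key : ∀ z : Fin d → ℝ, ∀ i, kmIdx j' z i = kmIdx j z i / 2 ^ (j - j') := by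
    intro z i
    obtain ⟨m, rfl⟩ := Nat.exists_eq_add_of_le h
    rw [Nat.add_sub_cancel_left]
    unfold kmIdx
    rw [Int.floor_eq_iff]
    set k : ℤ := ⌊z i * 2 ^ (j' + m)⌋ with hk
    have h1 : (k : ℝ) ≤ z i * 2 ^ (j' + m) := Int.floor_le _
    have h2 : z i * 2 ^ (j' + m) < k + 1 := Int.lt_floor_add_one _
    have hpos : (0 : ℤ) < 2 ^ m := by positivity
    have h3 : (k / 2 ^ m) * 2 ^ m ≤ k := Int.ediv_mul_le k hpos.ne'
    have h4 : k + 1 ≤ (k / 2 ^ m + 1) * 2 ^ m := Int.lt_ediv_add_one_mul_self k hpos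
    have h3' : ((k / 2 ^ m : ℤ) : ℝ) * 2 ^ m ≤ k := by exact_mod_cast h3
    have h4' : (k : ℝ) + 1 ≤ (((k / 2 ^ m : ℤ) : ℝ) + 1) * 2 ^ m := by exact_mod_cast h4
    have hposR : (0 : ℝ) < 2 ^ m := by positivity
    have e : z i * 2 ^ (j' + m) = (z i * 2 ^ j') * 2 ^ m := by rw [pow_add]; ring
    rw [e] at h1 h2
    constructor
    · exact le_of_mul_le_mul_right (h3'.trans h1) hposR
    · exact lt_of_mul_lt_mul_right (h2.trans_le h4') hposR.le
  funext i
  rw [key, key, hxy]

lemma km_cube_eq_pi {d : ℕ} (j : ℕ) (k : Fin d → ℤ) :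
    cube j k = Set.pi Set.univ
      (fun i => Set.Ico ((k i : ℝ) / 2 ^ j) (((k i : ℝ) + 1) / 2 ^ j)) := by
  ext x
  simp [cube, Set.mem_pi]

lemma km_measurable_cube {d : ℕ} (j : ℕ) (k : Fin d → ℤ) : MeasurableSet (cube j k) := by
  rw [km_cube_eq_pi]
  exact MeasurableSet.univ_pi fun i => measurableSet_Ico

lemma km_volume_cube {d : ℕ} (j : ℕ) (k : Fin d → ℤ) :
    volume (cube j k) = ENNReal.ofReal (1 / 2 ^ j) ^ d := by
  rw [km_cube_eq_pi, Real.volume_pi_Ico]
  have : ∀ i, ((k i : ℝ) + 1) / 2 ^ j - (k i : ℝ) / 2 ^ j = 1 / 2 ^ j := fun i => by ring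
  simp only [this, Finset.prod_const, Finset.card_univ, Fintype.card_fin]

lemma km_volume_parent {d : ℕ} (j : ℕ) (k k' : Fin d → ℤ) :
    volume (cube j k) = 2 ^ d * volume (cube (j + 1) k') := by
  rw [km_volume_cube, km_volume_cube, ← mul_pow]
  congr 1
  have h2 : (2 : ENNReal) = ENNReal.ofReal 2 := by norm_num
  rw [h2, ← ENNReal.ofReal_mul (by norm_num)]
  congr 1
  rw [pow_succ]
  field_simp

lemma km_nonempty_cube {d : ℕ} (j : ℕ) (k : Fin d → ℤ) : ∃ x, x ∈ cube j k := by
  refine ⟨fun i => (k i : ℝ) / 2 ^ j, ?_⟩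
  intro i
  refine ⟨le_rfl, ?_⟩
  apply div_lt_div_of_pos_right _ (by positivity)
  linarith

lemma km_small_cube {d : ℕ} {U : Set (Fin d → ℝ)} (hU : IsOpen U) {x : Fin d → ℝ} (hx : x ∈ U)
    (j₀ : ℕ) : ∃ j, j₀ ≤ j ∧ cube j (kmIdx j x) ⊆ U := by
  obtain ⟨ρ, hρ, hball⟩ := Metric.isOpen_iff.mp hU x hx
  obtain ⟨j, hj⟩ := exists_pow_lt_of_lt_one hρ (show (1 / 2 : ℝ) < 1 by norm_num)
  have hlt : (1 / 2 : ℝ) ^ (max j j₀) < ρ :=
    (pow_le_pow_of_le_one (by norm_num) (by norm_num) (le_max_left _ _)).trans_lt hj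
  refine ⟨max j j₀, le_max_right _ _, fun y hy => hball ?_⟩
  rw [Metric.mem_ball]
  refine lt_of_le_of_lt ((dist_pi_le_iff (by positivity)).mpr fun i => ?_) hlt
  obtain ⟨h1, h2⟩ := hy i
  obtain ⟨h3, h4⟩ := km_self_mem (max j j₀) x i
  rw [Real.dist_eq, abs_le, one_div, inv_pow]
  have e : ((kmIdx (max j j₀) x i : ℝ) + 1) / 2 ^ (max j j₀) =
      (kmIdx (max j j₀) x i : ℝ) / 2 ^ (max j j₀) + (2 ^ (max j j₀))⁻¹ := by ring
  rw [e] at h2 h4
  constructor <;> linarith

/-- `x` is marked with respect to the chain `S`. -/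
def KMark {P : Type*} [PartialOrder P] {X : Type*} (U V : P → Set X) (S : Set P) (x : X) : Prop :=
  ∃ S' : Set P, S ⊆ S' ∧ IsChain (· ≤ ·) S' ∧ (∀ W ∈ S', W ∉ S → x ∈ U W ∧ x ∉ V W) ∧
    ∀ W, W ∉ S' → (∀ T ∈ S', T ≤ W ∨ W ≤ T) → x ∉ U W

/-- The constants. -/
noncomputable def kmC (d : ℕ) : ℕ → ENNReal
  | 0 => 0
  | n + 1 => 2 ^ d * (1 + kmC d n)

lemma kmC_ne_top (d n : ℕ) : kmC d n ≠ ⊤ := by
  induction n with
  | zero => simp [kmC]
  | succ n ih =>
    rw [kmC]
    exact ENNReal.mul_ne_top (by simp) (ENNReal.add_ne_top.mpr ⟨ENNReal.one_ne_top, ih⟩)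

lemma km_chain_insert {P : Type*} [PartialOrder P] {S : Set P} (hS : IsChain (· ≤ ·) S) {W : P}
    (hc : ∀ T ∈ S, T ≤ W ∨ W ≤ T) : IsChain (· ≤ ·) (insert W S) := by
  refine hS.insert fun T hT _ => ?_
  exact (hc T hT).symm

theorem km_abstract {d : ℕ} {P : Type*} [PartialOrder P] (rk : P → ℕ) (hrk : StrictMono rk) (N : ℕ)
    (hN : ∀ W, rk W ≤ N) (U V : P → Set (Fin d → ℝ)) (hU : ∀ W, IsOpen (U W)) (η : ENNReal)
    (hrem : ∀ (W : P) (j : ℕ) (k : Fin d → ℤ), (∃ x ∈ cube j k, x ∉ U W) →
      volume {x | x ∈ cube j k ∧ x ∈ V W} ≤ η * volume (cube j k)) (n : ℕ) :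
    ∀ S : Finset P, IsChain (· ≤ ·) (S : Set P) → N + 1 ≤ S.card + n →
      ∀ (j : ℕ) (k : Fin d → ℤ),
      (∀ W, W ∉ S → (∀ T ∈ S, T ≤ W ∨ W ≤ T) → ∃ x ∈ cube j k, x ∉ U W) →
      volume {x | x ∈ cube j k ∧ ¬ KMark U V (S : Set P) x} ≤
        kmC d n * η * volume (cube j k) := by
  classical
  induction n with
  | zero =>
    intro S hS hcard j k _
    have hemp : {x | x ∈ cube j k ∧ ¬ KMark U V (S : Set P) x} = ∅ := by
      ext x
      simp only [Set.mem_ofPred_eq, Set.mem_empty_iff_false, iff_false, not_and, not_not]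
      intro _
      refine ⟨S, subset_rfl, hS, fun W h1 h2 => absurd h1 h2, ?_⟩
      intro W hW hc
      exfalso
      have hWS : W ∉ S := fun h => hW (Finset.mem_coe.mpr h)
      have hch : IsChain (· ≤ ·) ((insert W S : Finset P) : Set P) := by
        rw [Finset.coe_insert]
        exact km_chain_insert hS hc
      have hinj : Set.InjOn rk ((insert W S : Finset P) : Set P) := by
        intro a ha b hb hab
        by_contra hne
        rcases hch ha hb hne with h1 | h1
        · exact absurd hab (hrk (lt_of_le_of_ne h1 hne)).ne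
        · exact absurd hab (hrk (lt_of_le_of_ne h1 (Ne.symm hne))).ne'
      have hle : (insert W S).card ≤ (Finset.range (N + 1)).card :=
        Finset.card_le_card_of_injOn rk
          (fun a _ => Finset.mem_coe.mpr (Finset.mem_range.mpr (Nat.lt_succ_of_le (hN a)))) hinj
      rw [Finset.card_insert_of_notMem hWS, Finset.card_range] at hle
      omega
    rw [hemp, measure_empty]
    exact zero_le
  | succ n ih =>
    intro S hS hcard j₀ k₀ hC
    set Cpt : P → Prop := fun W => W ∉ S ∧ ∀ T ∈ S, T ≤ W ∨ W ≤ T with hCpt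
    set Bad : ℕ → (Fin d → ℝ) → Prop :=
      fun j x => ∃ W, Cpt W ∧ cube j (kmIdx j x) ⊆ U W with hBad
    set T : ℕ → Set (Fin d → ℝ) := fun j => {x | x ∈ cube j₀ k₀ ∧ j₀ ≤ j ∧ Bad j x ∧
      ∀ j', j₀ ≤ j' → j' < j → ¬ Bad j' x} with hT
    -- covering
    have hA : ∀ x ∈ cube j₀ k₀, ¬ KMark U V (S : Set P) x → ∃ j, x ∈ T j := by
      intro x hx hnm
      have h1 : ∃ W, Cpt W ∧ x ∈ U W := by
        by_contra hcon
        push Not at hcon
        exact hnm ⟨S, subset_rfl, hS, fun W h1 h2 => absurd h1 h2,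
          fun W hW hc => hcon W ⟨fun h => hW (Finset.mem_coe.mpr h), hc⟩⟩
      obtain ⟨W, hW, hxW⟩ := h1
      obtain ⟨j1, hj1, hsub⟩ := km_small_cube (hU W) hxW j₀
      have hex : ∃ j, j₀ ≤ j ∧ Bad j x := ⟨j1, hj1, W, hW, hsub⟩
      refine ⟨Nat.find hex, hx, (Nat.find_spec hex).1, (Nat.find_spec hex).2, ?_⟩
      intro j' h1 h2 h3
      exact Nat.find_min hex h2 ⟨h1, h3⟩
    have hB : ∀ j x, x ∈ T j → cube j (kmIdx j x) ⊆ T j := by
      rintro j x ⟨h1, h2, h3, h4⟩ y hy
      have hidx : ∀ j', j' ≤ j → kmIdx j' y = kmIdx j' x :=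
        fun j' hj' => km_idx_mono hj' (km_mem_cube.mp hy)
      refine ⟨?_, h2, ?_, ?_⟩
      · rw [km_mem_cube, hidx j₀ h2, km_mem_cube.mp h1]
      · simp only [hBad] at h3 ⊢
        rw [hidx j le_rfl]
        exact h3
      · intro j' h5 h6 h7
        refine h4 j' h5 h6 ?_
        simp only [hBad] at h7 ⊢
        rw [hidx j' h6.le] at h7
        exact h7
    have hCq : ∀ (j : ℕ) (k : Fin d → ℤ), cube j k ⊆ T j →
        volume {x | x ∈ cube j k ∧ ¬ KMark U V (S : Set P) x} ≤
          kmC d (n + 1) * η * volume (cube j k) := by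
      intro j k hsub
      obtain ⟨x₀, hx₀⟩ := km_nonempty_cube j k
      obtain ⟨h1, h2, ⟨W, hW, hWsub⟩, h4⟩ := hsub hx₀
      have hk : kmIdx j x₀ = k := km_mem_cube.mp hx₀
      rw [hk] at hWsub
      have hne : j ≠ j₀ := by
        rintro rfl
        obtain ⟨x, hx, hxU⟩ := hC W hW.1 hW.2
        have : k = k₀ := by rw [← hk, km_mem_cube.mp h1]
        rw [← this] at hx
        exact hxU (hWsub hx)
      obtain ⟨j1, rfl⟩ : ∃ j1, j = j1 + 1 := ⟨j - 1, by omega⟩
      have hj1 : j₀ ≤ j1 := by omega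
      have hnb : ∀ W', Cpt W' → ∃ x ∈ cube j1 (kmIdx j1 x₀), x ∉ U W' := by
        intro W' hW'
        by_contra hcon
        push Not at hcon
        exact h4 j1 hj1 (Nat.lt_succ_self j1) ⟨W', hW', fun x hx => hcon x hx⟩
      have hr := hrem W j1 (kmIdx j1 x₀) (hnb W hW)
      have hI := ih (insert W S)
        (by rw [Finset.coe_insert]; exact km_chain_insert hS hW.2)
        (by rw [Finset.card_insert_of_notMem hW.1]; omega) j1 (kmIdx j1 x₀)
        (by
          intro W' h5 h6
          exact hnb W' ⟨fun h => h5 (Finset.mem_insert_of_mem h),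
            fun T hT => h6 T (Finset.mem_insert_of_mem hT)⟩)
      have hincl : {x | x ∈ cube (j1 + 1) k ∧ ¬ KMark U V (S : Set P) x} ⊆
          {x | x ∈ cube j1 (kmIdx j1 x₀) ∧ x ∈ V W} ∪
          {x | x ∈ cube j1 (kmIdx j1 x₀) ∧ ¬ KMark U V ((insert W S : Finset P) : Set P) x} := by
        rintro x ⟨hx, hnm⟩
        have hxp : x ∈ cube j1 (kmIdx j1 x₀) := by
          rw [km_mem_cube]
          exact km_idx_mono (Nat.le_succ j1) ((km_mem_cube.mp hx).trans hk.symm)
        by_cases hxV : x ∈ V W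
        · exact Or.inl ⟨hxp, hxV⟩
        · refine Or.inr ⟨hxp, ?_⟩
          rintro ⟨S', h5, h6, h7, h8⟩
          refine hnm ⟨S', ?_, h6, ?_, h8⟩
          · refine subset_trans ?_ h5
            rw [Finset.coe_insert]
            exact Set.subset_insert _ _
          · intro W' h9 h10
            by_cases hWW : W' = W
            · subst hWW
              exact ⟨hWsub hx, hxV⟩
            · refine h7 W' h9 ?_
              rw [Finset.coe_insert]
              rintro (h11 | h11)
              · exact hWW h11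
              · exact h10 h11
      calc volume {x | x ∈ cube (j1 + 1) k ∧ ¬ KMark U V (S : Set P) x}
          ≤ volume {x | x ∈ cube j1 (kmIdx j1 x₀) ∧ x ∈ V W} +
            volume {x | x ∈ cube j1 (kmIdx j1 x₀) ∧
              ¬ KMark U V ((insert W S : Finset P) : Set P) x} :=
            (measure_mono hincl).trans (measure_union_le _ _)
        _ ≤ η * volume (cube j1 (kmIdx j1 x₀)) +
            kmC d n * η * volume (cube j1 (kmIdx j1 x₀)) := add_le_add hr hI
        _ = kmC d (n + 1) * η * volume (cube (j1 + 1) k) := by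
            rw [km_volume_parent j1 _ k, kmC]
            ring
    -- summation
    set 𝒟 : Set (ℕ × (Fin d → ℤ)) := {q | cube q.1 q.2 ⊆ T q.1} with h𝒟
    have hcov : {x | x ∈ cube j₀ k₀ ∧ ¬ KMark U V (S : Set P) x} ⊆
        ⋃ q : 𝒟, {x | x ∈ cube q.1.1 q.1.2 ∧ ¬ KMark U V (S : Set P) x} := by
      rintro x ⟨hx, hnm⟩
      obtain ⟨j, hj⟩ := hA x hx hnm
      refine Set.mem_iUnion.mpr ⟨⟨(j, kmIdx j x), hB j x hj⟩, km_self_mem j x, hnm⟩
    have hdisj : Pairwise (Function.onFun Disjoint fun q : 𝒟 => cube q.1.1 q.1.2) := by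
      intro q q' hne
      rw [Function.onFun, Set.disjoint_left]
      intro x hx hx'
      apply hne
      have h1 : x ∈ T q.1.1 := q.2 hx
      have h2 : x ∈ T q'.1.1 := q'.2 hx'
      have hj : q.1.1 = q'.1.1 := by
        rcases lt_trichotomy q.1.1 q'.1.1 with h | h | h
        · exact absurd h1.2.2.1 (h2.2.2.2 _ h1.2.1 h)
        · exact h
        · exact absurd h2.2.2.1 (h1.2.2.2 _ h2.2.1 h)
      apply Subtype.ext
      refine Prod.ext hj ?_
      rw [← km_mem_cube.mp hx, ← km_mem_cube.mp hx', hj]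
    calc volume {x | x ∈ cube j₀ k₀ ∧ ¬ KMark U V (S : Set P) x}
        ≤ volume (⋃ q : 𝒟, {x | x ∈ cube q.1.1 q.1.2 ∧ ¬ KMark U V (S : Set P) x}) :=
          measure_mono hcov
      _ ≤ ∑' q : 𝒟, volume {x | x ∈ cube q.1.1 q.1.2 ∧ ¬ KMark U V (S : Set P) x} :=
          measure_iUnion_le _
      _ ≤ ∑' q : 𝒟, kmC d (n + 1) * η * volume (cube q.1.1 q.1.2) :=
          ENNReal.tsum_le_tsum fun q => hCq q.1.1 q.1.2 q.2
      _ = kmC d (n + 1) * η * ∑' q : 𝒟, volume (cube q.1.1 q.1.2) := ENNReal.tsum_mul_left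
      _ = kmC d (n + 1) * η * volume (⋃ q : 𝒟, cube q.1.1 q.1.2) := by
          rw [measure_iUnion hdisj fun q => km_measurable_cube _ _]
      _ ≤ kmC d (n + 1) * η * volume (cube j₀ k₀) := by
          refine mul_le_mul_right (measure_mono ?_) _
          refine Set.iUnion_subset fun q => ?_
          exact fun x hx => (q.2 hx).1

end Pool.Agent.Lib.MP_a37012_nt
end

section

/-!
# Remez and Markov type inequalities for polynomials on dyadic cubes
-/

set_option autoImplicit false

open MeasureTheory MvPolynomial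

namespace Pool.Agent.Lib.MP_a37012_nt

/-- Picking separated points in a set of large measure. -/
theorem poly_exists_separated (E : Set ℝ) (δ : ℝ) (hδ : 0 < δ) (n : ℕ)
    (h : ENNReal.ofReal (2 * δ * n) < volume E) :
    ∃ s : Finset ℝ, s.card = n + 1 ∧ (∀ x ∈ s, x ∈ E) ∧
      ∀ x ∈ s, ∀ y ∈ s, x ≠ y → δ ≤ |x - y| := by
  induction n with
  | zero =>
    have h0 : volume E ≠ 0 := by
      intro h0
      simp [h0] at h
    obtain ⟨x, hx⟩ := nonempty_of_measure_ne_zero h0
    refine ⟨{x}, by simp, by simpa using hx, ?_⟩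
    intro a ha b hb hab
    simp only [Finset.mem_singleton] at ha hb
    exact absurd (ha.trans hb.symm) hab
  | succ n ih =>
    have h' : ENNReal.ofReal (2 * δ * n) < volume E := by
      refine lt_of_le_of_lt (ENNReal.ofReal_le_ofReal ?_) h
      push_cast
      nlinarith
    obtain ⟨s, hs, hsE, hsd⟩ := ih h'
    have hb : volume (⋃ x ∈ s, Metric.ball x δ) ≤ ENNReal.ofReal (2 * δ * (n + 1 : ℕ)) := by
      refine (measure_biUnion_finset_le s _).trans ?_
      have : ∀ x ∈ s, volume (Metric.ball x δ) = ENNReal.ofReal (2 * δ) := fun x _ =>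
        Real.volume_ball x δ
      rw [Finset.sum_congr rfl this, Finset.sum_const, hs, nsmul_eq_mul,
        ENNReal.ofReal_mul (p := 2 * δ) (by positivity), ENNReal.ofReal_natCast, mul_comm]
    have hlt : volume (⋃ x ∈ s, Metric.ball x δ) < volume E := lt_of_le_of_lt hb h
    have : ∃ y ∈ E, y ∉ ⋃ x ∈ s, Metric.ball x δ := by
      by_contra hcon
      push Not at hcon
      exact absurd (measure_mono (μ := volume) hcon) (not_le.mpr hlt)
    obtain ⟨y, hyE, hy⟩ := this
    simp only [Set.mem_iUnion, Metric.mem_ball, not_exists, not_lt] at hy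
    have hys : y ∉ s := by
      intro hys
      have := hy y hys
      rw [dist_self] at this
      exact absurd this (not_le.mpr hδ)
    classical
    refine ⟨insert y s, by rw [Finset.card_insert_of_notMem hys, hs], ?_, ?_⟩
    · intro x hx
      rcases Finset.mem_insert.mp hx with rfl | hx
      · exact hyE
      · exact hsE x hx
    · intro a ha b hb hab
      rcases Finset.mem_insert.mp ha with h1 | ha' <;>
        rcases Finset.mem_insert.mp hb with h2 | hb'
      · exact absurd (h1.trans h2.symm) hab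
      · rw [h1]
        have := hy b hb'
        rwa [Real.dist_eq] at this
      · rw [h2]
        have := hy a ha'
        rw [Real.dist_eq] at this
        rwa [abs_sub_comm]
      · exact hsd a ha' b hb' hab

/-- Bound for the Lagrange basis polynomials. -/
theorem poly_basis_bound (s : Finset ℝ) (δ ρ : ℝ) (hδ : 0 < δ)
    (hsd : ∀ x ∈ s, ∀ y ∈ s, x ≠ y → δ ≤ |x - y|) (t : ℝ) (ht : ∀ x ∈ s, |t - x| ≤ ρ)
    (i : ℝ) (hi : i ∈ s) :
    |Polynomial.eval t (Lagrange.basis s id i)| ≤ (ρ / δ) ^ (s.card - 1) := by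
  rw [Lagrange.basis, Polynomial.eval_prod, Finset.abs_prod, ← Finset.card_erase_of_mem hi,
    ← Finset.prod_const]
  refine Finset.prod_le_prod (fun _ _ => abs_nonneg _) ?_
  intro j hj
  have hji : i ≠ j := fun h => (Finset.mem_erase.mp hj).1 h.symm
  have hjs := Finset.mem_of_mem_erase hj
  simp only [Lagrange.basisDivisor, id, Polynomial.eval_mul, Polynomial.eval_C,
    Polynomial.eval_sub, Polynomial.eval_X, abs_mul, abs_inv]
  rw [mul_comm, ← div_eq_mul_inv]
  have h1 := hsd i hi j hjs hji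
  have h2 := ht j hjs
  have h3 : 0 ≤ ρ := (abs_nonneg _).trans h2
  exact div_le_div₀ h3 h2 hδ h1

/-- One-dimensional Remez inequality. -/
theorem poly_remez_one (D : ℕ) (η : ℝ) (hη : 0 < η) : ∃ ε : ℝ, 0 < ε ∧
    ∀ q : Polynomial ℝ, q.natDegree ≤ D → ∀ (a ρ : ℝ), 0 < ρ →
      (∃ x ∈ Set.Ico a (a + ρ), 1 ≤ |q.eval x|) →
      volume {x | x ∈ Set.Ico a (a + ρ) ∧ |q.eval x| < ε} ≤ ENNReal.ofReal (η * ρ) := by
  set R : ℝ := 2 * (D + 1) / η with hR
  have hRpos : 0 < R := by positivity
  refine ⟨1 / ((D + 1) * R ^ D), by positivity, ?_⟩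
  intro q hq a ρ hρ ⟨x, hx, hx1⟩
  by_contra hcon
  push Not at hcon
  set δ : ℝ := η * ρ / (2 * (D + 1)) with hδ
  have hδpos : 0 < δ := by positivity
  have hlt : ENNReal.ofReal (2 * δ * D) <
      volume {x | x ∈ Set.Ico a (a + ρ) ∧ |q.eval x| < 1 / ((D + 1) * R ^ D)} := by
    refine lt_of_le_of_lt (ENNReal.ofReal_le_ofReal ?_) hcon
    have h1 : 2 * δ * D = η * ρ * (D / (D + 1)) := by
      rw [hδ]; field_simp
    rw [h1]
    have h2 : (D : ℝ) / (D + 1) ≤ 1 := by
      rw [div_le_one (by positivity)]; linarith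
    exact mul_le_of_le_one_right (by positivity) h2
  obtain ⟨s, hs, hsE, hsd⟩ := poly_exists_separated _ δ hδpos D hlt
  have hdeg : q.degree < s.card := by
    rw [hs]
    refine lt_of_le_of_lt Polynomial.degree_le_natDegree ?_
    exact_mod_cast Nat.lt_succ_of_le hq
  have hint := Lagrange.eq_interpolate (s := s) (v := id) (f := q)
    (Function.injective_id.injOn) hdeg
  have hval : q.eval x = ∑ i ∈ s, q.eval i * (Lagrange.basis s id i).eval x := by
    conv_lhs => rw [hint]
    rw [Lagrange.interpolate_apply, Polynomial.eval_finsetSum]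
    simp
  have hbd : |q.eval x| ≤ ∑ i ∈ s, |q.eval i| * R ^ D := by
    rw [hval]
    refine (Finset.abs_sum_le_sum_abs _ _).trans (Finset.sum_le_sum fun i hi => ?_)
    rw [abs_mul]
    refine mul_le_mul_of_nonneg_left ?_ (abs_nonneg _)
    have h1 := poly_basis_bound s δ ρ hδpos hsd x (fun y hy => by
      have hy := (hsE y hy).1
      rw [abs_le]
      constructor <;> linarith [hx.1, hx.2, hy.1, hy.2]) i hi
    rw [hs, Nat.add_sub_cancel] at h1
    have h2 : ρ / δ = R := by
      rw [hδ, hR]; field_simp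
    rwa [h2] at h1
  have hlt1 : ∑ i ∈ s, |q.eval i| * R ^ D < ∑ i ∈ s, 1 / ((D + 1) * R ^ D) * R ^ D := by
    refine Finset.sum_lt_sum_of_nonempty ?_ ?_
    · rw [← Finset.card_pos, hs]; exact Nat.succ_pos _
    · intro i hi
      exact mul_lt_mul_of_pos_right (hsE i hi).2 (by positivity)
  have heq : ∑ i ∈ s, 1 / ((D + 1) * R ^ D) * R ^ D = 1 := by
    rw [Finset.sum_const, hs, nsmul_eq_mul]
    push_cast
    field_simp
  linarith

/-- Continuous functions that are polynomials of degree at most `D` in each variable. -/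
def PolySep {d : ℕ} (D : ℕ) (f : (Fin d → ℝ) → ℝ) : Prop :=
  Continuous f ∧ ∀ (x : Fin d → ℝ) (i : Fin d), ∃ q : Polynomial ℝ, q.natDegree ≤ D ∧
    ∀ t, f (Function.update x i t) = q.eval t

theorem poly_box_volume {d : ℕ} (a : Fin d → ℝ) (ρ : ℝ) :
    volume (Set.univ.pi fun i => Set.Ico (a i) (a i + ρ)) = ENNReal.ofReal ρ ^ d := by
  rw [Real.volume_pi_Ico]
  simp

/-- Remez inequality on cubes for functions that are polynomial in each variable. -/
theorem poly_remez_aux (D : ℕ) : ∀ (d : ℕ) (η : ℝ), 0 < η → ∃ ε : ℝ, 0 < ε ∧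
    ∀ f : (Fin d → ℝ) → ℝ, PolySep D f → ∀ (a : Fin d → ℝ) (ρ : ℝ), 0 < ρ →
      (∃ x ∈ Set.univ.pi (fun i => Set.Ico (a i) (a i + ρ)), 1 ≤ |f x|) →
      volume {x | x ∈ Set.univ.pi (fun i => Set.Ico (a i) (a i + ρ)) ∧ |f x| < ε} ≤
        ENNReal.ofReal η * ENNReal.ofReal ρ ^ d := by
  intro d
  induction d with
  | zero =>
    intro η hη
    refine ⟨1, one_pos, ?_⟩
    intro f _ a ρ _ ⟨x, _, hx⟩
    have : {x | x ∈ Set.univ.pi (fun i => Set.Ico (a i) (a i + ρ)) ∧ |f x| < 1} = ∅ := by
      ext y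
      simp only [Set.mem_ofPred_eq, Set.mem_empty_iff_false, iff_false, not_and, not_lt]
      intro _
      rwa [Subsingleton.elim y x]
    rw [this]
    simp
  | succ d ih =>
    intro η hη
    obtain ⟨ε₁, hε₁, h1⟩ := poly_remez_one D (η / 2) (by positivity)
    obtain ⟨ε₂, hε₂, h2⟩ := ih (η / 2) (by positivity)
    refine ⟨ε₁ * ε₂, by positivity, ?_⟩
    intro f hf a ρ hρ ⟨x, hx, hx1⟩
    set t₀ : ℝ := x 0 with ht₀
    set y₀ : Fin d → ℝ := Fin.tail x with hy₀
    have hxc : x = Fin.cons t₀ y₀ := (Fin.cons_self_tail x).symm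
    -- the polynomial in the first variable
    obtain ⟨q, hq, hqe⟩ := hf.2 x 0
    have hqe' : ∀ t, f (Fin.cons t y₀) = q.eval t := by
      intro t
      rw [← hqe t, hxc, Fin.update_cons_zero]
    set I : Set ℝ := Set.Ico (a 0) (a 0 + ρ) with hI
    set B : Set (Fin d → ℝ) :=
      Set.univ.pi (fun i => Set.Ico (Fin.tail a i) (Fin.tail a i + ρ)) with hB
    have hmem : ∀ (t : ℝ) (y : Fin d → ℝ),
        (Fin.cons t y : Fin (d + 1) → ℝ) ∈
          Set.univ.pi (fun i => Set.Ico (a i) (a i + ρ)) ↔ t ∈ I ∧ y ∈ B := by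
      intro t y
      simp only [Set.mem_univ_pi, hI, hB]
      rw [Fin.forall_fin_succ]
      simp only [Fin.cons_zero, Fin.cons_succ, Fin.tail]
    have hxm : t₀ ∈ I ∧ y₀ ∈ B := by
      rw [hxc] at hx
      exact (hmem _ _).mp hx
    set E : Set ℝ := {t | t ∈ I ∧ |q.eval t| < ε₁} with hE
    have hEm : MeasurableSet E := by
      refine MeasurableSet.inter measurableSet_Ico ?_
      exact measurableSet_lt q.continuous.abs.measurable measurable_const
    have hEv : volume E ≤ ENNReal.ofReal (η / 2 * ρ) := by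
      refine h1 q hq (a 0) ρ hρ ⟨t₀, hxm.1, ?_⟩
      rw [← hqe' t₀, ← hxc]
      exact hx1
    set S : Set (Fin (d + 1) → ℝ) :=
      {x | x ∈ Set.univ.pi (fun i => Set.Ico (a i) (a i + ρ)) ∧ |f x| < ε₁ * ε₂} with hS
    have hSm : MeasurableSet S := by
      refine MeasurableSet.inter (MeasurableSet.univ_pi fun i => measurableSet_Ico) ?_
      exact measurableSet_lt hf.1.abs.measurable measurable_const
    have hmp := (volume_preserving_piFinSuccAbove (fun _ : Fin (d + 1) => ℝ) 0).symm
    have hvol : volume S = volume ((MeasurableEquiv.piFinSuccAbove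
        (fun _ : Fin (d + 1) => ℝ) 0).symm ⁻¹' S) := (hmp.measure_preimage_equiv S).symm
    rw [hvol, Measure.volume_eq_prod, Measure.prod_apply
      ((MeasurableEquiv.piFinSuccAbove (fun _ : Fin (d + 1) => ℝ) 0).symm.measurable hSm)]
    have hslice : ∀ t : ℝ, volume (Prod.mk t ⁻¹' ((MeasurableEquiv.piFinSuccAbove
        (fun _ : Fin (d + 1) => ℝ) 0).symm ⁻¹' S)) ≤
        E.indicator (fun _ => ENNReal.ofReal ρ ^ d) t +
          I.indicator (fun _ => ENNReal.ofReal (η / 2) * ENNReal.ofReal ρ ^ d) t := by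
      intro t
      have hset : Prod.mk t ⁻¹' ((MeasurableEquiv.piFinSuccAbove
          (fun _ : Fin (d + 1) => ℝ) 0).symm ⁻¹' S) =
          {y | (t ∈ I ∧ y ∈ B) ∧ |f (Fin.cons t y)| < ε₁ * ε₂} := by
        ext y
        have he : (MeasurableEquiv.piFinSuccAbove (fun _ : Fin (d + 1) => ℝ) 0).symm (t, y) =
            Fin.cons t y := by
          change Fin.insertNth (α := fun _ : Fin (d + 1) => ℝ) 0 t y = _
          rw [Fin.insertNth_zero]
          rfl
        simp only [Set.mem_preimage, Set.mem_ofPred_eq]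
        rw [he]
        change (_ ∈ _ ∧ _) ↔ _
        rw [hmem]
      rw [hset]
      by_cases htI : t ∈ I
      · by_cases htE : t ∈ E
        · rw [Set.indicator_of_mem htE]
          refine le_trans ?_ le_self_add
          rw [← poly_box_volume (Fin.tail a) ρ]
          refine measure_mono ?_
          intro y hy
          exact hy.1.2
        · rw [Set.indicator_of_notMem htE, Set.indicator_of_mem htI, zero_add]
          have hge : ε₁ ≤ |f (Fin.cons t y₀)| := by
            rw [hqe']
            by_contra hlt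
            exact htE ⟨htI, not_le.mp hlt⟩
          have hg : PolySep D (fun y : Fin d → ℝ => f (Fin.cons t y) / ε₁) := by
            refine ⟨?_, ?_⟩
            · refine Continuous.div_const (hf.1.comp ?_) _
              exact continuous_const.finCons continuous_id
            · intro y i
              obtain ⟨r, hr, hre⟩ := hf.2 (Fin.cons t y) i.succ
              refine ⟨Polynomial.C (1 / ε₁) * r, ?_, ?_⟩
              · refine (Polynomial.natDegree_C_mul_le _ _).trans hr
              · intro s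
                simp only [Polynomial.eval_mul, Polynomial.eval_C]
                rw [← hre s, ← Fin.cons_update]
                ring
          have h3 := h2 _ hg (Fin.tail a) ρ hρ ⟨y₀, hxm.2, by
            rw [abs_div, abs_of_pos hε₁, le_div_iff₀ hε₁, one_mul]
            exact hge⟩
          refine le_trans (measure_mono ?_) h3
          intro y hy
          refine ⟨hy.1.2, ?_⟩
          rw [abs_div, abs_of_pos hε₁, div_lt_iff₀ hε₁, mul_comm]
          exact hy.2
      · have : {y | (t ∈ I ∧ y ∈ B) ∧ |f (Fin.cons t y)| < ε₁ * ε₂} = ∅ := by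
          ext y
          simp only [Set.mem_ofPred_eq, Set.mem_empty_iff_false, iff_false]
          exact fun h => htI h.1.1
        rw [this]
        simp
    refine (lintegral_mono hslice).trans ?_
    rw [lintegral_add_left (measurable_const.indicator hEm),
      lintegral_indicator_const hEm, lintegral_indicator_const measurableSet_Ico,
      Real.volume_Ico]
    have hη2 : ENNReal.ofReal η = ENNReal.ofReal (η / 2) + ENNReal.ofReal (η / 2) := by
      rw [← ENNReal.ofReal_add (by positivity) (by positivity)]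
      congr 1; ring
    calc ENNReal.ofReal ρ ^ d * volume E +
          ENNReal.ofReal (η / 2) * ENNReal.ofReal ρ ^ d * ENNReal.ofReal (a 0 + ρ - a 0)
        ≤ ENNReal.ofReal ρ ^ d * ENNReal.ofReal (η / 2 * ρ) +
          ENNReal.ofReal (η / 2) * ENNReal.ofReal ρ ^ d * ENNReal.ofReal (a 0 + ρ - a 0) := by
          gcongr
      _ = ENNReal.ofReal η * ENNReal.ofReal ρ ^ (d + 1) := by
          rw [ENNReal.ofReal_mul (by positivity), add_sub_cancel_left, hη2, pow_succ]
          ring

/-- Restriction of a polynomial to a coordinate line. -/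
theorem poly_line {d : ℕ} (p : MvPolynomial (Fin d) ℝ) (x : Fin d → ℝ) (i : Fin d) :
    ∃ q : Polynomial ℝ, q.natDegree ≤ p.totalDegree ∧
      (∀ t, eval (Function.update x i t) p = q.eval t) ∧
      ∀ t, eval (Function.update x i t) (pderiv i p) = q.derivative.eval t := by
  classical
  set g : Fin d → Polynomial ℝ := Function.update (fun k => Polynomial.C (x k)) i Polynomial.X
    with hg
  have hgi : g i = Polynomial.X := by rw [hg, Function.update_self]
  have hgk : ∀ k, k ≠ i → g k = Polynomial.C (x k) := fun k hk => by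
    rw [hg, Function.update_of_ne hk]
  have hev : ∀ (r : MvPolynomial (Fin d) ℝ) (t : ℝ),
      eval (Function.update x i t) r = (aeval g r).eval t := by
    intro r t
    induction r using MvPolynomial.induction_on with
    | C a => simp
    | add p q hp hq => simp [hp, hq]
    | mul_X p n hp =>
      simp only [map_mul, eval_X, aeval_X, Polynomial.eval_mul, hp]
      by_cases hn : n = i
      · subst hn
        rw [hgi, Function.update_self, Polynomial.eval_X]
      · rw [hgk n hn, Function.update_of_ne hn, Polynomial.eval_C]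
  have hder : ∀ r : MvPolynomial (Fin d) ℝ,
      Polynomial.derivative (aeval g r) = aeval g (pderiv i r) := by
    intro r
    induction r using MvPolynomial.induction_on with
    | C a => simp
    | add p q hp hq => simp [hp, hq]
    | mul_X p n hp =>
      rw [map_mul, aeval_X, Polynomial.derivative_mul, hp, Derivation.leibniz, pderiv_X,
        smul_eq_mul, smul_eq_mul, map_add, map_mul, map_mul, aeval_X]
      by_cases hn : n = i
      · subst hn
        rw [hgi, Pi.single_eq_same, Polynomial.derivative_X, map_one]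
        ring
      · rw [hgk n hn, Pi.single_eq_of_ne hn, Polynomial.derivative_C, map_zero]
        ring
  refine ⟨aeval g p, ?_, hev p, ?_⟩
  · have := aeval_natDegree_le (m := p.totalDegree) (n := 1) p le_rfl g (fun k => by
      by_cases hk : k = i
      · rw [hk, hgi]; exact Polynomial.natDegree_X_le
      · rw [hgk k hk, Polynomial.natDegree_C]; exact Nat.zero_le _)
    rwa [mul_one] at this
  · intro t
    rw [hev, hder]

theorem poly_cube_eq {d : ℕ} (j : ℕ) (k : Fin d → ℤ) :
    cube j k = Set.univ.pi (fun i => Set.Ico ((k i : ℝ) / 2 ^ j) ((k i : ℝ) / 2 ^ j + 1 / 2 ^ j)) := by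
  ext x
  simp only [cube, Set.mem_ofPred_eq, Set.mem_univ_pi, Set.mem_Ico, add_div]

/-- (P1) Remez type inequality, polynomials of bounded total degree on dyadic cubes. -/
theorem remez (d D : ℕ) (η : ℝ) (hη : 0 < η) : ∃ ε : ℝ, 0 < ε ∧
    ∀ p : MvPolynomial (Fin d) ℝ, p.totalDegree ≤ D → ∀ (j : ℕ) (k : Fin d → ℤ),
      (∃ x ∈ cube j k, 1 ≤ |eval x p|) →
      volume {x | x ∈ cube j k ∧ |eval x p| < ε} ≤ ENNReal.ofReal η * volume (cube j k) := by
  obtain ⟨ε, hε, h⟩ := poly_remez_aux D d η hη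
  refine ⟨ε, hε, ?_⟩
  intro p hp j k hx
  have hsep : PolySep D (fun x => eval x p) := by
    refine ⟨MvPolynomial.continuous_eval p, ?_⟩
    intro x i
    obtain ⟨q, hq, hq1, _⟩ := poly_line p x i
    exact ⟨q, hq.trans hp, hq1⟩
  have := h _ hsep (fun i => (k i : ℝ) / 2 ^ j) (1 / 2 ^ j) (by positivity) (by
    rw [← poly_cube_eq]; exact hx)
  rw [← poly_cube_eq] at this
  rw [poly_cube_eq, poly_box_volume, ← poly_cube_eq]
  exact this

/-- One-dimensional Markov inequality. -/
theorem poly_markov_one (D : ℕ) (q : Polynomial ℝ) (hq : q.natDegree ≤ D) (a ρ S : ℝ) (hρ : 0 < ρ)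
    (hS : ∀ x ∈ Set.Ico a (a + ρ), |q.eval x| ≤ S) (t : ℝ) (ht : t ∈ Set.Ico a (a + ρ)) :
    |q.derivative.eval t| ≤ (D + 1) ^ (D + 3) * (S / ρ) := by
  classical
  have hS0 : 0 ≤ S := (abs_nonneg _).trans (hS t ht)
  set δ : ℝ := ρ / (D + 1) with hδ
  have hδpos : 0 < δ := by positivity
  set v : ℕ → ℝ := fun n => a + δ * n with hv
  have hvI : ∀ n ∈ Finset.range (D + 1), v n ∈ Set.Ico a (a + ρ) := by
    intro n hn
    have hn' : (n : ℝ) < D + 1 := by exact_mod_cast Finset.mem_range.mp hn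
    refine ⟨by simp only [hv]; nlinarith [Nat.cast_nonneg (α := ℝ) n], ?_⟩
    have : δ * n < ρ := by
      calc δ * n < δ * (D + 1) := by gcongr
        _ = ρ := by rw [hδ]; field_simp
    simp only [hv]; linarith
  have hvd : ∀ n m : ℕ, n ≠ m → δ ≤ |v n - v m| := by
    intro n m hnm
    have h1 : v n - v m = δ * ((n : ℤ) - (m : ℤ) : ℤ) := by
      simp only [hv]; push_cast; ring
    rw [h1, abs_mul, abs_of_pos hδpos]
    refine le_mul_of_one_le_right hδpos.le ?_
    rw [← Int.cast_abs]
    have : (1 : ℤ) ≤ |(n : ℤ) - (m : ℤ)| := Int.one_le_abs (by omega)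
    exact_mod_cast this
  have hinj : Set.InjOn v (Finset.range (D + 1)) := by
    intro n _ m _ h
    by_contra hnm
    have := hvd n m hnm
    rw [h, sub_self, abs_zero] at this
    linarith
  have hdeg : q.degree < (Finset.range (D + 1)).card := by
    rw [Finset.card_range]
    refine lt_of_le_of_lt Polynomial.degree_le_natDegree ?_
    exact_mod_cast Nat.lt_succ_of_le hq
  have hint := Lagrange.eq_interpolate (s := Finset.range (D + 1)) (v := v) (f := q) hinj hdeg
  have hR1 : 1 ≤ ρ / δ := by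
    rw [hδ]
    have : ρ / (ρ / ((D : ℝ) + 1)) = D + 1 := by field_simp
    rw [this]
    linarith [Nat.cast_nonneg (α := ℝ) D]
  have hfac : ∀ i ∈ Finset.range (D + 1), ∀ j ∈ Finset.range (D + 1), i ≠ j →
      |(Lagrange.basisDivisor (v i) (v j)).eval t| ≤ ρ / δ := by
    intro i _ j hj hij
    simp only [Lagrange.basisDivisor, Polynomial.eval_mul, Polynomial.eval_C,
      Polynomial.eval_sub, Polynomial.eval_X, abs_mul, abs_inv]
    rw [mul_comm, ← div_eq_mul_inv]
    refine div_le_div₀ hρ.le ?_ hδpos (hvd i j hij)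
    have := hvI j hj
    rw [abs_le]
    constructor <;> linarith [this.1, this.2, ht.1, ht.2]
  have hbas : ∀ i ∈ Finset.range (D + 1),
      |(Polynomial.derivative (Lagrange.basis (Finset.range (D + 1)) v i)).eval t| ≤
        D * ((ρ / δ) ^ D * (1 / δ)) := by
    intro i hi
    rw [Lagrange.basis, Polynomial.derivative_prod_finset, Polynomial.eval_finsetSum]
    have hcard : (D : ℝ) = ((Finset.range (D + 1)).erase i).card := by
      rw [Finset.card_erase_of_mem hi, Finset.card_range]; simp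
    refine (Finset.abs_sum_le_sum_abs _ _).trans ?_
    rw [hcard, ← nsmul_eq_mul, ← Finset.sum_const]
    refine Finset.sum_le_sum fun j hj => ?_
    rw [Polynomial.eval_mul, abs_mul, Polynomial.eval_prod, Finset.abs_prod]
    have hji : i ≠ j := fun h => (Finset.mem_erase.mp hj).1 h.symm
    have hjs := Finset.mem_of_mem_erase hj
    refine mul_le_mul ?_ ?_ (abs_nonneg _) (by positivity)
    · calc ∏ l ∈ ((Finset.range (D + 1)).erase i).erase j,
            |(Lagrange.basisDivisor (v i) (v l)).eval t|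
          ≤ ∏ l ∈ ((Finset.range (D + 1)).erase i).erase j, ρ / δ := by
            refine Finset.prod_le_prod (fun _ _ => abs_nonneg _) ?_
            intro l hl
            have hl1 := Finset.mem_of_mem_erase hl
            exact hfac i hi l (Finset.mem_of_mem_erase hl1)
              (fun h => (Finset.mem_erase.mp hl1).1 h.symm)
        _ = (ρ / δ) ^ (((Finset.range (D + 1)).erase i).erase j).card := Finset.prod_const _
        _ ≤ (ρ / δ) ^ ((Finset.range (D + 1)).erase i).card :=
            pow_le_pow_right₀ hR1 (Finset.card_le_card (Finset.erase_subset _ _))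
        _ = (ρ / δ) ^ D := by
            rw [Finset.card_erase_of_mem hi, Finset.card_range]; simp
    · simp only [Lagrange.basisDivisor, Polynomial.derivative_mul, Polynomial.derivative_C,
        zero_mul, zero_add, Polynomial.derivative_sub, Polynomial.derivative_X, sub_zero, mul_one,
        Polynomial.eval_C, abs_inv, one_div]
      exact inv_anti₀ hδpos (hvd i j hji)
  have hval : q.derivative.eval t = ∑ i ∈ Finset.range (D + 1), q.eval (v i) *
      (Polynomial.derivative (Lagrange.basis (Finset.range (D + 1)) v i)).eval t := by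
    conv_lhs => rw [hint]
    rw [Lagrange.interpolate_apply, Polynomial.derivative_sum, Polynomial.eval_finsetSum]
    refine Finset.sum_congr rfl fun i _ => ?_
    simp [Polynomial.derivative_mul]
  rw [hval]
  have hRD : ρ / δ = (D + 1 : ℝ) := by rw [hδ]; field_simp
  calc |∑ i ∈ Finset.range (D + 1), q.eval (v i) *
      (Polynomial.derivative (Lagrange.basis (Finset.range (D + 1)) v i)).eval t|
      ≤ ∑ i ∈ Finset.range (D + 1), S * (D * ((ρ / δ) ^ D * (1 / δ))) := by
        refine (Finset.abs_sum_le_sum_abs _ _).trans (Finset.sum_le_sum fun i hi => ?_)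
        rw [abs_mul]
        exact mul_le_mul (hS _ (hvI i hi)) (hbas i hi) (abs_nonneg _) hS0
    _ = (D + 1) * D * (D + 1) ^ D * (D + 1) * (S / ρ) := by
        rw [Finset.sum_const, Finset.card_range, nsmul_eq_mul, hRD, hδ]
        push_cast
        field_simp
    _ ≤ (D + 1) * (D + 1) * (D + 1) ^ D * (D + 1) * (S / ρ) := by
        gcongr
        linarith
    _ = (D + 1) ^ (D + 3) * (S / ρ) := by ring

/-- (P2) Markov type inequality. -/
theorem markov (d D : ℕ) : ∃ C : ℝ, 1 ≤ C ∧
    ∀ p : MvPolynomial (Fin d) ℝ, p.totalDegree ≤ D → ∀ (j : ℕ) (k : Fin d → ℤ) (S : ℝ),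
      (∀ x ∈ cube j k, |eval x p| ≤ S) →
      ∀ i, ∀ x ∈ cube j k, |eval x (pderiv i p)| ≤ C * 2 ^ j * S := by
  refine ⟨((D : ℝ) + 1) ^ (D + 3), one_le_pow₀ (by linarith [Nat.cast_nonneg (α := ℝ) D]), ?_⟩
  intro p hp j k S hS i x hx
  obtain ⟨q, hq, hq1, hq2⟩ := poly_line p x i
  have hself : Function.update x i (x i) = x := Function.update_eq_self i x
  have hmem : ∀ t ∈ Set.Ico ((k i : ℝ) / 2 ^ j) ((k i : ℝ) / 2 ^ j + 1 / 2 ^ j),
      Function.update x i t ∈ cube j k := by
    intro t ht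
    rw [poly_cube_eq] at hx ⊢
    intro l _
    by_cases hl : l = i
    · subst hl
      rw [Function.update_self]
      exact ht
    · rw [Function.update_of_ne hl]
      exact hx l trivial
  have h := poly_markov_one D q (hq.trans hp) ((k i : ℝ) / 2 ^ j) (1 / 2 ^ j) S (by positivity)
    (fun t ht => by
      rw [← hq1 t]
      exact hS _ (hmem t ht)) (x i) (by
      rw [poly_cube_eq] at hx
      exact hx i trivial)
  rw [← hq2, hself] at h
  refine h.trans (le_of_eq ?_)
  field_simp

end Pool.Agent.Lib.MP_a37012_nt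
end

section

set_option autoImplicit false

open MvPolynomial

namespace Pool.Agent.Lib.MP_a37012_nt

theorem xds_markov (d D : ℕ) : ∃ K : ℝ, 1 ≤ K ∧ ∀ c : Fin d → Fin d → ℝ, (∀ a b, |c a b| ≤ 1) →
    ∀ p : MvPolynomial (Fin d) ℝ, p.totalDegree ≤ D → ∀ (j : ℕ) (k : Fin d → ℤ) (S : ℝ),
      (∀ x ∈ cube j k, |eval x p| ≤ S) → ∀ J : List (Fin d), ∀ x ∈ cube j k,
        |eval x (xds c J p)| ≤ (K * 2 ^ j) ^ J.length * S := by
  obtain ⟨K, hK, hmar⟩ := markov d D
  refine ⟨(d + 1) * K, by nlinarith [(Nat.cast_nonneg d : (0 : ℝ) ≤ d)], ?_⟩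
  intro c hc p hp j k S hS J
  induction J with
  | nil => intro x hx; simpa [xds] using hS x hx
  | cons a J ih =>
    intro x hx
    have hS0 : 0 ≤ S := (abs_nonneg _).trans (hS x hx)
    have h1 := hmar (xds c J p) ((totalDegree_xds_le c J p).trans hp) j k _ ih
    simp only [xds, xd, map_sum]
    have h2 : ∀ b ∈ Finset.univ, |eval x (C (c a b) * pderiv b (xds c J p))| ≤
        K * 2 ^ j * (((d + 1) * K * 2 ^ j) ^ J.length * S) := by
      intro b _
      rw [map_mul, eval_C, abs_mul]
      calc |c a b| * |eval x (pderiv b (xds c J p))| ≤ 1 * |eval x (pderiv b (xds c J p))| := by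
            gcongr; exact hc a b
        _ ≤ _ := by rw [one_mul]; exact h1 b x hx
    calc |∑ b, eval x (C (c a b) * pderiv b (xds c J p))|
        ≤ ∑ b, |eval x (C (c a b) * pderiv b (xds c J p))| := Finset.abs_sum_le_sum_abs _ _
      _ ≤ ∑ _b : Fin d, K * 2 ^ j * (((d + 1) * K * 2 ^ j) ^ J.length * S) :=
          Finset.sum_le_sum h2
      _ = d * (K * 2 ^ j * (((d + 1) * K * 2 ^ j) ^ J.length * S)) := by
          rw [Finset.sum_const, Finset.card_univ, Fintype.card_fin, nsmul_eq_mul]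
      _ ≤ (d + 1) * (K * 2 ^ j * (((d + 1) * K * 2 ^ j) ^ J.length * S)) := by
          gcongr; linarith
      _ = _ := by rw [List.length_cons, pow_succ]; ring

section algebra

variable {d : ℕ} (c : Fin d → Fin d → ℝ) {σ : Type} [Fintype σ]
  (u : σ → Fin d) (hu : Function.Injective u) (γ : σ → MvPolynomial (Fin d) ℝ)
  (hX : ∀ b s, xd c b (γ s) = if b = u s then 1 else 0)

include hX

include hu in
theorem xds_euler (g : MvPolynomial (Fin d) ℝ) (J : List (Fin d)) (hJ : ∀ a ∈ J, ∃ s, a = u s) :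
    xds c J (∑ s, γ s * xd c (u s) g) =
      (J.length : MvPolynomial (Fin d) ℝ) * xds c J g +
        ∑ s, γ s * xd c (u s) (xds c J g) := by
  classical
  induction J with
  | nil => simp [xds]
  | cons a J ih =>
    have ih' := ih fun b hb => hJ b (List.mem_cons_of_mem _ hb)
    obtain ⟨s₀, rfl⟩ := hJ a List.mem_cons_self
    have hnat : ∀ (n : ℕ) (p : MvPolynomial (Fin d) ℝ),
        xd c (u s₀) ((n : MvPolynomial (Fin d) ℝ) * p) = n * xd c (u s₀) p := by
      intro n p
      have : (n : MvPolynomial (Fin d) ℝ) = C (n : ℝ) := by simp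
      rw [this, xd_C_mul]
    simp only [xds]
    rw [ih', xd_add, hnat, xd_sum]
    have h1 : ∀ s ∈ Finset.univ, xd c (u s₀) (γ s * xd c (u s) (xds c J g)) =
        (if s = s₀ then xd c (u s) (xds c J g) else 0) +
          γ s * xd c (u s) (xd c (u s₀) (xds c J g)) := by
      intro s _
      rw [xd_mul, hX, xd_comm c c (u s₀) (u s)]
      by_cases h : s = s₀
      · subst h; simp
      · have : ¬ u s₀ = u s := fun h' => h (hu h').symm
        simp [h, this]
    rw [Finset.sum_congr rfl h1, Finset.sum_add_distrib, Finset.sum_ite_eq' Finset.univ s₀,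
      if_pos (Finset.mem_univ _), List.length_cons]
    push_cast
    ring

omit [Fintype σ] in
theorem xds_prod (s : σ) (h : MvPolynomial (Fin d) ℝ) (J : List (Fin d)) :
    ∃ n : ℕ, xds c J (xd c (u s) (γ s * h)) =
      ((1 + n : ℕ) : MvPolynomial (Fin d) ℝ) * xds c J h + γ s * xds c J (xd c (u s) h) := by
  induction J with
  | nil =>
    refine ⟨0, ?_⟩
    simp [xds, xd_mul, hX]
  | cons b J ih =>
    obtain ⟨n, hn⟩ := ih
    have hnat : ∀ (n : ℕ) (p : MvPolynomial (Fin d) ℝ),
        xd c b ((n : MvPolynomial (Fin d) ℝ) * p) = n * xd c b p := by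
      intro n p
      have : (n : MvPolynomial (Fin d) ℝ) = C (n : ℝ) := by simp
      rw [this, xd_C_mul]
    by_cases hb : b = u s
    · refine ⟨n + 1, ?_⟩
      simp only [xds]
      rw [hn, xd_add, hnat, xd_mul, hX, if_pos hb, one_mul, xds_xd c c J (u s) h, ← hb]
      push_cast
      ring
    · refine ⟨n, ?_⟩
      simp only [xds]
      rw [hn, xd_add, hnat, xd_mul, hX, if_neg hb, zero_mul, zero_add]

end algebra

/-- The coefficient matrix of the fields adapted to the directions `u`. -/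
noncomputable def cfield {d : ℕ} {σ : Type} [Fintype σ] (u : σ → Fin d) (r : Fin d → σ → ℝ)
    (a b : Fin d) : ℝ :=
  (if a = b then 1 else 0) -
    if ∃ s, a = u s then 0 else ∑ s, if b = u s then r a s else 0

section fields

variable {d : ℕ} {σ : Type} [Fintype σ] [DecidableEq σ] (u : σ → Fin d)
  (hu : Function.Injective u) (r : Fin d → σ → ℝ) (hr1 : ∀ b s, |r b s| ≤ 1) (hr : ∀ s s', r (u s') s = if s' = s then 1 else 0)

omit [DecidableEq σ] in
include hu in
theorem sum_ite_u (s₀ : σ) (f : σ → ℝ) :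
    (∑ s, if u s₀ = u s then f s else 0) = f s₀ := by
  rw [Finset.sum_eq_single s₀]
  · simp
  · intro s _ hs
    rw [if_neg fun h => hs (hu h).symm]
  · simp

omit [DecidableEq σ] in
include hu hr1 in
theorem cfield_abs (a b : Fin d) : |cfield u r a b| ≤ 1 := by
  unfold cfield
  by_cases ha : ∃ s, a = u s
  · rw [if_pos ha]
    split_ifs <;> simp
  · rw [if_neg ha]
    by_cases hb : ∃ s, b = u s
    · obtain ⟨s₀, rfl⟩ := hb
      rw [if_neg fun h => ha ⟨s₀, h⟩, zero_sub, abs_neg, sum_ite_u u hu s₀]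
      exact hr1 a s₀
    · rw [Finset.sum_eq_zero fun s _ => if_neg fun h => hb ⟨s, h⟩]
      split_ifs <;> simp

omit [DecidableEq σ] in
theorem xd_cfield_u (s : σ) (p : MvPolynomial (Fin d) ℝ) :
    xd (cfield u r) (u s) p = pderiv (u s) p := by
  rw [← xd_one (u s) p]
  unfold xd cfield
  refine Finset.sum_congr rfl fun b _ => ?_
  rw [if_pos (⟨s, rfl⟩ : ∃ s', u s = u s'), sub_zero]

omit [DecidableEq σ] in
theorem xd_cfield_ne (a : Fin d) (ha : ¬ ∃ s, a = u s) (p : MvPolynomial (Fin d) ℝ) :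
    xd (cfield u r) a p = pderiv a p - ∑ s, C (r a s) * pderiv (u s) p := by
  rw [← xd_one a p]
  have h1 : ∀ b, C (cfield u r a b) * pderiv b p =
      C (if a = b then (1 : ℝ) else 0) * pderiv b p -
        ∑ s, C (if b = u s then r a s else 0) * pderiv b p := by
    intro b
    unfold cfield
    rw [if_neg ha, C_sub, sub_mul, map_sum, Finset.sum_mul]
  unfold xd
  rw [Finset.sum_congr rfl fun b _ => h1 b, Finset.sum_sub_distrib, Finset.sum_comm]
  congr 1
  refine Finset.sum_congr rfl fun s _ => ?_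
  rw [Finset.sum_eq_single (u s)]
  · simp
  · intro b _ hb
    simp [hb]
  · simp

include hu hr in
theorem xd_cfield_gamma (γ : σ → MvPolynomial (Fin d) ℝ)
    (hγ : ∀ b s, pderiv b (γ s) = C (r b s)) (b : Fin d) (s : σ) :
    xd (cfield u r) b (γ s) = if b = u s then 1 else 0 := by
  by_cases hb : ∃ s', b = u s'
  · obtain ⟨s', rfl⟩ := hb
    rw [xd_cfield_u, hγ, hr]
    by_cases h : s' = s
    · simp [h]
    · rw [if_neg h, if_neg fun h' => h (hu h'), C_0]
  · rw [xd_cfield_ne u r b hb, hγ, if_neg fun h => hb ⟨s, h⟩,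
      Finset.sum_eq_single s]
    · rw [hγ, hr, if_pos rfl]
      simp
    · intro s' _ hs'
      rw [hγ, hr, if_neg hs']
      simp
    · simp

omit [DecidableEq σ] in
include hu hr1 in
theorem cfield_inv : ∃ t : Fin d → Fin d → ℝ, (∀ a b, |t a b| ≤ 1) ∧
    ∀ a b, (if a = b then (1 : ℝ) else 0) = ∑ e, t a e * cfield u r e b := by
  refine ⟨fun a e => if ∃ s, a = u s then (if a = e then 1 else 0)
    else (if a = e then 1 else 0) + ∑ s, if e = u s then r a s else 0, ?_, ?_⟩
  · intro a b
    by_cases ha : ∃ s, a = u s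
    · simp only [if_pos ha]
      split_ifs <;> simp
    · simp only [if_neg ha]
      by_cases hb : ∃ s, b = u s
      · obtain ⟨s₀, rfl⟩ := hb
        rw [if_neg fun h => ha ⟨s₀, h⟩, zero_add, sum_ite_u u hu s₀]
        exact hr1 a s₀
      · rw [Finset.sum_eq_zero fun s _ => if_neg fun h => hb ⟨s, h⟩]
        split_ifs <;> simp
  · intro a b
    have hcu : ∀ s, cfield u r (u s) b = if u s = b then 1 else 0 := by
      intro s
      unfold cfield
      rw [if_pos (⟨s, rfl⟩ : ∃ s', u s = u s'), sub_zero]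
    by_cases ha : ∃ s, a = u s
    · simp only [if_pos ha]
      obtain ⟨s₀, rfl⟩ := ha
      rw [Finset.sum_eq_single (u s₀)]
      · rw [if_pos rfl, one_mul, hcu]
      · intro e _ he
        simp [Ne.symm he]
      · simp
    · simp only [if_neg ha, add_mul, Finset.sum_add_distrib, Finset.sum_mul]
      rw [Finset.sum_comm]
      have h1 : ∀ s, (∑ e, (if e = u s then r a s else 0) * cfield u r e b) =
          if b = u s then r a s else 0 := by
        intro s
        rw [Finset.sum_eq_single (u s)]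
        · rw [if_pos rfl, hcu]
          by_cases h : u s = b
          · simp [h]
          · simp [h, Ne.symm h]
        · intro e _ he
          simp [he]
        · simp
      rw [Finset.sum_congr rfl fun s _ => h1 s, Finset.sum_eq_single a]
      · rw [if_pos rfl, one_mul]
        unfold cfield
        rw [if_neg ha]
        simp only [sub_add_cancel]
      · intro e _ he
        simp [Ne.symm he]
      · simp

end fields

/-- The core lower bound for the mixed minors. -/
theorem core (d D l : ℕ) (M c₀ : ℝ) (hM : 0 < M) (hc₀ : 0 < c₀) :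
    ∃ A₀ κ : ℝ, 1 ≤ A₀ ∧ 0 < κ ∧ ∀ (j : ℕ) (k : Fin d → ℤ) (xc : Fin d → ℝ), xc ∈ cube j k →
      ∀ (σ : Type) [Fintype σ] [DecidableEq σ] [Nonempty σ] (u : σ → Fin d),
      Function.Injective u → ∀ (r : Fin d → σ → ℝ) (γ : σ → MvPolynomial (Fin d) ℝ),
      (∀ b s, |r b s| ≤ 1) → (∀ s s', r (u s') s = if s' = s then 1 else 0) →
      (∀ b s, pderiv b (γ s) = C (r b s)) → (∀ s, (γ s).totalDegree ≤ 1) →
      ∀ g : MvPolynomial (Fin d) ℝ, g.totalDegree ≤ D → ∀ Z A S : ℝ, 0 ≤ Z → A₀ ≤ A →
      (∀ I : List (Fin d), 2 ≤ I.length → I.length ≤ l + 1 → |eval xc (mpds I g)| ≤ M * Z) →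
      (∃ I : List (Fin d), 2 ≤ I.length ∧ I.length ≤ l ∧ c₀ * Z ≤ |eval xc (mpds I g)|) →
      (∀ s, |eval xc (γ s)| ≤ 1 / A) →
      (∀ x ∈ cube j k, |eval x (g - ∑ s, γ s * pderiv (u s) g)| ≤ S) →
      (∀ x ∈ cube j k, ∀ s a, |r a s * eval x (g - ∑ s', γ s' * pderiv (u s') g) -
        eval x (γ s) * eval x (pderiv a g - ∑ s', C (r a s') * pderiv (u s') g)| ≤ S) →
      κ * Z * ((1 : ℝ) / 2 ^ j) ^ l ≤ S := by
  obtain ⟨K, hK, hmar⟩ := xds_markov d (D + 1)
  set c₁ : ℝ := c₀ / (2 * (d + 1) ^ l) with hc₁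
  have hc₁0 : 0 < c₁ := by positivity
  set A₀ : ℝ := max 1 (2 * d * (d + 1) ^ (l + 1) * M / c₁) with hA₀
  refine ⟨A₀, c₁ / (4 * K ^ l), le_max_left _ _, by positivity, ?_⟩
  intro j k xc hxc σ _ _ _ u hu r γ hr1 hr hγ hγd g hg Z A S hZ hA hMI hI hγA hE hF
  have hA1 : 1 ≤ A := (le_max_left _ _).trans hA
  have hApos : 0 < A := by linarith
  have hS0 : 0 ≤ S := (abs_nonneg _).trans (hE xc hxc)
  rcases hZ.eq_or_lt with hZ0 | hZpos
  · rw [← hZ0]; simpa using hS0
  -- the fields
  set c := cfield u r with hc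
  have hcabs := cfield_abs u hu r hr1
  have hX := xd_cfield_gamma u hu r hr γ hγ
  have hdcard : (Fintype.card σ : ℝ) ≤ d := by
    have := Fintype.card_le_of_injective u hu
    rw [Fintype.card_fin] at this
    exact_mod_cast this
  -- some derivative along the fields is large
  obtain ⟨I, hI2, hIl, hIc⟩ := hI
  have hexJ : ∃ J : List (Fin d), J.length = I.length ∧ c₁ * Z < |eval xc (xds c J g)| := by
    by_contra hcon
    push Not at hcon
    obtain ⟨t, ht1, ht2⟩ := cfield_inv u hu r hr1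
    have h1 := xds_compare c (fun a b => if a = b then 1 else 0) t ht1 ht2 xc I g (c₁ * Z) hcon
    rw [xds_one] at h1
    have h2 : (d : ℝ) ^ I.length ≤ (d + 1) ^ l := by
      calc (d : ℝ) ^ I.length ≤ (d + 1) ^ I.length := by gcongr; linarith
        _ ≤ (d + 1) ^ l := pow_le_pow_right₀ (by linarith [(Nat.cast_nonneg d : (0 : ℝ) ≤ d)]) hIl
    have h3 : (d : ℝ) ^ I.length * (c₁ * Z) ≤ c₀ * Z / 2 := by
      calc (d : ℝ) ^ I.length * (c₁ * Z) ≤ (d + 1) ^ l * (c₁ * Z) := by gcongr
        _ = c₀ * Z / 2 := by rw [hc₁]; field_simp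
    have h4 : 0 < c₀ * Z := by positivity
    linarith
  obtain ⟨J, hJlen, hJ⟩ := hexJ
  -- upper bounds for the derivatives
  have hupper : ∀ J' : List (Fin d), 2 ≤ J'.length → J'.length ≤ l + 1 →
      |eval xc (xds c J' g)| ≤ (d + 1) ^ (l + 1) * (M * Z) := by
    intro J' h2 h3
    have h1 := xds_compare (fun a b => if a = b then (1 : ℝ) else 0) c c hcabs
      (fun a b => by simp) xc J' g (M * Z) (fun J'' hJ'' => by
        rw [xds_one]
        exact hMI J'' (by omega) (by omega))
    refine h1.trans ?_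
    have h4 : (d : ℝ) ^ J'.length ≤ (d + 1) ^ (l + 1) := by
      calc (d : ℝ) ^ J'.length ≤ (d + 1) ^ J'.length := by gcongr; linarith
        _ ≤ (d + 1) ^ (l + 1) :=
          pow_le_pow_right₀ (by linarith [(Nat.cast_nonneg d : (0 : ℝ) ≤ d)]) h3
    gcongr
  have hAbig : d * ((1 / A) * ((d + 1) ^ (l + 1) * (M * Z))) ≤ c₁ * Z / 2 := by
    have h1 : 2 * d * (d + 1) ^ (l + 1) * M / c₁ ≤ A := (le_max_right _ _).trans hA
    rw [div_le_iff₀ hc₁0] at h1
    have h2 : d * ((1 / A) * ((d + 1) ^ (l + 1) * (M * Z))) =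
        (2 * d * (d + 1) ^ (l + 1) * M) * Z / (2 * A) := by
      field_simp
    rw [h2, div_le_iff₀ (by positivity)]
    calc (2 * d * (d + 1) ^ (l + 1) * M) * Z ≤ (A * c₁) * Z := by gcongr
      _ = c₁ * Z / 2 * (2 * A) := by ring
  have hone : (1 : ℝ) ≤ K * 2 ^ j := by
    have : (1 : ℝ) ≤ 2 ^ j := one_le_pow₀ (by norm_num)
    nlinarith
  have hfin : ∀ T : ℝ, c₁ * Z / 2 ≤ T → T ≤ (K * 2 ^ j) ^ J.length * (2 * S) →
      c₁ / (4 * K ^ l) * Z * ((1 : ℝ) / 2 ^ j) ^ l ≤ S := by
    intro T hT1 hT2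
    have h1 : (K * 2 ^ j) ^ J.length ≤ (K * 2 ^ j) ^ l :=
      pow_le_pow_right₀ hone (by omega)
    have h2 : c₁ * Z / 2 ≤ (K * 2 ^ j) ^ l * (2 * S) :=
      hT1.trans (hT2.trans (by gcongr))
    have h3 : (0 : ℝ) < (K * 2 ^ j) ^ l := by positivity
    have h4 : c₁ / (4 * K ^ l) * Z * ((1 : ℝ) / 2 ^ j) ^ l = (c₁ * Z / 2) / (2 * (K * 2 ^ j) ^ l) := by
      rw [mul_pow, one_div, inv_pow]
      field_simp
      ring
    rw [h4, div_le_iff₀ (by positivity)]
    linarith
  by_cases hall : ∀ a ∈ J, ∃ s, a = u s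
  · -- all directions are among the `u s`
    have hEeq : g - ∑ s, γ s * pderiv (u s) g = g - ∑ s, γ s * xd c (u s) g := by
      congr 1
      exact Finset.sum_congr rfl fun s _ => by rw [hc, xd_cfield_u]
    have hEdeg : (g - ∑ s, γ s * pderiv (u s) g).totalDegree ≤ D + 1 := by
      refine (totalDegree_sub _ _).trans (max_le (hg.trans (Nat.le_succ D)) ?_)
      refine (totalDegree_finsetSum _ _).trans (Finset.sup_le fun s _ => ?_)
      refine (totalDegree_mul _ _).trans ?_
      have := hγd s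
      have := (totalDegree_pderiv_le (u s) g).trans hg
      omega
    have h1 := hmar c hcabs _ hEdeg j k S hE J xc hxc
    have h2 : xds c J (g - ∑ s, γ s * pderiv (u s) g) =
        (1 - (J.length : MvPolynomial (Fin d) ℝ)) * xds c J g -
          ∑ s, γ s * xds c (u s :: J) g := by
      rw [hEeq, xds_sub, xds_euler c u hu γ hX g J hall]
      simp only [xds]
      ring
    rw [h2, map_sub, map_mul, map_sum] at h1
    have h3 : |∑ s, eval xc (γ s * xds c (u s :: J) g)| ≤ c₁ * Z / 2 := by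
      calc |∑ s, eval xc (γ s * xds c (u s :: J) g)|
          ≤ ∑ s, |eval xc (γ s * xds c (u s :: J) g)| := Finset.abs_sum_le_sum_abs _ _
        _ ≤ ∑ _s : σ, (1 / A) * ((d + 1) ^ (l + 1) * (M * Z)) := by
            refine Finset.sum_le_sum fun s _ => ?_
            rw [map_mul, abs_mul]
            exact mul_le_mul (hγA s) (hupper _ (by simp; omega) (by simp; omega))
              (abs_nonneg _) (by positivity)
        _ = Fintype.card σ * ((1 / A) * ((d + 1) ^ (l + 1) * (M * Z))) := by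
            rw [Finset.sum_const, Finset.card_univ, nsmul_eq_mul]
        _ ≤ d * ((1 / A) * ((d + 1) ^ (l + 1) * (M * Z))) := by gcongr
        _ ≤ _ := hAbig
    have h4 : c₁ * Z ≤ |eval xc (1 - (J.length : MvPolynomial (Fin d) ℝ)) * eval xc (xds c J g)| := by
      rw [abs_mul]
      have h5 : (1 : ℝ) ≤ |eval xc (1 - (J.length : MvPolynomial (Fin d) ℝ))| := by
        rw [map_sub, map_one, map_natCast, abs_sub_comm, abs_of_nonneg]
        · have : (2 : ℝ) ≤ J.length := by rw [hJlen]; exact_mod_cast hI2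
          linarith
        · have : (2 : ℝ) ≤ J.length := by rw [hJlen]; exact_mod_cast hI2
          linarith
      calc c₁ * Z ≤ 1 * |eval xc (xds c J g)| := by rw [one_mul]; exact hJ.le
        _ ≤ _ := by gcongr
    have h6 : c₁ * Z / 2 ≤ |eval xc (1 - (J.length : MvPolynomial (Fin d) ℝ)) *
        eval xc (xds c J g) - ∑ s, eval xc (γ s * xds c (u s :: J) g)| := by
      have := abs_sub_abs_le_abs_sub (eval xc (1 - (J.length : MvPolynomial (Fin d) ℝ)) *
        eval xc (xds c J g)) (∑ s, eval xc (γ s * xds c (u s :: J) g))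
      linarith
    refine hfin _ h6 (h1.trans ?_)
    gcongr
    linarith
  · -- some direction is not among the `u s`
    push Not at hall
    obtain ⟨a, haJ, hau⟩ := hall
    have hau' : ¬ ∃ s, a = u s := fun ⟨s, h⟩ => hau s h
    obtain ⟨J', hJ'⟩ : ∃ J', J.Perm (a :: J') := ⟨J.erase a, List.perm_cons_erase haJ⟩
    have hlen : J'.length + 1 = J.length := by rw [hJ'.length_eq]; rfl
    obtain ⟨s⟩ := (inferInstance : Nonempty σ)
    set h := xd c a g with hh
    have hhdeg : (γ s * h).totalDegree ≤ D + 1 := by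
      refine (totalDegree_mul _ _).trans ?_
      have h1 := hγd s
      have h2 : h.totalDegree ≤ D := (totalDegree_xd_le c a g).trans hg
      omega
    have hb : ∀ x ∈ cube j k, |eval x (γ s * h)| ≤ 2 * S := by
      intro x hx
      have h1 := hE x hx
      have h2 := hF x hx s a
      have h3 : eval x (γ s) * eval x (pderiv a g - ∑ s', C (r a s') * pderiv (u s') g) =
          eval x (γ s * h) := by
        rw [map_mul, hh, hc, xd_cfield_ne u r a hau']
      rw [h3] at h2
      have h4 : |r a s * eval x (g - ∑ s', γ s' * pderiv (u s') g)| ≤ S := by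
        rw [abs_mul]
        calc |r a s| * _ ≤ 1 * |eval x (g - ∑ s', γ s' * pderiv (u s') g)| := by
              gcongr; exact hr1 a s
          _ ≤ S := by rw [one_mul]; exact h1
      have h5 := abs_sub_abs_le_abs_sub (eval x (γ s * h))
        (r a s * eval x (g - ∑ s', γ s' * pderiv (u s') g))
      rw [abs_sub_comm] at h5
      linarith
    have h1 := hmar c hcabs _ hhdeg j k (2 * S) hb (J' ++ [u s]) xc hxc
    have h2 : xds c (J' ++ [u s]) (γ s * h) = xds c J' (xd c (u s) (γ s * h)) := by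
      clear_value h
      clear h1 hb hhdeg hlen hJ'
      induction J' with
      | nil => rfl
      | cons b J' ih => simp only [List.cons_append, xds]; rw [ih]
    obtain ⟨n, hn⟩ := xds_prod c u γ hX s h J'
    have h3 : xds c J' h = xds c J g := by
      rw [xds_perm c hJ', hh, xds_xd]; rfl
    have h4 : xds c J' (xd c (u s) h) = xds c (u s :: J) g := by
      rw [xds_xd, h3]; rfl
    rw [h2, hn, h3, h4, map_add, map_mul, map_mul] at h1
    have h5 : |eval xc (γ s) * eval xc (xds c (u s :: J) g)| ≤ c₁ * Z / 2 := by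
      rw [abs_mul]
      calc |eval xc (γ s)| * |eval xc (xds c (u s :: J) g)|
          ≤ (1 / A) * ((d + 1) ^ (l + 1) * (M * Z)) :=
            mul_le_mul (hγA s) (hupper _ (by simp; omega) (by simp; omega))
              (abs_nonneg _) (by positivity)
        _ ≤ d * ((1 / A) * ((d + 1) ^ (l + 1) * (M * Z))) := by
            have hd1 : (1 : ℝ) ≤ d := by
              have : 0 < d := Fin.pos (u s)
              exact_mod_cast this
            have : 0 ≤ (1 / A) * (((d : ℝ) + 1) ^ (l + 1) * (M * Z)) := by positivity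
            nlinarith
        _ ≤ _ := hAbig
    have h6 : c₁ * Z ≤ |eval xc (((1 + n : ℕ) : MvPolynomial (Fin d) ℝ)) * eval xc (xds c J g)| := by
      rw [abs_mul, map_natCast, Nat.abs_cast]
      have h7 : (1 : ℝ) ≤ ((1 + n : ℕ) : ℝ) := by exact_mod_cast Nat.le_add_right 1 n
      calc c₁ * Z ≤ 1 * |eval xc (xds c J g)| := by rw [one_mul]; exact hJ.le
        _ ≤ _ := by gcongr
    have h8 : c₁ * Z / 2 ≤ |eval xc (((1 + n : ℕ) : MvPolynomial (Fin d) ℝ)) *
        eval xc (xds c J g) + eval xc (γ s) * eval xc (xds c (u s :: J) g)| := by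
      have := abs_sub_abs_le_abs_sub (eval xc (((1 + n : ℕ) : MvPolynomial (Fin d) ℝ)) *
        eval xc (xds c J g)) (-(eval xc (γ s) * eval xc (xds c (u s :: J) g)))
      rw [abs_neg, sub_neg_eq_add] at this
      linarith
    refine hfin _ h8 (h1.trans ?_)
    rw [List.length_append, List.length_singleton, hlen]

end Pool.Agent.Lib.MP_a37012_nt
end

section

set_option autoImplicit false

open MvPolynomial

namespace Pool.Agent.Lib.MP_a37012_nt

theorem det_update_two {n : Type} [Fintype n] [DecidableEq n] (A : Matrix n n ℝ) {i j : n}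
    (hij : i ≠ j) (u v : n → ℝ) :
    ((A.updateRow i (∑ k, u k • A k)).updateRow j (∑ k, v k • A k)).det =
      (u i * v j - u j * v i) * A.det := by
  set N : Matrix n n ℝ := ((1 : Matrix n n ℝ).updateRow i u).updateRow j v with hN
  have h1 : (A.updateRow i (∑ k, u k • A k)).updateRow j (∑ k, v k • A k) = N * A := by
    ext a b
    rw [Matrix.mul_apply]
    by_cases ha : a = j
    · subst ha
      simp [hN, Matrix.updateRow_self, Finset.sum_apply]
    · by_cases ha' : a = i
      · subst ha'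
        simp [hN, Matrix.updateRow_ne ha, Matrix.updateRow_self, Finset.sum_apply]
      · simp [hN, Matrix.updateRow_ne ha, Matrix.updateRow_ne ha', Matrix.one_apply]
  have h2 : N = 1 + (Matrix.of fun (a : n) (b : Fin 2) =>
      if b = 0 then (if a = i then (1 : ℝ) else 0) else (if a = j then 1 else 0)) *
      (Matrix.of fun (b : Fin 2) (a : n) =>
        if b = 0 then u a - (if a = i then (1 : ℝ) else 0) else v a - (if a = j then 1 else 0)) := by
    ext a b
    rw [Matrix.add_apply, Matrix.mul_apply, Fin.sum_univ_two]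
    simp only [Matrix.of_apply, if_true, Fin.isValue, one_ne_zero, if_false]
    by_cases ha : a = j
    · subst ha
      rw [hN, Matrix.updateRow_self, if_neg (Ne.symm hij), if_pos rfl, Matrix.one_apply]
      by_cases hb : a = b
      · subst hb; simp
      · simp [hb, Ne.symm hb]
    · by_cases ha' : a = i
      · subst ha'
        rw [hN, Matrix.updateRow_ne ha, Matrix.updateRow_self, if_pos rfl, if_neg ha,
          Matrix.one_apply]
        by_cases hb : a = b
        · subst hb; simp
        · simp [hb, Ne.symm hb]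
      · rw [hN, Matrix.updateRow_ne ha, Matrix.updateRow_ne ha', if_neg ha, if_neg ha']
        simp
  rw [h1, Matrix.det_mul, h2, Matrix.det_one_add_mul_comm, Matrix.det_fin_two]
  congr 1
  simp only [Matrix.add_apply, Matrix.mul_apply, Matrix.of_apply, Fin.isValue, if_true,
    one_ne_zero, if_false, Matrix.one_apply, mul_ite, mul_one, mul_zero, Finset.sum_ite_eq',
    Finset.mem_univ, zero_ne_one, hij, Ne.symm hij]
  ring

section

variable {d m r : ℕ} (P : Fin m → MvPolynomial (Fin d) ℝ) (B' : Matrix (Idx d m) (Fin r) ℝ)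
  (e : Fin r → Idx d m)
  (h1 : ∀ s t, B' (e s) t = if s = t then 1 else 0)
  (h2 : ∀ t ρ, cls (e t) < cls ρ → B' ρ t = 0) (x : Fin d → ℝ)

include h1 h2 in
theorem minor_entry (s t : Fin r) (hst : cls (e t) ≤ cls (e s)) :
    (evalM (UM P) x * B') (e s) t = if s = t then 1 else 0 := by
  rcases hes : e s with _ | (i | j)
  · have h3 : e t = none := by
      rw [hes] at hst
      rcases het : e t with _ | (i | j)
      · rfl
      · rw [het] at hst; simp [cls] at hst
      · rw [het] at hst; simp [cls] at hst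
    rw [UM_none]
    have ha : ∀ a, B' (some (Sum.inl a)) t = 0 := fun a => h2 t _ (by rw [h3]; simp [cls])
    have hj : ∀ j, B' (some (Sum.inr j)) t = 0 := fun a => h2 t _ (by rw [h3]; simp [cls])
    unfold gp
    simp only [ha, hj, C_0, zero_mul, Finset.sum_const_zero, add_zero, eval_C]
    rw [← hes, h1]
  · rw [UM_inl, pderiv_gp]
    have hj : ∀ j, B' (some (Sum.inr j)) t = 0 := by
      intro a
      refine h2 t _ ?_
      rw [hes] at hst
      exact lt_of_le_of_lt hst (by simp [cls])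
    simp only [hj, C_0, zero_mul, Finset.sum_const_zero, add_zero, eval_C]
    rw [← hes, h1]
  · rw [UM_inr, ← hes, h1]

include h1 h2 in
theorem minor_det : ((evalM (UM P) x * B').submatrix e id).det = 1 := by
  have hbt : Matrix.BlockTriangular ((evalM (UM P) x * B').submatrix e id) (fun s => cls (e s)) := by
    intro s t hst
    have := minor_entry P B' e h1 h2 x s t hst.le
    rw [Matrix.submatrix_apply, id, this, if_neg]
    rintro rfl
    exact lt_irrefl _ hst
  rw [hbt.det]
  refine Finset.prod_eq_one fun a _ => ?_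
  have : ((evalM (UM P) x * B').submatrix e id).toSquareBlock (fun s => cls (e s)) a = 1 := by
    ext ⟨s, hs⟩ ⟨t, ht⟩
    have := minor_entry P B' e h1 h2 x s t (by rw [hs, ht])
    simp only [Matrix.toSquareBlock_def, Matrix.of_apply, Matrix.submatrix_apply, id, this,
      Matrix.one_apply, Subtype.mk.injEq]
  rw [this, Matrix.det_one]

end

theorem det_weights {d m r : ℕ} (P : Fin m → MvPolynomial (Fin d) ℝ) (Q K T : ℝ)
    (B : Matrix (Idx d m) (Fin r) ℝ) (x : Fin d → ℝ) (e : Fin r → Idx d m) :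
    ((evalM (HM P Q K T) x * B).submatrix e id).det =
      (∏ t, wt Q K T (e t)) * ((evalM (UM P) x * B).submatrix e id).det := by
  rw [← Matrix.det_mul_column]
  congr 1
  ext s t
  simp only [Matrix.submatrix_apply, id, Matrix.of_apply, Matrix.mul_apply, Finset.mul_sum]
  refine Finset.sum_congr rfl fun ρ _ => ?_
  simp [evalM, HM]
  ring

theorem prod_wt {d m r : ℕ} (Q K T A : ℝ) (hK : 1 ≤ K) (hT : 1 ≤ T) (hA : 0 < A)
    (hQ : Q = A * K ^ d * T ^ m) (e : Fin r → Idx d m) (he : Function.Injective e)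
    (hnone : ∃ t, e t = none) (S : Finset (Idx d m)) (hS : ∀ t, e t ∉ S) :
    A ≤ (∏ t, wt Q K T (e t)) * ∏ ρ ∈ S, wt Q K T ρ := by
  have hK0 : 0 < K := by linarith
  have hT0 : 0 < T := by linarith
  have hQ0 : 0 < Q := by rw [hQ]; positivity
  have hpos : ∀ ρ : Idx d m, 0 < wt Q K T ρ := by
    intro ρ
    rcases ρ with _ | (i | j)
    · exact hQ0
    · exact inv_pos.mpr hK0
    · exact inv_pos.mpr hT0
  have hle : ∀ ρ : Idx d m, ρ ≠ none → wt Q K T ρ ≤ 1 := by
    intro ρ hρ
    rcases ρ with _ | (i | j)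
    · exact absurd rfl hρ
    · exact inv_le_one_of_one_le₀ hK
    · exact inv_le_one_of_one_le₀ hT
  have huniv : ∏ ρ : Idx d m, wt Q K T ρ = A := by
    rw [Fintype.prod_option, Fintype.prod_sum_type]
    simp only [wt, Finset.prod_const, Finset.card_univ, Fintype.card_fin]
    rw [hQ, inv_pow, inv_pow]
    field_simp
  have h1 : (∏ t, wt Q K T (e t)) = ∏ ρ ∈ Finset.univ.image e, wt Q K T ρ := by
    rw [Finset.prod_image fun a _ b _ h => he h]
  have hdisj : Disjoint (Finset.univ.image e) S := by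
    rw [Finset.disjoint_left]
    intro ρ hρ
    obtain ⟨t, _, rfl⟩ := Finset.mem_image.mp hρ
    exact hS t
  rw [h1, ← Finset.prod_union hdisj, ← huniv]
  refine Finset.prod_le_prod_of_subset_of_le_one (Finset.subset_univ _)
    (fun ρ _ => (hpos ρ).le) fun ρ _ hρ => hle ρ ?_
  rintro rfl
  obtain ⟨t, ht⟩ := hnone
  exact hρ (Finset.mem_union_left _ (Finset.mem_image.mpr ⟨t, Finset.mem_univ _, ht⟩))

end Pool.Agent.Lib.MP_a37012_nt
end

section

/-!
# Minkowski's theorem on linear forms and a transference lemma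
-/

set_option autoImplicit false

open MeasureTheory MvPolynomial

namespace Pool.Agent.Lib.MP_a37012_nt

/-- (M1) Minkowski's theorem on linear forms (closed boxes). -/
theorem minkowski_forms {ι : Type} [Fintype ι] [DecidableEq ι] [Nonempty ι] (G : Matrix ι ι ℝ)
    (hG : G.det ≠ 0) (τ : ι → ℝ) (hτ : ∀ i, 0 < τ i) (h : |G.det| ≤ ∏ i, τ i) :
    ∃ c : ι → ℤ, c ≠ 0 ∧ ∀ i, |G.mulVec (fun j => (c j : ℝ)) i| ≤ τ i := by
  classical
  set b := Pi.basisFun ℝ ι with hb
  set L : AddSubgroup (ι → ℝ) := (Submodule.span ℤ (Set.range b)).toAddSubgroup with hL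
  have : Countable L := by
    have : Countable (Submodule.span ℤ (Set.range b)) := inferInstance
    exact this
  set s : Set (ι → ℝ) := Matrix.toLin' G ⁻¹' Set.Icc (fun i => -τ i) τ with hs
  have hmem : ∀ x, x ∈ s ↔ ∀ i, |G.mulVec x i| ≤ τ i := by
    intro x
    simp only [hs, Set.mem_preimage, Matrix.toLin'_apply, Set.mem_Icc, Pi.le_def, abs_le]
    exact ⟨fun h i => ⟨h.1 i, h.2 i⟩, fun h => ⟨fun i => (h i).1, fun i => (h i).2⟩⟩
  have hsymm : ∀ x ∈ s, -x ∈ s := by
    intro x hx
    rw [hmem] at hx ⊢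
    intro i
    rw [Matrix.mulVec_neg, Pi.neg_apply, abs_neg]
    exact hx i
  have hconv : Convex ℝ s := (convex_Icc _ _).linear_preimage _
  have hunit : IsUnit G.det := isUnit_iff_ne_zero.mpr hG
  have hcpt : IsCompact s := by
    have : s = (fun y => (G⁻¹).mulVec y) '' Set.Icc (fun i => -τ i) τ := by
      ext x
      constructor
      · intro hx
        refine ⟨G.mulVec x, hx, ?_⟩
        change G⁻¹.mulVec (G.mulVec x) = x
        rw [Matrix.mulVec_mulVec, Matrix.nonsing_inv_mul _ hunit, Matrix.one_mulVec]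
      · rintro ⟨y, hy, rfl⟩
        change G.mulVec (G⁻¹.mulVec y) ∈ Set.Icc (fun i => -τ i) τ
        rwa [Matrix.mulVec_mulVec, Matrix.mul_nonsing_inv _ hunit, Matrix.one_mulVec]
    rw [this]
    refine isCompact_Icc.image ?_
    exact Continuous.matrix_mulVec continuous_const continuous_id
  have hvolF : volume (ZSpan.fundamentalDomain b) = 1 := by
    rw [hb, ZSpan.fundamentalDomain_pi_basisFun, Real.volume_pi_Ico]
    simp
  have hvols : volume s = ENNReal.ofReal |(G.det)⁻¹| * ∏ i, ENNReal.ofReal (2 * τ i) := by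
    rw [hs, Measure.addHaar_preimage_linearMap volume (by rwa [LinearMap.det_toLin']),
      LinearMap.det_toLin', Real.volume_Icc_pi]
    congr 1
    refine Finset.prod_congr rfl fun i _ => ?_
    congr 1; ring
  have hle : volume (ZSpan.fundamentalDomain b) * 2 ^ Module.finrank ℝ (ι → ℝ) ≤ volume s := by
    rw [hvolF, one_mul, hvols, Module.finrank_fintype_fun_eq_card,
      ← ENNReal.ofReal_prod_of_nonneg (fun i _ => by have := hτ i; positivity),
      ← ENNReal.ofReal_mul (abs_nonneg _), Finset.prod_mul_distrib, Finset.prod_const,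
      Finset.card_univ, abs_inv]
    have h2 : (2 : ENNReal) ^ Fintype.card ι = ENNReal.ofReal (2 ^ Fintype.card ι) := by
      rw [ENNReal.ofReal_pow (by norm_num)]; simp
    rw [h2]
    refine ENNReal.ofReal_le_ofReal ?_
    have hpos : 0 < |G.det| := abs_pos.mpr hG
    rw [inv_mul_eq_div, le_div_iff₀ hpos]
    gcongr
  obtain ⟨x, hx0, hxs⟩ := exists_ne_zero_mem_lattice_of_measure_mul_two_pow_le_measure
    (μ := volume) (L := L) (ZSpan.isAddFundamentalDomain b volume) hsymm hconv hcpt hle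
  have hxL : (x : ι → ℝ) ∈ Submodule.span ℤ (Set.range b) := x.2
  rw [Module.Basis.mem_span_iff_repr_mem] at hxL
  choose c hc using hxL
  have hxc : (x : ι → ℝ) = fun j => (c j : ℝ) := by
    funext j
    have := hc j
    rw [hb, Pi.basisFun_repr] at this
    rw [← this]
    simp
  refine ⟨c, ?_, ?_⟩
  · rintro rfl
    apply hx0
    ext j
    rw [hxc]
    simp
  · rw [hxc] at hxs
    exact (hmem _).mp hxs

/-- (M2) A short primal vector gives a short dual vector. -/
theorem dual_vector {ι : Type} [Fintype ι] [DecidableEq ι] [Nonempty ι] (H : Matrix ι ι ℝ)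
    (hH : H.det ≠ 0) (Y : ι → ℝ) (X : ι → ℤ) (hX : ∀ j, (X j : ℝ) = ∑ i, Y i * H i j) (hX0 : X ≠ 0)
    (hY : ∀ i, |Y i| ≤ 1) (τ : ℝ) (hτ : 0 < τ)
    (h : |H.det| ≤ 1 / 2 * τ ^ (Fintype.card ι - 1)) :
    ∃ c : ι → ℤ, c ≠ 0 ∧ ∀ i, |H.mulVec (fun j => (c j : ℝ)) i| ≤ Fintype.card ι * τ := by
  classical
  obtain ⟨i₀, hi₀⟩ := Finite.exists_max (fun i => |Y i|)
  have hYpos : 0 < |Y i₀| := by
    by_contra hcon
    have hz : ∀ i, Y i = 0 := by
      intro i
      have h1 := hi₀ i
      exact abs_nonpos_iff.mp (h1.trans (not_lt.mp hcon))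
    apply hX0
    funext j
    have := hX j
    simp only [hz, zero_mul, Finset.sum_const_zero] at this
    exact_mod_cast this
  set G : Matrix ι ι ℝ := H.updateRow i₀ (∑ k, Y k • H k) with hGdef
  have hGdet : G.det = Y i₀ * H.det := by
    rw [hGdef, Matrix.det_updateRow_sum, smul_eq_mul]
  have hG : G.det ≠ 0 := by
    rw [hGdet]
    exact mul_ne_zero (abs_pos.mp hYpos) hH
  set σ : ι → ℝ := Function.update (fun _ => τ) i₀ (1 / 2) with hσ
  have hσprod : ∏ i, σ i = 1 / 2 * τ ^ (Fintype.card ι - 1) := by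
    rw [hσ, Finset.prod_update_of_mem (Finset.mem_univ i₀), Finset.prod_const]
    congr 2
    rw [Finset.card_sdiff_of_subset (Finset.subset_univ _), Finset.card_univ,
      Finset.card_singleton]
  have hGle : |G.det| ≤ ∏ i, σ i := by
    rw [hσprod, hGdet, abs_mul]
    refine le_trans ?_ h
    exact mul_le_of_le_one_left (abs_nonneg _) (hY i₀)
  have hσpos : ∀ i, 0 < σ i := by
    intro i
    rw [hσ]
    by_cases hi : i = i₀
    · subst hi; rw [Function.update_self]; norm_num
    · rw [Function.update_of_ne hi]; exact hτ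
  obtain ⟨c, hc0, hc⟩ := minkowski_forms G hG σ hσpos hGle
  refine ⟨c, hc0, ?_⟩
  have hoff : ∀ i, i ≠ i₀ → |H.mulVec (fun j => (c j : ℝ)) i| ≤ τ := by
    intro i hi
    have := hc i
    rw [hσ, Function.update_of_ne hi] at this
    have h2 : G.mulVec (fun j => (c j : ℝ)) i = H.mulVec (fun j => (c j : ℝ)) i := by
      simp only [Matrix.mulVec, hGdef]
      rw [Matrix.updateRow_ne hi]
    rwa [h2] at this
  have hrow : G.mulVec (fun j => (c j : ℝ)) i₀ = ((∑ j, X j * c j : ℤ) : ℝ) := by
    simp only [Matrix.mulVec, hGdef, Matrix.updateRow_self, dotProduct]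
    push_cast
    refine Finset.sum_congr rfl fun j _ => ?_
    rw [hX j, Finset.sum_apply]
    simp only [Pi.smul_apply, smul_eq_mul]
  have hzero : (∑ j, X j * c j : ℤ) = 0 := by
    have := hc i₀
    rw [hσ, Function.update_self, hrow] at this
    by_contra hne
    have h1 : (1 : ℤ) ≤ |∑ j, X j * c j| := Int.one_le_abs hne
    have h2 : (1 : ℝ) ≤ |((∑ j, X j * c j : ℤ) : ℝ)| := by
      rw [← Int.cast_abs]; exact_mod_cast h1
    linarith
  have hsum : ∑ i, Y i * H.mulVec (fun j => (c j : ℝ)) i = 0 := by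
    have : ∑ i, Y i * H.mulVec (fun j => (c j : ℝ)) i = ((∑ j, X j * c j : ℤ) : ℝ) := by
      push_cast
      simp only [Matrix.mulVec, dotProduct, Finset.mul_sum]
      rw [Finset.sum_comm]
      refine Finset.sum_congr rfl fun j _ => ?_
      rw [hX j, Finset.sum_mul]
      refine Finset.sum_congr rfl fun i _ => ?_
      ring
    rw [this, hzero]; simp
  have hcard : (1 : ℝ) ≤ Fintype.card ι := by exact_mod_cast Fintype.card_pos
  intro i
  by_cases hi : i = i₀
  · subst hi
    rw [← Finset.add_sum_erase _ _ (Finset.mem_univ i)] at hsum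
    have h1 : |Y i| * |H.mulVec (fun j => (c j : ℝ)) i| ≤ |Y i| * ((Fintype.card ι - 1) * τ) := by
      rw [← abs_mul]
      have h2 : Y i * H.mulVec (fun j => (c j : ℝ)) i =
          -∑ k ∈ Finset.univ.erase i, Y k * H.mulVec (fun j => (c j : ℝ)) k := by linarith
      rw [h2, abs_neg]
      refine (Finset.abs_sum_le_sum_abs _ _).trans ?_
      have h3 : ∀ k ∈ Finset.univ.erase i, |Y k * H.mulVec (fun j => (c j : ℝ)) k| ≤
          |Y i| * τ := by
        intro k hk
        rw [abs_mul]
        exact mul_le_mul (hi₀ k) (hoff k (Finset.ne_of_mem_erase hk)) (abs_nonneg _)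
          (abs_nonneg _)
      refine (Finset.sum_le_sum h3).trans ?_
      rw [Finset.sum_const, Finset.card_erase_of_mem (Finset.mem_univ i), Finset.card_univ,
        nsmul_eq_mul, Nat.cast_sub Fintype.card_pos, Nat.cast_one]
      exact le_of_eq (by ring)
    have h4 := le_of_mul_le_mul_left h1 hYpos
    refine h4.trans ?_
    nlinarith
  · refine (hoff i hi).trans ?_
    nlinarith

end Pool.Agent.Lib.MP_a37012_nt
end

section

set_option autoImplicit false

open MeasureTheory MvPolynomial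

namespace Pool.Agent.Lib.MP_a37012_nt

lemma gen_pds_contDiffOn {d : ℕ} {V : Set (Fin d → ℝ)} (hV : IsOpen V) :
    ∀ (I : List (Fin d)) (k : ℕ) (h : (Fin d → ℝ) → ℝ),
      ContDiffOn ℝ ((k + I.length : ℕ) : WithTop ℕ∞) h V →
        ContDiffOn ℝ ((k : ℕ) : WithTop ℕ∞) (pds I h) V := by
  intro I
  induction I with
  | nil => intro k h hh; simpa [pds] using hh
  | cons i I ih =>
    intro k h hh
    have h1 : ContDiffOn ℝ (((k + 1 : ℕ)) : WithTop ℕ∞) (pds I h) V := by
      apply ih
      have : k + 1 + I.length = k + (i :: I).length := by simp; ring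
      rw [this]; exact hh
    have h2 : ContDiffOn ℝ ((k : ℕ) : WithTop ℕ∞) (fderiv ℝ (pds I h)) V := by
      apply h1.fderiv_of_isOpen hV
      push_cast
      exact le_refl _
    exact h2.clm_apply contDiffOn_const

lemma gen_pd_congr {d : ℕ} {V : Set (Fin d → ℝ)} (hV : IsOpen V) (i : Fin d)
    {f g : (Fin d → ℝ) → ℝ} (hfg : ∀ x ∈ V, f x = g x) {x : Fin d → ℝ} (hx : x ∈ V) :
    pd i f x = pd i g x := by
  unfold pd
  have : f =ᶠ[nhds x] g := by
    filter_upwards [hV.mem_nhds hx] with y hy using hfg y hy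
  rw [this.fderiv_eq]

lemma gen_pds_sum {d : ℕ} {V : Set (Fin d → ℝ)} (hV : IsOpen V) {n : ℕ}
    (F : Fin n → (Fin d → ℝ) → ℝ) (z : Fin n → ℝ) :
    ∀ (I : List (Fin d)), (∀ j, ContDiffOn ℝ ((I.length : ℕ) : WithTop ℕ∞) (F j) V) →
      ∀ x ∈ V, pds I (fun y => ∑ j, z j * F j y) x = ∑ j, z j * pds I (F j) x := by
  intro I
  induction I with
  | nil => intro _ x _; rfl
  | cons i I ih =>
    intro hF x hx
    have hF' : ∀ j, ContDiffOn ℝ ((I.length : ℕ) : WithTop ℕ∞) (F j) V := fun j =>
      (hF j).of_le (by simp)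
    have h1 := ih hF'
    show pd i (pds I _) x = _
    rw [gen_pd_congr hV i h1 hx]
    have hd : ∀ j, DifferentiableAt ℝ (pds I (F j)) x := by
      intro j
      have h2 : ContDiffOn ℝ (((1 : ℕ)) : WithTop ℕ∞) (pds I (F j)) V := by
        apply gen_pds_contDiffOn hV
        have : 1 + I.length = (i :: I).length := by simp; ring
        rw [this]; exact hF j
      exact (h2.differentiableOn (by norm_num)).differentiableAt (hV.mem_nhds hx)
    show fderiv ℝ (fun y => ∑ j, z j * pds I (F j) y) x (Pi.single i 1) =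
      ∑ j, z j * fderiv ℝ (pds I (F j)) x (Pi.single i 1)
    rw [fderiv_fun_sum (fun j _ => (hd j).const_mul (z j))]
    rw [_root_.sum_apply]
    apply Finset.sum_congr rfl
    intro j _
    rw [fderiv_const_mul (hd j)]
    rfl

lemma gen_diff_det {d n : ℕ} {x : Fin d → ℝ} (A : (Fin d → ℝ) → Matrix (Fin n) (Fin n) ℝ)
    (hA : ∀ a j, DifferentiableAt ℝ (fun y => A y a j) x) :
    DifferentiableAt ℝ (fun y => (A y).det) x := by
  simp only [Matrix.det_apply]
  apply DifferentiableAt.fun_sum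
  intro σ _
  apply DifferentiableAt.const_smul
  exact (HasFDerivAt.finsetProd (u := Finset.univ) (g := fun i y => A y (σ i) i)
    (fun i _ => (hA (σ i) i).hasFDerivAt)).differentiableAt

/-- (G) Generic order of nondegeneracy: if no nontrivial combination of the `F j` is affine on a
nonempty open subset, then somewhere the derivatives of orders `2, …, m + 1` span. -/
theorem generic_order {d : ℕ} (m : ℕ) (V : Set (Fin d → ℝ)) (hV : IsOpen V) (hne : V.Nonempty)
    (F : Fin m → (Fin d → ℝ) → ℝ) (hF : ∀ j, ContDiffOn ℝ (m + 1 : ℕ) (F j) V)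
    (hna : ∀ V' ⊆ V, IsOpen V' → V'.Nonempty → ∀ z : Fin m → ℝ, z ≠ 0 →
      ∃ x ∈ V', ∃ a b : Fin d, pds [a, b] (fun y => ∑ j, z j * F j y) x ≠ 0) :
    ∃ y ∈ V, ∃ I : Fin m → List (Fin d), (∀ s, 2 ≤ (I s).length ∧ (I s).length ≤ m + 1) ∧
      (Matrix.of fun s j => pds (I s) (F j) y).det ≠ 0 := by
  induction m generalizing V with
  | zero =>
    obtain ⟨y, hy⟩ := hne
    exact ⟨y, hy, Fin.elim0, fun s => s.elim0, by simp⟩
  | succ m ih =>
    obtain ⟨y0, hy0, I, hI, hdet⟩ := ih V hV hne (fun j => F j.castSucc)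
      (fun j => (hF j.castSucc).of_le (by norm_cast; omega)) (by
        intro V' hV' hV'o hV'n z hz
        obtain ⟨x, hx, a, b, hab⟩ := hna V' hV' hV'o hV'n (Fin.snoc z 0) (by
          intro h0
          apply hz
          funext j
          have := congrFun h0 j.castSucc
          simpa using this)
        refine ⟨x, hx, a, b, ?_⟩
        have : (fun y => ∑ j, (Fin.snoc z 0 : Fin (m + 1) → ℝ) j * F j y) =
            fun y => ∑ j : Fin m, z j * F j.castSucc y := by
          funext y
          rw [Fin.sum_univ_castSucc]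
          simp
        rw [this] at hab
        exact hab)
    -- the matrix and the right-hand side
    set A : (Fin d → ℝ) → Matrix (Fin m) (Fin m) ℝ :=
      fun x => Matrix.of fun s j => pds (I s) (F j.castSucc) x with hAdef
    set v : (Fin d → ℝ) → Fin m → ℝ := fun x s => pds (I s) (F (Fin.last m)) x with hvdef
    have hC1 : ∀ (J : List (Fin d)), J.length ≤ m + 1 → ∀ j,
        ContDiffOn ℝ ((1 : ℕ) : WithTop ℕ∞) (pds J (F j)) V := by
      intro J hJ j
      apply gen_pds_contDiffOn hV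
      apply (hF j).of_le
      norm_cast
      omega
    have hdiff : ∀ (J : List (Fin d)), J.length ≤ m + 1 → ∀ j, ∀ x ∈ V,
        DifferentiableAt ℝ (pds J (F j)) x := by
      intro J hJ j x hx
      exact ((hC1 J hJ j).differentiableOn (by norm_num)).differentiableAt (hV.mem_nhds hx)
    have hAd : ∀ x ∈ V, ∀ a j, DifferentiableAt ℝ (fun y => A y a j) x := by
      intro x hx a j
      exact hdiff (I a) (hI a).2 j.castSucc x hx
    have hvd : ∀ x ∈ V, ∀ a, DifferentiableAt ℝ (fun y => v y a) x := by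
      intro x hx a
      exact hdiff (I a) (hI a).2 (Fin.last m) x hx
    have hWd : ∀ x ∈ V, DifferentiableAt ℝ (fun y => (A y).det) x := fun x hx =>
      gen_diff_det A (hAd x hx)
    set V1 : Set (Fin d → ℝ) := V ∩ (fun y => (A y).det) ⁻¹' {0}ᶜ with hV1
    have hV1o : IsOpen V1 := by
      apply ContinuousOn.isOpen_inter_preimage _ hV isOpen_compl_singleton
      intro x hx
      exact (hWd x hx).continuousAt.continuousWithinAt
    have hy1 : y0 ∈ V1 := ⟨hy0, hdet⟩
    set lam : (Fin d → ℝ) → Fin m → ℝ := fun x => ((A x).det)⁻¹ • (A x).cramer (v x) with hlam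
    have hlam1 : ∀ x ∈ V1, (A x).mulVec (lam x) = v x := by
      intro x hx
      have hx2 : (A x).det ≠ 0 := hx.2
      rw [hlam]
      simp only
      rw [Matrix.mulVec_smul, Matrix.mulVec_cramer, smul_smul, inv_mul_cancel₀ hx2, one_smul]
    have hlamd : ∀ x ∈ V1, ∀ j, DifferentiableAt ℝ (fun y => lam y j) x := by
      intro x hx j
      have hx2 : (A x).det ≠ 0 := hx.2
      show DifferentiableAt ℝ (fun y => ((A y).det)⁻¹ * (A y).cramer (v y) j) x
      apply DifferentiableAt.mul
      · exact (hWd x hx.1).inv hx2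
      · simp only [Matrix.cramer_apply]
        apply gen_diff_det
        intro a i
        by_cases hij : i = j
        · subst hij
          simpa [Matrix.updateCol_apply] using hvd x hx.1 a
        · simpa [Matrix.updateCol_apply, hij] using hAd x hx.1 a i
    by_contra hcon
    push Not at hcon
    -- all the differences vanish
    have hdelta : ∀ (J : List (Fin d)), 2 ≤ J.length → J.length ≤ m + 2 → ∀ x ∈ V1,
        pds J (F (Fin.last m)) x = ∑ j : Fin m, lam x j * pds J (F j.castSucc) x := by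
      intro J hJ2 hJ x hx
      have hd0 := hcon x hx.1 (Fin.snoc I J) (by
        intro s
        refine Fin.lastCases ?_ (fun i => ?_) s
        · simpa using ⟨hJ2, hJ⟩
        · simpa using ⟨(hI i).1, (hI i).2.trans (by omega)⟩)
      obtain ⟨w, hw0, hw⟩ := Matrix.exists_mulVec_eq_zero_iff.mpr hd0
      have hrow : ∀ s : Fin m, ∑ j : Fin m, A x s j * w j.castSucc +
          v x s * w (Fin.last m) = 0 := by
        intro s
        have := congrFun hw s.castSucc
        simp only [Matrix.mulVec, dotProduct, Matrix.of_apply, Fin.snoc_castSucc,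
          Pi.zero_apply] at this
        rw [Fin.sum_univ_castSucc] at this
        exact this
      have hrowJ : ∑ j : Fin m, pds J (F j.castSucc) x * w j.castSucc +
          pds J (F (Fin.last m)) x * w (Fin.last m) = 0 := by
        have := congrFun hw (Fin.last m)
        simp only [Matrix.mulVec, dotProduct, Matrix.of_apply, Fin.snoc_last,
          Pi.zero_apply] at this
        rw [Fin.sum_univ_castSucc] at this
        exact this
      have hx2 : (A x).det ≠ 0 := hx.2
      -- the difference vector is in the kernel of A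
      have hker : (A x).mulVec (fun j => w j.castSucc + w (Fin.last m) * lam x j) = 0 := by
        funext s
        have h1 := congrFun (hlam1 x hx) s
        simp only [Matrix.mulVec, dotProduct] at h1
        simp only [Matrix.mulVec, dotProduct, mul_add, Finset.sum_add_distrib, Pi.zero_apply]
        have h2 : ∑ j, A x s j * (w (Fin.last m) * lam x j) =
            w (Fin.last m) * ∑ j, A x s j * lam x j := by
          rw [Finset.mul_sum]
          exact Finset.sum_congr rfl fun j _ => by ring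
        rw [h2, h1]
        linarith [hrow s]
      have hzero := Matrix.eq_zero_of_mulVec_eq_zero hx2 hker
      have hwj : ∀ j : Fin m, w j.castSucc = - (w (Fin.last m) * lam x j) := by
        intro j
        have := congrFun hzero j
        simp only [Pi.zero_apply] at this
        linarith
      have hwl : w (Fin.last m) ≠ 0 := by
        intro h0
        apply hw0
        funext j
        refine Fin.lastCases ?_ (fun i => ?_) j
        · simpa using h0
        · rw [hwj i, h0]; simp
      have h3 : ∑ j : Fin m, pds J (F j.castSucc) x * w j.castSucc =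
          - (w (Fin.last m) * ∑ j : Fin m, lam x j * pds J (F j.castSucc) x) := by
        rw [Finset.mul_sum, ← Finset.sum_neg_distrib]
        exact Finset.sum_congr rfl fun j _ => by rw [hwj j]; ring
      rw [h3] at hrowJ
      have h4 : w (Fin.last m) * (pds J (F (Fin.last m)) x -
          ∑ j : Fin m, lam x j * pds J (F j.castSucc) x) = 0 := by linarith
      rcases mul_eq_zero.mp h4 with h5 | h5
      · exact absurd h5 hwl
      · linarith
    -- the derivatives of lam vanish
    have hdl : ∀ x ∈ V1, ∀ b j, fderiv ℝ (fun y => lam y j) x (Pi.single b 1) = 0 := by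
      intro x hx b
      have hx2 : (A x).det ≠ 0 := hx.2
      have hker : (A x).mulVec
          (fun j => fderiv ℝ (fun y => lam y j) x (Pi.single b 1)) = 0 := by
        funext s
        have h1 : pd b (pds (I s) (F (Fin.last m))) x =
            pd b (fun y => ∑ j : Fin m, lam y j * pds (I s) (F j.castSucc) y) x :=
          gen_pd_congr hV1o b (fun y hy => hdelta (I s) (hI s).1 ((hI s).2.trans (by omega)) y hy) hx
        have h2 : pd b (fun y => ∑ j : Fin m, lam y j * pds (I s) (F j.castSucc) y) x =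
            ∑ j : Fin m, (lam x j * pd b (pds (I s) (F j.castSucc)) x +
              pds (I s) (F j.castSucc) x * fderiv ℝ (fun y => lam y j) x (Pi.single b 1)) := by
          unfold pd
          rw [fderiv_fun_sum (fun j _ => (hlamd x hx j).fun_mul
            (hdiff (I s) (hI s).2 j.castSucc x hx.1))]
          rw [_root_.sum_apply]
          apply Finset.sum_congr rfl
          intro j _
          rw [fderiv_fun_mul (hlamd x hx j) (hdiff (I s) (hI s).2 j.castSucc x hx.1)]
          rfl
        have h3 := hdelta (b :: I s) (by simp; have := (hI s).1; omega)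
          (by simp; have := (hI s).2; omega) x hx
        have h4 : pds (b :: I s) (F (Fin.last m)) x = pd b (pds (I s) (F (Fin.last m))) x := rfl
        rw [← h4, h3, h2, Finset.sum_add_distrib] at h1
        have h5 : ∑ j : Fin m, pds (I s) (F j.castSucc) x *
            fderiv ℝ (fun y => lam y j) x (Pi.single b 1) = 0 := by
          have h6 : ∑ j : Fin m, lam x j * pds (b :: I s) (F j.castSucc) x =
            ∑ j : Fin m, lam x j * pd b (pds (I s) (F j.castSucc)) x := rfl
          linarith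
        exact h5
      have hzero := Matrix.eq_zero_of_mulVec_eq_zero hx2 hker
      intro j
      exact congrFun hzero j
    -- a ball on which lam is constant
    obtain ⟨r, hr, hball⟩ := Metric.isOpen_iff.mp hV1o y0 hy1
    have hconst : ∀ x ∈ Metric.ball y0 r, ∀ j, lam x j = lam y0 j := by
      intro x hx j
      have hd : DifferentiableOn ℝ (fun y => lam y j) (Metric.ball y0 r) := fun y hy =>
        (hlamd y (hball hy) j).differentiableWithinAt
      have hz : ∀ y ∈ Metric.ball y0 r, fderiv ℝ (fun y => lam y j) y = 0 := by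
        intro y hy
        apply ContinuousLinearMap.coe_injective
        apply (Pi.basisFun ℝ (Fin d)).ext
        intro b
        simpa using hdl y (hball hy) b j
      exact Metric.isOpen_ball.is_const_of_fderiv_eq_zero
        (convex_ball y0 r).isPreconnected hd hz hx (Metric.mem_ball_self hr)
    obtain ⟨x, hx, a, b, hab⟩ := hna (Metric.ball y0 r) (hball.trans Set.inter_subset_left)
      Metric.isOpen_ball ⟨y0, Metric.mem_ball_self hr⟩
      (Fin.snoc (fun j => - lam y0 j) 1) (by
        intro h0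
        have := congrFun h0 (Fin.last m)
        simp at this)
    apply hab
    rw [gen_pds_sum hV F _ [a, b] (fun j => (hF j).of_le (by
      simp only [List.length_cons, List.length_nil]; norm_cast; omega)) x (hball hx).1]
    rw [Fin.sum_univ_castSucc]
    simp only [Fin.snoc_castSucc, Fin.snoc_last, one_mul]
    rw [hdelta [a, b] (by simp) (by simp) x (hball hx)]
    rw [← Finset.sum_add_distrib]
    apply Finset.sum_eq_zero
    intro j _
    rw [hconst x hx j]
    ring

end Pool.Agent.Lib.MP_a37012_nt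
end

section

set_option autoImplicit false

open MeasureTheory Module

namespace Pool.Agent.Lib.MP_a37012_nt

/-- A real matrix with independent columns has a nonzero maximal minor. -/
theorem fin_real_minor {ι : Type} [Fintype ι] {r : ℕ} (B : Matrix ι (Fin r) ℝ)
    (h : LinearIndependent ℝ (fun t : Fin r => fun a => B a t)) :
    ∃ e : Fin r → ι, (B.submatrix e id).det ≠ 0 := by
  classical
  set Bq : ι → (Fin r → ℝ) := fun a t => B a t with hBq
  by_cases htop : Submodule.span ℝ (Set.range Bq) = ⊤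
  · obtain ⟨f, hf1, hf2, hf3⟩ := Submodule.exists_fun_fin_finrank_span_eq ℝ (Set.range Bq)
    have hr : finrank ℝ (Submodule.span ℝ (Set.range Bq)) = r := by
      rw [htop, finrank_top, finrank_fintype_fun_eq_card, Fintype.card_fin]
    choose e₀ he₀ using hf1
    set e : Fin r → ι := fun t => e₀ (Fin.cast hr.symm t) with he
    refine ⟨e, ?_⟩
    have hli : LinearIndependent ℝ (fun t : Fin r => Bq (e t)) := by
      have : (fun t : Fin r => Bq (e t)) = f ∘ (finCongr hr.symm) := by
        funext t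
        simp [he, he₀, finCongr]
      rw [this]
      exact hf3.comp _ (finCongr hr.symm).injective
    have h1 : IsUnit (B.submatrix e id) := by
      rw [← Matrix.linearIndependent_rows_iff_isUnit]
      exact hli
    exact (Matrix.isUnit_iff_isUnit_det _).mp h1 |>.ne_zero
  · exfalso
    obtain ⟨f, hf0, hf⟩ := Submodule.exists_le_ker_of_lt_top _ (lt_top_iff_ne_top.mpr htop)
    set q : Fin r → ℝ := fun t => f (Pi.single t 1) with hq
    have hfq : ∀ v : Fin r → ℝ, f v = ∑ t, v t * q t := by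
      intro v
      conv_lhs => rw [← Finset.univ_sum_single v]
      rw [map_sum]
      refine Finset.sum_congr rfl fun t _ => ?_
      have : (Pi.single t (v t) : Fin r → ℝ) = v t • Pi.single t 1 := by
        rw [← Pi.single_smul, smul_eq_mul, mul_one]
      rw [this, map_smul, smul_eq_mul]
    have hq0 : q ≠ 0 := by
      intro h0
      apply hf0
      ext v
      simp [hq] at h0
      have := congrFun h0 v
      simpa using this
    have hBq0 : ∀ a, ∑ t, B a t * q t = 0 := by
      intro a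
      have : Bq a ∈ LinearMap.ker f := hf (Submodule.subset_span ⟨a, rfl⟩)
      rw [LinearMap.mem_ker, hfq] at this
      exact this
    apply hq0
    funext t
    refine Fintype.linearIndependent_iff.mp h q ?_ t
    funext a
    rw [Finset.sum_apply, Pi.zero_apply, ← hBq0 a]
    refine Finset.sum_congr rfl fun t _ => ?_
    rw [Pi.smul_apply, smul_eq_mul, mul_comm]

/-- Some `d` coordinates of an injective linear map give a bijection. -/
theorem fin_coord {d n : ℕ} (T : EuclideanSpace ℝ (Fin d) →L[ℝ] EuclideanSpace ℝ (Fin n))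
    (hT : Function.Injective T) : ∃ e : Fin d → Fin n, Function.Injective e ∧
      Function.Injective (fun v : EuclideanSpace ℝ (Fin d) => fun s => T v (e s)) := by
  classical
  set B : Matrix (Fin n) (Fin d) ℝ := Matrix.of fun i t => T (EuclideanSpace.single t 1) i with hB
  have hTv : ∀ v : EuclideanSpace ℝ (Fin d), ∀ i, T v i = ∑ t, B i t * v t := by
    intro v i
    have h1 : v = ∑ t, v t • EuclideanSpace.single t (1 : ℝ) := by
      ext j
      simp [Finset.sum_apply, Pi.single_apply]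
    conv_lhs => rw [h1]
    rw [map_sum]
    simp only [map_smul]
    rw [show (∑ t, v t • T (EuclideanSpace.single t (1 : ℝ))) i =
      ∑ t, (v t • T (EuclideanSpace.single t (1 : ℝ))) i by simp]
    refine Finset.sum_congr rfl fun t _ => ?_
    rw [hB]
    simp [mul_comm]
  have hli : LinearIndependent ℝ (fun t : Fin d => fun a => B a t) := by
    rw [Fintype.linearIndependent_iff]
    intro c hc t
    have h1 : T ((EuclideanSpace.equiv (Fin d) ℝ).symm c) = 0 := by
      ext i
      rw [hTv]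
      have := congrFun hc i
      rw [Finset.sum_apply] at this
      simp only [Pi.smul_apply, smul_eq_mul] at this
      simpa [mul_comm] using this
    have h2 : (EuclideanSpace.equiv (Fin d) ℝ).symm c = 0 := hT (by rw [h1, map_zero])
    have h3 : c = 0 := by
      have := congrArg (EuclideanSpace.equiv (Fin d) ℝ) h2
      simpa using this
    rw [h3]
    rfl
  obtain ⟨e, he⟩ := fin_real_minor B hli
  refine ⟨e, ?_, ?_⟩
  · intro s t hst
    by_contra hne
    exact he (Matrix.det_zero_of_row_eq hne (by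
      funext j
      simp [Matrix.submatrix_apply, hst]))
  · intro v w hvw
    have h1 : (B.submatrix e id).mulVec (fun t => v t - w t) = 0 := by
      funext s
      have h2 := congrFun hvw s
      simp only [hTv] at h2
      simp only [Matrix.mulVec, dotProduct, Matrix.submatrix_apply, id, Pi.zero_apply, mul_sub,
        Finset.sum_sub_distrib]
      linarith
    have h3 := Matrix.eq_zero_of_mulVec_eq_zero he h1
    ext t
    have := congrFun h3 t
    simp only [Pi.zero_apply] at this
    linarith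

/-- A chart in which `d` of the coordinate functions of `f` are the coordinates. -/
theorem fin_chart {d n l : ℕ} (hl : 1 ≤ l) {U : Set (EuclideanSpace ℝ (Fin d))}
    {f : EuclideanSpace ℝ (Fin d) → EuclideanSpace ℝ (Fin n)} (hU : IsOpen U)
    (hf : ContDiffOn ℝ (l : ℕ) f U) {x₀ : EuclideanSpace ℝ (Fin d)} (hx₀ : x₀ ∈ U)
    (hinj : Function.Injective (fderiv ℝ f x₀)) {r : ℝ} (hr : 0 < r) :
    ∃ e : Fin d → Fin n, Function.Injective e ∧
    ∃ (V : Set (Fin d → ℝ)) (g : (Fin d → ℝ) → EuclideanSpace ℝ (Fin d)),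
      IsOpen V ∧ V.Nonempty ∧ ContDiffOn ℝ (l : ℕ) g V ∧ (∀ y ∈ V, g y ∈ Metric.ball x₀ r) ∧
      (∀ y ∈ V, ∀ s, f (g y) (e s) = y s) ∧
      (∀ V' ⊆ V, IsOpen V' → V'.Nonempty → ∃ O : Set (EuclideanSpace ℝ (Fin d)),
        O ⊆ Metric.ball x₀ r ∧ IsOpen O ∧ O.Nonempty ∧
        ∀ x ∈ O, (fun s => f x (e s)) ∈ V' ∧ g (fun s => f x (e s)) = x) := by
  obtain ⟨e, he, hbij⟩ := fin_coord (fderiv ℝ f x₀) hinj
  -- projection to the chosen coordinates
  set P : EuclideanSpace ℝ (Fin n) →L[ℝ] (Fin d → ℝ) :=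
    ContinuousLinearMap.pi fun s => EuclideanSpace.proj (e s) with hP
  have hPa : ∀ y s, P y s = y (e s) := fun y s => rfl
  have hfa : ContDiffAt ℝ (l : ℕ) f x₀ := hf.contDiffAt (hU.mem_nhds hx₀)
  set φ : EuclideanSpace ℝ (Fin d) → (Fin d → ℝ) := fun x => P (f x) with hφ
  have hφa : ContDiffAt ℝ (l : ℕ) φ x₀ := P.contDiff.contDiffAt.comp x₀ hfa
  have hl0 : ((l : ℕ) : WithTop ℕ∞) ≠ 0 := by
    have : l ≠ 0 := by omega
    exact_mod_cast this
  have hfd : HasFDerivAt f (fderiv ℝ f x₀) x₀ := (hfa.differentiableAt hl0).hasFDerivAt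
  have hφd : HasFDerivAt φ (P.comp (fderiv ℝ f x₀)) x₀ := P.hasFDerivAt.comp x₀ hfd
  have hinj' : Function.Injective (P.comp (fderiv ℝ f x₀)) := hbij
  have hfin : finrank ℝ (EuclideanSpace ℝ (Fin d)) = finrank ℝ (Fin d → ℝ) := by simp
  set A : EuclideanSpace ℝ (Fin d) ≃L[ℝ] (Fin d → ℝ) :=
    (LinearEquiv.ofInjectiveOfFinrankEq (P.comp (fderiv ℝ f x₀) : EuclideanSpace ℝ (Fin d) →ₗ[ℝ]
      (Fin d → ℝ)) hinj' hfin).toContinuousLinearEquiv with hA
  have hAP : (A : EuclideanSpace ℝ (Fin d) →L[ℝ] (Fin d → ℝ)) = P.comp (fderiv ℝ f x₀) := by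
    ext v
    rfl
  have hφd' : HasFDerivAt φ (A : EuclideanSpace ℝ (Fin d) →L[ℝ] (Fin d → ℝ)) x₀ := by
    rw [hAP]
    exact hφd
  set Φ := hφa.toOpenPartialHomeomorph φ hφd' hl0 with hΦ
  have hΦc : ∀ x, Φ x = φ x := fun x => rfl
  have hxs : x₀ ∈ Φ.source := hφa.mem_toOpenPartialHomeomorph_source hφd' hl0
  have hxt : φ x₀ ∈ Φ.target := hφa.image_mem_toOpenPartialHomeomorph_target hφd' hl0
  have hsymm : Φ.symm (φ x₀) = x₀ := by
    rw [← hΦc x₀]
    exact Φ.left_inv hxs
  have hgs : ContDiffAt ℝ (l : ℕ) Φ.symm (φ x₀) := hφa.to_localInverse hφd' hl0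
  have ev1 : ∀ᶠ y in nhds (φ x₀), ContDiffAt ℝ (l : ℕ) Φ.symm y := hgs.eventually (by simp)
  have ev2 : ∀ᶠ y in nhds (φ x₀), y ∈ Φ.target := Φ.open_target.mem_nhds hxt
  have ev3 : ∀ᶠ y in nhds (φ x₀), Φ.symm y ∈ Metric.ball x₀ r := by
    have hc : ContinuousAt Φ.symm (φ x₀) := hgs.continuousAt
    apply hc.eventually
    rw [hsymm]
    exact Metric.ball_mem_nhds x₀ hr
  obtain ⟨ρ, hρ, hball⟩ := Metric.eventually_nhds_iff_ball.mp (ev1.and (ev2.and ev3))
  refine ⟨e, he, Metric.ball (φ x₀) ρ, Φ.symm, Metric.isOpen_ball, ⟨φ x₀, Metric.mem_ball_self hρ⟩,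
    fun y hy => (hball y hy).1.contDiffWithinAt, fun y hy => (hball y hy).2.2, ?_, ?_⟩
  · intro y hy s
    have h1 : φ (Φ.symm y) = y := Φ.right_inv (hball y hy).2.1
    exact congrFun h1 s
  · intro V' hV' hV'o hV'n
    refine ⟨Φ.source ∩ Φ ⁻¹' V', ?_, Φ.isOpen_inter_preimage hV'o, ?_, ?_⟩
    · rintro x ⟨hx1, hx2⟩
      have h1 := (hball _ (hV' hx2)).2.2
      rwa [Φ.left_inv hx1] at h1
    · obtain ⟨y, hy⟩ := hV'n
      have h2 := (hball y (hV' hy)).2.1
      refine ⟨Φ.symm y, Φ.map_target h2, ?_⟩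
      rw [Set.mem_preimage, Φ.right_inv h2]
      exact hy
    · rintro x ⟨hx1, hx2⟩
      exact ⟨hx2, Φ.left_inv hx1⟩

end Pool.Agent.Lib.MP_a37012_nt
end

section

set_option autoImplicit false

open MeasureTheory Module

namespace Pool.Agent.Lib.MP_a37012_nt

lemma fin_fderiv_zero {d : ℕ} {T : (Fin d → ℝ) →L[ℝ] ℝ} (h : ∀ b, T (Pi.single b 1) = 0) :
    T = 0 := by
  apply ContinuousLinearMap.coe_injective
  apply (Pi.basisFun ℝ (Fin d)).ext
  intro b
  simpa using h b

/-- A function whose second derivatives vanish is affine on a ball. -/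
theorem fin_affine {d : ℕ} {V : Set (Fin d → ℝ)} (hV : IsOpen V) (hne : V.Nonempty)
    {h : (Fin d → ℝ) → ℝ} (hh : ContDiffOn ℝ (2 : ℕ) h V)
    (h2 : ∀ x ∈ V, ∀ a b, pds [a, b] h x = 0) :
    ∃ B ⊆ V, IsOpen B ∧ B.Nonempty ∧ ∃ (α : Fin d → ℝ) (c : ℝ), ∀ y ∈ B,
      h y = ∑ b, α b * y b + c := by
  obtain ⟨y0, hy0⟩ := hne
  obtain ⟨r, hr, hball⟩ := Metric.isOpen_iff.mp hV y0 hy0
  have hdiff : ∀ y ∈ V, DifferentiableAt ℝ h y := fun y hy =>
    (hh.differentiableOn (by norm_num)).differentiableAt (hV.mem_nhds hy)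
  have hpd : ∀ b, ∀ y ∈ V, DifferentiableAt ℝ (pd b h) y := by
    intro b y hy
    have h3 : ContDiffOn ℝ ((1 : ℕ) : WithTop ℕ∞) (pds [b] h) V :=
      gen_pds_contDiffOn hV [b] 1 h hh
    exact (h3.differentiableOn (by norm_num)).differentiableAt (hV.mem_nhds hy)
  have hconst : ∀ b, ∀ y ∈ Metric.ball y0 r, pd b h y = pd b h y0 := by
    intro b y hy
    have hd : DifferentiableOn ℝ (pd b h) (Metric.ball y0 r) := fun y hy =>
      (hpd b y (hball hy)).differentiableWithinAt
    have hz : ∀ y ∈ Metric.ball y0 r, fderiv ℝ (pd b h) y = 0 := by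
      intro y hy
      exact fin_fderiv_zero fun a => h2 y (hball hy) a b
    exact Metric.isOpen_ball.is_const_of_fderiv_eq_zero
      (convex_ball y0 r).isPreconnected hd hz hy (Metric.mem_ball_self hr)
  set α : Fin d → ℝ := fun b => pd b h y0 with hα
  set L : (Fin d → ℝ) →L[ℝ] ℝ := ∑ b, α b • ContinuousLinearMap.proj b with hL
  have hLa : ∀ y, L y = ∑ b, α b * y b := by
    intro y
    rw [hL]
    simp
  refine ⟨Metric.ball y0 r, hball, Metric.isOpen_ball, ⟨y0, Metric.mem_ball_self hr⟩, α,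
    h y0 - L y0, ?_⟩
  intro y hy
  have hd : DifferentiableOn ℝ (fun y => h y - L y) (Metric.ball y0 r) := fun y hy =>
    ((hdiff y (hball hy)).sub L.differentiableAt).differentiableWithinAt
  have hz : ∀ y ∈ Metric.ball y0 r, fderiv ℝ (fun y => h y - L y) y = 0 := by
    intro y hy
    refine fin_fderiv_zero fun b => ?_
    rw [fderiv_fun_sub (hdiff y (hball hy)) L.differentiableAt, L.fderiv]
    have h3 := hconst b y hy
    have h4 : L (Pi.single b 1) = α b := by
      rw [hLa]
      simp [Pi.single_apply]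
    have h5 : fderiv ℝ h y (Pi.single b 1) = α b := h3
    rw [_root_.sub_apply, h5, h4, sub_self]
  have h6 := Metric.isOpen_ball.is_const_of_fderiv_eq_zero
      (convex_ball y0 r).isPreconnected hd hz hy (Metric.mem_ball_self hr)
  rw [← hLa]
  linarith

/-- Derivatives of a locally constant function. -/
theorem fin_iter_zero {d n l : ℕ} {f : EuclideanSpace ℝ (Fin d) → EuclideanSpace ℝ (Fin n)}
    {O : Set (EuclideanSpace ℝ (Fin d))} (hO : IsOpen O)
    (hf : ∀ x ∈ O, ContDiffAt ℝ (l : ℕ) f x) (ℓ : EuclideanSpace ℝ (Fin n) →L[ℝ] ℝ) (c : ℝ)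
    (hc : ∀ x ∈ O, ℓ (f x) = c) {x : EuclideanSpace ℝ (Fin d)} (hx : x ∈ O) {k : ℕ} (hk : 1 ≤ k)
    (hkl : k ≤ l) (w : Fin k → EuclideanSpace ℝ (Fin d)) : ℓ (iteratedFDeriv ℝ k f x w) = 0 := by
  have h1 : iteratedFDeriv ℝ k (ℓ ∘ f) x = ℓ.compContinuousMultilinearMap (iteratedFDeriv ℝ k f x) :=
    ℓ.iteratedFDeriv_comp_left (hf x hx) (by exact_mod_cast hkl)
  have h2 : (ℓ ∘ f) =ᶠ[nhds x] fun _ => c := by
    filter_upwards [hO.mem_nhds hx] with y hy using hc y hy
  have h3 : iteratedFDeriv ℝ k (ℓ ∘ f) x = 0 := by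
    rw [(Filter.EventuallyEq.iteratedFDeriv ℝ h2 k).eq_of_nhds,
      iteratedFDeriv_const_of_ne (by omega)]
    rfl
  rw [h1] at h3
  have h4 := congrArg (fun T => T w) h3
  simpa using h4

end Pool.Agent.Lib.MP_a37012_nt
end

section

set_option autoImplicit false

open MeasureTheory Module

namespace Pool.Agent.Lib.MP_a37012_nt

/-- A small dyadic cube around a point of an open set. -/
theorem fin_cube {d : ℕ} {V : Set (Fin d → ℝ)} (hV : IsOpen V) {y : Fin d → ℝ} (hy : y ∈ V) :
    ∃ (j : ℕ) (k : Fin d → ℤ), closure (cube j k) ⊆ V ∧ IsCompact (closure (cube j k)) := by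
  obtain ⟨ε, hε, hball⟩ := Metric.isOpen_iff.mp hV y hy
  obtain ⟨j, hj⟩ := exists_pow_lt_of_lt_one hε (show (1 / 2 : ℝ) < 1 by norm_num)
  set k : Fin d → ℤ := fun i => ⌊y i * 2 ^ j⌋ with hk
  have h2 : (0 : ℝ) < 2 ^ j := by positivity
  have hsub : cube j k ⊆ Metric.closedBall y ((1 / 2) ^ j) := by
    intro x hx
    rw [Metric.mem_closedBall, dist_pi_le_iff (by positivity)]
    intro i
    obtain ⟨h3, h4⟩ := hx i
    have h5 : (k i : ℝ) ≤ y i * 2 ^ j := Int.floor_le _
    have h6 : y i * 2 ^ j < k i + 1 := Int.lt_floor_add_one _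
    rw [div_le_iff₀ h2] at h3
    rw [lt_div_iff₀ h2] at h4
    have h7 : ((1 / 2 : ℝ)) ^ j = 1 / 2 ^ j := by rw [div_pow, one_pow]
    have h8 : |x i - y i| * 2 ^ j = |(x i - y i) * 2 ^ j| := by rw [abs_mul, abs_of_pos h2]
    rw [Real.dist_eq, h7, le_div_iff₀ h2, h8, abs_le]
    constructor <;> linarith
  have hsub' : closure (cube j k) ⊆ Metric.closedBall y ((1 / 2) ^ j) :=
    closure_minimal hsub Metric.isClosed_closedBall
  refine ⟨j, k, ?_, (isCompact_closedBall y _).of_isClosed_subset isClosed_closure hsub'⟩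
  refine hsub'.trans (Set.Subset.trans ?_ hball)
  exact Metric.closedBall_subset_ball hj

/-- A uniform lower bound for a continuous family of invertible matrices on a compact set. -/
theorem fin_lower {d m : ℕ} (hm : 1 ≤ m) {K : Set (Fin d → ℝ)} (hK : IsCompact K)
    {N : (Fin d → ℝ) → Matrix (Fin m) (Fin m) ℝ}
    (hN : ∀ s j, ContinuousOn (fun x => N x s j) K) (hdet : ∀ x ∈ K, (N x).det ≠ 0) :
    ∃ c₀ : ℝ, 0 < c₀ ∧ ∀ x ∈ K, ∀ z : Fin m → ℝ, ∃ s, c₀ * ‖z‖ ≤ |∑ j, z j * N x s j| := by
  have hne : ∀ x ∈ K, ∀ z : Fin m → ℝ, z ≠ 0 → (fun s => ∑ j, z j * N x s j) ≠ 0 := by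
    intro x hx z hz h0
    apply hz
    apply Matrix.eq_zero_of_mulVec_eq_zero (hdet x hx)
    funext s
    have := congrFun h0 s
    simp only [Pi.zero_apply] at this
    simp only [Matrix.mulVec, dotProduct, Pi.zero_apply]
    rw [← this]
    exact Finset.sum_congr rfl fun j _ => mul_comm _ _
  have hc : ∃ c₀ : ℝ, 0 < c₀ ∧ ∀ x ∈ K, ∀ z : Fin m → ℝ, ‖z‖ = 1 →
      c₀ ≤ ‖(fun s => ∑ j, z j * N x s j)‖ := by
    rcases K.eq_empty_or_nonempty with h0 | ⟨x0, hx0⟩
    · exact ⟨1, one_pos, fun x hx => absurd (h0 ▸ hx) (Set.notMem_empty x)⟩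
    have hcomp : IsCompact (K ×ˢ Metric.sphere (0 : Fin m → ℝ) 1) :=
      hK.prod (isCompact_sphere 0 1)
    have hnon : (K ×ˢ Metric.sphere (0 : Fin m → ℝ) 1).Nonempty := by
      refine ⟨(x0, Pi.single ⟨0, by omega⟩ 1), hx0, ?_⟩
      rw [mem_sphere_zero_iff_norm, Pi.norm_single]
      norm_num
    have hcont : ContinuousOn (fun p : (Fin d → ℝ) × (Fin m → ℝ) =>
        ‖(fun s => ∑ j, p.2 j * N p.1 s j)‖) (K ×ˢ Metric.sphere (0 : Fin m → ℝ) 1) := by
      apply ContinuousOn.norm
      apply continuousOn_pi.mpr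
      intro s
      apply continuousOn_finsetSum
      intro j _
      apply ContinuousOn.mul
      · exact ((continuous_apply j).comp continuous_snd).continuousOn
      · exact (hN s j).comp continuous_fst.continuousOn fun p hp => hp.1
    obtain ⟨⟨x1, z1⟩, hp1, hmin⟩ := hcomp.exists_isMinOn hnon hcont
    refine ⟨‖(fun s => ∑ j, z1 j * N x1 s j)‖, ?_, ?_⟩
    · rw [norm_pos_iff]
      refine hne x1 hp1.1 z1 ?_
      intro h0
      have h1 : z1 ∈ Metric.sphere (0 : Fin m → ℝ) 1 := hp1.2
      rw [mem_sphere_zero_iff_norm, h0, norm_zero] at h1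
      exact zero_ne_one h1
    · intro x hx z hz
      have h1 := hmin (show (x, z) ∈ K ×ˢ Metric.sphere (0 : Fin m → ℝ) 1 from
        ⟨hx, by rw [mem_sphere_zero_iff_norm]; exact hz⟩)
      exact h1
  obtain ⟨c₀, hc0, hc1⟩ := hc
  refine ⟨c₀, hc0, ?_⟩
  intro x hx z
  by_cases hz : z = 0
  · refine ⟨⟨0, by omega⟩, ?_⟩
    rw [hz, norm_zero, mul_zero]
    exact abs_nonneg _
  have hz' : 0 < ‖z‖ := norm_pos_iff.mpr hz
  have h1 := hc1 x hx (‖z‖⁻¹ • z) (by
    rw [norm_smul, norm_inv, norm_norm, inv_mul_cancel₀ hz'.ne'])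
  have h2 : (fun s => ∑ j, (‖z‖⁻¹ • z) j * N x s j) = ‖z‖⁻¹ • (fun s => ∑ j, z j * N x s j) := by
    funext s
    rw [Pi.smul_apply, smul_eq_mul, Finset.mul_sum]
    refine Finset.sum_congr rfl fun j _ => ?_
    rw [Pi.smul_apply, smul_eq_mul, mul_assoc]
  rw [h2, norm_smul, norm_inv, norm_norm, ← div_eq_inv_mul, le_div_iff₀ hz'] at h1
  by_contra hcon
  push Not at hcon
  have h3 : ‖(fun s => ∑ j, z j * N x s j)‖ < c₀ * ‖z‖ := by
    rw [pi_norm_lt_iff (by positivity)]
    intro s
    rw [Real.norm_eq_abs]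
    exact hcon s
  linarith

lemma fin_norm_le {n : ℕ} {v : EuclideanSpace ℝ (Fin n)} {t : ℝ} (ht : 0 ≤ t) {m : ℕ}
    (hm : 1 ≤ m) (h : ∑ i, (v i) ^ 2 ≤ m * (t / m) ^ 2) : ‖v‖ ≤ t := by
  rw [EuclideanSpace.norm_eq]
  apply Real.sqrt_le_iff.mpr
  refine ⟨ht, ?_⟩
  have hm' : (1 : ℝ) ≤ m := by exact_mod_cast hm
  have h1 : ∑ i, ‖v i‖ ^ 2 = ∑ i, (v i) ^ 2 := by
    refine Finset.sum_congr rfl fun i _ => ?_
    rw [Real.norm_eq_abs, sq_abs]
  rw [h1]
  refine h.trans ?_
  have h2 : (m : ℝ) * (t / m) ^ 2 = t ^ 2 / m := by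
    field_simp
  rw [h2]
  exact div_le_self (sq_nonneg t) hm'

end Pool.Agent.Lib.MP_a37012_nt
end
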