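import Pool.Agent.Lib.MP_a37012_nt.Good
import Pool.Agent.Lib.MP_a37012_nt.Mg.G001
import Pool.Agent.Lib.MP_a37012_nt.Defs3

section

set_option autoImplicit false

open MeasureTheory MvPolynomial

namespace Pool.Agent.Lib.MP_a37012_nt

variable {d m : ℕ}

theorem det_UF (F : Fin m → (Fin d → ℝ) → ℝ) (x : Fin d → ℝ) : (UF F x).det = 1 := by
  classical
  have hbt : Matrix.BlockTriangular (UF F x) (fun a : Idx d m => cls a) := by
    intro a b hab
    rcases a with _ | (i | i) <;> rcases b with _ | (j | j) <;>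
      first
        | rfl
        | (simp [cls] at hab)
  rw [hbt.det]
  refine Finset.prod_eq_one fun a _ => ?_
  have : (UF F x).toSquareBlock (fun a : Idx d m => cls a) a = 1 := by
    ext ⟨s, hs⟩ ⟨t, ht⟩
    have hst : cls s = cls t := by rw [hs, ht]
    simp only [Matrix.toSquareBlock_def, Matrix.of_apply, Matrix.one_apply, Subtype.mk.injEq]
    rcases s with _ | (i | i) <;> rcases t with _ | (j | j) <;>
      first
        | rfl
        | (simp [cls] at hst; done)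
        | (simp [UF]; done)
  rw [this, Matrix.det_one]

theorem det_HF (F : Fin m → (Fin d → ℝ) → ℝ) (Q K T : ℝ) (x : Fin d → ℝ) :
    (HF F Q K T x).det = Q * (K⁻¹) ^ d * (T⁻¹) ^ m := by
  unfold HF
  rw [Matrix.det_mul_column, det_UF, mul_one, Fintype.prod_option, Fintype.prod_sum_type]
  simp only [wt, Finset.prod_const, Finset.card_univ, Fintype.card_fin]
  ring

theorem HF_mulVec_scale (F : Fin m → (Fin d → ℝ) → ℝ) (Q K T Q' K' T' : ℝ) (x : Fin d → ℝ)
    (c : Idx d m → ℝ) (a : Idx d m) (w : ℝ) (h : wt Q' K' T' a = w * wt Q K T a) :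
    (HF F Q' K' T' x).mulVec c a = w * (HF F Q K T x).mulVec c a := by
  simp only [Matrix.mulVec, dotProduct, Finset.mul_sum]
  refine Finset.sum_congr rfl fun b _ => ?_
  simp only [HF, Matrix.of_apply, h]
  ring

/-- Existence of a primal point with large denominator. -/
theorem primal (F : Fin m → (Fin d → ℝ) → ℝ) (ε A lam c₂ : ℝ) (hε : 0 < ε) (hA : 1 ≤ A)
    (hlam : 0 < lam) (hlam2 : lam ≤ (ε / (2 * (1 + d + m))) ^ (d + m) / (2 * A))
    (hc₂ : c₂ = A * lam ^ (1 + d + m)) (Q K T : ℝ) (hK : 0 < K) (hT : 0 < T)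
    (hQ : Q = K ^ d * T ^ m) (x : Fin d → ℝ)
    (hgood : ¬ ∃ c : Idx d m → ℤ, c ≠ 0 ∧
      ∀ a, |(HF F (c₂ * Q / lam) (lam * K) (lam * T) x).mulVec (fun b => (c b : ℝ)) a| < ε) :
    ∃ (q : ℤ) (a : Fin d → ℤ) (p : Fin m → ℤ), c₂ * Q ≤ q ∧ (q : ℝ) ≤ Q ∧
      (∀ i, |(a i : ℝ) - q * x i| ≤ 1 / K) ∧
      ∀ j, |(p j : ℝ) - q * F j x - ∑ i, pd i (F j) x * ((a i : ℝ) - q * x i)| ≤ 1 / T := by
  classical
  have hQ0 : 0 < Q := by rw [hQ]; positivity
  have hA0 : 0 < A := by linarith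
  have hc₂0 : 0 < c₂ := by rw [hc₂]; positivity
  have hdet : (HF F Q K T x).det = 1 := by
    rw [det_HF, hQ, inv_pow, inv_pow]
    field_simp
  set H := HF F Q K T x with hH
  have hunit : IsUnit H.det := by rw [hdet]; exact isUnit_one
  set G : Matrix (Idx d m) (Idx d m) ℝ := (H⁻¹).transpose with hG
  have hGdet : G.det = 1 := by
    rw [hG, Matrix.det_transpose, Matrix.det_nonsing_inv, hdet, Ring.inverse_one]
  obtain ⟨X₀, hX₀0, hX₀⟩ := minkowski_forms G (by rw [hGdet]; norm_num) (fun _ => 1)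
    (fun _ => one_pos) (by rw [hGdet]; simp)
  -- choose the sign
  obtain ⟨X, hX0, hX, hXpos⟩ : ∃ X : Idx d m → ℤ, X ≠ 0 ∧
      (∀ i, |G.mulVec (fun j => (X j : ℝ)) i| ≤ 1) ∧ 0 ≤ X none := by
    by_cases h : 0 ≤ X₀ none
    · exact ⟨X₀, hX₀0, hX₀, h⟩
    · refine ⟨-X₀, neg_ne_zero.mpr hX₀0, fun i => ?_, ?_⟩
      · have h1 : (fun j => ((-X₀) j : ℝ)) = -fun j => (X₀ j : ℝ) := by
          funext j; simp
        have h2 : (fun j => (((-X₀) j : ℤ) : ℝ)) = -fun j => (X₀ j : ℝ) := by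
          funext j; simp
        rw [h2, Matrix.mulVec_neg, Pi.neg_apply, abs_neg]
        exact hX₀ i
      · simp only [Pi.neg_apply]
        omega
  set Y : Idx d m → ℝ := G.mulVec (fun j => (X j : ℝ)) with hY
  have hXY : ∀ j, (X j : ℝ) = ∑ i, Y i * H i j := by
    intro j
    have h1 : H.transpose.mulVec Y = fun j => (X j : ℝ) := by
      rw [hY, Matrix.mulVec_mulVec, hG, ← Matrix.transpose_mul, Matrix.nonsing_inv_mul H hunit,
        Matrix.transpose_one, Matrix.one_mulVec]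
    have h2 := congrFun h1 j
    simp only [Matrix.mulVec, dotProduct, Matrix.transpose_apply] at h2
    rw [← h2]
    exact Finset.sum_congr rfl fun i _ => mul_comm _ _
  -- explicit formulas
  have hY0 : (X none : ℝ) = Y none * Q := by
    rw [hXY none, Fintype.sum_option, Fintype.sum_sum_type]
    simp [hH, HF, UF, wt]
  have hYa : ∀ a, (X (some (Sum.inl a)) : ℝ) = X none * x a + Y (some (Sum.inl a)) * K⁻¹ := by
    intro a
    rw [hXY (some (Sum.inl a)), Fintype.sum_option, Fintype.sum_sum_type, hY0]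
    have h1 : ∑ i, Y (some (Sum.inl i)) * H (some (Sum.inl i)) (some (Sum.inl a)) =
        Y (some (Sum.inl a)) * K⁻¹ := by
      rw [Finset.sum_eq_single a]
      · simp [hH, HF, UF, wt]
      · intro i _ hi
        simp [hH, HF, UF, hi]
      · simp
    rw [h1]
    simp [hH, HF, UF, wt]
    ring
  have hYj : ∀ j, (X (some (Sum.inr j)) : ℝ) = X none * F j x +
      (∑ i, Y (some (Sum.inl i)) * (K⁻¹ * pd i (F j) x)) + Y (some (Sum.inr j)) * T⁻¹ := by
    intro j
    rw [hXY (some (Sum.inr j)), Fintype.sum_option, Fintype.sum_sum_type, hY0]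
    have h1 : ∑ i, Y (some (Sum.inr i)) * H (some (Sum.inr i)) (some (Sum.inr j)) =
        Y (some (Sum.inr j)) * T⁻¹ := by
      rw [Finset.sum_eq_single j]
      · simp [hH, HF, UF, wt]
      · intro i _ hi
        simp [hH, HF, UF, hi]
      · simp
    rw [h1]
    have h2 : ∑ i, Y (some (Sum.inl i)) * H (some (Sum.inl i)) (some (Sum.inr j)) =
        ∑ i, Y (some (Sum.inl i)) * (K⁻¹ * pd i (F j) x) := by
      refine Finset.sum_congr rfl fun i _ => ?_
      simp [hH, HF, UF, wt]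
    rw [h2]
    simp [hH, HF, UF, wt]
    ring
  refine ⟨X none, fun a => X (some (Sum.inl a)), fun j => X (some (Sum.inr j)), ?_, ?_, ?_, ?_⟩
  · -- the denominator is large
    by_contra hcon
    push Not at hcon
    apply hgood
    set N : ℝ := 1 + d + m with hN
    have hN0 : 0 < N := by positivity
    set τ : ℝ := lam * ε / (2 * N) with hτ
    have hτ0 : 0 < τ := by positivity
    have hcard : Fintype.card (Idx d m) = 1 + d + m := by
      simp [Fintype.card_option, Fintype.card_sum]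
      ring
    set H₁ := HF F (c₂ * Q) K T x with hH₁
    have hdet₁ : H₁.det = c₂ := by
      have h1 : H₁.det = c₂ * H.det := by
        rw [hH₁, hH, det_HF, det_HF]; ring
      rw [h1, hdet, mul_one]
    set Y₁ : Idx d m → ℝ := Function.update Y none (Y none / c₂) with hY₁
    obtain ⟨c, hc0, hc⟩ := dual_vector H₁ (by rw [hdet₁]; exact hc₂0.ne') Y₁ X
      (fun j => by
        rw [hXY j]
        refine Finset.sum_congr rfl fun i _ => ?_
        by_cases hi : i = none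
        · subst hi
          rw [hY₁, Function.update_self, hH, hH₁]
          simp only [HF, Matrix.of_apply, wt]
          field_simp
        · rw [hY₁, Function.update_of_ne hi]
          rcases i with _ | (i | i)
          · exact absurd rfl hi
          · simp [hH, hH₁, HF, wt]
          · simp [hH, hH₁, HF, wt]) hX0
      (fun i => by
        by_cases hi : i = none
        · subst hi
          rw [hY₁, Function.update_self, abs_div, abs_of_pos hc₂0, div_le_one hc₂0]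
          have h1 : Y none = X none / Q := by
            rw [hY0]; field_simp
          rw [h1, abs_of_nonneg (by positivity), div_le_iff₀ hQ0]
          exact hcon.le
        · rw [hY₁, Function.update_of_ne hi]
          exact hX i) τ hτ0
      (by
        rw [hdet₁, abs_of_pos hc₂0, hcard, hc₂]
        have h1 : 1 + d + m - 1 = d + m := by omega
        rw [h1]
        have h2 : τ ^ (d + m) = lam ^ (d + m) * (ε / (2 * N)) ^ (d + m) := by
          rw [hτ, ← mul_pow]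
          congr 1
          ring
        rw [h2]
        have h3 : lam ^ (1 + d + m) = lam ^ (d + m) * lam := by
          rw [← pow_succ]; congr 1; omega
        rw [h3]
        calc A * (lam ^ (d + m) * lam)
            ≤ A * (lam ^ (d + m) * ((ε / (2 * N)) ^ (d + m) / (2 * A))) := by gcongr
          _ = 1 / 2 * (lam ^ (d + m) * (ε / (2 * N)) ^ (d + m)) := by field_simp)
    refine ⟨c, hc0, fun a => ?_⟩
    have h1 := hc a
    rw [hcard] at h1
    have hcast : ((1 + d + m : ℕ) : ℝ) = N := by rw [hN]; push_cast; ring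
    rw [hcast] at h1
    have hNτ : N * τ = lam * (ε / 2) := by rw [hτ]; field_simp
    rw [hNτ] at h1
    have h2 : wt (c₂ * Q / lam) (lam * K) (lam * T) a = 1 / lam * wt (c₂ * Q) K T a := by
      rcases a with _ | (i | i)
      · simp only [wt]; ring
      · simp only [wt]; rw [mul_inv]; ring
      · simp only [wt]; rw [mul_inv]; ring
    rw [HF_mulVec_scale F (c₂ * Q) K T _ _ _ x _ a _ h2, abs_mul, abs_of_pos (by positivity)]
    calc 1 / lam * |H₁.mulVec (fun b => (c b : ℝ)) a| ≤ 1 / lam * (lam * (ε / 2)) := by gcongr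
      _ = ε / 2 := by field_simp
      _ < ε := by linarith
  · have h1 := hX none
    rw [hY0]
    have h2 := (abs_le.mp h1).2
    nlinarith
  · intro i
    have h1 := hX (some (Sum.inl i))
    rw [hYa i]
    have h2 : (X none : ℝ) * x i + Y (some (Sum.inl i)) * K⁻¹ - X none * x i =
        Y (some (Sum.inl i)) * K⁻¹ := by ring
    rw [h2, abs_mul, abs_of_pos (inv_pos.mpr hK), one_div]
    calc |Y (some (Sum.inl i))| * K⁻¹ ≤ 1 * K⁻¹ := by gcongr
      _ = K⁻¹ := one_mul _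
  · intro j
    have h1 := hX (some (Sum.inr j))
    have h2 : (X (some (Sum.inr j)) : ℝ) - X none * F j x -
        ∑ i, pd i (F j) x * ((X (some (Sum.inl i)) : ℝ) - X none * x i) =
        Y (some (Sum.inr j)) * T⁻¹ := by
      rw [hYj j]
      have h3 : ∑ i, pd i (F j) x * ((X (some (Sum.inl i)) : ℝ) - X none * x i) =
          ∑ i, Y (some (Sum.inl i)) * (K⁻¹ * pd i (F j) x) := by
        refine Finset.sum_congr rfl fun i _ => ?_
        rw [hYa i]; ring
      rw [h3]; ring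
    rw [h2, abs_mul, abs_of_pos (inv_pos.mpr hT), one_div]
    calc |Y (some (Sum.inr j))| * T⁻¹ ≤ 1 * T⁻¹ := by gcongr
      _ = T⁻¹ := one_mul _

end Pool.Agent.Lib.MP_a37012_nt
end

section

/-!
# Counting integer points in a translated box (averaging argument)
-/

set_option autoImplicit false

open MeasureTheory

namespace Pool.Agent.Lib.MP_a37012_nt

section countbox

variable {ι : Type} [Fintype ι]

/-- The half-open unit cube. -/
def cb_Q (ι : Type) : Set (ι → ℝ) := Set.pi Set.univ fun _ => Set.Ico (0 : ℝ) 1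

theorem cb_measQ : MeasurableSet (cb_Q ι) :=
  MeasurableSet.univ_pi fun _ => measurableSet_Ico

theorem cb_volQ : volume (cb_Q ι) = 1 := by
  unfold cb_Q
  rw [volume_pi_pi]
  simp

/-- The integer translates of a set intersected with the unit cube. -/
theorem cb_sum (E : Set (ι → ℝ)) (hE : MeasurableSet E) :
    ∑' v : ι → ℤ, volume ({x | (fun i => (v i : ℝ)) + x ∈ E} ∩ cb_Q ι) = volume E := by
  classical
  set T : (ι → ℤ) → Set (ι → ℝ) := fun v => {y | y ∈ E ∧ ∀ i, ⌊y i⌋ = v i} with hT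
  have hTm : ∀ v, MeasurableSet (T v) := by
    intro v
    have e : T v = E ∩ ⋂ i, (fun y : ι → ℝ => ⌊y i⌋) ⁻¹' {v i} := by
      ext y
      simp [hT]
    rw [e]
    exact hE.inter (MeasurableSet.iInter fun i =>
      ((measurable_pi_apply i).floor) (measurableSet_singleton _))
  have hdisj : Pairwise (Function.onFun Disjoint T) := by
    intro v w hvw
    rw [Function.onFun, Set.disjoint_left]
    rintro y ⟨-, h1⟩ ⟨-, h2⟩
    exact hvw (funext fun i => (h1 i).symm.trans (h2 i))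
  have hun : ⋃ v, T v = E := by
    ext y
    simp only [hT, Set.mem_iUnion, Set.mem_ofPred_eq]
    constructor
    · rintro ⟨v, h, -⟩
      exact h
    · intro h
      exact ⟨fun i => ⌊y i⌋, h, fun i => rfl⟩
  rw [← hun, measure_iUnion hdisj hTm]
  refine tsum_congr fun v => ?_
  have e2 : {x | (fun i => (v i : ℝ)) + x ∈ ⋃ v, T v} ∩ cb_Q ι =
      (fun x => (fun i => (v i : ℝ)) + x) ⁻¹' (T v) := by
    rw [hun]
    ext x
    simp only [hT, cb_Q, Set.mem_inter_iff, Set.mem_ofPred_eq, Set.mem_pi, Set.mem_univ,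
      true_implies, Set.mem_Ico, Set.mem_preimage, Pi.add_apply]
    refine and_congr_right fun _ => forall_congr' fun i => ?_
    rw [Int.floor_eq_iff]
    constructor
    · rintro ⟨h1, h2⟩
      exact ⟨by linarith, by linarith⟩
    · rintro ⟨h1, h2⟩
      exact ⟨by linarith, by linarith⟩
  rw [e2, measure_preimage_add]

/-- An averaging argument over integer translates. -/
theorem cb_average (E : Set (ι → ℝ)) (hE : MeasurableSet E) (hfin : volume E ≠ ⊤) :
    ∃ x : ι → ℝ, volume E ≤ ∑' v : ι → ℤ, E.indicator (fun _ => (1 : ENNReal))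
      ((fun i => (v i : ℝ)) + x) := by
  classical
  have : IsProbabilityMeasure (volume.restrict (cb_Q ι)) := by
    constructor
    rw [Measure.restrict_apply_univ, cb_volQ]
  have hint : ∫⁻ x, (∑' v : ι → ℤ, E.indicator (fun _ => (1 : ENNReal))
      ((fun i => (v i : ℝ)) + x)) ∂(volume.restrict (cb_Q ι)) = volume E := by
    have hm : ∀ v : ι → ℤ, Measurable fun x : ι → ℝ =>
        E.indicator (fun _ => (1 : ENNReal)) ((fun i => (v i : ℝ)) + x) := by
      intro v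
      exact (measurable_const.indicator hE).comp (measurable_const_add _)
    rw [lintegral_tsum fun v => (hm v).aemeasurable, ← cb_sum E hE]
    refine tsum_congr fun v => ?_
    have e1 : (fun x : ι → ℝ => E.indicator (fun _ => (1 : ENNReal))
        ((fun i => (v i : ℝ)) + x)) =
        ({x | (fun i => (v i : ℝ)) + x ∈ E}).indicator (fun _ => (1 : ENNReal)) := by
      funext x
      simp only [Set.indicator, Set.mem_ofPred_eq]
    have hms : MeasurableSet {x : ι → ℝ | (fun i => (v i : ℝ)) + x ∈ E} :=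
      (measurable_const_add (fun i => (v i : ℝ))) hE
    rw [e1, lintegral_indicator hms, lintegral_const, one_mul, Measure.restrict_apply_univ,
      Measure.restrict_apply hms]
  obtain ⟨x, hx⟩ := exists_lintegral_le (μ := volume.restrict (cb_Q ι))
    (f := fun x => ∑' v : ι → ℤ, E.indicator (fun _ => (1 : ENNReal))
      ((fun i => (v i : ℝ)) + x)) (by rw [hint]; exact hfin)
  exact ⟨x, by rwa [hint] at hx⟩

/-- A set with many integer translates: finite version. -/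
theorem cb_finset (E : Set (ι → ℝ)) (hE : MeasurableSet E) (hfin : volume E ≠ ⊤) (c : ℝ)
    (hc : ENNReal.ofReal c ≤ volume E) :
    ∃ (x : ι → ℝ) (S : Finset (ι → ℤ)), (∀ v ∈ S, (fun i => (v i : ℝ)) + x ∈ E) ∧
      c ≤ S.card := by
  classical
  obtain ⟨x, hx⟩ := cb_average E hE hfin
  refine ⟨x, ?_⟩
  by_cases hf : {v : ι → ℤ | (fun i => (v i : ℝ)) + x ∈ E}.Finite
  · refine ⟨hf.toFinset, fun v hv => by simpa using hv, ?_⟩
    have h1 : ∑' v : ι → ℤ, E.indicator (fun _ => (1 : ENNReal)) ((fun i => (v i : ℝ)) + x) =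
        (hf.toFinset.card : ENNReal) := by
      rw [tsum_eq_sum (s := hf.toFinset)]
      · rw [Finset.sum_congr rfl (g := fun _ => (1 : ENNReal))]
        · simp
        · intro v hv
          have hv' : (fun i => (v i : ℝ)) + x ∈ E := by simpa using hv
          rw [Set.indicator_of_mem hv']
      · intro v hv
        have hv' : (fun i => (v i : ℝ)) + x ∉ E := by simpa using hv
        rw [Set.indicator_of_notMem hv']
    have h2 : ENNReal.ofReal c ≤ (hf.toFinset.card : ENNReal) := by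
      rw [← h1]
      exact hc.trans hx
    have h3 : ENNReal.ofReal c ≤ ENNReal.ofReal (hf.toFinset.card : ℝ) := by
      rwa [ENNReal.ofReal_natCast]
    exact (ENNReal.ofReal_le_ofReal_iff (by positivity)).mp h3
  · obtain ⟨S, hS, hcard⟩ := Set.Infinite.exists_subset_card_eq hf ⌈c⌉₊
    refine ⟨S, fun v hv => hS hv, ?_⟩
    rw [hcard]
    exact Nat.le_ceil c

end countbox

theorem count_box (ι : Type) [Fintype ι] [DecidableEq ι] (i₀ : ι) (G : Matrix ι ι ℝ)
    (hG : G.det ≠ 0)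
    (hcov : ∀ y : ι → ℝ, ∃ v : ι → ℤ, ∀ i, |G.mulVec (fun b => y b - v b) i| ≤ 1 / 8) :
    ∃ S : Finset (ι → ℤ), (∀ v ∈ S, 1 / 2 ≤ G.mulVec (fun b => (v b : ℝ)) i₀ ∧
      ∀ i, |G.mulVec (fun b => (v b : ℝ)) i| ≤ 1) ∧ 1 / (4 * |G.det|) ≤ S.card := by
  classical
  set lo : ι → ℝ := fun i => if i = i₀ then 5 / 8 else -(7 / 8) with hlo
  set hi : ι → ℝ := fun _ => 7 / 8 with hhi
  set S₀ : Set (ι → ℝ) := Set.Icc lo hi with hS0
  have hnn : ∀ i, 0 ≤ hi i - lo i := by
    intro i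
    simp only [hlo, hhi]
    split_ifs <;> norm_num
  have hvolS : ENNReal.ofReal (1 / 4) ≤ volume S₀ := by
    rw [hS0, Real.volume_Icc_pi, ← ENNReal.ofReal_prod_of_nonneg fun i _ => hnn i]
    apply ENNReal.ofReal_le_ofReal
    rw [← Finset.mul_prod_erase Finset.univ _ (Finset.mem_univ i₀)]
    have h1 : hi i₀ - lo i₀ = 1 / 4 := by
      simp only [hlo, hhi, if_true]
      norm_num
    have h2 : ∏ _i ∈ Finset.univ.erase i₀, (1 : ℝ) ≤ ∏ i ∈ Finset.univ.erase i₀, (hi i - lo i) := by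
      apply Finset.prod_le_prod
      · intro i _
        norm_num
      · intro i hi0
        simp only [hlo, hhi, if_neg (Finset.ne_of_mem_erase hi0)]
        norm_num
    rw [Finset.prod_const_one] at h2
    rw [h1]
    linarith
  have hfinS : volume S₀ ≠ ⊤ := by
    rw [hS0, Real.volume_Icc_pi]
    exact ENNReal.prod_ne_top fun i _ => ENNReal.ofReal_ne_top
  have hdet : LinearMap.det (Matrix.toLin' G) ≠ 0 := by
    rwa [LinearMap.det_toLin']
  set E : Set (ι → ℝ) := (Matrix.toLin' G) ⁻¹' S₀ with hE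
  have hvolE : volume E = ENNReal.ofReal |(G.det)⁻¹| * volume S₀ := by
    rw [hE, Measure.addHaar_preimage_linearMap volume hdet, LinearMap.det_toLin']
  have hEm : MeasurableSet E :=
    (LinearMap.continuous_on_pi (Matrix.toLin' G)).measurable measurableSet_Icc
  have hEfin : volume E ≠ ⊤ := by
    rw [hvolE]
    exact ENNReal.mul_ne_top ENNReal.ofReal_ne_top hfinS
  have hEc : ENNReal.ofReal (1 / (4 * |G.det|)) ≤ volume E := by
    rw [hvolE]
    have e : 1 / (4 * |G.det|) = |(G.det)⁻¹| * (1 / 4) := by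
      rw [abs_inv]
      have : |G.det| ≠ 0 := abs_ne_zero.mpr hG
      field_simp
    rw [e, ENNReal.ofReal_mul (abs_nonneg _)]
    exact mul_le_mul_right hvolS _
  obtain ⟨x, S, hS, hcard⟩ := cb_finset E hEm hEfin _ hEc
  obtain ⟨v₀, hv₀⟩ := hcov (-x)
  refine ⟨S.image fun v => v - v₀, ?_, ?_⟩
  · intro w hw
    obtain ⟨v, hv, rfl⟩ := Finset.mem_image.mp hw
    have h1 : (Matrix.toLin' G) ((fun i => (v i : ℝ)) + x) ∈ S₀ := hS v hv
    rw [Matrix.toLin'_apply] at h1
    have e : (fun b => (((v - v₀) b : ℤ) : ℝ)) =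
        ((fun i => (v i : ℝ)) + x) + (fun b => (-x) b - v₀ b) := by
      funext b
      simp only [Pi.sub_apply, Pi.add_apply, Pi.neg_apply, Int.cast_sub]
      ring
    rw [e, Matrix.mulVec_add]
    have hlow := fun i => h1.1 i
    have hup := fun i => h1.2 i
    constructor
    · have h2 := hlow i₀
      have h3 := (abs_le.mp (hv₀ i₀)).1
      simp only [hlo, if_true] at h2
      rw [Pi.add_apply]
      linarith
    · intro i
      have h2 := hlow i
      have h3 := hup i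
      have h4 := abs_le.mp (hv₀ i)
      have h5 : -(7 / 8 : ℝ) ≤ lo i := by
        simp only [hlo]
        split_ifs <;> norm_num
      simp only [hhi] at h3
      rw [Pi.add_apply, abs_le]
      constructor <;> linarith [h4.1, h4.2]
  · rw [Finset.card_image_of_injective _ (sub_left_injective)]
    exact hcard

end Pool.Agent.Lib.MP_a37012_nt
end

section

/-!
# Covering radius and dual vectors
-/

set_option autoImplicit false

open MeasureTheory MvPolynomial

namespace Pool.Agent.Lib.MP_a37012_nt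

/-- Projection to the orthogonal complement of a vector. -/
noncomputable def cv_proj {E : Type} [NormedAddCommGroup E] [InnerProductSpace ℝ E] (w : E)
    (hw : w ≠ 0) : E →ₗ[ℝ] (ℝ ∙ w)ᗮ :=
  LinearMap.codRestrict (ℝ ∙ w)ᗮ
    (LinearMap.id - ((innerSL ℝ w).toLinearMap.smulRight ((‖w‖ ^ 2)⁻¹ • w))) (by
      intro x
      rw [Submodule.mem_orthogonal_singleton_iff_inner_right]
      have h : ‖w‖ ^ 2 ≠ 0 := by positivity
      simp [inner_sub_right, inner_smul_right]
      field_simp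
      ring)

section

variable {E : Type} [NormedAddCommGroup E] [InnerProductSpace ℝ E]

theorem cv_proj_apply (w : E) (hw : w ≠ 0) (x : E) :
    (cv_proj w hw x : E) = x - (inner ℝ w x / ‖w‖ ^ 2) • w := by
  simp [cv_proj, smul_smul, div_eq_mul_inv]

theorem cv_inner_orth (w : E) (x : (ℝ ∙ w)ᗮ) : inner ℝ w (x : E) = 0 :=
  Submodule.mem_orthogonal_singleton_iff_inner_right.1 x.2

theorem cv_inner_proj (w : E) (hw : w ≠ 0) (u : E) (x : (ℝ ∙ w)ᗮ) :
    inner ℝ u (x : E) = inner ℝ (cv_proj w hw u) x := by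
  rw [Submodule.coe_inner, cv_proj_apply, inner_sub_left, inner_smul_left, cv_inner_orth]
  simp

theorem cv_proj_self (w : E) (hw : w ≠ 0) : cv_proj w hw w = 0 := by
  apply Subtype.ext
  rw [cv_proj_apply]
  have h : ‖w‖ ^ 2 ≠ 0 := by positivity
  rw [real_inner_self_eq_norm_sq, div_self h]
  simp

theorem cv_proj_orth (w : E) (hw : w ≠ 0) (x : (ℝ ∙ w)ᗮ) : cv_proj w hw (x : E) = x := by
  apply Subtype.ext
  rw [cv_proj_apply, cv_inner_orth]
  simp

theorem cv_norm_sq (w : E) (hw : w ≠ 0) (x : E) :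
    ‖x‖ ^ 2 = ‖cv_proj w hw x‖ ^ 2 + (inner ℝ w x) ^ 2 / ‖w‖ ^ 2 := by
  have h : ‖w‖ ^ 2 ≠ 0 := by positivity
  have h1 : ‖(cv_proj w hw x : E)‖ ^ 2 = ‖x‖ ^ 2 - (inner ℝ w x) ^ 2 / ‖w‖ ^ 2 := by
    rw [cv_proj_apply, norm_sub_sq_real, inner_smul_right, norm_smul, mul_pow,
      real_inner_comm x w, Real.norm_eq_abs, sq_abs]
    field_simp
    ring
  rw [Submodule.norm_coe] at h1
  rw [h1]
  ring

omit [InnerProductSpace ℝ E] in
/-- An almost shortest vector. -/
theorem cv_short (M : Submodule ℤ E) (C : ℝ) (hC : 0 < C) (hM : ∀ w ∈ M, w ≠ 0 → C ≤ ‖w‖)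
    (w₀ : E) (h₀ : w₀ ∈ M) (h₀' : w₀ ≠ 0) :
    ∃ w ∈ M, w ≠ 0 ∧ ∀ u ∈ M, u ≠ 0 → ‖w‖ ≤ 11 / 10 * ‖u‖ := by
  set S : Set ℝ := {r | ∃ u ∈ M, u ≠ 0 ∧ ‖u‖ = r} with hS
  have hbd : BddBelow S := ⟨C, by rintro r ⟨u, hu, hu', rfl⟩; exact hM u hu hu'⟩
  have hne : S.Nonempty := ⟨‖w₀‖, w₀, h₀, h₀', rfl⟩
  have hC' : C ≤ sInf S := le_csInf hne (by rintro r ⟨u, hu, hu', rfl⟩; exact hM u hu hu')
  have hlt : sInf S < 11 / 10 * sInf S := by linarith
  obtain ⟨r, ⟨w, hw, hw', rfl⟩, hr⟩ := exists_lt_of_csInf_lt hne hlt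
  refine ⟨w, hw, hw', fun u hu hu' => ?_⟩
  have : sInf S ≤ ‖u‖ := csInf_le hbd ⟨u, hu, hu', rfl⟩
  linarith

/-- Subtract the nearest multiple. -/
theorem cv_round (M : Submodule ℤ E) (w : E) (hw : w ≠ 0) (hwM : w ∈ M) (u : E) (hu : u ∈ M) :
    ∃ k : ℤ, u - (k : ℝ) • w ∈ M ∧ (inner ℝ w (u - (k : ℝ) • w)) ^ 2 ≤ ‖w‖ ^ 4 / 4 := by
  have h : ‖w‖ ^ 2 ≠ 0 := by positivity
  refine ⟨round (inner ℝ w u / ‖w‖ ^ 2), ?_, ?_⟩
  · have : ((round (inner ℝ w u / ‖w‖ ^ 2) : ℤ) : ℝ) • w =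
        (round (inner ℝ w u / ‖w‖ ^ 2) : ℤ) • w := Int.cast_smul_eq_zsmul ℝ _ w
    rw [this]
    exact M.sub_mem hu (M.smul_mem _ hwM)
  · rw [inner_sub_right, inner_smul_right, real_inner_self_eq_norm_sq]
    have h1 := abs_sub_round (inner ℝ w u / ‖w‖ ^ 2)
    have h2 : inner ℝ w u - (round (inner ℝ w u / ‖w‖ ^ 2) : ℝ) * ‖w‖ ^ 2 =
        (inner ℝ w u / ‖w‖ ^ 2 - round (inner ℝ w u / ‖w‖ ^ 2)) * ‖w‖ ^ 2 := by
      field_simp
    rw [h2, mul_pow, ← sq_abs (inner ℝ w u / ‖w‖ ^ 2 - _)]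
    have h3 : |inner ℝ w u / ‖w‖ ^ 2 - round (inner ℝ w u / ‖w‖ ^ 2)| ^ 2 ≤ (1 / 2) ^ 2 :=
      pow_le_pow_left₀ (abs_nonneg _) h1 2
    have h4 : 0 ≤ (‖w‖ ^ 2) ^ 2 := by positivity
    calc _ ≤ (1 / 2) ^ 2 * (‖w‖ ^ 2) ^ 2 := mul_le_mul_of_nonneg_right h3 h4
      _ = ‖w‖ ^ 4 / 4 := by ring

theorem cv_proj_sub (w : E) (hw : w ≠ 0) (u : E) (k : ℝ) :
    cv_proj w hw (u - k • w) = cv_proj w hw u := by
  rw [map_sub, map_smul, cv_proj_self]
  simp

/-- Projections of lattice vectors are long. -/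
theorem cv_proj_long (M : Submodule ℤ E) (w : E) (hw : w ≠ 0) (hwM : w ∈ M)
    (hs : ∀ u ∈ M, u ≠ 0 → ‖w‖ ≤ 11 / 10 * ‖u‖) (u : E) (hu : u ∈ M) (hp : cv_proj w hw u ≠ 0) :
    ‖w‖ / 2 ≤ ‖cv_proj w hw u‖ := by
  obtain ⟨k, hk, hk2⟩ := cv_round M w hw hwM u hu
  have hwp : 0 < ‖w‖ := norm_pos_iff.2 hw
  have hne : u - (k : ℝ) • w ≠ 0 := by
    intro h0
    apply hp
    rw [← cv_proj_sub w hw u k, h0, map_zero]
  have h1 := hs _ hk hne
  have h2 := cv_norm_sq w hw (u - (k : ℝ) • w)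
  rw [cv_proj_sub] at h2
  have h3 : ‖w‖ ^ 2 ≤ (11 / 10) ^ 2 * ‖u - (k : ℝ) • w‖ ^ 2 := by
    rw [← mul_pow]
    exact pow_le_pow_left₀ hwp.le h1 2
  have h4 : (inner ℝ w (u - (k : ℝ) • w)) ^ 2 / ‖w‖ ^ 2 ≤ ‖w‖ ^ 2 / 4 := by
    rw [div_le_iff₀ (by positivity)]
    calc _ ≤ _ := hk2
      _ = ‖w‖ ^ 2 / 4 * ‖w‖ ^ 2 := by ring
  by_contra hcon
  push Not at hcon
  have h5 := norm_nonneg (cv_proj w hw u)
  have h6 : ‖cv_proj w hw u‖ ^ 2 ≤ (‖w‖ / 2) ^ 2 := pow_le_pow_left₀ h5 hcon.le 2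
  nlinarith

/-- Lattice vectors with zero projection are multiples. -/
theorem cv_ker (M : Submodule ℤ E) (w : E) (hw : w ≠ 0) (hwM : w ∈ M)
    (hs : ∀ u ∈ M, u ≠ 0 → ‖w‖ ≤ 11 / 10 * ‖u‖) (u : E) (hu : u ∈ M) (hp : cv_proj w hw u = 0) :
    ∃ k : ℤ, u = (k : ℝ) • w := by
  obtain ⟨k, hk, hk2⟩ := cv_round M w hw hwM u hu
  have hwp : 0 < ‖w‖ := norm_pos_iff.2 hw
  refine ⟨k, ?_⟩
  by_contra hne
  have hne' : u - (k : ℝ) • w ≠ 0 := fun h => hne (sub_eq_zero.1 h)
  have h1 := hs _ hk hne'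
  have h2 := cv_norm_sq w hw (u - (k : ℝ) • w)
  rw [cv_proj_sub, hp, norm_zero] at h2
  have h3 : ‖w‖ ^ 2 ≤ (11 / 10) ^ 2 * ‖u - (k : ℝ) • w‖ ^ 2 := by
    rw [← mul_pow]
    exact pow_le_pow_left₀ hwp.le h1 2
  have h4 : (inner ℝ w (u - (k : ℝ) • w)) ^ 2 / ‖w‖ ^ 2 ≤ ‖w‖ ^ 2 / 4 := by
    rw [div_le_iff₀ (by positivity)]
    calc _ ≤ _ := hk2
      _ = ‖w‖ ^ 2 / 4 * ‖w‖ ^ 2 := by ring
  have h5 : 0 < ‖w‖ ^ 2 := by positivity
  nlinarith

end

/-- The discreteness of a submodule without short vectors. -/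
theorem cv_discrete {E : Type} [NormedAddCommGroup E] (M : Submodule ℤ E) (C : ℝ) (hC : 0 < C)
    (hM : ∀ w ∈ M, w ≠ 0 → C ≤ ‖w‖) : DiscreteTopology M := by
  apply DiscreteTopology.of_forall_le_dist hC
  intro x y hxy
  have h1 : (x : E) - y ∈ M := M.sub_mem x.2 y.2
  have h2 : (x : E) - y ≠ 0 := fun h => hxy (Subtype.ext (sub_eq_zero.1 h))
  have h3 := hM _ h1 h2
  rw [← dist_eq_norm] at h3
  exact h3

/-- A dual vector pairing to one with the shortest vector. -/
theorem cv_dual {E : Type} [NormedAddCommGroup E] [InnerProductSpace ℝ E]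
    [FiniteDimensional ℝ E] (M : Submodule ℤ E) (hsp : Submodule.span ℝ (M : Set E) = ⊤)
    (w : E) (hw : w ≠ 0) (hwM : w ∈ M) (hs : ∀ u ∈ M, u ≠ 0 → ‖w‖ ≤ 11 / 10 * ‖u‖) :
    ∃ x : E, inner ℝ w x = 1 ∧ ∀ u ∈ M, ∃ k : ℤ, inner ℝ u x = k := by
  have hwp : 0 < ‖w‖ := norm_pos_iff.2 hw
  set p : E →ₗ[ℤ] (ℝ ∙ w)ᗮ := (cv_proj w hw).restrictScalars ℤ with hp
  set M' : Submodule ℤ (ℝ ∙ w)ᗮ := M.map p with hM'
  have hlong : ∀ v ∈ M', v ≠ 0 → ‖w‖ / 2 ≤ ‖v‖ := by
    rintro v ⟨u, hu, rfl⟩ hv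
    exact cv_proj_long M w hw hwM hs u hu hv
  have hd : DiscreteTopology M' := cv_discrete M' (‖w‖ / 2) (by positivity) hlong
  have hsp' : Submodule.span ℝ (M' : Set (ℝ ∙ w)ᗮ) = ⊤ := by
    have h1 : (M' : Set (ℝ ∙ w)ᗮ) = (cv_proj w hw) '' (M : Set E) := by
      ext x
      simp [hM', hp]
    rw [h1, Submodule.span_image, hsp, Submodule.map_top, LinearMap.range_eq_top]
    intro x
    exact ⟨x, cv_proj_orth w hw x⟩
  have : IsZLattice ℝ M' := ⟨hsp'⟩
  have hfree : Module.Free ℤ M' := ZLattice.module_free ℝ M'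
  have hfin : Module.Finite ℤ M' := ZLattice.module_finite ℝ M'
  set q : M →ₗ[ℤ] M' := p.submoduleMap M with hq
  have hqs : Function.Surjective q := LinearMap.submoduleMap_surjective p M
  obtain ⟨s, hs'⟩ := Module.projective_lifting_property q LinearMap.id hqs
  let b := Module.Free.chooseBasis ℤ M'
  let bR := b.ofZLatticeBasis ℝ M'
  let f : (ℝ ∙ w)ᗮ →ₗ[ℝ] ℝ := bR.constr ℝ (fun i => -(inner ℝ w (s (b i) : E) / ‖w‖ ^ 2))
  have hf : ∀ v : M', f v = -(inner ℝ w (s v : E) / ‖w‖ ^ 2) := by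
    intro v
    let g : M' →ₗ[ℤ] ℝ :=
      (((-(‖w‖ ^ 2)⁻¹) • (innerSL ℝ w).toLinearMap).restrictScalars ℤ) ∘ₗ M.subtype ∘ₗ s
    have hg : (f.restrictScalars ℤ) ∘ₗ M'.subtype = g := by
      apply b.ext
      intro i
      have h1 : bR i = (b i : (ℝ ∙ w)ᗮ) := Module.Basis.ofZLatticeBasis_apply ℝ M' b i
      have h2 : f (bR i) = -(inner ℝ w (s (b i) : E) / ‖w‖ ^ 2) := by
        simp [f]
      rw [h1] at h2
      simp only [LinearMap.comp_apply, LinearMap.restrictScalars_apply, Submodule.subtype_apply, h2]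
      simp [g, div_eq_mul_inv, mul_comm]
    have h3 := LinearMap.congr_fun hg v
    simp only [LinearMap.comp_apply, LinearMap.restrictScalars_apply, Submodule.subtype_apply] at h3
    rw [h3]
    simp [g, div_eq_mul_inv, mul_comm]
  let x' : (ℝ ∙ w)ᗮ := (InnerProductSpace.toDual ℝ (ℝ ∙ w)ᗮ).symm (LinearMap.toContinuousLinearMap f)
  have hx' : ∀ v : (ℝ ∙ w)ᗮ, inner ℝ v x' = f v := by
    intro v
    rw [real_inner_comm]
    simp [x', InnerProductSpace.toDual_symm_apply]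
  refine ⟨(‖w‖ ^ 2)⁻¹ • w + (x' : E), ?_, ?_⟩
  · rw [inner_add_right, inner_smul_right, real_inner_self_eq_norm_sq, cv_inner_orth]
    field_simp
    ring
  · intro u hu
    have h1 : (q ⟨u, hu⟩ : (ℝ ∙ w)ᗮ) = cv_proj w hw u := rfl
    have h2 : cv_proj w hw ((s (q ⟨u, hu⟩) : M) : E) = cv_proj w hw u := by
      have h3 := LinearMap.congr_fun hs' (q ⟨u, hu⟩)
      have h4 : (q (s (q ⟨u, hu⟩)) : (ℝ ∙ w)ᗮ) = q ⟨u, hu⟩ := by
        rw [LinearMap.comp_apply] at h3
        rw [h3]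
        rfl
      exact h4
    have h5 : u - (s (q ⟨u, hu⟩) : E) ∈ M := M.sub_mem hu (s (q ⟨u, hu⟩)).2
    obtain ⟨k, hk⟩ := cv_ker M w hw hwM hs _ h5 (by rw [map_sub, h2, sub_self])
    refine ⟨k, ?_⟩
    rw [inner_add_right, inner_smul_right, cv_inner_proj w hw u x', hx', ← h1, hf,
      real_inner_comm w u]
    have h6 : inner ℝ w u = inner ℝ w (s (q ⟨u, hu⟩) : E) + k * ‖w‖ ^ 2 := by
      have h7 : u = (s (q ⟨u, hu⟩) : E) + (k : ℝ) • w := by
        rw [← hk]; abel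
      conv_lhs => rw [h7]
      rw [inner_add_right, inner_smul_right, real_inner_self_eq_norm_sq]
    rw [h6]
    field_simp
    ring

/-- Main induction. -/
theorem cv_main (n : ℕ) : ∀ (E : Type) [NormedAddCommGroup E] [InnerProductSpace ℝ E]
    [FiniteDimensional ℝ E], Module.finrank ℝ E = n → ∀ (M : Submodule ℤ E),
    Submodule.span ℝ (M : Set E) = ⊤ → ∀ C : ℝ, 0 < C → (∀ w ∈ M, w ≠ 0 → C ≤ ‖w‖) →
    ∀ y : E, ∃ x : E, (∀ w ∈ M, ∃ k : ℤ, inner ℝ w x = k) ∧ ‖y - x‖ ≤ (2 ^ n - 1) / C := by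
  induction n with
  | zero =>
    intro E _ _ _ hn M hsp C hC hM y
    have : Subsingleton E := Module.finrank_zero_iff.1 hn
    refine ⟨y, fun w hw => ⟨0, ?_⟩, by simp⟩
    rw [Subsingleton.elim w 0]
    simp
  | succ n ih =>
    intro E _ _ _ hn M hsp C hC hM y
    have hnt : Nontrivial E := Module.nontrivial_of_finrank_eq_succ hn
    have hex : ∃ w₀ ∈ M, w₀ ≠ 0 := by
      by_contra hcon
      push Not at hcon
      have h1 : (M : Set E) ⊆ {0} := fun u hu => hcon u hu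
      have h2 : Submodule.span ℝ (M : Set E) ≤ ⊥ := by
        rw [Submodule.span_le]
        exact h1
      rw [hsp] at h2
      exact bot_ne_top (le_antisymm bot_le h2)
    obtain ⟨w₀, h₀, h₀'⟩ := hex
    obtain ⟨w, hwM, hw, hs⟩ := cv_short M C hC hM w₀ h₀ h₀'
    obtain ⟨x₁, hx₁, hx₁'⟩ := cv_dual M hsp w hw hwM hs
    have hwp : 0 < ‖w‖ := norm_pos_iff.2 hw
    have hCw : C ≤ ‖w‖ := hM w hwM hw
    have hn' : Module.finrank ℝ (ℝ ∙ w)ᗮ = n := by
      have : Fact (Module.finrank ℝ E = n + 1) := ⟨hn⟩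
      exact Submodule.finrank_orthogonal_span_singleton hw
    have hsp' : Submodule.span ℝ ((M.map ((cv_proj w hw).restrictScalars ℤ) :
        Submodule ℤ (ℝ ∙ w)ᗮ) : Set (ℝ ∙ w)ᗮ) = ⊤ := by
      have h1 : ((M.map ((cv_proj w hw).restrictScalars ℤ) :
        Submodule ℤ (ℝ ∙ w)ᗮ) : Set (ℝ ∙ w)ᗮ) = (cv_proj w hw) '' (M : Set E) := by
        ext x
        simp
      rw [h1, Submodule.span_image, hsp, Submodule.map_top, LinearMap.range_eq_top]
      intro x
      exact ⟨x, cv_proj_orth w hw x⟩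
    set m : ℤ := round (inner ℝ w y) with hm
    obtain ⟨x₂, hx₂, hx₂'⟩ := ih (ℝ ∙ w)ᗮ hn' (M.map ((cv_proj w hw).restrictScalars ℤ)) hsp'
      (C / 2) (by positivity) (by
        rintro v ⟨u, hu, rfl⟩ hv
        have := cv_proj_long M w hw hwM hs u hu hv
        have h2 : ‖cv_proj w hw u‖ = ‖((cv_proj w hw).restrictScalars ℤ) u‖ := rfl
        linarith) (cv_proj w hw (y - (m : ℝ) • x₁))
    refine ⟨(m : ℝ) • x₁ + (x₂ : E), ?_, ?_⟩
    · intro u hu
      obtain ⟨k, hk⟩ := hx₁' u hu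
      obtain ⟨l, hl⟩ := hx₂ (cv_proj w hw u) ⟨u, hu, rfl⟩
      refine ⟨m * k + l, ?_⟩
      rw [inner_add_right, inner_smul_right, hk, cv_inner_proj w hw u x₂, hl]
      push_cast
      ring
    · have h1 : y - ((m : ℝ) • x₁ + (x₂ : E)) =
          ((cv_proj w hw (y - (m : ℝ) • x₁) - x₂ : (ℝ ∙ w)ᗮ) : E) +
            (inner ℝ w (y - (m : ℝ) • x₁) / ‖w‖ ^ 2) • w := by
        rw [Submodule.coe_sub, cv_proj_apply]
        abel
      have h2 : inner ℝ w (y - (m : ℝ) • x₁) = inner ℝ w y - m := by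
        rw [inner_sub_right, inner_smul_right, hx₁, mul_one]
      have h3 : |inner ℝ w y - m| ≤ 1 / 2 := abs_sub_round _
      rw [h1, h2]
      refine (norm_add_le _ _).trans ?_
      rw [Submodule.norm_coe, norm_smul, Real.norm_eq_abs, abs_div, abs_of_pos (by positivity : (0:ℝ) < ‖w‖ ^ 2)]
      have h4 : |inner ℝ w y - m| / ‖w‖ ^ 2 * ‖w‖ ≤ 1 / 2 / C := by
        have h5 : |inner ℝ w y - m| / ‖w‖ ^ 2 * ‖w‖ = |inner ℝ w y - m| / ‖w‖ := by
          field_simp
        rw [h5]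
        gcongr
      have h6 : (2 ^ n - 1) / (C / 2) + 1 / 2 / C ≤ ((2:ℝ) ^ (n + 1) - 1) / C := by
        have : ((2:ℝ) ^ (n + 1) - 1) / C - ((2 ^ n - 1) / (C / 2) + 1 / 2 / C) = 1 / 2 / C := by
          field_simp
          ring
        have h7 : 0 < 1 / 2 / C := by positivity
        linarith
      linarith

theorem covering (ι : Type) [Fintype ι] [DecidableEq ι] (δ : ℝ) (hδ : 0 < δ) :
    ∃ C : ℝ, 0 < C ∧ ∀ A : Matrix ι ι ℝ, A.det ≠ 0 →
      (∀ c : ι → ℤ, c ≠ 0 → ∃ i, C ≤ |A.mulVec (fun b => (c b : ℝ)) i|) →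
      ∀ y : ι → ℝ, ∃ v : ι → ℤ, ∀ i, |((A⁻¹).transpose).mulVec (fun b => y b - v b) i| ≤ δ := by
  refine ⟨2 ^ (Fintype.card ι) / δ, by positivity, fun A hA hc y => ?_⟩
  have hu : IsUnit A.det := isUnit_iff_ne_zero.2 hA
  let L : (ι → ℤ) →ₗ[ℤ] EuclideanSpace ℝ ι :=
    { toFun := fun c => WithLp.toLp 2 (A.mulVec (fun b => (c b : ℝ)))
      map_add' := by
        intro c d
        rw [← WithLp.toLp_add, ← Matrix.mulVec_add]
        congr 2
        ext b
        simp
      map_smul' := by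
        intro k c
        ext i
        simp [Matrix.mulVec, dotProduct, Finset.mul_sum, mul_left_comm] }
  have hL : ∀ c i, (L c) i = A.mulVec (fun b => (c b : ℝ)) i := fun c i => rfl
  have hL1 : ∀ b i, (L (Pi.single b 1)) i = A i b := by
    intro b i
    rw [hL]
    have : (fun b' => ((Pi.single b (1:ℤ) : ι → ℤ) b' : ℝ)) = Pi.single b (1:ℝ) := by
      ext b'
      by_cases h : b' = b
      · subst h; simp
      · simp [h]
    rw [this, Matrix.mulVec_single_one]
    rfl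
  have hsp : Submodule.span ℝ ((LinearMap.range L : Submodule ℤ (EuclideanSpace ℝ ι)) :
      Set (EuclideanSpace ℝ ι)) = ⊤ := by
    rw [eq_top_iff]
    intro z _
    have hz : z = ∑ b, (A⁻¹.mulVec (fun i => z i) b) • L (Pi.single b 1) := by
      ext i
      have h1 : A.mulVec (A⁻¹.mulVec (fun i => z i)) = fun i => z i := by
        rw [Matrix.mulVec_mulVec, Matrix.mul_nonsing_inv A hu, Matrix.one_mulVec]
      have h2 := congrFun h1 i
      simp only [WithLp.ofLp_sum, Finset.sum_apply, PiLp.smul_apply, hL1, smul_eq_mul]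
      rw [← h2]
      simp only [Matrix.mulVec, dotProduct]
      exact Finset.sum_congr rfl fun b _ => mul_comm _ _
    rw [hz]
    exact Submodule.sum_mem _ fun b _ => Submodule.smul_mem _ _
      (Submodule.subset_span (LinearMap.mem_range_self L _))
  have hlong : ∀ w ∈ LinearMap.range L, w ≠ 0 → 2 ^ (Fintype.card ι) / δ ≤ ‖w‖ := by
    rintro w ⟨c, rfl⟩ hw
    have hc0 : c ≠ 0 := fun h => hw (by rw [h, map_zero])
    obtain ⟨i, hi⟩ := hc c hc0
    refine hi.trans ?_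
    rw [← hL, ← Real.norm_eq_abs]
    exact PiLp.norm_apply_le _ i
  obtain ⟨x, hx, hx'⟩ := cv_main (Fintype.card ι) (EuclideanSpace ℝ ι) (by simp) (LinearMap.range L)
    hsp _ (by positivity) hlong (WithLp.toLp 2 ((A⁻¹).transpose.mulVec y))
  choose v hv using fun b => hx (L (Pi.single b 1)) (LinearMap.mem_range_self L _)
  refine ⟨v, fun i => ?_⟩
  have hv' : (fun b => (v b : ℝ)) = A.transpose.mulVec (fun i => x i) := by
    ext b
    rw [← hv b, PiLp.inner_apply]
    simp only [hL1, Matrix.mulVec, dotProduct, Matrix.transpose_apply]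
    exact Finset.sum_congr rfl fun j _ => by simp [mul_comm]
  have h1 : (A⁻¹).transpose.mulVec (fun b => y b - v b) =
      (A⁻¹).transpose.mulVec y - (fun i => x i) := by
    have h2 : (fun b => y b - (v b : ℝ)) = y - (fun b => (v b : ℝ)) := rfl
    rw [h2, Matrix.mulVec_sub, hv', Matrix.mulVec_mulVec, ← Matrix.transpose_mul,
      Matrix.mul_nonsing_inv A hu, Matrix.transpose_one, Matrix.one_mulVec]
  rw [h1]
  have h3 : ((A⁻¹).transpose.mulVec y - (fun i => x i)) i =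
      (WithLp.toLp 2 ((A⁻¹).transpose.mulVec y) - x : EuclideanSpace ℝ ι) i := rfl
  rw [h3, ← Real.norm_eq_abs]
  refine (PiLp.norm_apply_le _ i).trans (hx'.trans ?_)
  have h4 : (0:ℝ) < 2 ^ (Fintype.card ι) := by positivity
  rw [div_div_eq_mul_div, div_le_iff₀ h4]
  nlinarith

end Pool.Agent.Lib.MP_a37012_nt
end
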