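import Pool.Agent.Lib.MP_a37012_nt.Defs3
import Pool.Agent.Lib.MP_a37012_nt.Good

section

/-!
# Quantitative nondivergence for continuous matrix functions, at one threshold
-/

set_option autoImplicit false

open MeasureTheory MvPolynomial

namespace Pool.Agent.Lib.MP_a37012_nt

lemma kc_mm_lt {ι : Type} [Fintype ι] {r : ℕ} (A : Matrix ι (Fin r) ℝ) {t : ℝ} (ht : 0 < t) :
    mm A < t ↔ ∀ e : Fin r → ι, |(A.submatrix e id).det| < t := by
  classical
  constructor
  · intro h e
    exact (le_ciSup (f := fun e : Fin r → ι => |(A.submatrix e id).det|)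
      (Set.finite_range _).bddAbove e).trans_lt h
  · intro h
    rcases isEmpty_or_nonempty (Fin r → ι) with hE | hE
    · unfold mm
      rw [Real.iSup_of_isEmpty]
      exact ht
    · obtain ⟨e, he⟩ := exists_eq_ciSup_of_finite
        (f := fun e : Fin r → ι => |(A.submatrix e id).det|)
      unfold mm
      rw [← he]
      exact h e

/-- The constant polynomial matrix. -/
noncomputable def kcC {d : ℕ} {ι : Type} (A : Matrix ι ι ℝ) :
    Matrix ι ι (MvPolynomial (Fin d) ℝ) := A.map (fun a => C a)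

lemma kc_eval {d : ℕ} {ι : Type} (A : Matrix ι ι ℝ) (x : Fin d → ℝ) :
    evalM (kcC A) x = A := by
  ext a b
  simp [evalM, kcC]

lemma kc_min {d : ℕ} {ι : Type} [Fintype ι] {r : ℕ} (A : Matrix ι ι ℝ) (B : Matrix ι (Fin r) ℤ)
    (e : Fin r → ι) (x : Fin d → ℝ) :
    kmMin (kcC A) B e x = ((A * toR B).submatrix e id).det := by
  unfold kmMin
  rw [kc_eval]

theorem km_cont (d : ℕ) (ι : Type) [Fintype ι] [DecidableEq ι] (η : ℝ) (hη : 0 < η) :
    ∃ η' : ℝ, 0 < η' ∧ ∀ (ρ ε : ℝ), 0 < ρ → ρ ≤ 1 → 0 < ε → ε ≤ ρ →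
      ∀ (H : (Fin d → ℝ) → Matrix ι ι ℝ) (j₀ : ℕ) (k₀ : Fin d → ℤ),
      (∀ x ∈ cube j₀ k₀, ∀ a b, ContinuousAt (fun x => H x a b) x) →
      (∀ (r : ℕ) (B : Matrix ι (Fin r) ℤ), LinearIndependent ℤ (fun t : Fin r => fun a => B a t) →
        (∃ x ∈ cube j₀ k₀, ρ ≤ mm (H x * toR B)) ∧
        ∀ (j : ℕ) (k : Fin d → ℤ), cube j k ⊆ cube j₀ k₀ →
          (∃ x ∈ cube j k, ρ ≤ mm (H x * toR B)) →
          volume {x | x ∈ cube j k ∧ mm (H x * toR B) < ε} ≤
            ENNReal.ofReal η' * volume (cube j k)) →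
      volume {x | x ∈ cube j₀ k₀ ∧ ∃ c : ι → ℤ, c ≠ 0 ∧
        ∀ a, |(H x).mulVec (fun b => (c b : ℝ)) a| < ε / (Fintype.card ι + 1)} ≤
        ENNReal.ofReal η * volume (cube j₀ k₀) := by
  classical
  set N := Fintype.card ι with hN
  set K : ℝ := (kmC d (N + 1)).toReal with hK
  have hK0 : 0 ≤ K := ENNReal.toReal_nonneg
  refine ⟨η / (K + 1), by positivity, ?_⟩
  intro ρ ε hρ hρ1 hε hερ H j₀ k₀ hcont hyp
  set rr : Submodule ℚ (ι → ℚ) → ℕ := fun W => basR W with hrrdef
  set BB : ∀ W : Submodule ℚ (ι → ℚ), Matrix ι (Fin (rr W)) ℤ := fun W => basM W with hBBdef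
  have hBB : ∀ W, KMat W (BB W) := fun W => (km_basis W).choose_spec.choose_spec.1
  have hBmin : ∀ W, ∀ B : Matrix ι (Fin (rr W)) ℤ, (∀ t, kmCol B t ∈ W) →
        ∃ R : Matrix (Fin (rr W)) (Fin (rr W)) ℤ, B = BB W * R :=
    fun W => (km_basis W).choose_spec.choose_spec.2
  have hrr : ∀ W : Submodule ℚ (ι → ℚ), rr W = Module.finrank ℚ W := by
    intro W
    have h1 := finrank_span_eq_card (hBB W).1
    rw [(hBB W).2, Fintype.card_fin] at h1
    exact h1.symm
  have hrN : ∀ W : Submodule ℚ (ι → ℚ), rr W ≤ N := by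
    intro W
    rw [hrr, hN, ← Module.finrank_fintype_fun_eq_card (R := ℚ) (η := ι)]
    exact Submodule.finrank_le W
  have hrk : StrictMono rr := by
    intro W W' h
    rw [hrr, hrr]
    exact Submodule.finrank_lt_finrank_of_lt h
  have hLI : ∀ W, LinearIndependent ℤ (fun t : Fin (rr W) => fun a => BB W a t) := by
    intro W
    have h1 : LinearIndependent ℤ (kmCol (BB W)) :=
      (LinearIndependent.iff_fractionRing ℤ ℚ).mpr (hBB W).1
    have h2 : kmCol (BB W) = kmCast ι ∘ (fun t : Fin (rr W) => fun a => BB W a t) := rfl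
    rw [h2] at h1
    exact LinearIndependent.of_comp _ h1
  -- the sets
  set U : Submodule ℚ (ι → ℚ) → Set (Fin d → ℝ) :=
    fun W => interior {x | mm (H x * toR (BB W)) < ρ} with hU
  set V : Submodule ℚ (ι → ℚ) → Set (Fin d → ℝ) :=
    fun W => {x | x ∈ cube j₀ k₀ ∧ mm (H x * toR (BB W)) < ε} with hV
  have hUopen : ∀ W, IsOpen (U W) := fun W => isOpen_interior
  have hUmem : ∀ W x, x ∈ cube j₀ k₀ → mm (H x * toR (BB W)) < ρ → x ∈ U W := by
    intro W x hx hlt
    rw [hU, mem_interior_iff_mem_nhds]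
    have h1 : ∀ e : Fin (rr W) → ι,
        {y | |((H y * toR (BB W)).submatrix e id).det| < ρ} ∈ nhds x := by
      intro e
      have hc : ContinuousAt (fun y => |((H y * toR (BB W)).submatrix e id).det|) x := by
        refine ContinuousAt.abs ?_
        simp only [Matrix.det_apply, Matrix.submatrix_apply, Matrix.mul_apply, id]
        refine tendsto_finsetSum _ fun σ _ => ?_
        refine Filter.Tendsto.const_smul ?_ _
        refine tendsto_finsetProd _ fun i _ => ?_
        refine tendsto_finsetSum _ fun b _ => ?_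
        exact (hcont x hx _ _).mul tendsto_const_nhds
      exact hc.eventually_lt continuousAt_const
        (((kc_mm_lt _ hρ).mp hlt) e)
    have h2 : {y | mm (H y * toR (BB W)) < ρ} =
        ⋂ e : Fin (rr W) → ι, {y | |((H y * toR (BB W)).submatrix e id).det| < ρ} := by
      ext y
      rw [Set.mem_iInter]
      exact kc_mm_lt _ hρ
    rw [h2, Filter.iInter_mem]
    exact h1
  have hUlt : ∀ W x, x ∈ U W → mm (H x * toR (BB W)) < ρ := by
    intro W x hx
    have h1 : x ∈ {x | mm (H x * toR (BB W)) < ρ} := interior_subset hx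
    exact h1
  have hη' : 0 < η / (K + 1) := by positivity
  have hrem' : ∀ (W : Submodule ℚ (ι → ℚ)) (j : ℕ) (k : Fin d → ℤ), (∃ x ∈ cube j k, x ∉ U W) →
      volume {x | x ∈ cube j k ∧ x ∈ V W} ≤
        ENNReal.ofReal (η / (K + 1)) * volume (cube j k) := by
    rintro W j k ⟨x, hx, hxU⟩
    have h0 := hyp (rr W) (BB W) (hLI W)
    by_cases hsub : cube j k ⊆ cube j₀ k₀
    · have hx0 := hsub hx
      have h1 : ρ ≤ mm (H x * toR (BB W)) := by
        by_contra hcon
        exact hxU (hUmem W x hx0 (not_le.mp hcon))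
      refine (measure_mono ?_).trans (h0.2 j k hsub ⟨x, hx, h1⟩)
      rintro y ⟨hy, -, hyV⟩
      exact ⟨hy, hyV⟩
    · by_cases hsub' : cube j₀ k₀ ⊆ cube j k
      · have h1 := h0.2 j₀ k₀ subset_rfl h0.1
        calc volume {x | x ∈ cube j k ∧ x ∈ V W}
            ≤ volume {x | x ∈ cube j₀ k₀ ∧ mm (H x * toR (BB W)) < ε} :=
              measure_mono fun y hy => hy.2
          _ ≤ ENNReal.ofReal (η / (K + 1)) * volume (cube j₀ k₀) := h1
          _ ≤ _ := mul_le_mul_right (measure_mono hsub') _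
      · have hemp : {x | x ∈ cube j k ∧ x ∈ V W} = ∅ := by
          ext y
          simp only [Set.mem_ofPred_eq, Set.mem_empty_iff_false, iff_false]
          rintro ⟨hy, hy0, -⟩
          rcases le_total j₀ j with hj | hj
          · apply hsub
            intro z hz
            rw [km_mem_cube] at *
            rw [← hy0]
            exact km_idx_mono hj (hz.trans hy.symm)
          · apply hsub'
            intro z hz
            rw [km_mem_cube] at *
            rw [← hy]
            exact km_idx_mono hj (hz.trans hy0.symm)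
        rw [hemp, measure_empty]
        exact zero_le
  have hmain := km_abstract rr hrk N hrN U V hUopen (ENNReal.ofReal (η / (K + 1))) hrem' (N + 1)
    ∅ (by simp) (by simp) j₀ k₀ (by
      intro W _ _
      obtain ⟨x, hx, he⟩ := (hyp (rr W) (BB W) (hLI W)).1
      exact ⟨x, hx, fun h => absurd (hUlt W x h) (not_lt.mpr he)⟩)
  have hfin : kmC d (N + 1) * ENNReal.ofReal (η / (K + 1)) ≤ ENNReal.ofReal η := by
    rw [← ENNReal.ofReal_toReal (kmC_ne_top d (N + 1)), ← hK, ← ENNReal.ofReal_mul hK0]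
    apply ENNReal.ofReal_le_ofReal
    rw [mul_div_assoc', div_le_iff₀ (by positivity)]
    nlinarith
  refine (measure_mono ?_).trans (hmain.trans (mul_le_mul_left hfin _))
  rintro x ⟨hx, c, hc0, hc⟩
  refine ⟨hx, ?_⟩
  rintro ⟨S', -, hchain, hin, hout⟩
  have hcast0 : kmCast ι c ≠ 0 := by
    intro h0
    apply hc0
    have h1 : c ∈ LinearMap.ker (kmCast ι) := h0
    rw [kmCast_ker] at h1
    exact h1
  set 𝒜 : Set (Submodule ℚ (ι → ℚ)) := {W | (W = ⊥ ∨ W ∈ S') ∧ kmCast ι c ∉ W} with h𝒜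
  have hbot : (⊥ : Submodule ℚ (ι → ℚ)) ∈ 𝒜 :=
    ⟨Or.inl rfl, fun h => hcast0 ((Submodule.mem_bot ℚ).mp h)⟩
  obtain ⟨W, hW𝒜, hWmax⟩ : ∃ W ∈ 𝒜, ∀ W' ∈ 𝒜, rr W' ≤ rr W := by
    have hbdd : BddAbove (rr '' 𝒜) := ⟨N, by rintro _ ⟨W, -, rfl⟩; exact hrN W⟩
    have hne : (rr '' 𝒜).Nonempty := ⟨_, ⊥, hbot, rfl⟩
    obtain ⟨W, hW, hWe⟩ := Nat.sSup_mem hne hbdd
    refine ⟨W, hW, fun W' hW' => ?_⟩
    rw [hWe]
    exact le_csSup hbdd ⟨W', hW', rfl⟩
  have hWle : ∀ e, |kmMin (kcC (H x)) (BB W) e x| ≤ 1 := by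
    intro e
    rw [kc_min]
    rcases hW𝒜.1 with hb | hS
    · have hr0 : rr W = 0 := by rw [hrr, hb, finrank_bot]
      have : IsEmpty (Fin (rr W)) := by rw [hr0]; exact Fin.isEmpty
      rw [Matrix.det_isEmpty, abs_one]
    · exact ((kc_mm_lt _ hρ).mp (hUlt W x (hin W hS (by simp)).1) e).le.trans hρ1
  have hWc : kmCast ι c ∉ W := hW𝒜.2
  have hsmall := km_fact (kcC (H x)) (hBB W) (x := x) hWle hWc (by rw [kc_eval]; exact hc)
  set W' := W ⊔ Submodule.span ℚ {kmCast ι c} with hW'
  have hVmem : x ∈ V W' := by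
    refine ⟨hx, (kc_mm_lt _ hε).mpr fun e => ?_⟩
    obtain ⟨r', B', hB', hs'⟩ := hsmall
    have h1 : ((rr W + 1 : ℕ) : ℝ) ≤ N + 1 := by
      push_cast
      have : (rr W : ℝ) ≤ N := by exact_mod_cast hrN W
      linarith
    have h2 : ((rr W + 1 : ℕ) : ℝ) * (ε / (N + 1)) ≤ ε := by
      calc ((rr W + 1 : ℕ) : ℝ) * (ε / (N + 1)) ≤ (N + 1) * (ε / (N + 1)) :=
            mul_le_mul_of_nonneg_right h1 (by positivity)
        _ = ε := by field_simp
    have h3 := (km_small_iff (kcC (H x)) (hBB W') (hBmin W') ε x).mp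
      ⟨r', B', hB', fun e => (hs' e).trans_le h2⟩ e
    rwa [kc_min] at h3
  have hnotV : x ∉ V W' := by
    by_cases hW'S : W' ∈ S'
    · exact (hin W' hW'S (by simp)).2
    · have hcomp : ∀ T ∈ S', T ≤ W' ∨ W' ≤ T := by
        intro T hT
        by_cases hcT : kmCast ι c ∈ T
        · right
          have hWT : W ≤ T := by
            rcases hW𝒜.1 with hb | hS
            · rw [hb]; exact bot_le
            · by_cases hTW : T = W
              · exact absurd (hTW ▸ hcT) hWc
              · rcases hchain hT hS hTW with h1 | h1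
                · exact absurd (h1 hcT) hWc
                · exact h1
          rw [hW', sup_le_iff, Submodule.span_singleton_le_iff_mem]
          exact ⟨hWT, hcT⟩
        · left
          have hTW : T ≤ W := by
            have hTr := hWmax T ⟨Or.inr hT, hcT⟩
            rcases hW𝒜.1 with hb | hS
            · have : rr T ≤ 0 := by
                refine hTr.trans ?_
                rw [hrr, hb, finrank_bot]
              have h2 : Module.finrank ℚ T = 0 := by rw [← hrr]; omega
              rw [Submodule.finrank_eq_zero.mp h2]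
              exact bot_le
            · by_cases hTW : T = W
              · exact hTW.le
              · rcases hchain hT hS hTW with h1 | h1
                · exact h1
                · exact absurd hTr (not_le.mpr (hrk (lt_of_le_of_ne h1 (Ne.symm hTW))))
          exact hTW.trans le_sup_left
      have h1 := hout W' hW'S hcomp
      exact fun h2 => h1 (hUmem W' x hx (h2.2.trans_le hερ))
  exact hnotV hVmem

end Pool.Agent.Lib.MP_a37012_nt
end

section

/-!
# Functions with almost constant nonzero second derivative are good on boxes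
-/

set_option autoImplicit false

open MeasureTheory

namespace Pool.Agent.Lib.MP_a37012_nt

/-- A bound for the volume of a set from a bound for its slices in one direction. -/
theorem gc_slice {n : ℕ} (E : Set (Fin n → ℝ)) (hE : MeasurableSet E) (c : Fin n → ℝ) (r δ : ℝ)
    (hr : 0 < r) (hδ : 0 ≤ δ) (hEB : E ⊆ Set.Icc c (fun i => c i + r)) (u : Fin n → ℝ)
    (hu : ∀ i, |u i| ≤ 1)
    (h : ∀ x : Fin n → ℝ, volume {t : ℝ | x + t • u ∈ E} ≤ ENNReal.ofReal δ) :
    volume E ≤ ENNReal.ofReal (δ * (3 * r) ^ n / (2 * r)) := by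
  have hmeas : Measurable (fun q : ℝ × (Fin n → ℝ) =>
      E.indicator (fun _ => (1 : ENNReal)) (q.2 + q.1 • u)) :=
    (measurable_const.indicator hE).comp (by fun_prop)
  have h1 : ∫⁻ t in Set.Icc (-r) r, ∫⁻ x : Fin n → ℝ, E.indicator (fun _ => (1 : ENNReal)) (x + t • u)
      = ENNReal.ofReal (2 * r) * volume E := by
    have h2 : ∀ t : ℝ, ∫⁻ x : Fin n → ℝ, E.indicator (fun _ => (1 : ENNReal)) (x + t • u)
        = volume E := by
      intro t
      rw [lintegral_add_right_eq_self (fun x => E.indicator (fun _ => (1 : ENNReal)) x) (t • u)]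
      exact lintegral_indicator_one hE
    simp_rw [h2]
    rw [setLIntegral_const, Real.volume_Icc, mul_comm]
    congr 2; ring
  have h3 : ∫⁻ t in Set.Icc (-r) r, ∫⁻ x : Fin n → ℝ, E.indicator (fun _ => (1 : ENNReal)) (x + t • u)
      = ∫⁻ x : Fin n → ℝ, ∫⁻ t in Set.Icc (-r) r, E.indicator (fun _ => (1 : ENNReal)) (x + t • u) :=
    lintegral_lintegral_swap hmeas.aemeasurable
  have h4 : ∀ x : Fin n → ℝ, ∫⁻ t in Set.Icc (-r) r, E.indicator (fun _ => (1 : ENNReal)) (x + t • u)
      ≤ (Set.Icc (fun i => c i - r) (fun i => c i + 2 * r)).indicator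
        (fun _ => ENNReal.ofReal δ) x := by
    intro x
    by_cases hx : x ∈ Set.Icc (fun i => c i - r) (fun i => c i + 2 * r)
    · rw [Set.indicator_of_mem hx]
      refine (setLIntegral_le_lintegral _ _).trans ?_
      have h5 : (fun t : ℝ => E.indicator (fun _ => (1 : ENNReal)) (x + t • u))
          = {t : ℝ | x + t • u ∈ E}.indicator 1 := by
        funext t
        by_cases ht : x + t • u ∈ E
        · rw [Set.indicator_of_mem ht, Set.indicator_of_mem (by exact ht)]; rfl
        · rw [Set.indicator_of_notMem ht, Set.indicator_of_notMem (by exact ht)]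
      rw [h5, lintegral_indicator_one]
      · exact h x
      · exact hE.preimage (by fun_prop : Measurable fun t : ℝ => x + t • u)
    · rw [Set.indicator_of_notMem hx]
      refine le_of_eq ?_
      have h6 : ∫⁻ t in Set.Icc (-r) r, E.indicator (fun _ => (1 : ENNReal)) (x + t • u)
          = ∫⁻ t in Set.Icc (-r) r, 0 := by
        refine setLIntegral_congr_fun measurableSet_Icc fun t ht => ?_
        refine Set.indicator_of_notMem (fun hm => hx ?_) _
        have h7 := hEB hm
        have h8 : ∀ i, |t * u i| ≤ r := by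
          intro i
          rw [abs_mul]
          calc |t| * |u i| ≤ r * 1 := mul_le_mul (abs_le.mpr ⟨ht.1, ht.2⟩) (hu i) (abs_nonneg _) hr.le
            _ = r := mul_one r
        constructor
        · intro i
          have h9 := h7.1 i
          have h10 := (abs_le.mp (h8 i)).2
          simp only [Pi.add_apply, Pi.smul_apply, smul_eq_mul] at h9
          show c i - r ≤ x i
          linarith
        · intro i
          have h9 := h7.2 i
          have h10 := (abs_le.mp (h8 i)).1
          simp only [Pi.add_apply, Pi.smul_apply, smul_eq_mul] at h9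
          show x i ≤ c i + 2 * r
          linarith
      rw [h6]; simp
  have h5 : ENNReal.ofReal (2 * r) * volume E ≤ ENNReal.ofReal (δ * (3 * r) ^ n) := by
    rw [← h1, h3]
    refine (lintegral_mono h4).trans ?_
    rw [lintegral_indicator_const measurableSet_Icc, Real.volume_Icc_pi]
    have h6 : ∀ i : Fin n, ENNReal.ofReal (c i + 2 * r - (c i - r)) = ENNReal.ofReal (3 * r) := by
      intro i; congr 1; ring
    simp_rw [h6]
    rw [Finset.prod_const, Finset.card_univ, Fintype.card_fin, ← ENNReal.ofReal_pow (by positivity),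
      ← ENNReal.ofReal_mul hδ]
  have h6 : ENNReal.ofReal (δ * (3 * r) ^ n / (2 * r)) = ENNReal.ofReal (δ * (3 * r) ^ n) / ENNReal.ofReal (2 * r) :=
    ENNReal.ofReal_div_of_pos (by positivity)
  rw [h6, ENNReal.le_div_iff_mul_le (Or.inl (by simp [hr])) (Or.inl ENNReal.ofReal_ne_top), mul_comm]
  exact h5

/-- A set of real numbers without three well spaced points is small. -/
theorem gc_three (E : Set ℝ) (h : ℝ) (hh : 0 ≤ h) (hb : Bornology.IsBounded E)
    (h3 : ∀ a ∈ E, ∀ b ∈ E, ∀ e ∈ E, h < b - a → h < e - b → False) :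
    volume E ≤ ENNReal.ofReal (2 * h) := by
  rcases E.eq_empty_or_nonempty with rfl | hne
  · simp
  have hbb := hb.bddBelow
  have hba := hb.bddAbove
  have h1 : E ⊆ Set.Icc (sInf E) (sInf E + h) ∪ Set.Icc (sSup E - h) (sSup E) := by
    intro b hbE
    by_contra hcon
    rw [Set.mem_union, not_or] at hcon
    have h2 : sInf E + h < b := by
      by_contra h4
      exact hcon.1 ⟨csInf_le hbb hbE, not_lt.mp h4⟩
    have h5 : b < sSup E - h := by
      by_contra h4
      exact hcon.2 ⟨not_lt.mp h4, le_csSup hba hbE⟩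
    obtain ⟨a, haE, ha⟩ := exists_lt_of_csInf_lt hne (show sInf E < b - h by linarith)
    obtain ⟨e, heE, he⟩ := exists_lt_of_lt_csSup hne (show b + h < sSup E by linarith)
    exact h3 a haE b hbE e heE (by linarith) (by linarith)
  refine (measure_mono h1).trans ((measure_union_le _ _).trans ?_)
  rw [Real.volume_Icc, Real.volume_Icc, ← ENNReal.ofReal_add (by linarith) (by linarith)]
  exact le_of_eq (by congr 1; ring)

/-- A set of real numbers of small diameter is small. -/
theorem gc_two (E : Set ℝ) (h : ℝ) (hb : Bornology.IsBounded E)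
    (h2 : ∀ a ∈ E, ∀ b ∈ E, h < b - a → False) :
    volume E ≤ ENNReal.ofReal h := by
  rcases E.eq_empty_or_nonempty with rfl | hne
  · simp
  have hbb := hb.bddBelow
  have h1 : E ⊆ Set.Icc (sInf E) (sInf E + h) := by
    intro b hbE
    refine ⟨csInf_le hbb hbE, ?_⟩
    by_contra hcon
    obtain ⟨a, haE, ha⟩ := exists_lt_of_csInf_lt hne (show sInf E < b - h by linarith)
    exact h2 a haE b hbE (by linarith)
  refine (measure_mono h1).trans ?_
  rw [Real.volume_Icc]
  exact le_of_eq (by congr 1; ring)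

/-- The second divided difference is half of the second derivative at some point. -/
theorem gc_divdiff (g g1 g2 : ℝ → ℝ) (a b e : ℝ) (hab : a < b) (hbe : b < e)
    (h1 : ∀ t ∈ Set.Icc a e, HasDerivAt g (g1 t) t) (h2 : ∀ t ∈ Set.Icc a e, HasDerivAt g1 (g2 t) t) :
    ∃ ξ ∈ Set.Icc a e, g2 ξ * ((b - a) * (e - b) * (e - a)) =
      2 * (g a * (e - b) - g b * (e - a) + g e * (b - a)) := by
  set q := (g a * (e - b) - g b * (e - a) + g e * (b - a)) / ((b - a) * (e - b) * (e - a)) with hq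
  have hba : 0 < b - a := sub_pos.mpr hab
  have heb : 0 < e - b := sub_pos.mpr hbe
  have hea : 0 < e - a := by linarith
  set s := (g b - g a) / (b - a) with hs
  set φ : ℝ → ℝ := fun t => g t - (g a + s * (t - a) + q * ((t - a) * (t - b))) with hφ
  set φ1 : ℝ → ℝ := fun t => g1 t - (s + q * ((t - b) + (t - a))) with hφ1
  have hd : ∀ t ∈ Set.Icc a e, HasDerivAt φ (φ1 t) t := by
    intro t ht
    have h3 := h1 t ht
    have h4 : HasDerivAt (fun t : ℝ => g a + s * (t - a) + q * ((t - a) * (t - b)))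
        (s + q * ((t - b) + (t - a))) t := by
      have h5 : HasDerivAt (fun t : ℝ => t - a) 1 t := (hasDerivAt_id t).sub_const a
      have h6 : HasDerivAt (fun t : ℝ => t - b) 1 t := (hasDerivAt_id t).sub_const b
      have h7 := ((h5.const_mul s).const_add (g a)).add ((h5.mul h6).const_mul q)
      exact h7.congr_deriv (by ring)
    exact h3.sub h4
  have hd2 : ∀ t ∈ Set.Icc a e, HasDerivAt φ1 (g2 t - q * 2) t := by
    intro t ht
    have h3 := h2 t ht
    have h4 : HasDerivAt (fun t : ℝ => s + q * ((t - b) + (t - a))) (q * 2) t := by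
      have h5 : HasDerivAt (fun t : ℝ => t - a) 1 t := (hasDerivAt_id t).sub_const a
      have h6 : HasDerivAt (fun t : ℝ => t - b) 1 t := (hasDerivAt_id t).sub_const b
      have h7 := ((h6.add h5).const_mul q).const_add s
      exact h7.congr_deriv (by ring)
    exact h3.sub h4
  have ha0 : φ a = 0 := by simp [hφ]
  have hb0 : φ b = 0 := by
    simp only [hφ, hs]
    field_simp
    ring
  have he0 : φ e = 0 := by
    simp only [hφ, hs, hq]
    field_simp
    ring
  obtain ⟨c1, hc1, hc1'⟩ := exists_hasDerivAt_eq_zero (f := φ) (f' := φ1) hab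
    (fun t ht => (hd t ⟨ht.1, ht.2.trans hbe.le⟩).continuousAt.continuousWithinAt)
    (by rw [ha0, hb0]) (fun t ht => hd t ⟨ht.1.le, ht.2.le.trans hbe.le⟩)
  obtain ⟨c2, hc2, hc2'⟩ := exists_hasDerivAt_eq_zero (f := φ) (f' := φ1) hbe
    (fun t ht => (hd t ⟨hab.le.trans ht.1, ht.2⟩).continuousAt.continuousWithinAt)
    (by rw [hb0, he0]) (fun t ht => hd t ⟨hab.le.trans ht.1.le, ht.2.le⟩)
  have h12 : c1 < c2 := hc1.2.trans hc2.1
  have hsub : ∀ t, c1 ≤ t → t ≤ c2 → t ∈ Set.Icc a e := fun t h3 h4 =>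
    ⟨hc1.1.le.trans h3, h4.trans hc2.2.le⟩
  obtain ⟨ξ, hξ, hξ'⟩ := exists_hasDerivAt_eq_zero (f := φ1) (f' := fun t => g2 t - q * 2) h12
    (fun t ht => (hd2 t (hsub t ht.1 ht.2)).continuousAt.continuousWithinAt)
    (by rw [hc1', hc2']) (fun t ht => hd2 t (hsub t ht.1.le ht.2.le))
  refine ⟨ξ, hsub ξ hξ.1.le hξ.2.le, ?_⟩
  have h8 : g2 ξ = q * 2 := by linarith [hξ']
  rw [h8, hq]
  field_simp


/-- Size of a divided difference of small values. -/
theorem gc_comb (x y z s a b e : ℝ) (hab : a < b) (hbe : b < e) (hx : |x| < s) (hy : |y| < s)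
    (hz : |z| < s) : |2 * (x * (e - b) - y * (e - a) + z * (b - a))| < 4 * s * (e - a) := by
  have k1 : 0 < b - a := by linarith
  have k2 : 0 < e - b := by linarith
  have k3 : 0 < e - a := by linarith
  rw [abs_lt] at hx hy hz ⊢
  have h1 := mul_lt_mul_of_pos_right hx.1 k2
  have h2 := mul_lt_mul_of_pos_right hx.2 k2
  have h3 := mul_lt_mul_of_pos_right hy.1 k3
  have h4 := mul_lt_mul_of_pos_right hy.2 k3
  have h5 := mul_lt_mul_of_pos_right hz.1 k1
  have h6 := mul_lt_mul_of_pos_right hz.2 k1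
  constructor <;> nlinarith

/-- A nonzero symmetric matrix is nonzero as a quadratic form at some vector with entries
at most one. -/
theorem gc_dir {n : ℕ} (Hs : Matrix (Fin n) (Fin n) ℝ) (hsym : Hs.IsSymm) (h0 : Hs ≠ 0) :
    ∃ u : Fin n → ℝ, (∀ i, |u i| ≤ 1) ∧ (∃ i, u i = 1) ∧ ∑ j, u j * ∑ i, u i * Hs i j ≠ 0 := by
  classical
  by_cases hd : ∃ i, Hs i i ≠ 0
  · obtain ⟨i, hi⟩ := hd
    refine ⟨Pi.single i 1, fun k => ?_, ⟨i, by simp⟩, ?_⟩
    · by_cases hk : k = i
      · subst hk; simp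
      · simp [Pi.single_eq_of_ne hk]
    · simpa [Pi.single_apply] using hi
  · push Not at hd
    have h1 : ∃ i j, Hs i j ≠ 0 := by
      by_contra hcon
      push Not at hcon
      exact h0 (by ext i j; simp [hcon i j])
    obtain ⟨i, j, hij⟩ := h1
    have hne : i ≠ j := by
      rintro rfl
      exact hij (hd i)
    have hji : Hs j i = Hs i j := hsym.apply i j
    refine ⟨fun k => (Pi.single i 1 : Fin n → ℝ) k + (Pi.single j 1 : Fin n → ℝ) k, fun k => ?_,
      ⟨i, by simp [Pi.single_eq_of_ne hne]⟩, ?_⟩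
    · by_cases hk : k = i
      · subst hk; simp [Pi.single_eq_of_ne hne]
      · by_cases hk2 : k = j
        · subst hk2; simp [Pi.single_eq_of_ne hk]
        · simp [Pi.single_eq_of_ne hk, Pi.single_eq_of_ne hk2]
    · simp only [Pi.single_apply, add_mul, ite_mul, one_mul, zero_mul, Finset.sum_add_distrib,
        Finset.sum_ite_eq', Finset.mem_univ, if_true]
      rw [hd i, hd j, hji]
      intro h
      apply hij
      linarith

/-- A linear functional in terms of its values at the unit vectors. -/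
theorem gc_lin {n : ℕ} (T : (Fin n → ℝ) →L[ℝ] ℝ) (u : Fin n → ℝ) :
    T u = ∑ i, u i * T (Pi.single i 1) := by
  have h3 : u = ∑ i, u i • (Pi.single i 1 : Fin n → ℝ) := by
    funext j
    simp [Finset.sum_apply, Pi.single_apply]
  conv_lhs => rw [h3, map_sum]
  simp only [map_smul, smul_eq_mul]

/-- The derivative along a line in terms of the partial derivatives. -/
theorem gc_line {n : ℕ} (f : (Fin n → ℝ) → ℝ) (x u : Fin n → ℝ) (t : ℝ)
    (hf : DifferentiableAt ℝ f (x + t • u)) :
    HasDerivAt (fun t : ℝ => f (x + t • u)) (∑ j, u j * pd j f (x + t • u)) t := by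
  have h1 : HasDerivAt (fun t : ℝ => x + t • u) u t := by
    have := ((hasDerivAt_id t).smul_const u).const_add x
    simpa using this
  have h2 := hf.hasFDerivAt.comp_hasDerivAt t h1
  exact h2.congr_deriv (gc_lin _ u)

/-- Variation of a function on a box of side `r` in terms of its partial derivatives. -/
theorem gc_var {n : ℕ} (f : (Fin n → ℝ) → ℝ) (O : Set (Fin n → ℝ)) (hO : IsOpen O)
    (c : Fin n → ℝ) (r : ℝ) (hcO : Set.Icc c (fun i => c i + r) ⊆ O)
    (hf : DifferentiableOn ℝ f O) (D : ℝ) (hD : 0 ≤ D)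
    (hb : ∀ x ∈ Set.Icc c (fun i => c i + r), ∀ i, |pd i f x| ≤ D) :
    ∀ x ∈ Set.Icc c (fun i => c i + r), ∀ y ∈ Set.Icc c (fun i => c i + r),
      |f y - f x| ≤ n * D * r := by
  intro x hx y hy
  have hr : 0 ≤ n * D * r := by
    rcases Nat.eq_zero_or_pos n with rfl | hn
    · simp
    · have h1 := hx.1 ⟨0, hn⟩
      have h2 := hx.2 ⟨0, hn⟩
      have h3 : 0 ≤ r := by simp only at h2; linarith
      positivity
  have h1 := (convex_Icc c (fun i => c i + r)).norm_image_sub_le_of_norm_fderiv_le (𝕜 := ℝ)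
    (f := f) (C := n * D) (fun z hz => hf.differentiableAt (hO.mem_nhds (hcO hz)))
    (fun z hz => tay_norm_le _ _ hD (fun i => hb z hz i)) hx hy
  refine h1.trans ?_
  rcases Nat.eq_zero_or_pos n with rfl | hn
  · simp
  · have h3 : 0 ≤ r := by
      have h1 := hx.1 ⟨0, hn⟩
      have h2 := hx.2 ⟨0, hn⟩
      simp only at h2; linarith
    refine mul_le_mul_of_nonneg_left ?_ (by positivity)
    rw [pi_norm_le_iff_of_nonneg h3]
    intro i
    have h4 := hx.1 i
    have h5 := hx.2 i
    have h6 := hy.1 i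
    have h7 := hy.2 i
    rw [Pi.sub_apply, Real.norm_eq_abs, abs_le]
    simp only at h5 h7
    constructor <;> linarith

theorem good_C2 (n : ℕ) (Hs : Matrix (Fin n) (Fin n) ℝ) (hsym : Hs.IsSymm) (h0 : Hs ≠ 0) :
    ∃ ω : ℝ, 0 < ω ∧ ∀ η : ℝ, 0 < η → ∃ ε : ℝ, 0 < ε ∧
      ∀ (f : (Fin n → ℝ) → ℝ) (O : Set (Fin n → ℝ)) (c : Fin n → ℝ) (r S : ℝ), 0 < r → 0 < S →
        IsOpen O → Set.Icc c (fun i => c i + r) ⊆ O → ContDiffOn ℝ (2 : ℕ) f O →
        (∀ x ∈ Set.Icc c (fun i => c i + r), ∀ i j, |pd i (pd j f) x - Hs i j| ≤ ω) →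
        (∃ x ∈ Set.Icc c (fun i => c i + r), S ≤ |f x|) →
        volume {x | x ∈ Set.Icc c (fun i => c i + r) ∧ |f x| < ε * S} ≤
          ENNReal.ofReal (η * r ^ n) := by
  obtain ⟨u, hu, ⟨i₁, hi₁⟩, hq⟩ := gc_dir Hs hsym h0
  have hn : 0 < n := by
    rcases Nat.eq_zero_or_pos n with rfl | hn
    · exact absurd (by ext i; exact i.elim0) h0
    · exact hn
  have hn' : (0 : ℝ) < n := by exact_mod_cast hn
  set q := ∑ j, u j * ∑ i, u i * Hs i j with hqdef
  set κ := |q| / 2 with hκ
  have hκ0 : 0 < κ := by have := abs_pos.mpr hq; positivity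
  set ω := κ / (n ^ 2 : ℝ) with hω
  have hω0 : 0 < ω := by positivity
  refine ⟨ω, hω0, fun η hη => ?_⟩
  set M := (∑ i, ∑ j, |Hs i j|) + ω with hM
  have hM0 : 0 < M := by
    have : 0 ≤ ∑ i, ∑ j, |Hs i j| := Finset.sum_nonneg fun i _ => Finset.sum_nonneg fun j _ => abs_nonneg _
    linarith
  set C1 := 8 * (n : ℝ) ^ 2 * M with hC1
  have hC10 : 0 < C1 := by positivity
  set ε := min (1 / 2) (min (η / (8 * n * 3 ^ n)) (η ^ 2 * κ / (4 * C1 * (3 ^ n) ^ 2))) with hε
  have hε0 : 0 < ε := by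
    refine lt_min (by norm_num) (lt_min (by positivity) (by positivity))
  have hε1 : ε ≤ 1 / 2 := min_le_left _ _
  have hε2 : ε ≤ η / (8 * n * 3 ^ n) := (min_le_right _ _).trans (min_le_left _ _)
  have hε3 : ε ≤ η ^ 2 * κ / (4 * C1 * (3 ^ n) ^ 2) := (min_le_right _ _).trans (min_le_right _ _)
  refine ⟨ε, hε0, ?_⟩
  intro f O c r S hr hS hO hcO hf hH hx1
  set B := Set.Icc c (fun i => c i + r) with hB
  set E := {x | x ∈ B ∧ |f x| < ε * S} with hE
  have hfd : DifferentiableOn ℝ f O := hf.differentiableOn (by norm_num)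
  have hpd : ∀ j, DifferentiableOn ℝ (pd j f) O := fun j =>
    (tay_pd hO (n := 1) (by simpa using hf) j).differentiableOn (by norm_num)
  have hEm : MeasurableSet E := by
    have h1 : E = (O ∩ f ⁻¹' (Metric.ball 0 (ε * S))) ∩ B := by
      ext x
      simp only [hE, Set.mem_ofPred_eq, Set.mem_inter_iff, Set.mem_preimage, mem_ball_zero_iff,
        Real.norm_eq_abs]
      exact ⟨fun h => ⟨⟨hcO h.1, h.2⟩, h.1⟩, fun h => ⟨h.2, h.1.2⟩⟩
    rw [h1]
    exact (hfd.continuousOn.isOpen_inter_preimage hO Metric.isOpen_ball).measurableSet.inter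
      measurableSet_Icc
  have hEB : E ⊆ B := fun x hx => hx.1
  have hHM : ∀ x ∈ B, ∀ i j, |pd i (pd j f) x| ≤ M := by
    intro x hx i j
    have h1 := hH x hx i j
    have h2 : |Hs i j| ≤ ∑ i, ∑ j, |Hs i j| := by
      refine le_trans ?_ (Finset.single_le_sum (f := fun i => ∑ j, |Hs i j|)
        (fun i _ => Finset.sum_nonneg fun j _ => abs_nonneg _) (Finset.mem_univ i))
      exact Finset.single_le_sum (f := fun j => |Hs i j|) (fun j _ => abs_nonneg _)
        (Finset.mem_univ j)
    have h3 := abs_sub_abs_le_abs_sub (pd i (pd j f) x) (Hs i j)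
    linarith
  -- slices are bounded, and lie in the box
  have hslb : ∀ (v : Fin n → ℝ) (i : Fin n), v i = 1 → ∀ x : Fin n → ℝ,
      Bornology.IsBounded {t : ℝ | x + t • v ∈ E} := by
    intro v i hv x
    refine (Metric.isBounded_Icc (c i - x i) (c i + r - x i)).subset fun t ht => ?_
    have h1 := (hEB ht).1 i
    have h2 := (hEB ht).2 i
    simp only [Pi.add_apply, Pi.smul_apply, smul_eq_mul, hv, mul_one] at h1 h2
    exact ⟨by linarith, by linarith⟩
  by_cases hSr : S ≤ C1 * r ^ 2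
  · -- small values: use the second derivative in the direction `u`
    set h := η * r / 3 ^ n with hh
    have hh0 : 0 < h := by positivity
    have hsl : ∀ x : Fin n → ℝ, volume {t : ℝ | x + t • u ∈ E} ≤ ENNReal.ofReal (2 * h) := by
      intro x
      refine gc_three _ h hh0.le (hslb u i₁ hi₁ x) ?_
      intro a ha b hb e he hab hbe
      have hab' : a < b := by linarith
      have hbe' : b < e := by linarith
      have hseg : ∀ t ∈ Set.Icc a e, x + t • u ∈ B := by
        intro t ht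
        have h1 : t ∈ segment ℝ a e := by rw [segment_eq_Icc (by linarith)]; exact ht
        obtain ⟨p, p', hp, hp', hpp, rfl⟩ := h1
        have h2 := (convex_Icc c (fun i => c i + r)) (hEB ha) (hEB he) hp hp' hpp
        have h3 : p • (x + a • u) + p' • (x + e • u) = x + (p • a + p' • e) • u := by
          have : x = (p + p') • x := by rw [hpp, one_smul]
          conv_rhs => rw [this]
          simp only [smul_add, add_smul, smul_smul, smul_eq_mul]
          abel
        rw [h3] at h2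
        exact h2
      obtain ⟨ξ, hξ, hξ'⟩ := gc_divdiff (fun t => f (x + t • u))
        (fun t => ∑ j, u j * pd j f (x + t • u))
        (fun t => ∑ j, u j * ∑ i, u i * pd i (pd j f) (x + t • u)) a b e hab' hbe'
        (fun t ht => gc_line f x u t (hfd.differentiableAt (hO.mem_nhds (hcO (hseg t ht)))))
        (fun t ht => HasDerivAt.fun_sum fun j _ => HasDerivAt.const_mul (u j)
          (gc_line (pd j f) x u t ((hpd j).differentiableAt (hO.mem_nhds (hcO (hseg t ht))))))
      set w := ∑ j, u j * ∑ i, u i * pd i (pd j f) (x + ξ • u) with hw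
      have hwκ : κ ≤ |w| := by
        have h1 : |w - q| ≤ κ := by
          have h2 : w - q = ∑ j, u j * ∑ i, u i * (pd i (pd j f) (x + ξ • u) - Hs i j) := by
            rw [hw, hqdef, ← Finset.sum_sub_distrib]
            refine Finset.sum_congr rfl fun j _ => ?_
            rw [← mul_sub, ← Finset.sum_sub_distrib]
            congr 1
            refine Finset.sum_congr rfl fun i _ => ?_
            ring
          rw [h2]
          calc |∑ j, u j * ∑ i, u i * (pd i (pd j f) (x + ξ • u) - Hs i j)|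
              ≤ ∑ j, |u j * ∑ i, u i * (pd i (pd j f) (x + ξ • u) - Hs i j)| :=
                Finset.abs_sum_le_sum_abs _ _
            _ ≤ ∑ _j : Fin n, 1 * (n * ω) := by
                refine Finset.sum_le_sum fun j _ => ?_
                rw [abs_mul]
                refine mul_le_mul (hu j) ?_ (abs_nonneg _) (by norm_num)
                calc |∑ i, u i * (pd i (pd j f) (x + ξ • u) - Hs i j)|
                    ≤ ∑ i, |u i * (pd i (pd j f) (x + ξ • u) - Hs i j)| :=
                      Finset.abs_sum_le_sum_abs _ _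
                  _ ≤ ∑ _i : Fin n, 1 * ω := by
                      refine Finset.sum_le_sum fun i _ => ?_
                      rw [abs_mul]
                      exact mul_le_mul (hu i) (hH _ (hseg ξ hξ) i j) (abs_nonneg _) (by norm_num)
                  _ = n * ω := by
                      rw [Finset.sum_const, Finset.card_univ, Fintype.card_fin, nsmul_eq_mul,
                        one_mul]
            _ = κ := by
                rw [Finset.sum_const, Finset.card_univ, Fintype.card_fin, nsmul_eq_mul, one_mul,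
                  hω]
                field_simp
        have h3 := abs_sub_abs_le_abs_sub q w
        rw [abs_sub_comm] at h3
        have h4 : |q| = 2 * κ := by rw [hκ]; ring
        linarith
      have hfa : |f (x + a • u)| < ε * S := ha.2
      have hfb : |f (x + b • u)| < ε * S := hb.2
      have hfe : |f (x + e • u)| < ε * S := he.2
      set P := (b - a) * (e - b) with hP
      have hP1 : h ^ 2 < P := by rw [hP, sq]; exact mul_lt_mul'' hab hbe hh0.le hh0.le
      have hea : 0 < e - a := by linarith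
      have h5 : |w| * (P * (e - a)) < 4 * (ε * S) * (e - a) := by
        have h6 : |w| * (P * (e - a)) = |w * (P * (e - a))| := by
          rw [abs_mul w, abs_of_pos (show 0 < P * (e - a) from mul_pos (by nlinarith [sq_nonneg h]) hea)]
        rw [h6, show w * (P * (e - a)) = w * ((b - a) * (e - b) * (e - a)) by rw [hP], hξ']
        exact gc_comb _ _ _ _ _ _ _ hab' hbe' hfa hfb hfe
      have h7 : |w| * P < 4 * (ε * S) := by
        rw [← mul_assoc] at h5
        exact lt_of_mul_lt_mul_right h5 hea.le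
      have h8 : κ * h ^ 2 < 4 * (ε * S) := by
        refine lt_of_le_of_lt ?_ h7
        exact mul_le_mul hwκ hP1.le (by positivity) (abs_nonneg _)
      have h9 : 4 * (ε * S) ≤ κ * h ^ 2 := by
        have h10 : ε * (4 * C1 * (3 ^ n) ^ 2) ≤ η ^ 2 * κ := by
          rwa [le_div_iff₀ (by positivity)] at hε3
        have h11 : ε * S ≤ ε * (C1 * r ^ 2) := mul_le_mul_of_nonneg_left hSr hε0.le
        have h12 : κ * h ^ 2 = (η ^ 2 * κ) * (r ^ 2 / (3 ^ n) ^ 2) := by
          rw [hh]; field_simp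
        have h13 : 4 * (ε * (C1 * r ^ 2)) = (ε * (4 * C1 * (3 ^ n) ^ 2)) * (r ^ 2 / (3 ^ n) ^ 2) := by
          field_simp
        rw [h12]
        refine le_trans ?_ (mul_le_mul_of_nonneg_right h10 (by positivity))
        rw [← h13]
        linarith
      linarith
    refine (gc_slice E hEm c r (2 * h) hr (by positivity) hEB u hu hsl).trans ?_
    refine le_of_eq ?_
    congr 1
    rw [hh, mul_pow]
    field_simp
  · -- large values: the gradient dominates
    push Not at hSr
    obtain ⟨x₁, hx₁, hSx⟩ := hx1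
    have hpv : ∀ i, ∀ y ∈ B, |pd i f y - pd i f x₁| ≤ n * M * r := by
      intro i y hy
      exact gc_var (pd i f) O hO c r hcO (hpd i) M hM0.le (fun z hz j => hHM z hz j i) x₁ hx₁ y hy
    have hMr : n * M * r ≤ S / (8 * n * r) := by
      rw [le_div_iff₀ (by positivity)]
      refine le_trans (le_of_eq ?_) hSr.le
      rw [hC1]; ring
    by_cases hg : ∀ i, |pd i f x₁| ≤ S / (4 * n * r)
    · -- the set is empty
      have hD : ∀ y ∈ B, ∀ i, |pd i f y| ≤ S / (2 * n * r) := by
        intro y hy i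
        have h1 := hpv i y hy
        have h2 := hg i
        have h3 := abs_sub_abs_le_abs_sub (pd i f y) (pd i f x₁)
        have h4 : S / (4 * n * r) + S / (8 * n * r) ≤ S / (2 * n * r) := by
          rw [div_add_div _ _ (by positivity) (by positivity), div_le_div_iff₀ (by positivity) (by positivity)]
          have : 0 < S * (n * r) ^ 3 := by positivity
          nlinarith [mul_pos (mul_pos hS (mul_pos hn' hr)) (mul_pos (mul_pos hn' hr) (mul_pos hn' hr))]
        linarith
      have h5 : E = ∅ := by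
        ext y
        simp only [Set.mem_empty_iff_false, iff_false]
        intro hy
        have h6 := gc_var f O hO c r hcO hfd (S / (2 * n * r)) (by positivity) hD x₁ hx₁ y hy.1
        have h7 : (n : ℝ) * (S / (2 * n * r)) * r = S / 2 := by field_simp
        rw [h7] at h6
        have h8 := abs_sub_abs_le_abs_sub (f x₁) (f y)
        rw [abs_sub_comm] at h8
        have h9 : |f y| < ε * S := hy.2
        have h10 : ε * S ≤ 1 / 2 * S := mul_le_mul_of_nonneg_right hε1 hS.le
        linarith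
      rw [h5]
      simp
    · push Not at hg
      obtain ⟨i, hi⟩ := hg
      have hlow : ∀ y ∈ B, S / (8 * n * r) ≤ |pd i f y| := by
        intro y hy
        have h1 := hpv i y hy
        have h3 := abs_sub_abs_le_abs_sub (pd i f x₁) (pd i f y)
        rw [abs_sub_comm] at h3
        have h4 : S / (4 * n * r) = 2 * (S / (8 * n * r)) := by field_simp; norm_num
        linarith
      set h := 2 * η * r / 3 ^ n with hh
      have hh0 : 0 < h := by positivity
      have hv : ∀ k, |(Pi.single i 1 : Fin n → ℝ) k| ≤ 1 := by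
        intro k
        by_cases hk : k = i
        · subst hk; simp
        · simp [Pi.single_eq_of_ne hk]
      have hsl : ∀ x : Fin n → ℝ, volume {t : ℝ | x + t • (Pi.single i 1 : Fin n → ℝ) ∈ E} ≤
          ENNReal.ofReal h := by
        intro x
        refine gc_two _ h (hslb _ i (by simp) x) ?_
        intro a ha b hb hab
        have hab' : a < b := by linarith
        set v := (Pi.single i 1 : Fin n → ℝ) with hvdef
        have hseg : ∀ t ∈ Set.Icc a b, x + t • v ∈ B := by
          intro t ht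
          have h1 : t ∈ segment ℝ a b := by rw [segment_eq_Icc (by linarith)]; exact ht
          obtain ⟨p, p', hp, hp', hpp, rfl⟩ := h1
          have h2 := (convex_Icc c (fun i => c i + r)) (hEB ha) (hEB hb) hp hp' hpp
          have h3 : p • (x + a • v) + p' • (x + b • v) = x + (p • a + p' • b) • v := by
            have : x = (p + p') • x := by rw [hpp, one_smul]
            conv_rhs => rw [this]
            simp only [smul_add, add_smul, smul_smul, smul_eq_mul]
            abel
          rw [h3] at h2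
          exact h2
        have hder : ∀ t ∈ Set.Icc a b, HasDerivAt (fun t : ℝ => f (x + t • v)) (pd i f (x + t • v)) t := by
          intro t ht
          refine (gc_line f x v t (hfd.differentiableAt (hO.mem_nhds (hcO (hseg t ht))))).congr_deriv ?_
          rw [hvdef, Finset.sum_eq_single i]
          · simp
          · intro k _ hk; simp [Pi.single_eq_of_ne hk]
          · intro hk; exact absurd (Finset.mem_univ i) hk
        obtain ⟨ξ, hξ, hξ'⟩ := exists_hasDerivAt_eq_slope (fun t : ℝ => f (x + t • v))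
          (fun t => pd i f (x + t • v)) hab'
          (fun t ht => (hder t ht).continuousAt.continuousWithinAt)
          (fun t ht => hder t ⟨ht.1.le, ht.2.le⟩)
        have h1 := hlow _ (hseg ξ ⟨hξ.1.le, hξ.2.le⟩)
        have hba : 0 < b - a := by linarith
        rw [hξ', abs_div, abs_of_pos hba, le_div_iff₀ hba] at h1
        have hfa : |f (x + a • v)| < ε * S := ha.2
        have hfb : |f (x + b • v)| < ε * S := hb.2
        have h2 : |f (x + b • v) - f (x + a • v)| < 2 * (ε * S) := by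
          have := abs_sub (f (x + b • v)) (f (x + a • v))
          linarith
        have h3 : S / (8 * n * r) * h < 2 * (ε * S) :=
          lt_of_lt_of_le' (lt_of_le_of_lt (h1) h2)
            (mul_le_mul_of_nonneg_left hab.le (by positivity))
        have h4 : S / (8 * n * r) * h = 2 * (η / (8 * n * 3 ^ n)) * S := by
          rw [hh]; field_simp
        have h5 : ε * S ≤ η / (8 * n * 3 ^ n) * S := mul_le_mul_of_nonneg_right hε2 hS.le
        rw [h4] at h3
        linarith
      refine (gc_slice E hEm c r h hr hh0.le hEB _ hv hsl).trans ?_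
      refine le_of_eq ?_
      congr 1
      rw [hh, mul_pow]
      field_simp

end Pool.Agent.Lib.MP_a37012_nt
end

section

set_option autoImplicit false

open MeasureTheory

namespace Pool.Agent.Lib.MP_a37012_nt

/-- The principal block of `A` on the index set `S` is nonsingular. -/
def legN {d : ℕ} (A : Matrix (Fin d) (Fin d) ℝ) (S : Finset (Fin d)) : Prop :=
  ∀ w : Fin d → ℝ, (∀ i, i ∉ S → w i = 0) → (∀ i ∈ S, A.mulVec w i = 0) → w = 0

/-- A symmetric matrix with a nonsingular principal block of maximal size has the rank of the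
block. -/
theorem leg_rank {d : ℕ} (A : Matrix (Fin d) (Fin d) ℝ) (hA : ∀ i j, A i j = A j i)
    (S : Finset (Fin d)) (hS : legN A S) (hmax : ∀ S' : Finset (Fin d), S.card < S'.card → ¬ legN A S')
    (h : Fin d → ℝ) (hh : ∀ i ∈ S, A.mulVec h i = 0) : A.mulVec h = 0 := by
  classical
  -- the vectors `w i`
  have h1 : ∀ i, i ∉ S → ∃ w : Fin d → ℝ, w i = 1 ∧ (∀ k, k ∉ insert i S → w k = 0) ∧
      ∀ k ∈ insert i S, A.mulVec w k = 0 := by
    intro i hi
    have h2 := hmax (insert i S) (by rw [Finset.card_insert_of_notMem hi]; omega)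
    unfold legN at h2
    push Not at h2
    obtain ⟨w, hw1, hw2, hw3⟩ := h2
    have hwi : w i ≠ 0 := by
      intro h0
      apply hw3
      apply hS w
      · intro k hk
        by_cases hki : k = i
        · rw [hki, h0]
        · exact hw1 k (by simp [hki, hk])
      · intro k hk
        exact hw2 k (Finset.mem_insert_of_mem hk)
    refine ⟨(w i)⁻¹ • w, ?_, ?_, ?_⟩
    · simp [hwi]
    · intro k hk
      simp [hw1 k hk]
    · intro k hk
      rw [Matrix.mulVec_smul, Pi.smul_apply, hw2 k hk, smul_zero]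
  choose! W hW1 hW2 hW3 using h1
  -- bilinear symmetry
  have hsym : ∀ u v : Fin d → ℝ, ∑ k, u k * A.mulVec v k = ∑ k, v k * A.mulVec u k := by
    intro u v
    simp only [Matrix.mulVec, dotProduct, Finset.mul_sum]
    rw [Finset.sum_comm]
    refine Finset.sum_congr rfl fun j _ => Finset.sum_congr rfl fun i _ => ?_
    rw [hA i j]; ring
  have hpair : ∀ i i', i ∉ S → i' ∉ S → ∑ k, W i k * A.mulVec (W i') k = A.mulVec (W i') i := by
    intro i i' hi hi'
    rw [Finset.sum_eq_single i]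
    · rw [hW1 i hi, one_mul]
    · intro k _ hk
      by_cases hkS : k ∈ S
      · rw [hW3 i' hi' k (Finset.mem_insert_of_mem hkS), mul_zero]
      · rw [hW2 i hi k (by simp [hk, hkS]), zero_mul]
    · simp
  have hc : ∀ i i', i ∉ S → i' ∉ S → A.mulVec (W i') i = A.mulVec (W i) i' := by
    intro i i' hi hi'
    rw [← hpair i i' hi hi', ← hpair i' i hi' hi, hsym]
  have hzero : ∀ i i', i ∉ S → i' ∉ S → A.mulVec (W i') i = 0 := by
    intro i i' hi hi'
    by_cases hii : i = i'
    · subst hii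
      exact hW3 i hi i (Finset.mem_insert_self _ _)
    have h2 := hmax (insert i (insert i' S)) (by
      rw [Finset.card_insert_of_notMem (by simp [hii, hi]), Finset.card_insert_of_notMem hi']
      omega)
    unfold legN at h2
    push Not at h2
    obtain ⟨w, hw1, hw2, hw3⟩ := h2
    have hw : w = w i • W i + w i' • W i' := by
      have h3 : w - (w i • W i + w i' • W i') = 0 := by
        apply hS
        · intro k hk
          simp only [Pi.sub_apply, Pi.add_apply, Pi.smul_apply, smul_eq_mul]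
          by_cases hki : k = i
          · subst hki
            rw [hW1 k hi, hW2 i' hi' k (by simp [hii, hi])]
            ring
          · by_cases hki' : k = i'
            · subst hki'
              rw [hW1 k hi', hW2 i hi k (by simp [hki, hi'])]
              ring
            · rw [hw1 k (by simp [hki, hki', hk]), hW2 i hi k (by simp [hki, hk]),
                hW2 i' hi' k (by simp [hki', hk])]
              ring
        · intro k hk
          rw [Matrix.mulVec_sub, Matrix.mulVec_add, Matrix.mulVec_smul, Matrix.mulVec_smul]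
          simp only [Pi.sub_apply, Pi.add_apply, Pi.smul_apply, smul_eq_mul]
          rw [hw2 k (by simp [hk]), hW3 i hi k (by simp [hk]), hW3 i' hi' k (by simp [hk])]
          ring
      exact sub_eq_zero.mp h3
    have e1 := hw2 i (by simp)
    have e2 := hw2 i' (by simp)
    rw [hw, Matrix.mulVec_add, Matrix.mulVec_smul, Matrix.mulVec_smul] at e1 e2
    simp only [Pi.add_apply, Pi.smul_apply, smul_eq_mul] at e1 e2
    have e3 := hW3 i hi i (by simp)
    have e4 := hW3 i' hi' i' (by simp)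
    have e5 := hc i i' hi hi'
    by_contra hne
    have f1 : w i' = 0 := by
      rw [e3, mul_zero, zero_add] at e1
      exact (mul_eq_zero.mp e1).resolve_right hne
    have f2 : w i = 0 := by
      rw [e4, mul_zero, add_zero] at e2
      exact (mul_eq_zero.mp e2).resolve_right (by rw [← e5]; exact hne)
    apply hw3
    rw [hw, f1, f2, zero_smul, zero_smul, add_zero]
  have hAW : ∀ i, i ∉ S → A.mulVec (W i) = 0 := by
    intro i hi
    funext k
    by_cases hk : k ∈ S
    · exact hW3 i hi k (Finset.mem_insert_of_mem hk)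
    · exact hzero k i hk hi
  have hh2 : h = ∑ i ∈ Finset.univ.filter (fun i => i ∉ S), h i • W i := by
    have h3 : h - ∑ i ∈ Finset.univ.filter (fun i => i ∉ S), h i • W i = 0 := by
      apply hS
      · intro k hk
        rw [Pi.sub_apply, Finset.sum_apply, Finset.sum_eq_single k]
        · rw [Pi.smul_apply, hW1 k hk, smul_eq_mul]; ring
        · intro i hi hik
          rw [Finset.mem_filter] at hi
          rw [Pi.smul_apply, hW2 i hi.2 k (by simp [hk, Ne.symm hik]), smul_zero]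
        · intro h0
          exact absurd (by simp [hk]) h0
      · intro k hk
        rw [Matrix.mulVec_sub, Pi.sub_apply, hh k hk, zero_sub, neg_eq_zero,
          Matrix.mulVec_sum, Finset.sum_apply]
        refine Finset.sum_eq_zero fun i hi => ?_
        rw [Finset.mem_filter] at hi
        rw [Matrix.mulVec_smul, hAW i hi.2, smul_zero]
        rfl
    exact sub_eq_zero.mp h3
  rw [hh2, Matrix.mulVec_sum]
  refine Finset.sum_eq_zero fun i hi => ?_
  rw [Finset.mem_filter] at hi
  rw [Matrix.mulVec_smul, hAW i hi.2, smul_zero]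

theorem leg_start {d : ℕ} (A : Matrix (Fin d) (Fin d) ℝ) (hA : ∀ i j, A i j = A j i) (a b : Fin d)
    (hab : A a b ≠ 0) : ∃ S : Finset (Fin d), S.Nonempty ∧ legN A S := by
  classical
  by_cases haa : A a a = 0
  · have hne : a ≠ b := by
      rintro rfl
      exact hab haa
    refine ⟨{a, b}, ⟨a, by simp⟩, ?_⟩
    intro w hw1 hw2
    have key : ∀ i, A.mulVec w i = A i a * w a + A i b * w b := by
      intro i
      rw [Matrix.mulVec, dotProduct, ← Finset.sum_subset (Finset.subset_univ {a, b})]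
      · rw [Finset.sum_pair hne]
      · intro x _ hx
        rw [hw1 x hx, mul_zero]
    have e1 := hw2 a (by simp)
    have e2 := hw2 b (by simp)
    rw [key] at e1 e2
    have f1 : w b = 0 := by
      rw [haa, zero_mul, zero_add] at e1
      exact (mul_eq_zero.mp e1).resolve_left hab
    have f2 : w a = 0 := by
      rw [f1, mul_zero, add_zero] at e2
      exact (mul_eq_zero.mp e2).resolve_left (by rw [hA]; exact hab)
    funext i
    by_cases hi : i ∈ ({a, b} : Finset (Fin d))
    · rcases Finset.mem_insert.mp hi with rfl | hi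
      · exact f2
      · rw [Finset.mem_singleton.mp hi]
        exact f1
    · exact hw1 i hi
  · refine ⟨{a}, ⟨a, by simp⟩, ?_⟩
    intro w hw1 hw2
    have e1 := hw2 a (by simp)
    rw [Matrix.mulVec, dotProduct, ← Finset.sum_subset (Finset.subset_univ {a}),
      Finset.sum_singleton] at e1
    · funext i
      by_cases hi : i = a
      · rw [hi]
        exact (mul_eq_zero.mp e1).resolve_left haa
      · exact hw1 i (by simp [hi])
    · intro x _ hx
      rw [hw1 x hx, mul_zero]


/-- Matrix of second derivatives. -/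
noncomputable def legH {d : ℕ} (F : (Fin d → ℝ) → ℝ) (x : Fin d → ℝ) : Matrix (Fin d) (Fin d) ℝ :=
  Matrix.of fun i j => pd j (pd i F) x

/-- The Legendre coordinates. -/
noncomputable def legChi {d : ℕ} (F : (Fin d → ℝ) → ℝ) (S : Finset (Fin d)) (x : Fin d → ℝ) :
    Fin d → ℝ :=
  fun i => if i ∈ S then pd i F x else x i

/-- The derivative of the Legendre coordinates. -/
noncomputable def legD {d : ℕ} (F : (Fin d → ℝ) → ℝ) (S : Finset (Fin d)) (x : Fin d → ℝ) :
    (Fin d → ℝ) →L[ℝ] (Fin d → ℝ) :=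
  ContinuousLinearMap.pi fun i =>
    if i ∈ S then fderiv ℝ (pd i F) x else ContinuousLinearMap.proj (R := ℝ) (φ := fun _ => ℝ) i

theorem leg_fderiv_apply {d : ℕ} (f : (Fin d → ℝ) → ℝ) (x h : Fin d → ℝ) :
    fderiv ℝ f x h = ∑ j, pd j f x * h j := by
  have h1 : h = ∑ i, h i • (Pi.single i 1 : Fin d → ℝ) := by
    funext j
    simp [Finset.sum_apply, Pi.single_apply]
  conv_lhs => rw [h1, map_sum]
  refine Finset.sum_congr rfl fun j _ => ?_
  rw [map_smul, smul_eq_mul, mul_comm]
  rfl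

theorem legD_mem {d : ℕ} (F : (Fin d → ℝ) → ℝ) (S : Finset (Fin d)) (x h : Fin d → ℝ) {i : Fin d}
    (hi : i ∈ S) : legD F S x h i = (legH F x).mulVec h i := by
  unfold legD
  rw [ContinuousLinearMap.pi_apply, if_pos hi, leg_fderiv_apply]
  rfl

theorem legD_notMem {d : ℕ} (F : (Fin d → ℝ) → ℝ) (S : Finset (Fin d)) (x h : Fin d → ℝ)
    {i : Fin d} (hi : i ∉ S) : legD F S x h i = h i := by
  unfold legD
  rw [ContinuousLinearMap.pi_apply, if_neg hi]
  rfl

theorem legD_injective {d : ℕ} {F : (Fin d → ℝ) → ℝ} {S : Finset (Fin d)} {x : Fin d → ℝ}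
    (h : legN (legH F x) S) : Function.Injective (legD F S x) := by
  rw [injective_iff_map_eq_zero]
  intro w hw
  apply h w
  · intro i hi
    rw [← legD_notMem F S x w hi, hw]
    rfl
  · intro i hi
    rw [← legD_mem F S x w hi, hw]
    rfl

theorem legN_of_injective {d : ℕ} {F : (Fin d → ℝ) → ℝ} {S : Finset (Fin d)} {x : Fin d → ℝ}
    (h : Function.Injective (legD F S x)) : legN (legH F x) S := by
  intro w h1 h2
  apply (injective_iff_map_eq_zero _).mp h
  funext i
  by_cases hi : i ∈ S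
  · rw [legD_mem F S x w hi, h2 i hi]; rfl
  · rw [legD_notMem F S x w hi, h1 i hi]; rfl

section chart

variable {d : ℕ} {V : Set (Fin d → ℝ)} (hV : IsOpen V) {F : (Fin d → ℝ) → ℝ}
  (hF : ContDiffOn ℝ (2 : ℕ) F V) (S : Finset (Fin d))

include hV hF

theorem leg_pd_contDiffOn (i : Fin d) : ContDiffOn ℝ (1 : ℕ) (pd i F) V :=
  tay_pd hV (n := 1) hF i

theorem leg_pd_hasFDerivAt (i : Fin d) {x : Fin d → ℝ} (hx : x ∈ V) :
    HasFDerivAt (pd i F) (fderiv ℝ (pd i F) x) x :=
  (((leg_pd_contDiffOn hV hF i).contDiffAt (hV.mem_nhds hx)).differentiableAt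
    (by simp)).hasFDerivAt

theorem leg_F_hasFDerivAt {x : Fin d → ℝ} (hx : x ∈ V) : HasFDerivAt F (fderiv ℝ F x) x :=
  ((hF.contDiffAt (hV.mem_nhds hx)).differentiableAt (by simp)).hasFDerivAt

theorem legChi_contDiffOn : ContDiffOn ℝ (1 : ℕ) (legChi F S) V := by
  rw [contDiffOn_pi]
  intro i
  unfold legChi
  by_cases hi : i ∈ S
  · simp only [hi, if_true]
    exact leg_pd_contDiffOn hV hF i
  · simp only [hi, if_false]
    exact (contDiff_apply ℝ ℝ i).contDiffOn

theorem legChi_hasFDerivAt {x : Fin d → ℝ} (hx : x ∈ V) :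
    HasFDerivAt (legChi F S) (legD F S x) x := by
  rw [hasFDerivAt_pi']
  intro i
  by_cases hi : i ∈ S
  · have h1 : (fun x => legChi F S x i) = pd i F := by
      funext x
      simp [legChi, hi]
    have h2 : (ContinuousLinearMap.proj (R := ℝ) (φ := fun _ : Fin d => ℝ) i).comp (legD F S x) =
        fderiv ℝ (pd i F) x := by
      ext w
      simp [legD, hi]
    rw [h1, h2]
    exact leg_pd_hasFDerivAt hV hF i hx
  · have h1 : (fun x : Fin d → ℝ => legChi F S x i) = fun x => x i := by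
      funext x
      simp [legChi, hi]
    have h2 : (ContinuousLinearMap.proj (R := ℝ) (φ := fun _ : Fin d => ℝ) i).comp (legD F S x) =
        ContinuousLinearMap.proj (R := ℝ) (φ := fun _ : Fin d => ℝ) i := by
      ext w
      simp [legD, hi]
    rw [h1, h2]
    exact (ContinuousLinearMap.proj (R := ℝ) (φ := fun _ : Fin d => ℝ) i).hasFDerivAt

theorem legH_symm {x : Fin d → ℝ} (hx : x ∈ V) (i j : Fin d) : legH F x i j = legH F x j i := by
  unfold legH
  rw [Matrix.of_apply, Matrix.of_apply]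
  exact tay_swap hV hF j i x hx

end chart


/-- Replace the coordinates outside `S` by those of `v`. -/
def legStar {d : ℕ} (S : Finset (Fin d)) (v y : Fin d → ℝ) : Fin d → ℝ :=
  fun i => if i ∈ S then y i else v i

/-- The linear part of `legStar`. -/
noncomputable def legP {d : ℕ} (S : Finset (Fin d)) : (Fin d → ℝ) →L[ℝ] (Fin d → ℝ) :=
  ContinuousLinearMap.pi fun i =>
    if i ∈ S then ContinuousLinearMap.proj (R := ℝ) (φ := fun _ => ℝ) i else 0

theorem legP_apply {d : ℕ} (S : Finset (Fin d)) (h : Fin d → ℝ) (i : Fin d) :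
    legP S h i = if i ∈ S then h i else 0 := by
  unfold legP
  by_cases hi : i ∈ S <;> simp [hi]

theorem legStar_hasFDerivAt {d : ℕ} (S : Finset (Fin d)) (v y : Fin d → ℝ) :
    HasFDerivAt (legStar S v) (legP S) y := by
  have h1 : legStar S v = fun y => legP S y + legStar S v 0 := by
    funext y i
    by_cases hi : i ∈ S <;> simp [legStar, legP_apply, hi]
  rw [h1]
  exact (legP S).hasFDerivAt.add_const _

theorem legStar_contDiff {d : ℕ} (S : Finset (Fin d)) (v : Fin d → ℝ) :
    ContDiff ℝ (1 : ℕ) (legStar S v) := by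
  have h1 : legStar S v = fun y => legP S y + legStar S v 0 := by
    funext y i
    by_cases hi : i ∈ S <;> simp [legStar, legP_apply, hi]
  rw [h1]
  exact (legP S).contDiff.add contDiff_const

theorem leg_tanG_hasFDerivAt {d : ℕ} {V : Set (Fin d → ℝ)} (hV : IsOpen V) {F : (Fin d → ℝ) → ℝ}
    (hF : ContDiffOn ℝ (2 : ℕ) F V) (p : ℝ) (v : Fin d → ℝ) {x : Fin d → ℝ} (hx : x ∈ V) :
    ∃ L : (Fin d → ℝ) →L[ℝ] ℝ, HasFDerivAt (tanG F p v) L x ∧
      ∀ w, L w = -∑ i, (legH F x).mulVec w i * (v i - x i) := by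
  have h1 := ((hasFDerivAt_const p x).sub (leg_F_hasFDerivAt hV hF hx)).sub
    (HasFDerivAt.fun_sum (u := Finset.univ) fun i _ => (leg_pd_hasFDerivAt hV hF i hx).mul
      ((hasFDerivAt_const (v i) x).sub
        (ContinuousLinearMap.proj (R := ℝ) (φ := fun _ : Fin d => ℝ) i).hasFDerivAt))
  refine ⟨_, h1, ?_⟩
  intro w
  have h2 : fderiv ℝ F x w = ∑ j, pd j F x * w j := leg_fderiv_apply F x w
  have h3 : ∀ i, fderiv ℝ (pd i F) x w = (legH F x).mulVec w i := by
    intro i
    rw [leg_fderiv_apply]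
    rfl
  simp only [zero_sub, _root_.sub_apply, _root_.neg_apply, _root_.sum_apply, _root_.add_apply,
    _root_.smul_apply, h2, h3, smul_eq_mul, ContinuousLinearMap.proj_apply]
  rw [← Finset.sum_neg_distrib, ← Finset.sum_neg_distrib, ← Finset.sum_sub_distrib]
  refine Finset.sum_congr rfl fun i _ => ?_
  simp only [Pi.sub_apply, ContinuousLinearMap.proj_apply]
  ring

/-- The hypotheses on the inverse of the Legendre coordinates. -/
structure LegInv {d : ℕ} (V : Set (Fin d → ℝ)) (F : (Fin d → ℝ) → ℝ) (S : Finset (Fin d))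
    (O : Set (Fin d → ℝ)) (ψ : (Fin d → ℝ) → (Fin d → ℝ)) : Prop where
  openV : IsOpen V
  smooth : ContDiffOn ℝ (2 : ℕ) F V
  openO : IsOpen O
  psi : ContDiffOn ℝ (1 : ℕ) ψ O
  mem : ∀ y ∈ O, ψ y ∈ V
  inv : ∀ y ∈ O, legChi F S (ψ y) = y

namespace LegInv

variable {d : ℕ} {V : Set (Fin d → ℝ)} {F : (Fin d → ℝ) → ℝ} {S : Finset (Fin d)}
  {O : Set (Fin d → ℝ)} {ψ : (Fin d → ℝ) → (Fin d → ℝ)} (H : LegInv V F S O ψ)

include H

theorem pd_eq {y : Fin d → ℝ} (hy : y ∈ O) {i : Fin d} (hi : i ∈ S) : pd i F (ψ y) = y i := by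
  have := congrFun (H.inv y hy) i
  simpa [legChi, hi] using this

theorem not_eq {y : Fin d → ℝ} (hy : y ∈ O) {i : Fin d} (hi : i ∉ S) : ψ y i = y i := by
  have := congrFun (H.inv y hy) i
  simpa [legChi, hi] using this

theorem psi_hasFDerivAt {y : Fin d → ℝ} (hy : y ∈ O) : HasFDerivAt ψ (fderiv ℝ ψ y) y :=
  ((H.psi.contDiffAt (H.openO.mem_nhds hy)).differentiableAt (by simp)).hasFDerivAt

theorem D_eq {y : Fin d → ℝ} (hy : y ∈ O) (h : Fin d → ℝ) :
    legD F S (ψ y) (fderiv ℝ ψ y h) = h := by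
  have h1 : HasFDerivAt (fun y => legChi F S (ψ y)) ((legD F S (ψ y)).comp (fderiv ℝ ψ y)) y :=
    (legChi_hasFDerivAt H.openV H.smooth S (H.mem y hy)).comp y (H.psi_hasFDerivAt hy)
  have h2 : (fun y => legChi F S (ψ y)) =ᶠ[nhds y] id := by
    filter_upwards [H.openO.mem_nhds hy] with z hz using H.inv z hz
  have h3 : HasFDerivAt (id : (Fin d → ℝ) → (Fin d → ℝ)) ((legD F S (ψ y)).comp (fderiv ℝ ψ y)) y :=
    h1.congr_of_eventuallyEq h2.symm
  have h4 := h3.unique (hasFDerivAt_id y)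
  exact congrArg (fun T : (Fin d → ℝ) →L[ℝ] (Fin d → ℝ) => T h) h4

theorem nonsing {y : Fin d → ℝ} (hy : y ∈ O) : legN (legH F (ψ y)) S := by
  apply legN_of_injective
  have h1 : Function.Surjective (legD F S (ψ y)) := fun h => ⟨_, H.D_eq hy h⟩
  exact (LinearMap.injective_iff_surjective (f := (legD F S (ψ y) : (Fin d → ℝ) →ₗ[ℝ] _))).mpr h1

/-- The height over the tangent plane is constant in the directions outside `S`. -/
theorem tan_const (hR : ∀ x ∈ V, legN (legH F x) S → ∀ h : Fin d → ℝ,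
      (∀ i ∈ S, (legH F x).mulVec h i = 0) → (legH F x).mulVec h = 0)
    (p : ℝ) (v : Fin d → ℝ) {y y' : Fin d → ℝ} (hseg : segment ℝ y y' ⊆ O)
    (heq : ∀ i ∈ S, y i = y' i) : tanG F p v (ψ y) = tanG F p v (ψ y') := by
  have hd : ∀ s ∈ Set.Icc (0 : ℝ) 1, HasDerivAt (fun s : ℝ => tanG F p v (ψ (y + s • (y' - y)))) 0 s := by
    intro s hs
    have hy : y + s • (y' - y) ∈ O := by
      apply hseg
      rw [segment_eq_image']
      exact ⟨s, hs, rfl⟩
    obtain ⟨L, hL1, hL2⟩ := leg_tanG_hasFDerivAt H.openV H.smooth p v (H.mem _ hy)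
    have h1 : HasDerivAt (fun s : ℝ => y + s • (y' - y)) (y' - y) s := by
      simpa using ((hasDerivAt_id s).smul_const (y' - y)).const_add y
    have h2 := (hL1.comp _ (H.psi_hasFDerivAt hy)).comp_hasDerivAt s h1
    have h3 : (L.comp (fderiv ℝ ψ (y + s • (y' - y)))) (y' - y) = 0 := by
      rw [ContinuousLinearMap.comp_apply, hL2]
      have h4 : (legH F (ψ (y + s • (y' - y)))).mulVec
          (fderiv ℝ ψ (y + s • (y' - y)) (y' - y)) = 0 := by
        apply hR _ (H.mem _ hy) (H.nonsing hy)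
        intro i hi
        rw [← legD_mem F S _ _ hi, H.D_eq hy, Pi.sub_apply, heq i hi, sub_self]
      rw [h4]
      simp
    rw [h3] at h2
    exact h2
  have h5 := constant_of_has_deriv_right_zero
    (f := fun s : ℝ => tanG F p v (ψ (y + s • (y' - y)))) (a := 0) (b := 1)
    (fun s hs => (hd s hs).continuousAt.continuousWithinAt)
    (fun s hs => (hd s ⟨hs.1, hs.2.le⟩).hasDerivWithinAt) 1 (by simp)
  simp only [one_smul, zero_smul, add_zero, add_sub_cancel] at h5
  exact h5.symm

/-- The derivative of the reduced height. -/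
theorem red_hasFDerivAt (p : ℝ) (v : Fin d → ℝ) {y : Fin d → ℝ} (hy : legStar S v y ∈ O) :
    HasFDerivAt (fun y => tanG F p v (ψ (legStar S v y)))
      (∑ j, (if j ∈ S then ψ (legStar S v y) j - v j else 0) •
        ContinuousLinearMap.proj (R := ℝ) (φ := fun _ : Fin d => ℝ) j) y := by
  have hO : IsOpen (legStar S v ⁻¹' O) := H.openO.preimage (legStar_contDiff S v).continuous
  have hψ : HasFDerivAt (fun y => ψ (legStar S v y))
      ((fderiv ℝ ψ (legStar S v y)).comp (legP S)) y :=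
    (H.psi_hasFDerivAt hy).comp y (legStar_hasFDerivAt S v y)
  have hFd := (leg_F_hasFDerivAt H.openV H.smooth (H.mem _ hy)).comp y hψ
  have h1 := ((hasFDerivAt_const p y).sub hFd).sub
    (HasFDerivAt.fun_sum (u := S) fun i _ =>
      ((ContinuousLinearMap.proj (R := ℝ) (φ := fun _ : Fin d => ℝ) i).hasFDerivAt (x := y)).mul
      ((hasFDerivAt_const (v i) y).sub
        ((ContinuousLinearMap.proj (R := ℝ) (φ := fun _ : Fin d => ℝ) i).hasFDerivAt.comp y hψ)))
  have h2 : (fun y => tanG F p v (ψ (legStar S v y))) =ᶠ[nhds y]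
      fun y => p - F (ψ (legStar S v y)) - ∑ i ∈ S, y i * (v i - ψ (legStar S v y) i) := by
    filter_upwards [hO.mem_nhds hy] with z hz
    unfold tanG
    congr 1
    rw [← Finset.sum_subset (Finset.subset_univ S)]
    · refine Finset.sum_congr rfl fun i hi => ?_
      rw [H.pd_eq hz hi]
      simp [legStar, hi]
    · intro i _ hi
      rw [H.not_eq hz hi]
      simp [legStar, hi]
  refine (HasFDerivAt.congr_of_eventuallyEq ?_ h2)
  refine h1.congr_fderiv ?_
  refine ContinuousLinearMap.ext fun h => ?_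
  set w : Fin d → ℝ := fderiv ℝ ψ (legStar S v y) (legP S h) with hw
  have hD := H.D_eq hy (legP S h)
  rw [← hw] at hD
  have hw0 : ∀ i, i ∉ S → w i = 0 := by
    intro i hi
    rw [← legD_notMem F S (ψ (legStar S v y)) w hi, hD, legP_apply, if_neg hi]
  have hFw : fderiv ℝ F (ψ (legStar S v y)) w = ∑ i ∈ S, y i * w i := by
    rw [leg_fderiv_apply, ← Finset.sum_subset (Finset.subset_univ S)]
    · refine Finset.sum_congr rfl fun i hi => ?_
      rw [H.pd_eq hy hi]
      simp [legStar, hi]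
    · intro i _ hi
      rw [hw0 i hi, mul_zero]
  have hR : (∑ j, (if j ∈ S then ψ (legStar S v y) j - v j else 0) •
        ContinuousLinearMap.proj (R := ℝ) (φ := fun _ : Fin d => ℝ) j) h =
      ∑ i ∈ S, (ψ (legStar S v y) i - v i) * h i := by
    rw [_root_.sum_apply, ← Finset.sum_subset (Finset.subset_univ S)]
    · refine Finset.sum_congr rfl fun i hi => ?_
      simp [hi]
    · intro i _ hi
      simp [hi]
  rw [hR]
  simp only [zero_sub, _root_.sub_apply, _root_.neg_apply, _root_.sum_apply, _root_.add_apply,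
    _root_.smul_apply, ContinuousLinearMap.comp_apply, smul_eq_mul,
    ContinuousLinearMap.proj_apply, ← hw, hFw, Pi.sub_apply, Function.comp]
  rw [← Finset.sum_neg_distrib, ← Finset.sum_sub_distrib]
  refine Finset.sum_congr rfl fun i _ => ?_
  ring

/-- The reduced height is twice differentiable. -/
theorem red_contDiffOn (p : ℝ) (v : Fin d → ℝ) :
    ContDiffOn ℝ (2 : ℕ) (fun y => tanG F p v (ψ (legStar S v y))) (legStar S v ⁻¹' O) := by
  have hO : IsOpen (legStar S v ⁻¹' O) := H.openO.preimage (legStar_contDiff S v).continuous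
  have h2 : ((2 : ℕ) : WithTop ℕ∞) = ((1 : ℕ) : WithTop ℕ∞) + 1 := by norm_num
  rw [h2, contDiffOn_succ_iff_fderiv_of_isOpen hO]
  refine ⟨fun y hy => (H.red_hasFDerivAt p v hy).differentiableAt.differentiableWithinAt, ?_, ?_⟩
  · intro h
    simp at h
  · have h3 : ContDiffOn ℝ (1 : ℕ) (fun y => ∑ j, (if j ∈ S then ψ (legStar S v y) j - v j else 0) •
        ContinuousLinearMap.proj (R := ℝ) (φ := fun _ : Fin d => ℝ) j) (legStar S v ⁻¹' O) := by
      have h5 : ∀ j ∈ (Finset.univ : Finset (Fin d)), ContDiffOn ℝ (1 : ℕ)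
          (fun y => (if j ∈ S then ψ (legStar S v y) j - v j else 0) •
            ContinuousLinearMap.proj (R := ℝ) (φ := fun _ : Fin d => ℝ) j)
          (legStar S v ⁻¹' O) := by
        intro j _
        have h6 : ContDiffOn ℝ (1 : ℕ)
            (fun y => if j ∈ S then ψ (legStar S v y) j - v j else 0) (legStar S v ⁻¹' O) := by
          by_cases hj : j ∈ S
          · simp only [hj, if_true]
            have h4 : ContDiffOn ℝ (1 : ℕ) (fun y => ψ (legStar S v y)) (legStar S v ⁻¹' O) :=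
              H.psi.comp (legStar_contDiff S v).contDiffOn fun y hy => hy
            exact (contDiffOn_pi.mp h4 j).sub contDiffOn_const
          · simp only [hj, if_false]
            exact contDiffOn_const
        exact h6.smul contDiffOn_const
      exact ContDiffOn.sum h5
    exact h3.congr fun y hy => (H.red_hasFDerivAt p v hy).fderiv

/-- The second derivatives of the reduced height. -/
theorem red_pd (p : ℝ) (v : Fin d → ℝ) {y : Fin d → ℝ} (hy : legStar S v y ∈ O) (i j : Fin d) :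
    pd i (pd j (fun y => tanG F p v (ψ (legStar S v y)))) y =
      if i ∈ S ∧ j ∈ S then fderiv ℝ ψ (legStar S v y) (Pi.single i 1) j else 0 := by
  have hO : IsOpen (legStar S v ⁻¹' O) := H.openO.preimage (legStar_contDiff S v).continuous
  have h1 : ∀ z ∈ legStar S v ⁻¹' O, pd j (fun y => tanG F p v (ψ (legStar S v y))) z =
      if j ∈ S then ψ (legStar S v z) j - v j else 0 := by
    intro z hz
    unfold pd
    rw [(H.red_hasFDerivAt p v hz).fderiv, _root_.sum_apply, Finset.sum_eq_single j]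
    · rw [_root_.smul_apply, ContinuousLinearMap.proj_apply, Pi.single_eq_same, smul_eq_mul,
        mul_one]
    · intro b _ hb
      rw [_root_.smul_apply, ContinuousLinearMap.proj_apply, Pi.single_eq_of_ne hb, smul_zero]
    · simp
  rw [tay_pd_congr hO h1 i y hy]
  have hψ : HasFDerivAt (fun y => ψ (legStar S v y))
      ((fderiv ℝ ψ (legStar S v y)).comp (legP S)) y :=
    (H.psi_hasFDerivAt hy).comp y (legStar_hasFDerivAt S v y)
  by_cases hj : j ∈ S
  · simp only [hj, if_true, and_true]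
    have h2 : HasFDerivAt (fun y => ψ (legStar S v y) j - v j)
        ((ContinuousLinearMap.proj (R := ℝ) (φ := fun _ : Fin d => ℝ) j).comp
          ((fderiv ℝ ψ (legStar S v y)).comp (legP S))) y :=
      ((ContinuousLinearMap.proj (R := ℝ) (φ := fun _ : Fin d => ℝ) j).hasFDerivAt.comp y
        hψ).sub_const _
    unfold pd
    rw [h2.fderiv]
    by_cases hi : i ∈ S
    · have h3 : legP S (Pi.single i (1 : ℝ)) = Pi.single i 1 := by
        funext k
        rw [legP_apply]
        by_cases hk : k ∈ S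
        · rw [if_pos hk]
        · rw [if_neg hk, Pi.single_eq_of_ne]
          rintro rfl
          exact hk hi
      simp [hi, h3]
    · have h3 : legP S (Pi.single i (1 : ℝ)) = 0 := by
        funext k
        rw [legP_apply]
        by_cases hk : k ∈ S
        · rw [if_pos hk, Pi.single_eq_of_ne]
          · rfl
          · rintro rfl
            exact hi hk
        · rw [if_neg hk]
          rfl
      simp [hi, h3]
  · simp only [hj, if_false, and_false]
    unfold pd
    simp

end LegInv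


theorem leg_inverse {d : ℕ} {V : Set (Fin d → ℝ)} (hV : IsOpen V) {F : (Fin d → ℝ) → ℝ}
    (hF : ContDiffOn ℝ (2 : ℕ) F V) (S : Finset (Fin d)) {x₂ : Fin d → ℝ} (hx₂ : x₂ ∈ V)
    (hN : legN (legH F x₂) S) :
    ∃ (O : Set (Fin d → ℝ)) (ψ : (Fin d → ℝ) → (Fin d → ℝ)), LegInv V F S O ψ ∧
      legChi F S x₂ ∈ O ∧ ψ (legChi F S x₂) = x₂ ∧
      ∀ᶠ x in nhds x₂, legChi F S x ∈ O ∧ ψ (legChi F S x) = x := by
  have hφa : ContDiffAt ℝ (1 : ℕ) (legChi F S) x₂ :=
    (legChi_contDiffOn hV hF S).contDiffAt (hV.mem_nhds hx₂)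
  have hinj := legD_injective hN
  set A : (Fin d → ℝ) ≃L[ℝ] (Fin d → ℝ) :=
    (LinearEquiv.ofInjectiveOfFinrankEq (legD F S x₂ : (Fin d → ℝ) →ₗ[ℝ]
      (Fin d → ℝ)) hinj rfl).toContinuousLinearEquiv with hA
  have hAP : (A : (Fin d → ℝ) →L[ℝ] (Fin d → ℝ)) = legD F S x₂ := by
    ext v
    rfl
  have hφd' : HasFDerivAt (legChi F S) (A : (Fin d → ℝ) →L[ℝ] (Fin d → ℝ)) x₂ := by
    rw [hAP]
    exact legChi_hasFDerivAt hV hF S hx₂
  have hl0 : ((1 : ℕ) : WithTop ℕ∞) ≠ 0 := by norm_num
  set Φ := hφa.toOpenPartialHomeomorph (legChi F S) hφd' hl0 with hΦ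
  have hΦc : ∀ x, Φ x = legChi F S x := fun x => rfl
  have hxs : x₂ ∈ Φ.source := hφa.mem_toOpenPartialHomeomorph_source hφd' hl0
  have hxt : legChi F S x₂ ∈ Φ.target := hφa.image_mem_toOpenPartialHomeomorph_target hφd' hl0
  have hsymm : Φ.symm (legChi F S x₂) = x₂ := by
    rw [← hΦc x₂]
    exact Φ.left_inv hxs
  have hgs : ContDiffAt ℝ (1 : ℕ) Φ.symm (legChi F S x₂) := hφa.to_localInverse hφd' hl0
  have ev1 : ∀ᶠ y in nhds (legChi F S x₂), ContDiffAt ℝ (1 : ℕ) Φ.symm y :=
    hgs.eventually (by simp)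
  have ev2 : ∀ᶠ y in nhds (legChi F S x₂), y ∈ Φ.target := Φ.open_target.mem_nhds hxt
  have ev3 : ∀ᶠ y in nhds (legChi F S x₂), Φ.symm y ∈ V := by
    have hc : ContinuousAt Φ.symm (legChi F S x₂) := hgs.continuousAt
    apply hc.eventually
    rw [hsymm]
    exact hV.mem_nhds hx₂
  obtain ⟨ρ, hρ, hball⟩ := Metric.eventually_nhds_iff_ball.mp (ev1.and (ev2.and ev3))
  refine ⟨Metric.ball (legChi F S x₂) ρ, Φ.symm, ⟨hV, hF, Metric.isOpen_ball,
    fun y hy => (hball y hy).1.contDiffWithinAt, fun y hy => (hball y hy).2.2, ?_⟩,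
    Metric.mem_ball_self hρ, hsymm, ?_⟩
  · intro y hy
    exact Φ.right_inv (hball y hy).2.1
  · have h1 : ∀ᶠ x in nhds x₂, legChi F S x ∈ Metric.ball (legChi F S x₂) ρ :=
      hφa.continuousAt.eventually (Metric.ball_mem_nhds _ hρ)
    filter_upwards [h1, Φ.open_source.mem_nhds hxs] with x hx1 hx2
    exact ⟨hx1, Φ.left_inv hx2⟩

theorem leg_sym {d : ℕ} {V : Set (Fin d → ℝ)} {F : (Fin d → ℝ) → ℝ} {S : Finset (Fin d)}
    {O : Set (Fin d → ℝ)} {ψ : (Fin d → ℝ) → (Fin d → ℝ)} (H : LegInv V F S O ψ)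
    {y : Fin d → ℝ} (hy : y ∈ O) {i j : Fin d} (hi : i ∈ S) (hj : j ∈ S) :
    fderiv ℝ ψ y (Pi.single i 1) j = fderiv ℝ ψ y (Pi.single j 1) i := by
  classical
  set A := legH F (ψ y) with hA
  have hAs : ∀ a b, A a b = A b a := fun a b => legH_symm H.openV H.smooth (H.mem y hy) a b
  set u : Fin d → Fin d → ℝ := fun a => fderiv ℝ ψ y (Pi.single a 1) with hu
  have h0 : ∀ a ∈ S, ∀ k, k ∉ S → u a k = 0 := by
    intro a ha k hk
    have h1 := congrFun (H.D_eq hy (Pi.single a 1)) k
    rw [legD_notMem F S _ _ hk, Pi.single_eq_of_ne (by rintro rfl; exact hk ha)] at h1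
    exact h1
  have h1 : ∀ a, ∀ k ∈ S, A.mulVec (u a) k = (Pi.single a 1 : Fin d → ℝ) k := by
    intro a k hk
    have h1 := congrFun (H.D_eq hy (Pi.single a 1)) k
    rw [legD_mem F S _ _ hk] at h1
    exact h1
  have hsym : ∀ u v : Fin d → ℝ, ∑ k, u k * A.mulVec v k = ∑ k, v k * A.mulVec u k := by
    intro u v
    simp only [Matrix.mulVec, dotProduct, Finset.mul_sum]
    rw [Finset.sum_comm]
    refine Finset.sum_congr rfl fun j _ => Finset.sum_congr rfl fun i _ => ?_
    rw [hAs i j]; ring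
  have h2 : ∀ a b, a ∈ S → b ∈ S → ∑ k, u b k * A.mulVec (u a) k = u b a := by
    intro a b ha hb
    rw [Finset.sum_eq_single a]
    · rw [h1 a a ha, Pi.single_eq_same, mul_one]
    · intro k _ hk
      by_cases hkS : k ∈ S
      · rw [h1 a k hkS, Pi.single_eq_of_ne hk, mul_zero]
      · rw [h0 b hb k hkS, zero_mul]
    · simp
  have h3 := hsym (u j) (u i)
  rw [h2 i j hi hj, h2 j i hj hi] at h3
  exact h3.symm

theorem leg_volume_image {d : ℕ} (ψ : (Fin d → ℝ) → (Fin d → ℝ)) (E : Set (Fin d → ℝ)) (L : NNReal)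
    (h : LipschitzOnWith L ψ E) : volume (ψ '' E) ≤ (L : ENNReal) ^ d * volume E := by
  have h1 := h.hausdorffMeasure_image_le (d := (d : ℝ)) (by positivity)
  have h2 : (MeasureTheory.Measure.hausdorffMeasure (d : ℝ) : Measure (Fin d → ℝ)) = volume := by
    have := MeasureTheory.hausdorffMeasure_pi_real (ι := Fin d)
    rwa [Fintype.card_fin] at this
  rw [h2, ENNReal.rpow_natCast] at h1
  exact h1

theorem leg_closure {d : ℕ} (j : ℕ) (k : Fin d → ℤ) :
    closure (cube j k) = Set.Icc (fun i => (k i : ℝ) / 2 ^ j)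
      (fun i => (k i : ℝ) / 2 ^ j + 1 / 2 ^ j) := by
  rw [poly_cube_eq, closure_pi_set, ← Set.pi_univ_Icc]
  congr 1
  funext i
  apply closure_Ico
  have : (0 : ℝ) < 1 / 2 ^ j := by positivity
  linarith


/-- Choice of the block and of the base point. -/
theorem leg_choose {d : ℕ} {V : Set (Fin d → ℝ)} (hV : IsOpen V) {F : (Fin d → ℝ) → ℝ}
    (hF : ContDiffOn ℝ (2 : ℕ) F V) {x₁ : Fin d → ℝ} (hx₁ : x₁ ∈ V) (a b : Fin d)
    (hab : pd a (pd b F) x₁ ≠ 0) :
    ∃ (S : Finset (Fin d)) (x₂ : Fin d → ℝ), x₂ ∈ V ∧ S.Nonempty ∧ legN (legH F x₂) S ∧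
      ∀ x ∈ V, legN (legH F x) S → ∀ h : Fin d → ℝ,
        (∀ i ∈ S, (legH F x).mulVec h i = 0) → (legH F x).mulVec h = 0 := by
  classical
  obtain ⟨S₀, hS₀, hN₀⟩ := leg_start (legH F x₁) (fun i j => legH_symm hV hF hx₁ i j) b a
    (by unfold legH; rw [Matrix.of_apply]; exact hab)
  set T : Finset (Finset (Fin d)) :=
    Finset.univ.filter fun S => ∃ x ∈ V, legN (legH F x) S with hT
  have hS₀T : S₀ ∈ T := by
    rw [hT, Finset.mem_filter]
    exact ⟨Finset.mem_univ _, x₁, hx₁, hN₀⟩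
  obtain ⟨S, hST, hmax⟩ := Finset.exists_max_image T Finset.card ⟨S₀, hS₀T⟩
  rw [hT, Finset.mem_filter] at hST
  obtain ⟨_, x₂, hx₂, hN⟩ := hST
  refine ⟨S, x₂, hx₂, ?_, hN, ?_⟩
  · rw [← Finset.card_pos]
    exact (Finset.card_pos.mpr hS₀).trans_le (hmax S₀ hS₀T)
  · intro x hx hNx h hh
    refine leg_rank (legH F x) (fun i j => legH_symm hV hF hx i j) S hNx ?_ h hh
    intro S' hcard hN'
    have := hmax S' (by
      rw [hT, Finset.mem_filter]
      exact ⟨Finset.mem_univ _, x, hx, hN'⟩)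
    omega

/-- The conclusion of the goodness theorem for a given matrix, tolerance and constants. -/
def LegC2 {n : ℕ} (Hs : Matrix (Fin n) (Fin n) ℝ) (ω η ε : ℝ) : Prop :=
  ∀ (f : (Fin n → ℝ) → ℝ) (O : Set (Fin n → ℝ)) (c : Fin n → ℝ) (r S : ℝ), 0 < r → 0 < S →
    IsOpen O → Set.Icc c (fun i => c i + r) ⊆ O → ContDiffOn ℝ (2 : ℕ) f O →
    (∀ x ∈ Set.Icc c (fun i => c i + r), ∀ i j, |pd i (pd j f) x - Hs i j| ≤ ω) →
    (∃ x ∈ Set.Icc c (fun i => c i + r), S ≤ |f x|) →
    volume {x | x ∈ Set.Icc c (fun i => c i + r) ∧ |f x| < ε * S} ≤ ENNReal.ofReal (η * r ^ n)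

theorem leg_vol {d : ℕ} (j : ℕ) (k : Fin d → ℤ) {η : ℝ} (hη : 0 < η) :
    ENNReal.ofReal (η * (1 / 2 ^ j) ^ d) = ENNReal.ofReal η * volume (cube j k) := by
  rw [km_volume_cube, ENNReal.ofReal_mul hη.le, ENNReal.ofReal_pow (by positivity)]

/-- Goodness of `C^2` functions on dyadic cubes. -/
theorem leg_goodOn {d : ℕ} {Hs : Matrix (Fin d) (Fin d) ℝ} {ω η ε : ℝ} (hη : 0 < η)
    (hC : LegC2 Hs ω η ε) {f : (Fin d → ℝ) → ℝ} {O : Set (Fin d → ℝ)} (hO : IsOpen O)
    (hf : ContDiffOn ℝ (2 : ℕ) f O) {j : ℕ} {k : Fin d → ℤ} (hk : closure (cube j k) ⊆ O)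
    (hH : ∀ x ∈ closure (cube j k), ∀ i j, |pd i (pd j f) x - Hs i j| ≤ ω) :
    GoodOn f ε η j k := by
  rw [leg_closure] at hk hH
  intro S hS hex
  obtain ⟨x, hx, hSx⟩ := hex
  have h1 := hC f O (fun i => (k i : ℝ) / 2 ^ j) (1 / 2 ^ j) S (by positivity) hS hO hk hf hH
    ⟨x, by rw [← leg_closure]; exact subset_closure hx, hSx⟩
  rw [leg_vol j k hη] at h1
  refine (measure_mono ?_).trans h1
  rintro y ⟨hy1, hy2⟩
  refine ⟨?_, hy2⟩
  rw [← leg_closure]
  exact subset_closure hy1

/-- The matrix of second derivatives of the reduced height at the base point. -/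
noncomputable def legS {d : ℕ} (S : Finset (Fin d)) (ψ : (Fin d → ℝ) → (Fin d → ℝ))
    (y : Fin d → ℝ) : Matrix (Fin d) (Fin d) ℝ :=
  Matrix.of fun i j => if i ∈ S ∧ j ∈ S then fderiv ℝ ψ y (Pi.single i 1) j else 0

theorem leg_good_two {d : ℕ} {V : Set (Fin d → ℝ)} {F : (Fin d → ℝ) → ℝ} {S : Finset (Fin d)}
    {O : Set (Fin d → ℝ)} {ψ : (Fin d → ℝ) → (Fin d → ℝ)} (H : LegInv V F S O ψ)
    (hR : ∀ x ∈ V, legN (legH F x) S → ∀ h : Fin d → ℝ,
      (∀ i ∈ S, (legH F x).mulVec h i = 0) → (legH F x).mulVec h = 0)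
    {ω η ε : ℝ} {C L ρ : ℝ} (hη : 0 < η) (hω : 0 < ω) (hρ : 0 < ρ) (hC1 : 0 < C) (hL1 : 0 < L)
    {y₂ : Fin d → ℝ} (hC : LegC2 (legS S ψ y₂) ω (η / (L * (2 * C)) ^ d) ε)
    (hball : Metric.ball y₂ (4 * ρ) ⊆ O)
    (hb1 : ∀ y ∈ Metric.ball y₂ (4 * ρ), ∀ i j,
      |fderiv ℝ ψ y (Pi.single i 1) j - fderiv ℝ ψ y₂ (Pi.single i 1) j| ≤ ω)
    (hb2 : ∀ y ∈ Metric.ball y₂ (4 * ρ), ‖fderiv ℝ ψ y‖ ≤ L)
    {x₂ : Fin d → ℝ} (hxy : ∀ i, i ∉ S → y₂ i = x₂ i) {j : ℕ} {k : Fin d → ℤ}
    (hr : C * (1 / 2 ^ j) ≤ ρ)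
    (hk1 : ∀ x ∈ cube j k, legChi F S x ∈ Metric.closedBall y₂ ρ ∧ ψ (legChi F S x) = x ∧
      ‖x - x₂‖ ≤ ρ ∧ ∀ x' ∈ cube j k, ‖legChi F S x - legChi F S x'‖ ≤ C * (1 / 2 ^ j))
    (p : ℝ) (v : Fin d → ℝ) (hv : ∀ x ∈ cube j k, ‖v - x‖ ≤ ρ) :
    GoodOn (tanG F p v) ε η j k := by
  have hr0 : (0 : ℝ) < 1 / 2 ^ j := by positivity
  obtain ⟨c, hc⟩ := km_nonempty_cube j k
  obtain ⟨hc1, hc2, hc3, hc4⟩ := hk1 c hc
  have hcv := hv c hc
  set g : (Fin d → ℝ) → ℝ := fun y => tanG F p v (ψ (legStar S v y)) with hg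
  set yc := legChi F S c with hyc
  set lo : Fin d → ℝ := fun i => yc i - C * (1 / 2 ^ j) with hlo
  set R : ℝ := 2 * C * (1 / 2 ^ j) with hR'
  have hR0 : 0 < R := by positivity
  have hmem : ∀ y ∈ Set.Icc lo (fun i => lo i + R), ∀ i, |y i - y₂ i| ≤ 2 * ρ := by
    intro y hy i
    have h1 := hy.1 i
    have h2 := hy.2 i
    have h3 : |yc i - y₂ i| ≤ ρ := by
      have := norm_le_pi_norm (yc - y₂) i
      rw [mem_closedBall_iff_norm] at hc1
      rw [Pi.sub_apply, Real.norm_eq_abs] at this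
      exact this.trans hc1
    rw [abs_le] at h3 ⊢
    simp only [hlo, hR'] at h1 h2
    constructor <;> linarith
  have hmemv : ∀ i, i ∉ S → |v i - y₂ i| ≤ 2 * ρ := by
    intro i hi
    have h1 := norm_le_pi_norm (v - c) i
    have h2 := norm_le_pi_norm (c - x₂) i
    rw [Pi.sub_apply, Real.norm_eq_abs] at h1 h2
    have h1' := h1.trans hcv
    have h2' := h2.trans hc3
    rw [hxy i hi]
    rw [abs_le] at h1' h2' ⊢
    constructor <;> linarith
  have hy1 : ∀ y ∈ Set.Icc lo (fun i => lo i + R), y ∈ Metric.ball y₂ (4 * ρ) := by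
    intro y hy
    rw [mem_ball_iff_norm]
    refine lt_of_le_of_lt ((pi_norm_le_iff_of_nonneg (by positivity : 0 ≤ 2 * ρ)).mpr
      fun i => ?_) (by linarith)
    rw [Pi.sub_apply, Real.norm_eq_abs]
    exact hmem y hy i
  have hy2 : ∀ y ∈ Set.Icc lo (fun i => lo i + R), legStar S v y ∈ Metric.ball y₂ (4 * ρ) := by
    intro y hy
    rw [mem_ball_iff_norm]
    refine lt_of_le_of_lt ((pi_norm_le_iff_of_nonneg (by positivity : 0 ≤ 2 * ρ)).mpr
      fun i => ?_) (by linarith)
    rw [Pi.sub_apply, Real.norm_eq_abs]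
    by_cases hi : i ∈ S
    · simp only [legStar, hi, if_true]
      exact hmem y hy i
    · simp only [legStar, hi, if_false]
      exact hmemv i hi
  have hcube : ∀ x ∈ cube j k, legChi F S x ∈ Set.Icc lo (fun i => lo i + R) := by
    intro x hx
    have h1 := (hk1 x hx).2.2.2 c hc
    have h2 : ∀ i, |legChi F S x i - yc i| ≤ C * (1 / 2 ^ j) := by
      intro i
      have := norm_le_pi_norm (legChi F S x - yc) i
      rw [Pi.sub_apply, Real.norm_eq_abs] at this
      exact this.trans h1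
    constructor
    · intro i
      have := (abs_le.mp (h2 i)).1
      simp only [hlo]
      linarith
    · intro i
      have := (abs_le.mp (h2 i)).2
      simp only [hlo, hR']
      linarith
  have hval : ∀ x ∈ cube j k, tanG F p v x = g (legChi F S x) := by
    intro x hx
    have h1 := hcube x hx
    have h2 := H.tan_const hR p v (y := legChi F S x) (y' := legStar S v (legChi F S x))
      (((convex_ball y₂ (4 * ρ)).segment_subset (hy1 _ h1) (hy2 _ h1)).trans hball) (by
        intro i hi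
        simp [legStar, hi])
    rw [(hk1 x hx).2.1] at h2
    exact h2
  set O' : Set (Fin d → ℝ) := legStar S v ⁻¹' Metric.ball y₂ (4 * ρ) with hO'
  have hO'o : IsOpen O' := Metric.isOpen_ball.preimage (legStar_contDiff S v).continuous
  have hgC : ContDiffOn ℝ (2 : ℕ) g O' := (H.red_contDiffOn p v).mono fun y hy => hball hy
  have hgH : ∀ y ∈ Set.Icc lo (fun i => lo i + R), ∀ i j,
      |pd i (pd j g) y - legS S ψ y₂ i j| ≤ ω := by
    intro y hy i j'
    rw [H.red_pd p v (hball (hy2 y hy)) i j']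
    unfold legS
    rw [Matrix.of_apply]
    by_cases hij : i ∈ S ∧ j' ∈ S
    · rw [if_pos hij, if_pos hij]
      exact hb1 _ (hy2 y hy) i j'
    · rw [if_neg hij, if_neg hij, sub_self, abs_zero]
      exact hω.le
  intro S' hS' hex
  obtain ⟨x, hx, hSx⟩ := hex
  have h1 := hC g O' lo R S' hR0 hS' hO'o hy2 hgC hgH
    ⟨legChi F S x, hcube x hx, by rw [← hval x hx]; exact hSx⟩
  have hLip : LipschitzOnWith (Real.toNNReal L) ψ
      {y | y ∈ Set.Icc lo (fun i => lo i + R) ∧ |g y| < ε * S'} := by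
    have h2 : LipschitzOnWith (Real.toNNReal L) ψ (Metric.ball y₂ (4 * ρ)) := by
      refine Convex.lipschitzOnWith_of_nnnorm_fderiv_le (𝕜 := ℝ) (fun y hy => ?_) (fun y hy => ?_)
        (convex_ball _ _)
      · exact (H.psi_hasFDerivAt (hball hy)).differentiableAt
      · rw [← NNReal.coe_le_coe, coe_nnnorm, Real.coe_toNNReal _ hL1.le]
        exact hb2 y hy
    exact h2.mono fun y hy => hy1 y hy.1
  have h3 := leg_volume_image ψ _ _ hLip
  have h4 : {x | x ∈ cube j k ∧ |tanG F p v x| < ε * S'} ⊆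
      ψ '' {y | y ∈ Set.Icc lo (fun i => lo i + R) ∧ |g y| < ε * S'} := by
    rintro z ⟨hz1, hz2⟩
    refine ⟨legChi F S z, ⟨hcube z hz1, ?_⟩, (hk1 z hz1).2.1⟩
    rw [← hval z hz1]
    exact hz2
  calc volume {x | x ∈ cube j k ∧ |tanG F p v x| < ε * S'}
      ≤ volume (ψ '' {y | y ∈ Set.Icc lo (fun i => lo i + R) ∧ |g y| < ε * S'}) :=
        measure_mono h4
    _ ≤ (Real.toNNReal L : ENNReal) ^ d *
        volume {y | y ∈ Set.Icc lo (fun i => lo i + R) ∧ |g y| < ε * S'} := h3
    _ ≤ (Real.toNNReal L : ENNReal) ^ d * ENNReal.ofReal (η / (L * (2 * C)) ^ d * R ^ d) := by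
        gcongr
    _ = ENNReal.ofReal (η * (1 / 2 ^ j) ^ d) := by
        have e1 : (Real.toNNReal L : ENNReal) = ENNReal.ofReal L := rfl
        rw [e1, ← ENNReal.ofReal_pow hL1.le, ← ENNReal.ofReal_mul (by positivity)]
        congr 1
        rw [hR', mul_pow (2 * C), mul_pow L]
        have hA : (2 * C) ^ d ≠ 0 := by positivity
        have hB : L ^ d ≠ 0 := by positivity
        generalize (2 * C) ^ d = A at hA ⊢
        generalize L ^ d = B at hB ⊢
        field_simp
    _ = ENNReal.ofReal η * volume (cube j k) := leg_vol j k hη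


theorem legendre_good_aux
    (hC2 : ∀ (n : ℕ) (Hs : Matrix (Fin n) (Fin n) ℝ), Hs.IsSymm → Hs ≠ 0 →
      ∃ ω : ℝ, 0 < ω ∧ ∀ η : ℝ, 0 < η → ∃ ε : ℝ, 0 < ε ∧ LegC2 Hs ω η ε)
    (d : ℕ) (V : Set (Fin d → ℝ)) (hV : IsOpen V) (F : (Fin d → ℝ) → ℝ)
    (hF : ContDiffOn ℝ (2 : ℕ) F V) (x₁ : Fin d → ℝ) (hx₁ : x₁ ∈ V) (a b : Fin d)
    (hab : pd a (pd b F) x₁ ≠ 0) :
    ∃ (V' : Set (Fin d → ℝ)) (κ : ℝ), IsOpen V' ∧ V'.Nonempty ∧ V' ⊆ V ∧ 0 < κ ∧
      (∃ (a b : Fin d) (c₀ : ℝ), 0 < c₀ ∧ ∀ x ∈ V', c₀ ≤ |pd a (pd b F) x|) ∧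
      ∀ η : ℝ, 0 < η → ∃ ε : ℝ, 0 < ε ∧ ∀ (p : ℝ) (v : Fin d → ℝ) (j : ℕ) (k : Fin d → ℤ),
        cube j k ⊆ V' →
        GoodOn (fun x => F x - p - ∑ i, v i * x i) ε η j k ∧
        ((∀ x ∈ cube j k, ‖v - x‖ ≤ κ) → GoodOn (tanG F p v) ε η j k) := by
  classical
  obtain ⟨S, x₂, hx₂, hSne, hN, hR⟩ := leg_choose hV hF hx₁ a b hab
  obtain ⟨O, ψ, H, hy₂O, hψ₂, hev⟩ := leg_inverse hV hF S hx₂ hN
  set y₂ := legChi F S x₂ with hy₂
  obtain ⟨i₀, hi₀⟩ := hSne
  -- the Hessian of `F` at the base point is not zero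
  have hHne : ∃ a' b' : Fin d, pd a' (pd b' F) x₂ ≠ 0 := by
    by_contra hcon
    push Not at hcon
    have h1 : (Pi.single i₀ 1 : Fin d → ℝ) = 0 := by
      apply hN
      · intro i hi
        rw [Pi.single_eq_of_ne]
        rintro rfl
        exact hi hi₀
      · intro i _
        simp only [legH, Matrix.mulVec, dotProduct, Matrix.of_apply, hcon, zero_mul,
          Finset.sum_const_zero]
    have h2 := congrFun h1 i₀
    simp at h2
  obtain ⟨a', b', hab'⟩ := hHne
  set Hs₁ : Matrix (Fin d) (Fin d) ℝ := Matrix.of fun i j => pd i (pd j F) x₂ with hHs₁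
  have hs₁ : Hs₁.IsSymm := by
    ext i j
    rw [Matrix.transpose_apply, hHs₁, Matrix.of_apply, Matrix.of_apply]
    exact tay_swap hV hF j i x₂ hx₂
  have hn₁ : Hs₁ ≠ 0 := by
    intro h0
    have := congrFun (congrFun h0 a') b'
    rw [hHs₁, Matrix.of_apply] at this
    exact hab' this
  have hs₂ : (legS S ψ y₂).IsSymm := by
    ext i j
    rw [Matrix.transpose_apply]
    unfold legS
    rw [Matrix.of_apply, Matrix.of_apply]
    by_cases hij : i ∈ S ∧ j ∈ S
    · rw [if_pos hij, if_pos hij.symm]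
      exact leg_sym H hy₂O hij.2 hij.1
    · rw [if_neg hij, if_neg fun h => hij h.symm]
  have hn₂ : legS S ψ y₂ ≠ 0 := by
    intro h0
    have h1 : fderiv ℝ ψ y₂ (Pi.single i₀ 1) = 0 := by
      funext k
      by_cases hk : k ∈ S
      · have := congrFun (congrFun h0 i₀) k
        unfold legS at this
        rw [Matrix.of_apply, if_pos ⟨hi₀, hk⟩] at this
        exact this
      · have h2 := congrFun (H.D_eq hy₂O (Pi.single i₀ 1)) k
        rw [legD_notMem F S _ _ hk, Pi.single_eq_of_ne (by rintro rfl; exact hk hi₀)] at h2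
        exact h2
    have h3 := H.D_eq hy₂O (Pi.single i₀ 1)
    rw [h1, map_zero] at h3
    have h4 := congrFun h3 i₀
    simp at h4
  obtain ⟨ω₁, hω₁, hG₁⟩ := hC2 d Hs₁ hs₁ hn₁
  obtain ⟨ω₂, hω₂, hG₂⟩ := hC2 d (legS S ψ y₂) hs₂ hn₂
  -- constants near `y₂`
  set L : ℝ := ‖fderiv ℝ ψ y₂‖ + 1 with hL
  have hL1 : 0 < L := by positivity
  have hψc : ContinuousAt (fderiv ℝ ψ) y₂ :=
    (H.psi.continuousOn_fderiv_of_isOpen H.openO le_rfl).continuousAt (H.openO.mem_nhds hy₂O)
  have ev1 : ∀ᶠ y in nhds y₂, ∀ i j,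
      |fderiv ℝ ψ y (Pi.single i 1) j - fderiv ℝ ψ y₂ (Pi.single i 1) j| ≤ ω₂ := by
    rw [Filter.eventually_all]
    intro i
    rw [Filter.eventually_all]
    intro j
    have h1 : ContinuousAt (fun y => fderiv ℝ ψ y (Pi.single i 1) j) y₂ := by
      have h2 : ContinuousAt (fun y => fderiv ℝ ψ y (Pi.single i 1)) y₂ :=
        hψc.clm_apply continuousAt_const
      exact (continuous_apply j).continuousAt.comp h2
    have h3 := Metric.continuousAt_iff'.mp h1 ω₂ hω₂
    filter_upwards [h3] with y hy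
    rw [Real.dist_eq] at hy
    exact hy.le
  have ev2 : ∀ᶠ y in nhds y₂, ‖fderiv ℝ ψ y‖ ≤ L := by
    have h3 := hψc.norm.eventually (gt_mem_nhds (show ‖fderiv ℝ ψ y₂‖ < L by rw [hL]; linarith))
    filter_upwards [h3] with y hy using hy.le
  obtain ⟨ρ', hρ', hball⟩ := Metric.eventually_nhds_iff_ball.mp
    ((H.openO.eventually_mem hy₂O).and (ev1.and ev2))
  set ρ : ℝ := ρ' / 4 with hρ
  have hρ0 : 0 < ρ := by positivity
  have h4ρ : 4 * ρ = ρ' := by rw [hρ]; ring
  rw [← h4ρ] at hball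
  -- constants near `x₂`
  set C : ℝ := ‖legD F S x₂‖ + 1 with hC
  have hC1 : 0 < C := by positivity
  have hfd : ∀ x ∈ V, fderiv ℝ (legChi F S) x = legD F S x := fun x hx =>
    (legChi_hasFDerivAt hV hF S hx).fderiv
  have hχc : ContinuousAt (fderiv ℝ (legChi F S)) x₂ :=
    ((legChi_contDiffOn hV hF S).continuousOn_fderiv_of_isOpen hV le_rfl).continuousAt
      (hV.mem_nhds hx₂)
  have ev3 : ∀ᶠ x in nhds x₂, ‖fderiv ℝ (legChi F S) x‖ ≤ C := by
    have h3 := hχc.norm.eventually (gt_mem_nhds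
      (show ‖fderiv ℝ (legChi F S) x₂‖ < C by rw [hfd x₂ hx₂, hC]; linarith))
    filter_upwards [h3] with y hy using hy.le
  have ev4 : ∀ᶠ x in nhds x₂, legChi F S x ∈ Metric.closedBall y₂ ρ :=
    (legChi_hasFDerivAt hV hF S hx₂).continuousAt.eventually
      (Metric.closedBall_mem_nhds _ hρ0)
  have hcc : ∀ i j, ContinuousAt (fun x => pd i (pd j F) x) x₂ := by
    intro i j
    have h1 := (leg_pd_contDiffOn hV hF j).continuousOn_fderiv_of_isOpen hV le_rfl
    exact (h1.continuousAt (hV.mem_nhds hx₂)).clm_apply continuousAt_const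
  have ev5 : ∀ᶠ x in nhds x₂, ∀ i j, |pd i (pd j F) x - Hs₁ i j| ≤ ω₁ := by
    rw [Filter.eventually_all]
    intro i
    rw [Filter.eventually_all]
    intro j
    have h3 := Metric.continuousAt_iff'.mp (hcc i j) ω₁ hω₁
    filter_upwards [h3] with y hy
    rw [Real.dist_eq] at hy
    exact hy.le
  have ev6 : ∀ᶠ x in nhds x₂, |pd a' (pd b' F) x₂| / 2 ≤ |pd a' (pd b' F) x| := by
    have h3 := (hcc a' b').abs.eventually (lt_mem_nhds
      (show |pd a' (pd b' F) x₂| / 2 < |pd a' (pd b' F) x₂| by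
        have := abs_pos.mpr hab'
        linarith))
    filter_upwards [h3] with y hy using hy.le
  obtain ⟨δ', hδ', hballx⟩ := Metric.eventually_nhds_iff_ball.mp
    ((hV.eventually_mem hx₂).and (hev.and (ev3.and (ev4.and (ev5.and ev6)))))
  set δ : ℝ := min (δ' / 2) (min ρ (ρ / (4 * C))) with hδ
  have hδ0 : 0 < δ := by positivity
  have hδ1 : δ ≤ δ' / 2 := min_le_left _ _
  have hδ2 : δ ≤ ρ := (min_le_right _ _).trans (min_le_left _ _)
  have hδ3 : C * (4 * δ) ≤ ρ := by
    have h1 : δ ≤ ρ / (4 * C) := (min_le_right _ _).trans (min_le_right _ _)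
    rw [le_div_iff₀ (by positivity)] at h1
    linarith
  have hcb : Metric.closedBall x₂ δ ⊆ Metric.ball x₂ δ' :=
    Metric.closedBall_subset_ball (by linarith)
  refine ⟨Metric.ball x₂ δ, ρ, Metric.isOpen_ball, ⟨x₂, Metric.mem_ball_self hδ0⟩, ?_, hρ0,
    ⟨a', b', |pd a' (pd b' F) x₂| / 2, by have := abs_pos.mpr hab'; positivity, ?_⟩, ?_⟩
  · intro x hx
    exact (hballx x (hcb (Metric.ball_subset_closedBall hx))).1
  · intro x hx
    exact (hballx x (hcb (Metric.ball_subset_closedBall hx))).2.2.2.2.2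
  intro η hη
  obtain ⟨ε₁, hε₁, hE₁⟩ := hG₁ η hη
  obtain ⟨ε₂, hε₂, hE₂⟩ := hG₂ (η / (L * (2 * C)) ^ d) (by positivity)
  have hmono : ∀ (f : (Fin d → ℝ) → ℝ) (ε ε' : ℝ) (j : ℕ) (k : Fin d → ℤ), ε' ≤ ε →
      GoodOn f ε η j k → GoodOn f ε' η j k := by
    intro f ε ε' j k hle hg T hT hex
    refine (measure_mono ?_).trans (hg T hT hex)
    rintro x ⟨hx1, hx2⟩
    exact ⟨hx1, hx2.trans_le (by gcongr)⟩
  refine ⟨min ε₁ ε₂, lt_min hε₁ hε₂, ?_⟩
  intro p v j k hk
  have hclos : closure (cube j k) ⊆ Metric.closedBall x₂ δ :=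
    (closure_mono hk).trans Metric.closure_ball_subset_closedBall
  refine ⟨?_, ?_⟩
  · refine hmono _ ε₁ _ j k (min_le_left _ _) ?_
    have hlin : ContDiff ℝ (2 : ℕ) (fun x : Fin d → ℝ => ∑ i, v i * x i) :=
      ContDiff.sum fun i _ => contDiff_const.mul (contDiff_apply ℝ ℝ i)
    refine leg_goodOn hη hE₁ hV ((hF.sub contDiffOn_const).sub hlin.contDiffOn)
      (fun x hx => (hballx x (hcb (hclos hx))).1) ?_
    intro x hx i j'
    have hxV := (hballx x (hcb (hclos hx))).1
    have h1 : ∀ z ∈ V, pd j' (fun x => F x - p - ∑ i, v i * x i) z = pd j' F z - v j' := by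
      intro z hz
      have h2 : HasFDerivAt (fun x : Fin d → ℝ => F x - p - ∑ i, v i * x i)
          (fderiv ℝ F z - ∑ i, v i • ContinuousLinearMap.proj (R := ℝ) (φ := fun _ : Fin d => ℝ) i)
          z := by
        refine ((leg_F_hasFDerivAt hV hF hz).sub_const p).sub ?_
        refine HasFDerivAt.fun_sum fun i _ => ?_
        exact (ContinuousLinearMap.proj (R := ℝ) (φ := fun _ : Fin d => ℝ) i).hasFDerivAt.const_mul
          (v i)
      unfold pd
      rw [h2.fderiv, _root_.sub_apply, _root_.sum_apply, Finset.sum_eq_single j']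
      · simp
      · intro c _ hc
        rw [_root_.smul_apply, ContinuousLinearMap.proj_apply, Pi.single_eq_of_ne hc, smul_zero]
      · simp
    have h3 : pd i (pd j' (fun x => F x - p - ∑ i, v i * x i)) x = pd i (pd j' F) x := by
      rw [tay_pd_congr hV h1 i x hxV]
      unfold pd
      rw [fderiv_sub_const]
    rw [h3]
    exact (hballx x (hcb (hclos hx))).2.2.2.2.1 i j'
  · intro hv
    refine hmono _ ε₂ _ j k (min_le_right _ _) ?_
    -- the side of the cube
    have hside : (1 : ℝ) / 2 ^ j ≤ 4 * δ := by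
      have hr0 : (0 : ℝ) < 1 / 2 ^ j := by positivity
      have m1 : (fun i => (k i : ℝ) / 2 ^ j) ∈ cube j k := by
        intro i
        refine ⟨le_rfl, ?_⟩
        have : ((k i : ℝ) + 1) / 2 ^ j = (k i : ℝ) / 2 ^ j + 1 / 2 ^ j := by ring
        rw [this]
        linarith
      have m2 : (fun i => (k i : ℝ) / 2 ^ j + 1 / 2 ^ j / 2) ∈ cube j k := by
        intro i
        have : ((k i : ℝ) + 1) / 2 ^ j = (k i : ℝ) / 2 ^ j + 1 / 2 ^ j := by ring
        rw [this]
        constructor <;> linarith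
      have n1 := hk m1
      have n2 := hk m2
      rw [mem_ball_iff_norm] at n1 n2
      have n3 := norm_le_pi_norm ((fun i => (k i : ℝ) / 2 ^ j) - x₂) i₀
      have n4 := norm_le_pi_norm ((fun i => (k i : ℝ) / 2 ^ j + 1 / 2 ^ j / 2) - x₂) i₀
      rw [Pi.sub_apply, Real.norm_eq_abs] at n3 n4
      have n5 := abs_le.mp (n3.trans n1.le)
      have n6 := abs_le.mp (n4.trans n2.le)
      linarith [n5.1, n5.2, n6.1, n6.2]
    have hCr : C * (1 / 2 ^ j) ≤ ρ := by
      refine le_trans ?_ hδ3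
      gcongr
    refine leg_good_two H hR hη hω₂ hρ0 hC1 hL1 hE₂ (fun y hy => (hball y hy).1)
      (fun y hy => (hball y hy).2.1) (fun y hy => (hball y hy).2.2) (x₂ := x₂) ?_ hCr ?_ p v hv
    · intro i hi
      rw [hy₂]
      simp [legChi, hi]
    · intro x hx
      have hx' := hballx x (hcb (Metric.ball_subset_closedBall (hk hx)))
      refine ⟨hx'.2.2.2.1, hx'.2.1.2, ?_, ?_⟩
      · have := hk hx
        rw [mem_ball_iff_norm] at this
        exact this.le.trans hδ2
      · intro x' hxx'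
        have h1 := Convex.norm_image_sub_le_of_norm_fderiv_le (𝕜 := ℝ) (f := legChi F S) (C := C)
          (s := Metric.ball x₂ δ) (x := x') (y := x)
          (fun z hz => (legChi_hasFDerivAt hV hF S
            (hballx z (hcb (Metric.ball_subset_closedBall hz))).1).differentiableAt)
          (fun z hz => (hballx z (hcb (Metric.ball_subset_closedBall hz))).2.2.1)
          (convex_ball _ _) (hk hxx') (hk hx)
        refine h1.trans ?_
        have := cube_dist hx hxx'
        gcongr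

/-- Goodness of the heights over tangent planes of a twice differentiable function. -/
theorem legendre_good (d : ℕ) (V : Set (Fin d → ℝ)) (hV : IsOpen V) (F : (Fin d → ℝ) → ℝ)
    (hF : ContDiffOn ℝ (2 : ℕ) F V) (x₁ : Fin d → ℝ) (hx₁ : x₁ ∈ V) (a b : Fin d)
    (hab : pd a (pd b F) x₁ ≠ 0) :
    ∃ (V' : Set (Fin d → ℝ)) (κ : ℝ), IsOpen V' ∧ V'.Nonempty ∧ V' ⊆ V ∧ 0 < κ ∧
      (∃ (a b : Fin d) (c₀ : ℝ), 0 < c₀ ∧ ∀ x ∈ V', c₀ ≤ |pd a (pd b F) x|) ∧
      ∀ η : ℝ, 0 < η → ∃ ε : ℝ, 0 < ε ∧ ∀ (p : ℝ) (v : Fin d → ℝ) (j : ℕ) (k : Fin d → ℤ),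
        cube j k ⊆ V' →
        GoodOn (fun x => F x - p - ∑ i, v i * x i) ε η j k ∧
        ((∀ x ∈ cube j k, ‖v - x‖ ≤ κ) → GoodOn (tanG F p v) ε η j k) :=
  legendre_good_aux (fun n Hs h1 h2 => good_C2 n Hs h1 h2) d V hV F hF x₁ hx₁ a b hab

end Pool.Agent.Lib.MP_a37012_nt
end

section

/-!
# Goodness of the gradient of a function with a nonvanishing second derivative
-/

set_option autoImplicit false

open MeasureTheory MvPolynomial

namespace Pool.Agent.Lib.MP_a37012_nt

theorem pgg_seg {d : ℕ} (j : ℕ) (k : Fin d → ℤ) (x u : Fin d → ℝ) (a e : ℝ) (hae : a ≤ e)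
    (ha : x + a • u ∈ cube j k) (he : x + e • u ∈ cube j k) :
    ∀ t ∈ Set.Icc a e, x + t • u ∈ cube j k := by
  intro t ht
  have h1 : t ∈ segment ℝ a e := by rw [segment_eq_Icc hae]; exact ht
  obtain ⟨p, p', hp, hp', hpp, rfl⟩ := h1
  have h2 := (cube_convex j k) ha he hp hp' hpp
  have h3 : p • (x + a • u) + p' • (x + e • u) = x + (p • a + p' • e) • u := by
    have : x = (p + p') • x := by rw [hpp, one_smul]
    conv_rhs => rw [this]
    simp only [smul_add, add_smul, smul_smul, smul_eq_mul]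
    abel
  rw [h3] at h2
  exact h2

/-- Growth along a coordinate line. -/
theorem pgg_mono {d : ℕ} (V' : Set (Fin d → ℝ)) (hV' : IsOpen V') (F : (Fin d → ℝ) → ℝ)
    (hF : ContDiffOn ℝ (2 : ℕ) F V') (a b : Fin d) (c₀ : ℝ)
    (hab : ∀ x ∈ V', c₀ ≤ |pd a (pd b F) x|) (j : ℕ) (k : Fin d → ℤ) (hk : cube j k ⊆ V')
    (x : Fin d → ℝ) (s e : ℝ) (hse : s < e) (hs : x + s • (Pi.single a 1 : Fin d → ℝ) ∈ cube j k)
    (he : x + e • (Pi.single a 1 : Fin d → ℝ) ∈ cube j k) :
    c₀ * (e - s) ≤ |pd b F (x + e • (Pi.single a 1 : Fin d → ℝ)) -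
      pd b F (x + s • (Pi.single a 1 : Fin d → ℝ))| := by
  have hpd : DifferentiableOn ℝ (pd b F) V' :=
    (tay_pd hV' (n := 1) (by simpa using hF) b).differentiableOn (by norm_num)
  have hseg := pgg_seg j k x (Pi.single a 1) s e hse.le hs he
  have hder : ∀ t ∈ Set.Icc s e, HasDerivAt (fun t : ℝ => pd b F (x + t • (Pi.single a 1)))
      (pd a (pd b F) (x + t • (Pi.single a 1))) t := by
    intro t ht
    have h1 := gc_line (pd b F) x (Pi.single a 1) t
      (hpd.differentiableAt (hV'.mem_nhds (hk (hseg t ht))))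
    refine h1.congr_deriv ?_
    rw [Finset.sum_eq_single a]
    · simp
    · intro i _ hi
      simp [Pi.single_eq_of_ne hi]
    · simp
  obtain ⟨ξ, hξ, hξ2⟩ := exists_hasDerivAt_eq_slope _ _ hse
    (fun t ht => (hder t ht).continuousAt.continuousWithinAt)
    (fun t ht => hder t (Set.Ioo_subset_Icc_self ht))
  have h2 := hab _ (hk (hseg ξ (Set.Ioo_subset_Icc_self hξ)))
  rw [hξ2, abs_div, abs_of_pos (sub_pos.mpr hse), le_div_iff₀ (sub_pos.mpr hse)] at h2
  exact h2

theorem pg_grad (d : ℕ) (V' : Set (Fin d → ℝ)) (hV' : IsOpen V') (F : (Fin d → ℝ) → ℝ)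
    (hF : ContDiffOn ℝ (2 : ℕ) F V') (a b : Fin d) (c₀ : ℝ) (hc₀ : 0 < c₀)
    (hab : ∀ x ∈ V', c₀ ≤ |pd a (pd b F) x|) (j₀ : ℕ) (k₀ : Fin d → ℤ)
    (hcl : closure (cube j₀ k₀) ⊆ V') (η : ℝ) (hη : 0 < η) :
    ∃ ε : ℝ, 0 < ε ∧ ε ≤ 1 ∧ ∀ (v : Fin d → ℝ) (j : ℕ) (k : Fin d → ℤ),
      cube j k ⊆ cube j₀ k₀ → ∀ S : ℝ, 0 < S → (∃ x ∈ cube j k, ∃ i, S ≤ |v i - pd i F x|) →
      volume {x | x ∈ cube j k ∧ ∀ i, |v i - pd i F x| < ε * S} ≤
        ENNReal.ofReal η * volume (cube j k) := by
  classical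
  have hd0 : 0 < d := Fin.pos a
  have hd : (0 : ℝ) < d := by exact_mod_cast hd0
  obtain ⟨M, hM1, hM⟩ := tay_bdd hV' (cube_compact j₀ k₀) hcl hF
  have hM0 : 0 < M := by linarith
  set ε : ℝ := min (1 / 2) (η * c₀ / (2 * d * M * 3 ^ d)) with hε
  have hε0 : 0 < ε := lt_min (by norm_num) (by positivity)
  have hε1 : ε ≤ 1 / 2 := min_le_left _ _
  have hε2 : ε ≤ η * c₀ / (2 * d * M * 3 ^ d) := min_le_right _ _
  refine ⟨ε, hε0, by linarith, ?_⟩
  intro v j k hjk S hS hx
  have hsub : cube j k ⊆ V' := hjk.trans (subset_closure.trans hcl)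
  set r : ℝ := 1 / 2 ^ j with hr
  have hr0 : 0 < r := by positivity
  have hpd : ∀ i, DifferentiableOn ℝ (pd i F) V' := fun i =>
    (tay_pd hV' (n := 1) (by simpa using hF) i).differentiableOn (by norm_num)
  have hvar : ∀ i, ∀ x ∈ cube j k, ∀ y ∈ cube j k, |pd i F y - pd i F x| ≤ d * M * r := by
    intro i x hx y hy
    have h1 := (cube_convex j k).norm_image_sub_le_of_norm_fderiv_le (𝕜 := ℝ)
      (f := pd i F) (C := d * M) (fun z hz => (hpd i).differentiableAt (hV'.mem_nhds (hsub hz)))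
      (fun z hz => tay_norm_le _ _ hM0.le (fun i' =>
        hM [i', i] (by simp) z (subset_closure (hjk hz)))) hx hy
    refine h1.trans ?_
    exact mul_le_mul_of_nonneg_left (cube_dist hy hx) (by positivity)
  obtain ⟨xs, hxs, i₁, hi₁⟩ := hx
  by_cases hcase : 2 * (d * M * r) ≤ S
  · have : {x | x ∈ cube j k ∧ ∀ i, |v i - pd i F x| < ε * S} = ∅ := by
      ext x
      simp only [Set.mem_ofPred_eq, Set.mem_empty_iff_false, iff_false, not_and, not_forall,
        not_lt]
      intro hx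
      refine ⟨i₁, ?_⟩
      have h1 := hvar i₁ x hx xs hxs
      have h2 : |v i₁ - pd i₁ F xs| ≤ |v i₁ - pd i₁ F x| + |pd i₁ F xs - pd i₁ F x| := by
        have h3 : v i₁ - pd i₁ F xs = (v i₁ - pd i₁ F x) - (pd i₁ F xs - pd i₁ F x) := by ring
        rw [h3]
        exact abs_sub _ _
      have h4 : ε * S ≤ 1 / 2 * S := mul_le_mul_of_nonneg_right hε1 hS.le
      linarith
    rw [this, measure_empty]
    exact zero_le
  · push Not at hcase
    set τ : ℝ := ε * S with hτ
    have hτ0 : 0 < τ := by positivity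
    set E : Set (Fin d → ℝ) := {x | x ∈ cube j k ∧ |v b - pd b F x| < τ} with hE
    have hEsub : {x | x ∈ cube j k ∧ ∀ i, |v i - pd i F x| < ε * S} ⊆ E :=
      fun x hx => ⟨hx.1, hx.2 b⟩
    refine (measure_mono hEsub).trans ?_
    have hEm : MeasurableSet E := by
      have h1 : E = (V' ∩ (pd b F) ⁻¹' (Metric.ball (v b) τ)) ∩ cube j k := by
        ext x
        simp only [hE, Set.mem_ofPred_eq, Set.mem_inter_iff, Set.mem_preimage, Metric.mem_ball,
          Real.dist_eq, abs_sub_comm (pd b F x)]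
        exact ⟨fun h => ⟨⟨hsub h.1, h.2⟩, h.1⟩, fun h => ⟨h.2, h.1.2⟩⟩
      rw [h1]
      exact ((hpd b).continuousOn.isOpen_inter_preimage hV' Metric.isOpen_ball).measurableSet.inter
        (km_measurable_cube j k)
    set c : Fin d → ℝ := fun i => (k i : ℝ) / 2 ^ j with hc
    have hEB : E ⊆ Set.Icc c (fun i => c i + r) := by
      rintro x ⟨hx, -⟩
      refine ⟨fun i => (hx i).1, fun i => ?_⟩
      have := (hx i).2
      simp only [hc, hr]
      rw [add_div] at this
      exact this.le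
    have hu : ∀ i, |(Pi.single a 1 : Fin d → ℝ) i| ≤ 1 := by
      intro i
      by_cases hi : i = a
      · subst hi; simp
      · simp [Pi.single_eq_of_ne hi]
    set h : ℝ := 2 * τ / c₀ with hh
    have hh0 : 0 < h := by positivity
    have hslice := gc_slice E hEm c r h hr0 hh0.le hEB (Pi.single a 1) hu (by
      intro x
      refine gc_two _ h ?_ ?_
      · refine (Metric.isBounded_Icc (c a - x a) (c a + r - x a)).subset fun t ht => ?_
        have h1 := (hEB ht).1 a
        have h2 := (hEB ht).2 a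
        simp only [Pi.add_apply, Pi.smul_apply, smul_eq_mul, Pi.single_eq_same, mul_one] at h1 h2
        exact ⟨by linarith, by linarith⟩
      · intro s hs e he hse
        have hse' : s < e := by linarith
        have h1 := pgg_mono V' hV' F hF a b c₀ hab j k hsub x s e hse' hs.1 he.1
        have h2 : |pd b F (x + e • (Pi.single a 1 : Fin d → ℝ)) -
            pd b F (x + s • (Pi.single a 1 : Fin d → ℝ))| < 2 * τ := by
          have h3 := hs.2
          have h4 := he.2
          rw [abs_lt] at h3 h4 ⊢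
          constructor <;> linarith
        have h5 : c₀ * h = 2 * τ := by rw [hh]; field_simp
        have h6 : c₀ * h < c₀ * (e - s) := by gcongr
        linarith)
    refine hslice.trans ?_
    rw [km_volume_cube, ← ENNReal.ofReal_pow (by positivity), ← ENNReal.ofReal_mul hη.le]
    apply ENNReal.ofReal_le_ofReal
    have h7 : h ≤ 2 * (ε * (2 * (d * M * r))) / c₀ := by
      rw [hh, hτ]
      gcongr
    calc h * (3 * r) ^ d / (2 * r)
        ≤ 2 * (ε * (2 * (d * M * r))) / c₀ * (3 * r) ^ d / (2 * r) := by gcongr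
      _ = ε * (2 * d * M * 3 ^ d) / c₀ * r ^ d := by rw [mul_pow]; field_simp
      _ ≤ (η * c₀ / (2 * d * M * 3 ^ d)) * (2 * d * M * 3 ^ d) / c₀ * r ^ d := by gcongr
      _ = η * r ^ d := by field_simp

theorem pg_grad_osc (d : ℕ) (V' : Set (Fin d → ℝ)) (hV' : IsOpen V') (F : (Fin d → ℝ) → ℝ)
    (hF : ContDiffOn ℝ (2 : ℕ) F V') (a b : Fin d) (c₀ : ℝ) (hc₀ : 0 < c₀)
    (hab : ∀ x ∈ V', c₀ ≤ |pd a (pd b F) x|) : ∀ (v : ℝ) (j : ℕ) (k : Fin d → ℤ),
      cube j k ⊆ V' → ∃ x ∈ cube j k, c₀ / 2 ^ j / 4 ≤ |v - pd b F x| := by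
  intro v j k hk
  have _ := hc₀
  set c : Fin d → ℝ := fun i => (k i : ℝ) / 2 ^ j with hc
  have h2 : (0 : ℝ) < 2 ^ j := by positivity
  have hs : (0 : ℝ) < 1 / 2 ^ j := by positivity
  have hc1 : c + (0 : ℝ) • (Pi.single a 1 : Fin d → ℝ) ∈ cube j k := by
    intro i
    simp only [Pi.add_apply, Pi.smul_apply, smul_eq_mul, zero_mul, add_zero]
    refine ⟨le_rfl, ?_⟩
    simp only [hc]
    rw [add_div]
    linarith
  have hc2 : c + (1 / 2 ^ j / 2 : ℝ) • (Pi.single a 1 : Fin d → ℝ) ∈ cube j k := by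
    intro i
    simp only [Pi.add_apply, Pi.smul_apply, smul_eq_mul]
    by_cases hi : i = a
    · subst hi
      rw [Pi.single_eq_same, mul_one]
      simp only [hc]
      rw [add_div]
      constructor <;> linarith
    · rw [Pi.single_eq_of_ne hi, mul_zero, add_zero]
      refine ⟨le_rfl, ?_⟩
      simp only [hc]
      rw [add_div]
      linarith
  have h3 := pgg_mono V' hV' F hF a b c₀ hab j k hk c 0 (1 / 2 ^ j / 2) (by positivity) hc1 hc2
  by_cases h5 : c₀ / 2 ^ j / 4 ≤ |v - pd b F (c + (0 : ℝ) • (Pi.single a 1 : Fin d → ℝ))|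
  · exact ⟨_, hc1, h5⟩
  · refine ⟨_, hc2, ?_⟩
    push Not at h5
    set A := pd b F (c + (1 / 2 ^ j / 2 : ℝ) • (Pi.single a 1 : Fin d → ℝ)) with hA
    set A' := pd b F (c + (0 : ℝ) • (Pi.single a 1 : Fin d → ℝ)) with hA'
    have h6 : |A - A'| ≤ |v - A'| + |v - A| := by
      have h7 : A - A' = (v - A') - (v - A) := by ring
      rw [h7]
      exact abs_sub _ _
    have h8 : c₀ * (1 / 2 ^ j / 2 - 0) = 2 * (c₀ / 2 ^ j / 4) := by ring
    rw [h8] at h3
    linarith

end Pool.Agent.Lib.MP_a37012_nt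
end
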