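import Pool.Agent.Lib.MP_a37012_nt.Defs3

section

/-!
# Algebra of maximal minors and covolumes
-/

set_option autoImplicit false
set_option linter.unusedSectionVars false

open MeasureTheory MvPolynomial

namespace Pool.Agent.Lib.MP_a37012_nt

section T1
variable {ι : Type} [Fintype ι] {r r₀ : ℕ}

theorem le_mm (A : Matrix ι (Fin r) ℝ) (e : Fin r → ι) : |(A.submatrix e id).det| ≤ mm A :=
  le_ciSup (f := fun e : Fin r → ι => |(A.submatrix e id).det|)
    (Set.finite_range _).bddAbove e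

theorem exists_mm [Nonempty ι] (A : Matrix ι (Fin r) ℝ) :
    ∃ e : Fin r → ι, |(A.submatrix e id).det| = mm A :=
  exists_eq_ciSup_of_finite (f := fun e : Fin r → ι => |(A.submatrix e id).det|)

theorem mm_nonneg (A : Matrix ι (Fin r) ℝ) : 0 ≤ mm A :=
  Real.iSup_nonneg fun _ => abs_nonneg _

theorem mm_aux_le (A : Matrix ι (Fin r) ℝ) {b : ℝ} (hb : 0 ≤ b)
    (h : ∀ e : Fin r → ι, |(A.submatrix e id).det| ≤ b) : mm A ≤ b :=
  Real.iSup_le h hb

theorem mm_mul_right (A : Matrix ι (Fin r) ℝ) (R : Matrix (Fin r) (Fin r) ℝ) :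
    mm (A * R) = |R.det| * mm A := by
  unfold mm
  rw [Real.mul_iSup_of_nonneg (abs_nonneg _)]
  congr 1
  funext e
  have h : (A * R).submatrix e id = A.submatrix e id * R := rfl
  rw [h, Matrix.det_mul, abs_mul, mul_comm]

/-- expansion of a minor of a product -/
theorem mm_aux_expand (X : Matrix ι ι ℝ) (A : Matrix ι (Fin r) ℝ) (e : Fin r → ι) :
    ((X * A).submatrix e id).det =
      ∑ f : Fin r → ι, (∏ s, X (e s) (f s)) * (A.submatrix f id).det := by
  classical
  have h1 : ((X * A).submatrix e id) = fun s => ∑ b, X (e s) b • A b := by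
    ext s t
    simp [Matrix.mul_apply]
  have h2 : ((X * A).submatrix e id).det =
      (Matrix.detRowAlternating (n := Fin r) (R := ℝ)).toMultilinearMap
        (fun s => ∑ b, X (e s) b • A b) := by
    rw [← h1]; rfl
  rw [h2, MultilinearMap.map_sum]
  refine Finset.sum_congr rfl fun f _ => ?_
  rw [MultilinearMap.map_smul_univ]
  rfl

theorem mm_mul_left (X : Matrix ι ι ℝ) (A : Matrix ι (Fin r) ℝ) (c : ℝ)
    (hc : ∀ a b, |X a b| ≤ c) : mm (X * A) ≤ (Fintype.card ι * c) ^ r * mm A := by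
  classical
  have hc0 : 0 ≤ (Fintype.card ι : ℝ) * c := by
    rcases isEmpty_or_nonempty ι with h | ⟨⟨a⟩⟩
    · simp
    · have : 0 ≤ c := (abs_nonneg _).trans (hc a a)
      positivity
  refine mm_aux_le _ (mul_nonneg (pow_nonneg hc0 _) (mm_nonneg _)) fun e => ?_
  rw [mm_aux_expand]
  refine (Finset.abs_sum_le_sum_abs _ _).trans ?_
  have h1 : ∀ f : Fin r → ι, |(∏ s, X (e s) (f s)) * (A.submatrix f id).det| ≤ c ^ r * mm A := by
    intro f
    rw [abs_mul, Finset.abs_prod]
    have h2 : ∏ s, |X (e s) (f s)| ≤ c ^ r := by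
      calc ∏ s, |X (e s) (f s)| ≤ ∏ _s : Fin r, c :=
            Finset.prod_le_prod (fun _ _ => abs_nonneg _) fun s _ => hc _ _
        _ = c ^ r := by simp
    refine mul_le_mul h2 (le_mm A f) (abs_nonneg _) ?_
    exact (Finset.prod_nonneg fun _ _ => abs_nonneg _).trans h2
  calc ∑ f : Fin r → ι, |(∏ s, X (e s) (f s)) * (A.submatrix f id).det|
      ≤ ∑ _f : Fin r → ι, c ^ r * mm A := Finset.sum_le_sum fun f _ => h1 f
    _ = (Fintype.card ι * c) ^ r * mm A := by
        rw [Finset.sum_const, Finset.card_univ, Fintype.card_fun, Fintype.card_fin,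
          nsmul_eq_mul]
        push_cast
        ring

/-- expansion of a minor of `mcons` along the first column -/
theorem mm_aux_col (c : ι → ℝ) (A : Matrix ι (Fin r) ℝ) (e : Fin (r + 1) → ι) :
    ((mcons c A).submatrix e id).det =
      ∑ i : Fin (r + 1), (-1) ^ (i : ℕ) * c (e i) *
        (A.submatrix (e ∘ i.succAbove) id).det := by
  rw [Matrix.det_succ_column_zero]
  refine Finset.sum_congr rfl fun i _ => ?_
  have e1 : ((mcons c A).submatrix e id) i 0 = c (e i) := rfl
  have e2 : (((mcons c A).submatrix e id).submatrix i.succAbove Fin.succ) =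
      A.submatrix (e ∘ i.succAbove) id := by
    ext a t
    simp [mcons]
  rw [e1, e2]

/-- column operations do not change the largest minor -/
theorem mm_aux_sub (c : ι → ℝ) (A : Matrix ι (Fin r) ℝ) (v : Fin r → ℝ) :
    mm (mcons (c - A.mulVec v) A) = mm (mcons c A) := by
  set U : Matrix (Fin (r + 1)) (Fin (r + 1)) ℝ :=
    Matrix.of (Fin.cons (Fin.cons 1 0) (fun s => Fin.cons (-v s) (Pi.single s 1))) with hU
  have hdet : U.det = 1 := by
    rw [Matrix.det_succ_row_zero, Fin.sum_univ_succ]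
    have h1 : U.submatrix Fin.succ (Fin.succAbove 0) = 1 := by
      ext s t
      simp [hU, Matrix.one_apply, Pi.single_apply, eq_comm]
    rw [h1]
    simp [hU]
  have hmul : mcons (c - A.mulVec v) A = mcons c A * U := by
    ext a t
    rw [Matrix.mul_apply, Fin.sum_univ_succ]
    refine Fin.cases ?_ (fun t => ?_) t
    · simp [mcons, hU, Matrix.mulVec, dotProduct, Finset.sum_neg_distrib, sub_eq_add_neg]
    · simp [mcons, hU, Pi.single_apply]
  rw [hmul, mm_mul_right, hdet]
  simp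

theorem mm_step (A : Matrix ι (Fin r) ℝ) (A₀ : Matrix ι (Fin r₀) ℝ)
    (R : Matrix (Fin r) (Fin r₀) ℝ) (hA : A₀ = A * R) (c : ι → ℝ) :
    mm (mcons c A) * mm A₀ ≤ (r + 1) * mm A * mm (mcons c A₀) := by
  rcases isEmpty_or_nonempty ι with hι | hι
  · have h0 : mm (mcons c A) = 0 := by
      unfold mm
      have : IsEmpty (Fin (r + 1) → ι) := ⟨fun e => hι.elim (e 0)⟩
      exact Real.iSup_of_isEmpty _
    rw [h0, zero_mul]
    have := mm_nonneg A
    have := mm_nonneg (mcons c A₀)
    positivity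
  obtain ⟨e₀, he₀⟩ := exists_mm A₀
  have hn1 := mm_nonneg A
  have hn2 := mm_nonneg (mcons c A₀)
  have hn3 := mm_nonneg A₀
  rcases eq_or_ne (mm A₀) 0 with h0 | h0
  · rw [h0, mul_zero]
    positivity
  have hdet : (A₀.submatrix e₀ id).det ≠ 0 := by
    intro h
    rw [h, abs_zero] at he₀
    exact h0 he₀.symm
  set w : Fin r₀ → ℝ := (A₀.submatrix e₀ id)⁻¹.mulVec (fun s => c (e₀ s)) with hw
  set c' : ι → ℝ := c - A₀.mulVec w with hc'
  have hc'0 : ∀ s, c' (e₀ s) = 0 := by
    intro s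
    have h1 : (A₀.submatrix e₀ id).mulVec w = fun s => c (e₀ s) := by
      rw [hw, Matrix.mulVec_mulVec, Matrix.mul_nonsing_inv _ (isUnit_iff_ne_zero.2 hdet),
        Matrix.one_mulVec]
    have h2 := congrFun h1 s
    have h3 : (A₀.submatrix e₀ id).mulVec w s = A₀.mulVec w (e₀ s) := rfl
    rw [hc', Pi.sub_apply, ← h3, h2, sub_self]
  have e1 : mm (mcons c' A₀) = mm (mcons c A₀) := mm_aux_sub c A₀ w
  have e2 : mm (mcons c' A) = mm (mcons c A) := by
    rw [hc', hA, ← Matrix.mulVec_mulVec]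
    exact mm_aux_sub c A _
  -- bound of the entries
  have key : ∀ a, |c' a| * mm A₀ ≤ mm (mcons c A₀) := by
    intro a
    rw [← e1, ← he₀]
    refine le_trans (le_of_eq ?_) (le_mm (mcons c' A₀) (Fin.cons a e₀))
    rw [mm_aux_col, Fin.sum_univ_succ]
    have h1 : ∀ i : Fin r₀, c' ((Fin.cons a e₀ : Fin (r₀ + 1) → ι) i.succ) = 0 := by
      intro i
      rw [Fin.cons_succ]
      exact hc'0 i
    have h2 : (Fin.cons a e₀ : Fin (r₀ + 1) → ι) ∘ (Fin.succAbove 0) = e₀ := by
      funext i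
      simp
    simp only [h1, mul_zero, zero_mul, Finset.sum_const_zero, add_zero, h2]
    simp [abs_mul]
  rw [← e2]
  -- expand
  have h4 : mm (mcons c' A) * mm A₀ ≤ (r + 1) * mm A * mm (mcons c A₀) := by
    obtain ⟨e, he⟩ := exists_mm (mcons c' A)
    rw [← he, mm_aux_col]
    calc |∑ i : Fin (r + 1), (-1) ^ (i : ℕ) * c' (e i) * (A.submatrix (e ∘ i.succAbove) id).det|
          * mm A₀
        ≤ (∑ i : Fin (r + 1), |(-1) ^ (i : ℕ) * c' (e i) *
            (A.submatrix (e ∘ i.succAbove) id).det|) * mm A₀ := by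
          gcongr
          exact Finset.abs_sum_le_sum_abs _ _
      _ = ∑ i : Fin (r + 1), |(-1) ^ (i : ℕ) * c' (e i) *
            (A.submatrix (e ∘ i.succAbove) id).det| * mm A₀ := by
          rw [Finset.sum_mul]
      _ ≤ ∑ _i : Fin (r + 1), mm A * mm (mcons c A₀) := by
          refine Finset.sum_le_sum fun i _ => ?_
          rw [abs_mul, abs_mul, abs_pow, abs_neg, abs_one, one_pow, one_mul]
          calc |c' (e i)| * |(A.submatrix (e ∘ i.succAbove) id).det| * mm A₀
              = |(A.submatrix (e ∘ i.succAbove) id).det| * (|c' (e i)| * mm A₀) := by ring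
            _ ≤ mm A * mm (mcons c A₀) := by
                refine mul_le_mul (le_mm A _) (key _) ?_ hn1
                positivity
      _ = (r + 1) * mm A * mm (mcons c A₀) := by
          rw [Finset.sum_const, Finset.card_univ, Fintype.card_fin, nsmul_eq_mul]
          push_cast
          ring
  exact h4

theorem mm_row (A : Matrix ι (Fin r) ℝ) (a₀ : ι) (t₀ : Fin r) (δ : ℝ) (hδ : 0 < δ)
    (h0 : A a₀ t₀ ≠ 0) (h : ∀ a, δ * |A a t₀| ≤ |A a₀ t₀|) :
    ∃ e : Fin r → ι, (∃ s, e s = a₀) ∧ δ * mm A ≤ r * |(A.submatrix e id).det| := by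
  classical
  have : Nonempty ι := ⟨a₀⟩
  obtain ⟨e, he⟩ := exists_mm A
  have hpos : 0 < |A a₀ t₀| := abs_pos.2 h0
  -- a vanishing determinant
  have hdet : ((mcons (fun a => A a t₀) A).submatrix (Fin.cons a₀ e) id).det = 0 := by
    apply Matrix.det_zero_of_column_eq (i := 0) (j := t₀.succ) (Fin.succ_ne_zero t₀).symm
    intro k
    simp [mcons]
  rw [mm_aux_col, Fin.sum_univ_succ] at hdet
  have e1 : (Fin.cons a₀ e : Fin (r + 1) → ι) ∘ (Fin.succAbove 0) = e := by
    funext i
    simp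
  rw [e1] at hdet
  simp only [Fin.val_zero, pow_zero, one_mul, Fin.cons_zero, Fin.cons_succ] at hdet
  set E : Fin r → (Fin r → ι) := fun s => (Fin.cons a₀ e : Fin (r + 1) → ι) ∘ s.succ.succAbove
    with hE
  have h1 : |A a₀ t₀| * mm A ≤ ∑ s : Fin r, |A (e s) t₀| * |(A.submatrix (E s) id).det| := by
    have h2 : A a₀ t₀ * (A.submatrix e id).det = -∑ i : Fin r, (-1) ^ ((i.succ : Fin (r + 1)) : ℕ) *
        A (e i) t₀ * (A.submatrix (E i) id).det := by
      linarith
    rw [← he, ← abs_mul, h2, abs_neg]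
    refine (Finset.abs_sum_le_sum_abs _ _).trans (le_of_eq ?_)
    refine Finset.sum_congr rfl fun s _ => ?_
    rw [abs_mul, abs_mul, abs_pow, abs_neg, abs_one, one_pow, one_mul]
  have h3 : δ * mm A ≤ ∑ s : Fin r, |(A.submatrix (E s) id).det| := by
    have h4 : |A a₀ t₀| * (δ * mm A) ≤ |A a₀ t₀| * ∑ s : Fin r, |(A.submatrix (E s) id).det| := by
      calc |A a₀ t₀| * (δ * mm A) = δ * (|A a₀ t₀| * mm A) := by ring
        _ ≤ δ * ∑ s : Fin r, |A (e s) t₀| * |(A.submatrix (E s) id).det| := by gcongr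
        _ = ∑ s : Fin r, (δ * |A (e s) t₀|) * |(A.submatrix (E s) id).det| := by
            rw [Finset.mul_sum]
            refine Finset.sum_congr rfl fun s _ => by ring
        _ ≤ ∑ s : Fin r, |A a₀ t₀| * |(A.submatrix (E s) id).det| := by
            refine Finset.sum_le_sum fun s _ => ?_
            gcongr
            exact h _
        _ = _ := by rw [Finset.mul_sum]
    exact le_of_mul_le_mul_left h4 hpos
  obtain ⟨s, -, hs⟩ := Finset.exists_max_image (Finset.univ : Finset (Fin r))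
    (fun s => |(A.submatrix (E s) id).det|) ⟨t₀, Finset.mem_univ _⟩
  refine ⟨E s, ⟨?_, ?_⟩, ?_⟩
  · exact (⟨0, lt_of_le_of_lt (Nat.zero_le _) t₀.2⟩ : Fin r)
  · rw [hE]
    simp only [Function.comp_apply]
    have : (s.succ.succAbove (⟨0, lt_of_le_of_lt (Nat.zero_le _) t₀.2⟩ : Fin r)) = 0 := by
      have hr : 0 < r := lt_of_le_of_lt (Nat.zero_le _) t₀.2
      obtain ⟨r, rfl⟩ : ∃ k, r = k + 1 := ⟨r - 1, by omega⟩
      exact Fin.succ_succAbove_zero s
    rw [this, Fin.cons_zero]
  · refine h3.trans ?_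
    calc ∑ s' : Fin r, |(A.submatrix (E s') id).det|
        ≤ ∑ _s' : Fin r, |(A.submatrix (E s) id).det| :=
          Finset.sum_le_sum fun s' hs' => hs s' hs'
      _ = r * |(A.submatrix (E s) id).det| := by
          rw [Finset.sum_const, Finset.card_univ, Fintype.card_fin, nsmul_eq_mul]

theorem mm_aux_zero (A : Matrix ι (Fin r) ℝ) (hr : r = 0) : mm A = 1 := by
  subst hr
  unfold mm
  simp

theorem basM_spec (W : Submodule ℚ (ι → ℚ)) : KMat W (basM W) ∧
    ∀ B : Matrix ι (Fin (basR W)) ℤ, (∀ t, kmCol B t ∈ W) →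
      ∃ R : Matrix (Fin (basR W)) (Fin (basR W)) ℤ, B = basM W * R :=
  (km_basis W).choose_spec.choose_spec

theorem basR_eq (W : Submodule ℚ (ι → ℚ)) : basR W = Module.finrank ℚ W := by
  have h1 := finrank_span_eq_card (basM_spec W).1.1
  rw [(basM_spec W).1.2, Fintype.card_fin] at h1
  exact h1.symm

theorem mm_aux_toR_mul {r' : ℕ} (B : Matrix ι (Fin r) ℤ) (R : Matrix (Fin r) (Fin r') ℤ) :
    toR (B * R) = toR B * toR R := by
  unfold toR
  ext a t
  simp [Matrix.mul_apply]

theorem mm_aux_det (R : Matrix (Fin r) (Fin r) ℤ) : (toR R).det = ((R.det : ℤ) : ℝ) :=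
  ((Int.castRingHom ℝ).map_det R).symm

theorem mm_aux_one_le (n : ℤ) (hn : n ≠ 0) : (1 : ℝ) ≤ |(n : ℝ)| := by
  rw [← Int.cast_abs]
  exact_mod_cast Int.one_le_abs hn

theorem mm_aux_grow (H : Matrix ι ι ℝ) (B : Matrix ι (Fin r) ℤ) (R : Matrix (Fin r) (Fin r) ℤ)
    (h : LinearIndependent ℚ (kmCol (B * R))) : mm (H * toR B) ≤ mm (H * toR (B * R)) := by
  rw [mm_aux_toR_mul, ← Matrix.mul_assoc, mm_mul_right, mm_aux_det]
  exact le_mul_of_one_le_left (mm_nonneg _) (mm_aux_one_le _ (km_det_ne_zero B R h))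

theorem cov_le (H : Matrix ι ι ℝ) (W : Submodule ℚ (ι → ℚ)) (B : Matrix ι (Fin r) ℤ)
    (hB : KMat W B) : cov H W ≤ mm (H * toR B) := by
  obtain rfl := km_card_unique (basM_spec W).1 hB
  obtain ⟨R, hR⟩ := (basM_spec W).2 B (fun t => hB.2.le (Submodule.subset_span ⟨t, rfl⟩))
  have h1 := hB.1
  rw [hR] at h1
  rw [hR]
  exact mm_aux_grow H (basM W) R h1

theorem cov_bot (H : Matrix ι ι ℝ) : cov H ⊥ = 1 := by
  unfold cov
  exact mm_aux_zero _ (by rw [basR_eq, finrank_bot])

theorem cov_top [DecidableEq ι] (H : Matrix ι ι ℝ) : |H.det| ≤ cov H ⊤ := by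
  have hc : Fintype.card (Fin (basR (⊤ : Submodule ℚ (ι → ℚ)))) = Fintype.card ι := by
    rw [Fintype.card_fin, basR_eq, finrank_top, Module.finrank_fintype_fun_eq_card]
  set ε : Fin (basR (⊤ : Submodule ℚ (ι → ℚ))) ≃ ι := Fintype.equivOfCardEq hc with hε
  obtain ⟨R, hR⟩ := (basM_spec (⊤ : Submodule ℚ (ι → ℚ))).2
    ((1 : Matrix ι ι ℤ).submatrix id ε) (fun t => Submodule.mem_top)
  have h1 : ((basM (⊤ : Submodule ℚ (ι → ℚ))).submatrix ε id).det * R.det = 1 := by
    rw [← Matrix.det_mul]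
    have h2 : (basM (⊤ : Submodule ℚ (ι → ℚ))).submatrix ε id * R =
        (basM (⊤ : Submodule ℚ (ι → ℚ)) * R).submatrix ε id := rfl
    rw [h2, ← hR]
    simp
  have h3 : ((basM (⊤ : Submodule ℚ (ι → ℚ))).submatrix ε id).det ≠ 0 := by
    intro h0
    rw [h0, zero_mul] at h1
    exact zero_ne_one h1
  refine le_trans ?_ (le_mm (H * toR (basM (⊤ : Submodule ℚ (ι → ℚ)))) ε)
  have h4 : (H * toR (basM (⊤ : Submodule ℚ (ι → ℚ)))).submatrix ε id =
      H.submatrix ε ε * toR ((basM (⊤ : Submodule ℚ (ι → ℚ))).submatrix ε id) := by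
    ext s t
    simp only [Matrix.submatrix_apply, Matrix.mul_apply, id]
    rw [← Equiv.sum_comp ε]
    rfl
  rw [h4, Matrix.det_mul, abs_mul, Matrix.det_submatrix_equiv_self, mm_aux_det]
  exact le_mul_of_one_le_right (abs_nonneg _) (mm_aux_one_le _ h3)

theorem cov_lower [DecidableEq ι] (H : Matrix ι ι ℝ) (hH : H.det ≠ 0) :
    ∃ c : ℝ, 0 < c ∧ ∀ W : Submodule ℚ (ι → ℚ), c ≤ cov H W := by
  set N := Fintype.card ι with hN
  set c₁ : ℝ := ∑ a, ∑ b, |H⁻¹ a b| with hc₁
  have hc₁0 : ∀ a b, |H⁻¹ a b| ≤ c₁ := by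
    intro a b
    calc |H⁻¹ a b| ≤ ∑ b, |H⁻¹ a b| :=
          Finset.single_le_sum (f := fun b => |H⁻¹ a b|) (fun _ _ => abs_nonneg _)
            (Finset.mem_univ b)
      _ ≤ c₁ := Finset.single_le_sum (f := fun a => ∑ b, |H⁻¹ a b|)
            (fun _ _ => Finset.sum_nonneg fun _ _ => abs_nonneg _) (Finset.mem_univ a)
  set K : ℝ := max 1 (N * c₁) with hK
  have hK1 : 1 ≤ K := le_max_left _ _
  have hK0 : 0 < K := lt_of_lt_of_le one_pos hK1
  refine ⟨(K ^ N)⁻¹, by positivity, fun W => ?_⟩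
  obtain ⟨e, he⟩ := exists_minor_ne_zero (basM W) (by
    have h1 : LinearIndependent ℤ (kmCol (basM W)) :=
      (LinearIndependent.iff_fractionRing ℤ ℚ).mpr (basM_spec W).1.1
    have h2 : kmCol (basM W) = kmCast ι ∘ (fun t : Fin (basR W) => fun a => basM W a t) := rfl
    rw [h2] at h1
    exact LinearIndependent.of_comp _ h1)
  have h1 : (1 : ℝ) ≤ mm (toR (basM W)) := by
    refine le_trans ?_ (le_mm (toR (basM W)) e)
    have h2 : (toR (basM W)).submatrix e id = toR ((basM W).submatrix e id) := rfl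
    rw [h2, mm_aux_det]
    exact mm_aux_one_le _ he
  have h3 : toR (basM W) = H⁻¹ * (H * toR (basM W)) := by
    rw [← Matrix.mul_assoc, Matrix.nonsing_inv_mul _ (isUnit_iff_ne_zero.2 hH), Matrix.one_mul]
  have hrN : basR W ≤ N := by
    rw [basR_eq, hN, ← Module.finrank_fintype_fun_eq_card (R := ℚ) (η := ι)]
    exact Submodule.finrank_le W
  have h4 : (1 : ℝ) ≤ K ^ N * cov H W := by
    calc (1 : ℝ) ≤ mm (toR (basM W)) := h1
      _ = mm (H⁻¹ * (H * toR (basM W))) := by rw [← h3]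
      _ ≤ (N * c₁) ^ basR W * mm (H * toR (basM W)) := mm_mul_left _ _ c₁ hc₁0
      _ ≤ K ^ basR W * mm (H * toR (basM W)) := by
          refine mul_le_mul_of_nonneg_right ?_ (mm_nonneg _)
          refine pow_le_pow_left₀ ?_ (le_max_right _ _) _
          have : 0 ≤ c₁ := Finset.sum_nonneg fun _ _ => Finset.sum_nonneg fun _ _ => abs_nonneg _
          positivity
      _ ≤ K ^ N * cov H W := by
          refine mul_le_mul_of_nonneg_right ?_ (mm_nonneg _)
          exact pow_le_pow_right₀ hK1 hrN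
  rw [inv_le_iff_one_le_mul₀ (by positivity)]
  rw [mul_comm]
  exact h4

/-- the lattice basis generates the lattice -/
theorem mm_aux_gen (W : Submodule ℚ (ι → ℚ)) (w : ι → ℤ) (hw : kmCast ι w ∈ W) :
    ∃ v : Fin (basR W) → ℤ, w = (basM W).mulVec v := by
  rcases Nat.eq_zero_or_pos (basR W) with h0 | h0
  · have hW : W = ⊥ := by
      rw [basR_eq] at h0
      exact Submodule.finrank_eq_zero.mp h0
    have hw0 : kmCast ι w = 0 := by
      rw [hW] at hw
      exact (Submodule.mem_bot ℚ).mp hw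
    have h1 : w ∈ LinearMap.ker (kmCast ι) := hw0
    rw [kmCast_ker] at h1
    refine ⟨0, ?_⟩
    rw [Matrix.mulVec_zero]
    exact h1
  · obtain ⟨R, hR⟩ := (basM_spec W).2 (Matrix.of fun a _ => w a) (fun t => hw)
    refine ⟨fun s => R s ⟨0, h0⟩, ?_⟩
    funext a
    have h1 := congrFun (congrFun hR a) ⟨0, h0⟩
    rw [Matrix.mul_apply] at h1
    exact h1

/-- a basis of the subspace which generates the lattice computes the covolume -/
theorem mm_aux_le_cov (H : Matrix ι ι ℝ) (W : Submodule ℚ (ι → ℚ)) (B : Matrix ι (Fin r) ℤ)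
    (hB : KMat W B) (hgen : ∀ w : ι → ℤ, kmCast ι w ∈ W → ∃ v : Fin r → ℤ, w = B.mulVec v) :
    mm (H * toR B) ≤ cov H W := by
  obtain rfl := km_card_unique (basM_spec W).1 hB
  have h1 : ∀ t : Fin (basR W), ∃ v : Fin (basR W) → ℤ,
      (fun a => basM W a t) = B.mulVec v := by
    intro t
    apply hgen
    have h2 : kmCol (basM W) t ∈ Submodule.span ℚ (Set.range (kmCol (basM W))) :=
      Submodule.subset_span ⟨t, rfl⟩
    rw [(basM_spec W).1.2] at h2
    exact h2
  choose v hv using h1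
  have h3 : basM W = B * (Matrix.of fun s t => v t s) := by
    ext a t
    have h4 := congrFun (hv t) a
    rw [Matrix.mul_apply]
    exact h4
  have h5 := (basM_spec W).1.1
  unfold cov
  rw [h3] at h5 ⊢
  exact mm_aux_grow H B _ h5

/-- an integer matrix preceded by one more column -/
def mm_aux_icons (c : ι → ℤ) (B : Matrix ι (Fin r) ℤ) : Matrix ι (Fin (r + 1)) ℤ :=
  Matrix.of fun a => Fin.cons (c a) (B a)

theorem mm_aux_icons_mul (H : Matrix ι ι ℝ) (c : ι → ℤ) (B : Matrix ι (Fin r) ℤ) :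
    H * toR (mm_aux_icons c B) = mcons (H.mulVec fun b => (c b : ℝ)) (H * toR B) := by
  ext a t
  rw [Matrix.mul_apply]
  refine Fin.cases ?_ (fun t => ?_) t
  · simp [mcons, mm_aux_icons, toR, Matrix.mulVec, dotProduct]
  · simp [mcons, mm_aux_icons, toR, Matrix.mul_apply]

theorem mm_aux_icons_KMat {W : Submodule ℚ (ι → ℚ)} {B : Matrix ι (Fin r) ℤ} (h₀ : KMat W B)
    {c : ι → ℤ} (hc : kmCast ι c ∉ W) :
    KMat (W ⊔ Submodule.span ℚ {kmCast ι c}) (mm_aux_icons c B) := by
  have hcol : kmCol (mm_aux_icons c B) = Fin.cons (kmCast ι c) (kmCol B) := by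
    funext t
    refine Fin.cases ?_ (fun s => ?_) t
    · funext a
      simp [kmCol, mm_aux_icons, kmCast]
    · funext a
      simp [kmCol, mm_aux_icons]
  refine ⟨?_, ?_⟩
  · rw [hcol, linearIndependent_finCons, h₀.2]
    exact ⟨h₀.1, hc⟩
  · rw [hcol, Fin.range_cons, Submodule.span_insert, h₀.2, sup_comm]

/-- one step of the submultiplicativity -/
theorem mm_aux_step (H : Matrix ι ι ℝ) (V Z : Submodule ℚ (ι → ℚ)) (hZV : Z ≤ V) (c : ι → ℤ)
    (hc : kmCast ι c ∉ V)
    (hgen : ∀ w : ι → ℤ, kmCast ι w ∈ Z ⊔ Submodule.span ℚ {kmCast ι c} →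
      ∃ n : ℤ, kmCast ι (w - n • c) ∈ Z) :
    cov H (V ⊔ Submodule.span ℚ {kmCast ι c}) * cov H Z ≤
      (Fintype.card ι + 1) * cov H V * cov H (Z ⊔ Submodule.span ℚ {kmCast ι c}) := by
  have hcZ : kmCast ι c ∉ Z := fun h => hc (hZV h)
  -- the matrix of coefficients
  have h1 : ∀ t : Fin (basR Z), ∃ v : Fin (basR V) → ℤ,
      (fun a => basM Z a t) = (basM V).mulVec v := by
    intro t
    apply mm_aux_gen
    apply hZV
    have h2 : kmCol (basM Z) t ∈ Submodule.span ℚ (Set.range (kmCol (basM Z))) :=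
      Submodule.subset_span ⟨t, rfl⟩
    rw [(basM_spec Z).1.2] at h2
    exact h2
  choose v hv using h1
  have h3 : basM Z = basM V * (Matrix.of fun s t => v t s) := by
    ext a t
    have h4 := congrFun (hv t) a
    rw [Matrix.mul_apply]
    exact h4
  have h5 : H * toR (basM Z) = (H * toR (basM V)) * toR (Matrix.of fun s t => v t s) := by
    rw [Matrix.mul_assoc, ← mm_aux_toR_mul, ← h3]
  have h6 := mm_step (H * toR (basM V)) (H * toR (basM Z)) _ h5 (H.mulVec fun b => (c b : ℝ))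
  rw [← mm_aux_icons_mul, ← mm_aux_icons_mul] at h6
  have h7 := cov_le H _ _ (mm_aux_icons_KMat (basM_spec V).1 hc)
  have h8 : mm (H * toR (mm_aux_icons c (basM Z))) ≤
      cov H (Z ⊔ Submodule.span ℚ {kmCast ι c}) := by
    refine mm_aux_le_cov H _ _ (mm_aux_icons_KMat (basM_spec Z).1 hcZ) fun w hw => ?_
    obtain ⟨n, hn⟩ := hgen w hw
    obtain ⟨u, hu⟩ := mm_aux_gen Z _ hn
    refine ⟨Fin.cons n u, ?_⟩
    funext a
    have h9 := congrFun hu a
    simp only [Pi.sub_apply, Pi.smul_apply, smul_eq_mul, Matrix.mulVec, dotProduct] at h9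
    simp only [Matrix.mulVec, dotProduct, Fin.sum_univ_succ, mm_aux_icons, Matrix.of_apply,
      Fin.cons_zero, Fin.cons_succ]
    rw [← h9]
    ring
  have hrN : (basR V : ℝ) ≤ Fintype.card ι := by
    have : basR V ≤ Fintype.card ι := by
      rw [basR_eq, ← Module.finrank_fintype_fun_eq_card (R := ℚ) (η := ι)]
      exact Submodule.finrank_le V
    exact_mod_cast this
  have hV0 : 0 ≤ cov H V := mm_nonneg _
  have hZ0 : 0 ≤ cov H Z := mm_nonneg _
  calc cov H (V ⊔ Submodule.span ℚ {kmCast ι c}) * cov H Z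
      ≤ mm (H * toR (mm_aux_icons c (basM V))) * cov H Z := by gcongr
    _ ≤ (basR V + 1) * cov H V * mm (H * toR (mm_aux_icons c (basM Z))) := h6
    _ ≤ (Fintype.card ι + 1) * cov H V * cov H (Z ⊔ Submodule.span ℚ {kmCast ι c}) := by
        refine mul_le_mul ?_ h8 (mm_nonneg _) (by positivity)
        exact mul_le_mul_of_nonneg_right (by linarith) hV0

/-- a corank one subspace with a primitive complement -/
theorem mm_aux_split (U W' : Submodule ℚ (ι → ℚ)) (hU : U ≤ W') (hne : ¬ W' ≤ U) :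
    ∃ (Z : Submodule ℚ (ι → ℚ)) (c : ι → ℤ), U ≤ Z ∧ kmCast ι c ∉ Z ∧
      Z ⊔ Submodule.span ℚ {kmCast ι c} = W' ∧
      ∀ w : ι → ℤ, kmCast ι w ∈ W' → ∃ n : ℤ, kmCast ι (w - n • c) ∈ Z := by
  classical
  obtain ⟨x, hxW, hxU⟩ := Set.not_subset.mp hne
  obtain ⟨f, hfx, hfU⟩ := Submodule.exists_dual_map_eq_bot_of_notMem hxU inferInstance
  have hfU' : U ≤ LinearMap.ker f := by
    intro y hy
    have : f y ∈ U.map f := ⟨y, hy, rfl⟩
    rw [hfU] at this
    exact (Submodule.mem_bot ℚ).mp this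
  obtain ⟨N, q, hN, hq⟩ := km_clear (fun a => f (Pi.single a 1))
  have hNq : (N : ℚ) ≠ 0 := by exact_mod_cast hN
  -- the integral functional
  set φ : (ι → ℤ) →ₗ[ℤ] ℤ :=
    { toFun := fun w => ∑ a, q a * w a
      map_add' := fun w w' => by
        rw [← Finset.sum_add_distrib]
        exact Finset.sum_congr rfl fun a _ => by rw [Pi.add_apply, mul_add]
      map_smul' := fun n w => by
        simp only [Pi.smul_apply, smul_eq_mul, RingHom.id_apply]
        rw [Finset.mul_sum]
        exact Finset.sum_congr rfl fun a _ => by ring } with hφ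
  have hφf : ∀ w : ι → ℤ, ((φ w : ℤ) : ℚ) = N * f (kmCast ι w) := by
    intro w
    have h1 : kmCast ι w = ∑ a, (w a : ℚ) • (Pi.single a (1 : ℚ) : ι → ℚ) := by
      funext b
      simp [kmCast, Finset.sum_apply, Pi.single_apply]
    rw [h1, map_sum, Finset.mul_sum]
    have h2 : φ w = ∑ a, q a * w a := rfl
    rw [h2]
    push_cast
    refine Finset.sum_congr rfl fun a _ => ?_
    rw [map_smul, smul_eq_mul, ← hq a]
    ring
  set L : Submodule ℤ (ι → ℤ) := (W'.restrictScalars ℤ).comap (kmCast ι) with hL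
  have hLmem : ∀ w : ι → ℤ, w ∈ L ↔ kmCast ι w ∈ W' := fun w => Iff.rfl
  obtain ⟨g, hg⟩ := (IsPrincipalIdealRing.principal (L.map φ : Ideal ℤ)).principal
  have hgL : g ∈ (L.map φ : Submodule ℤ ℤ) := by
    have h1 : g ∈ Submodule.span ℤ ({g} : Set ℤ) := Submodule.mem_span_singleton_self g
    have h2 : (L.map φ : Submodule ℤ ℤ) = Submodule.span ℤ {g} := hg
    rw [h2]
    exact h1
  obtain ⟨c, hcL, hcg⟩ := hgL
  have hdiv : ∀ w ∈ L, ∃ n : ℤ, φ w = n * g := by
    intro w hw
    have h1 : φ w ∈ (L.map φ : Submodule ℤ ℤ) := ⟨w, hw, rfl⟩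
    have h2 : (L.map φ : Submodule ℤ ℤ) = Submodule.span ℤ {g} := hg
    rw [h2, Submodule.mem_span_singleton] at h1
    obtain ⟨n, hn⟩ := h1
    exact ⟨n, by rw [← hn, smul_eq_mul]⟩
  -- `g ≠ 0`
  have hg0 : g ≠ 0 := by
    intro h0
    obtain ⟨n, y, hn, hy⟩ := km_clear x
    have hnq : (n : ℚ) ≠ 0 := by exact_mod_cast hn
    have hyx : kmCast ι y = (n : ℚ) • x := by
      funext a
      rw [Pi.smul_apply, smul_eq_mul, hy a]
      rfl
    have hyL : y ∈ L := by
      rw [hLmem, hyx]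
      exact W'.smul_mem _ hxW
    obtain ⟨k, hk⟩ := hdiv y hyL
    rw [h0, mul_zero] at hk
    have h1 := hφf y
    rw [hk, hyx, map_smul, smul_eq_mul] at h1
    apply hfx
    have h2 : (N : ℚ) * ((n : ℚ) * f x) = 0 := by rw [← h1]; simp
    rcases mul_eq_zero.mp h2 with h3 | h3
    · exact absurd h3 hNq
    · rcases mul_eq_zero.mp h3 with h4 | h4
      · exact absurd h4 hnq
      · exact h4
  have hfc : f (kmCast ι c) ≠ 0 := by
    intro h0
    have h1 := hφf c
    rw [h0, mul_zero] at h1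
    apply hg0
    rw [← hcg]
    exact_mod_cast h1
  refine ⟨W' ⊓ LinearMap.ker f, c, le_inf hU hfU', fun h => hfc (LinearMap.mem_ker.mp h.2),
    ?_, ?_⟩
  · apply le_antisymm
    · refine sup_le inf_le_left ?_
      rw [Submodule.span_singleton_le_iff_mem]
      exact hcL
    · intro y hy
      rw [Submodule.mem_sup]
      refine ⟨y - (f y / f (kmCast ι c)) • kmCast ι c, ⟨?_, ?_⟩,
        (f y / f (kmCast ι c)) • kmCast ι c, ?_, by rw [sub_add_cancel]⟩
      · exact W'.sub_mem hy (W'.smul_mem _ hcL)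
      · rw [SetLike.mem_coe, LinearMap.mem_ker, map_sub, map_smul, smul_eq_mul,
          div_mul_cancel₀ _ hfc, sub_self]
      · exact Submodule.smul_mem _ _ (Submodule.mem_span_singleton_self _)
  · intro w hw
    obtain ⟨n, hn⟩ := hdiv w hw
    refine ⟨n, ?_, ?_⟩
    · have h1 : w - n • c ∈ L := L.sub_mem hw (L.smul_mem _ hcL)
      exact h1
    · rw [SetLike.mem_coe, LinearMap.mem_ker]
      have h1 : φ (w - n • c) = 0 := by
        rw [map_sub, map_smul, hn, hcg, smul_eq_mul, sub_self]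
      have h2 := hφf (w - n • c)
      rw [h1, Int.cast_zero] at h2
      rcases mul_eq_zero.mp h2.symm with h3 | h3
      · exact absurd h3 hNq
      · exact h3

end T1

theorem mm_aux_submul {ι : Type} [Fintype ι] [DecidableEq ι] (H : Matrix ι ι ℝ)
    (hH : H.det ≠ 0) (W : Submodule ℚ (ι → ℚ)) : ∀ (k : ℕ) (W' : Submodule ℚ (ι → ℚ)),
      Module.finrank ℚ W' = k →
      cov H (W ⊓ W') * cov H (W ⊔ W') ≤ (Fintype.card ι + 1) ^ k * cov H W * cov H W' := by
  obtain ⟨c₀, hc₀, hcov⟩ := cov_lower H hH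
  have hpos : ∀ W, 0 < cov H W := fun W => lt_of_lt_of_le hc₀ (hcov W)
  have hN1 : (1 : ℝ) ≤ Fintype.card ι + 1 := by
    have : (0 : ℝ) ≤ Fintype.card ι := Nat.cast_nonneg _
    linarith
  intro k
  induction k using Nat.strong_induction_on with
  | _ k ih =>
    intro W' hk
    by_cases hle : W' ≤ W
    · rw [inf_eq_right.mpr hle, sup_eq_left.mpr hle]
      calc cov H W' * cov H W = 1 * cov H W * cov H W' := by ring
        _ ≤ (Fintype.card ι + 1) ^ k * cov H W * cov H W' := by
            have h1 := (hpos W).le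
            have h2 := (hpos W').le
            gcongr
            exact one_le_pow₀ hN1
    · obtain ⟨Z, c, hUZ, hcZ, hZc, hgen⟩ := mm_aux_split (W ⊓ W') W' inf_le_right
        (fun h => hle (h.trans inf_le_left))
      have hZW' : Z ≤ W' := by rw [← hZc]; exact le_sup_left
      have hcW' : kmCast ι c ∈ W' := by
        rw [← hZc]
        exact le_sup_right (a := Z) (Submodule.mem_span_singleton_self _)
      have hlt : Z < W' := lt_of_le_of_ne hZW' (fun h => hcZ (h ▸ hcW'))
      have hfin : Module.finrank ℚ Z < k := by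
        rw [← hk]
        exact Submodule.finrank_lt_finrank_of_lt hlt
      have h1 := ih (Module.finrank ℚ Z) hfin Z rfl
      have hinf : W ⊓ Z = W ⊓ W' :=
        le_antisymm (inf_le_inf_left W hZW') (le_inf inf_le_left hUZ)
      have hcV : kmCast ι c ∉ W ⊔ Z := by
        intro h
        obtain ⟨w, hw, z, hz, hwz⟩ := Submodule.mem_sup.mp h
        apply hcZ
        rw [← hwz]
        refine Z.add_mem (hUZ ⟨hw, ?_⟩) hz
        have h2 : w = kmCast ι c - z := by rw [← hwz, add_sub_cancel_right]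
        rw [h2]
        exact W'.sub_mem hcW' (hZW' hz)
      have h2 := mm_aux_step H (W ⊔ Z) Z le_sup_right c hcV (by rw [hZc]; exact hgen)
      rw [sup_assoc, hZc] at h2
      rw [hinf] at h1
      have h3 : cov H (W ⊓ W') * cov H (W ⊔ W') * cov H Z ≤
          (Fintype.card ι + 1) ^ k * cov H W * cov H W' * cov H Z := by
        calc cov H (W ⊓ W') * cov H (W ⊔ W') * cov H Z
            = cov H (W ⊓ W') * (cov H (W ⊔ W') * cov H Z) := by ring
          _ ≤ cov H (W ⊓ W') * ((Fintype.card ι + 1) * cov H (W ⊔ Z) * cov H W') :=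
              mul_le_mul_of_nonneg_left h2 (hpos _).le
          _ = (Fintype.card ι + 1) * (cov H (W ⊓ W') * cov H (W ⊔ Z)) * cov H W' := by ring
          _ ≤ (Fintype.card ι + 1) * ((Fintype.card ι + 1) ^ Module.finrank ℚ Z * cov H W *
                cov H Z) * cov H W' := by
              have := (hpos W').le
              gcongr
          _ = (Fintype.card ι + 1) ^ (Module.finrank ℚ Z + 1) * cov H W * cov H W' *
                cov H Z := by ring
          _ ≤ (Fintype.card ι + 1) ^ k * cov H W * cov H W' * cov H Z := by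
              have e1 := (hpos W).le
              have e2 := (hpos W').le
              have e3 := (hpos Z).le
              gcongr
              exact hfin
      exact le_of_mul_le_mul_right h3 (hpos Z)

theorem cov_submul (ι : Type) [Fintype ι] [DecidableEq ι] : ∃ C : ℝ, 1 ≤ C ∧
    ∀ H : Matrix ι ι ℝ, H.det ≠ 0 → ∀ W W' : Submodule ℚ (ι → ℚ),
      cov H (W ⊓ W') * cov H (W ⊔ W') ≤ C * cov H W * cov H W' := by
  have hN1 : (1 : ℝ) ≤ Fintype.card ι + 1 := by
    have : (0 : ℝ) ≤ Fintype.card ι := Nat.cast_nonneg _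
    linarith
  refine ⟨(Fintype.card ι + 1) ^ Fintype.card ι, one_le_pow₀ hN1, fun H hH W W' => ?_⟩
  refine (mm_aux_submul H hH W (Module.finrank ℚ W') W' rfl).trans ?_
  have e1 : 0 ≤ cov H W := mm_nonneg _
  have e2 : 0 ≤ cov H W' := mm_nonneg _
  gcongr
  rw [← Module.finrank_fintype_fun_eq_card (R := ℚ) (η := ι)]
  exact Submodule.finrank_le W'

end Pool.Agent.Lib.MP_a37012_nt
end

section

/-!
# Hypersurfaces: linear algebra for the minors of the primal matrix
-/

set_option autoImplicit false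

open MeasureTheory MvPolynomial

namespace Pool.Agent.Lib.MP_a37012_nt

theorem pg_det_one {r : ℕ} (M : Matrix (Fin r) (Fin r) ℝ) (t₁ : Fin r)
    (h : ∀ s, s ≠ t₁ → ∀ t, M s t = if s = t then 1 else 0) : M.det = M t₁ t₁ := by
  have h1 : M = Matrix.updateRow 1 t₁ (M t₁) := by
    ext s t
    by_cases hs : s = t₁
    · subst hs
      simp
    · rw [Matrix.updateRow_ne hs, h s hs t, Matrix.one_apply]
  have h2 : M.det = (Matrix.updateCol (1 : Matrix (Fin r) (Fin r) ℝ) t₁ (M t₁)).det := by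
    conv_lhs => rw [h1]
    rw [← Matrix.det_transpose, ← Matrix.updateCol_transpose, Matrix.transpose_one]
  rw [h2, ← Matrix.cramer_apply, Matrix.cramer_one]
  rfl

theorem pg_det_two {r : ℕ} (M : Matrix (Fin r) (Fin r) ℝ) (t₁ t₂ : Fin r) (hne : t₁ ≠ t₂)
    (h : ∀ s, s ≠ t₁ → s ≠ t₂ → ∀ t, M s t = if s = t then 1 else 0) :
    M.det = M t₁ t₁ * M t₂ t₂ - M t₁ t₂ * M t₂ t₁ := by
  -- subtract a multiple of row `t₂`; when the pivot vanishes use linearity in row `t₂`
  have key : ∀ (u v : Fin r → ℝ) (M : Matrix (Fin r) (Fin r) ℝ),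
      (∀ s, s ≠ t₁ → s ≠ t₂ → ∀ t, M s t = if s = t then 1 else 0) →
      ((M.updateRow t₁ u).updateRow t₂ v).det = u t₁ * v t₂ - u t₂ * v t₁ := by
    intro u v M hM
    -- expand `v` along the standard basis
    have hlin : ∀ (X : Matrix (Fin r) (Fin r) ℝ), (X.updateRow t₂ v).det =
        ∑ k, v k * (X.updateRow t₂ (Pi.single k 1)).det := by
      intro X
      have h1 : v = ∑ k, v k • (Pi.single k 1 : Fin r → ℝ) := by
        funext j
        simp [Finset.sum_apply, Pi.single_apply]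
      have h2 : ∀ (s : Finset (Fin r)), (X.updateRow t₂ (∑ k ∈ s, v k • (Pi.single k 1 : Fin r → ℝ))).det =
          ∑ k ∈ s, v k * (X.updateRow t₂ (Pi.single k 1)).det := by
        intro s
        induction s using Finset.induction_on with
        | empty =>
          simp only [Finset.sum_empty]
          exact Matrix.det_eq_zero_of_row_eq_zero t₂ (fun j => by simp)
        | insert a s ha ih =>
          rw [Finset.sum_insert ha, Finset.sum_insert ha, Matrix.det_updateRow_add,
            Matrix.det_updateRow_smul, ih]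
      conv_lhs => rw [h1]
      exact h2 Finset.univ
    rw [hlin, Finset.sum_eq_add t₁ t₂ hne]
    · -- the two remaining terms
      have e1 : ((M.updateRow t₁ u).updateRow t₂ (Pi.single t₂ 1)).det = u t₁ := by
        rw [pg_det_one _ t₁]
        · rw [Matrix.updateRow_ne hne, Matrix.updateRow_self]
        · intro s hs t
          by_cases hs2 : s = t₂
          · subst hs2
            rw [Matrix.updateRow_self, Pi.single_apply]
            simp [eq_comm]
          · rw [Matrix.updateRow_ne hs2, Matrix.updateRow_ne hs, hM s hs hs2]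
      have e2 : ((M.updateRow t₁ u).updateRow t₂ (Pi.single t₁ 1)).det = - u t₂ := by
        have h3 : ((M.updateRow t₁ u).updateRow t₂ (Pi.single t₁ 1)).submatrix
            (Equiv.swap t₁ t₂) id = (M.updateRow t₁ (Pi.single t₁ 1)).updateRow t₂ u := by
          ext s t
          rw [Matrix.submatrix_apply, id]
          by_cases hs1 : s = t₁
          · subst hs1
            rw [Equiv.swap_apply_left, Matrix.updateRow_self, Matrix.updateRow_ne hne,
              Matrix.updateRow_self]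
          · by_cases hs2 : s = t₂
            · subst hs2
              rw [Equiv.swap_apply_right, Matrix.updateRow_ne hne, Matrix.updateRow_self,
                Matrix.updateRow_self]
            · rw [Equiv.swap_apply_of_ne_of_ne hs1 hs2, Matrix.updateRow_ne hs2,
                Matrix.updateRow_ne hs1, Matrix.updateRow_ne hs2, Matrix.updateRow_ne hs1]
        have h4 := congrArg Matrix.det h3
        rw [Matrix.det_permute, Equiv.Perm.sign_swap hne] at h4
        have h5 : ((M.updateRow t₁ (Pi.single t₁ 1)).updateRow t₂ u).det = u t₂ := by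
          rw [pg_det_one _ t₂]
          · rw [Matrix.updateRow_self]
          · intro s hs t
            by_cases hs1 : s = t₁
            · subst hs1
              rw [Matrix.updateRow_ne hne, Matrix.updateRow_self, Pi.single_apply]
              simp [eq_comm]
            · rw [Matrix.updateRow_ne hs, Matrix.updateRow_ne hs1, hM s hs1 hs]
        rw [h5] at h4
        simp at h4
        linarith
      rw [e1, e2]
      ring
    · intro k _ hk
      have h6 : ((M.updateRow t₁ u).updateRow t₂ (Pi.single k 1)).det = 0 := by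
        refine Matrix.det_zero_of_row_eq (i := k) (j := t₂) hk.2 ?_
        funext t
        rw [Matrix.updateRow_ne hk.2, Matrix.updateRow_ne hk.1, Matrix.updateRow_self,
          hM k hk.1 hk.2, Pi.single_apply]
        simp [eq_comm]
      rw [h6, mul_zero]
    · intro h0
      exact absurd (Finset.mem_univ _) h0
    · intro h0
      exact absurd (Finset.mem_univ _) h0
  have h7 := key (M t₁) (M t₂) M h
  rw [← h7]
  congr 1
  ext s t
  by_cases hs2 : s = t₂
  · subst hs2
    rw [Matrix.updateRow_self]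
  · rw [Matrix.updateRow_ne hs2]
    by_cases hs1 : s = t₁
    · subst hs1
      rw [Matrix.updateRow_self]
    · rw [Matrix.updateRow_ne hs1]

/-- Upper bound for the minors of a matrix with one large row and one special column. -/
theorem pg_upper {ι : Type} [Fintype ι] {r : ℕ} (A : Matrix ι (Fin r) ℝ) (n₀ : ι) (tq : Fin r)
    (R h g : ℝ) (hR : 0 ≤ R) (hh : 0 ≤ h) (hg : 0 ≤ g)
    (h1 : ∀ a, a ≠ n₀ → ∀ t, t ≠ tq → |A a t| ≤ 1) (h2 : ∀ a, a ≠ n₀ → |A a tq| ≤ R)
    (h3 : ∀ t, t ≠ tq → |A n₀ t| ≤ g) (h4 : |A n₀ tq| ≤ h) :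
    mm A ≤ (r.factorial : ℝ) * (R + h + R * g) := by
  classical
  have : Nonempty ι := ⟨n₀⟩
  obtain ⟨e, he⟩ := exists_mm A
  rw [← he]
  have hpos : 0 ≤ R + h + R * g := by positivity
  by_cases hdup : ∃ s s', s ≠ s' ∧ e s = n₀ ∧ e s' = n₀
  · obtain ⟨s, s', hss, hs, hs'⟩ := hdup
    rw [Matrix.det_zero_of_row_eq hss (by
      funext t
      simp [hs, hs']), abs_zero]
    positivity
  · push Not at hdup
    rw [Matrix.det_apply]
    refine (Finset.abs_sum_le_sum_abs _ _).trans ?_
    have hterm : ∀ σ ∈ (Finset.univ : Finset (Equiv.Perm (Fin r))),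
        |Equiv.Perm.sign σ • ∏ i, (A.submatrix e id) (σ i) i| ≤ R + h + R * g := by
      intro σ _
      have h5 : |Equiv.Perm.sign σ • ∏ i, (A.submatrix e id) (σ i) i| =
          ∏ i, |A (e (σ i)) i| := by
        rw [← Finset.abs_prod]
        rcases Int.units_eq_one_or (Equiv.Perm.sign σ) with h | h
        · rw [h, one_smul]; rfl
        · rw [h, Units.neg_smul, one_smul, abs_neg]; rfl
      rw [h5, ← Finset.mul_prod_erase Finset.univ _ (Finset.mem_univ tq)]
      by_cases hq : e (σ tq) = n₀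
      · have h6 : ∏ i ∈ Finset.univ.erase tq, |A (e (σ i)) i| ≤ 1 := by
          refine Finset.prod_le_one (fun i _ => abs_nonneg _) fun i hi => ?_
          have hi' := (Finset.mem_erase.mp hi).1
          refine h1 _ ?_ i hi'
          intro h7
          exact hdup (σ i) (σ tq) (fun h8 => hi' (σ.injective h8)) h7 hq
        calc |A (e (σ tq)) tq| * ∏ i ∈ Finset.univ.erase tq, |A (e (σ i)) i|
            ≤ h * 1 := by
              refine mul_le_mul ?_ h6 (Finset.prod_nonneg fun i _ => abs_nonneg _) hh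
              rw [hq]
              exact h4
          _ ≤ R + h + R * g := by
              have : 0 ≤ R * g := by positivity
              linarith
      · by_cases hq2 : ∃ i, i ≠ tq ∧ e (σ i) = n₀
        · obtain ⟨i₀, hi₀, hi₀2⟩ := hq2
          rw [← Finset.mul_prod_erase (Finset.univ.erase tq) _
            (Finset.mem_erase.mpr ⟨hi₀, Finset.mem_univ i₀⟩)]
          have h6 : ∏ i ∈ (Finset.univ.erase tq).erase i₀, |A (e (σ i)) i| ≤ 1 := by
            refine Finset.prod_le_one (fun i _ => abs_nonneg _) fun i hi => ?_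
            have hi1 := (Finset.mem_erase.mp hi).1
            have hi2 := (Finset.mem_erase.mp (Finset.mem_erase.mp hi).2).1
            refine h1 _ ?_ i hi2
            intro h7
            exact hdup (σ i) (σ i₀) (fun h8 => hi1 (σ.injective h8)) h7 hi₀2
          calc |A (e (σ tq)) tq| * (|A (e (σ i₀)) i₀| *
                ∏ i ∈ (Finset.univ.erase tq).erase i₀, |A (e (σ i)) i|)
              ≤ R * (g * 1) := by
                refine mul_le_mul (h2 _ hq) (mul_le_mul ?_ h6
                  (Finset.prod_nonneg fun i _ => abs_nonneg _) hg)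
                  (mul_nonneg (abs_nonneg _) (Finset.prod_nonneg fun i _ => abs_nonneg _)) hR
                rw [hi₀2]
                exact h3 i₀ hi₀
            _ ≤ R + h + R * g := by
                rw [mul_one]
                linarith
        · push Not at hq2
          have h6 : ∏ i ∈ Finset.univ.erase tq, |A (e (σ i)) i| ≤ 1 := by
            refine Finset.prod_le_one (fun i _ => abs_nonneg _) fun i hi => ?_
            have hi' := (Finset.mem_erase.mp hi).1
            exact h1 _ (hq2 i hi') i hi'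
          calc |A (e (σ tq)) tq| * ∏ i ∈ Finset.univ.erase tq, |A (e (σ i)) i|
              ≤ R * 1 :=
                mul_le_mul (h2 _ hq) h6 (Finset.prod_nonneg fun i _ => abs_nonneg _) hR
            _ ≤ R + h + R * g := by
                have : 0 ≤ R * g := by positivity
                linarith
    refine (Finset.sum_le_sum hterm).trans (le_of_eq ?_)
    rw [Finset.sum_const, Finset.card_univ, Fintype.card_perm, Fintype.card_fin, nsmul_eq_mul]

end Pool.Agent.Lib.MP_a37012_nt
end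

section

/-!
# Hypersurfaces: formulas and bounds for the minors of the primal matrix
-/

set_option autoImplicit false

open MeasureTheory MvPolynomial

namespace Pool.Agent.Lib.MP_a37012_nt

section mulVec

variable {d : ℕ} (F : (Fin d → ℝ) → ℝ) (N : ℝ) (x : Fin d → ℝ) (w : Idx d 1 → ℝ)

theorem pm_none : (PM F N x).mulVec w none =
    N * (w none - ∑ a, pd a F x * w (some (Sum.inl a))) +
      N * ((∑ a, pd a F x * x a) - F x) * w (some (Sum.inr 0)) := by
  rw [Matrix.mulVec, dotProduct, Fintype.sum_option, Fintype.sum_sum_type]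
  simp only [PM, Finset.univ_unique, Finset.sum_singleton, Fin.default_eq_zero]
  have h1 : ∑ a, -(N * pd a F x) * w (some (Sum.inl a)) =
      -(N * ∑ a, pd a F x * w (some (Sum.inl a))) := by
    rw [Finset.mul_sum, ← Finset.sum_neg_distrib]
    exact Finset.sum_congr rfl fun a _ => by ring
  rw [h1]
  ring

theorem pm_inl (i : Fin d) : (PM F N x).mulVec w (some (Sum.inl i)) =
    w (some (Sum.inl i)) - x i * w (some (Sum.inr 0)) := by
  rw [Matrix.mulVec, dotProduct, Fintype.sum_option, Fintype.sum_sum_type]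
  simp only [PM, Finset.univ_unique, Finset.sum_singleton, Fin.default_eq_zero, zero_mul, zero_add]
  rw [Finset.sum_eq_single i]
  · simp
    ring
  · intro b _ hb
    rw [if_neg (Ne.symm hb), zero_mul]
  · simp

theorem pm_inr : (PM F N x).mulVec w (some (Sum.inr 0)) = 1 / N * w (some (Sum.inr 0)) := by
  rw [Matrix.mulVec, dotProduct, Fintype.sum_option, Fintype.sum_sum_type]
  simp only [PM, Finset.univ_unique, Finset.sum_singleton, Fin.default_eq_zero, zero_mul, zero_add,
    Finset.sum_const_zero]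

theorem pm_none_one (h : w (some (Sum.inr 0)) = 1) : (PM F N x).mulVec w none =
    N * tanG F (w none) (fun a => w (some (Sum.inl a))) x := by
  rw [pm_none, h]
  unfold tanG
  have h1 : ∑ i, pd i F x * (w (some (Sum.inl i)) - x i) =
      ∑ a, pd a F x * w (some (Sum.inl a)) - ∑ a, pd a F x * x a := by
    rw [← Finset.sum_sub_distrib]
    exact Finset.sum_congr rfl fun a _ => by ring
  rw [h1]
  ring

theorem pm_none_zero (h : w (some (Sum.inr 0)) = 0) : (PM F N x).mulVec w none =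
    N * (w none - ∑ a, pd a F x * w (some (Sum.inl a))) := by
  rw [pm_none, h]
  ring

end mulVec

/-- The normal form of the columns. -/
structure PgNorm {d r : ℕ} (e : Fin r → Idx d 1) (B : Matrix (Idx d 1) (Fin r) ℝ) : Prop where
  id : ∀ s t, B (e s) t = if s = t then 1 else 0
  zero : ∀ t ρ, cls (e t) < cls ρ → B ρ t = 0
  le : ∀ t ρ, cls (e t) = cls ρ → |B ρ t| ≤ 1

/-- The normal form with a denominator pivot and no height pivot. -/
structure PgQ {d r : ℕ} (e : Fin r → Idx d 1) (B : Matrix (Idx d 1) (Fin r) ℝ) (tq : Fin r)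
    (it : Fin r → Fin d) : Prop extends PgNorm e B where
  q : e tq = some (Sum.inr 0)
  i : ∀ t, t ≠ tq → e t = some (Sum.inl (it t))

section Q

variable {d r : ℕ} {e : Fin r → Idx d 1} {B : Matrix (Idx d 1) (Fin r) ℝ} {tq : Fin r}
  {it : Fin r → Fin d}

/-- The coefficients of the point over `x`. -/
def pgXi {d r : ℕ} (tq : Fin r) (it : Fin r → Fin d) (x : Fin d → ℝ) : Fin r → ℝ :=
  fun s => if s = tq then 1 else x (it s)

/-- The position of the point with coefficients `ξ`. -/
noncomputable def pgPos {d r : ℕ} (B : Matrix (Idx d 1) (Fin r) ℝ) (ξ : Fin r → ℝ) : Fin d → ℝ :=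
  fun a => B.mulVec ξ (some (Sum.inl a))

/-- The height function of the point with coefficients `ξ`. -/
noncomputable def pgT {d r : ℕ} (F : (Fin d → ℝ) → ℝ) (B : Matrix (Idx d 1) (Fin r) ℝ)
    (ξ : Fin r → ℝ) (x : Fin d → ℝ) : ℝ :=
  tanG F (B.mulVec ξ none) (pgPos B ξ) x

/-- The slope of column `t`. -/
noncomputable def pgG {d r : ℕ} (F : (Fin d → ℝ) → ℝ) (B : Matrix (Idx d 1) (Fin r) ℝ)
    (t : Fin r) (x : Fin d → ℝ) : ℝ :=
  B none t - ∑ a, pd a F x * B (some (Sum.inl a)) t

/-- The horizontal offset. -/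
noncomputable def pgY {d r : ℕ} (B : Matrix (Idx d 1) (Fin r) ℝ) (tq : Fin r)
    (it : Fin r → Fin d) (x : Fin d → ℝ) (j : Fin d) : ℝ :=
  pgPos B (pgXi tq it x) j - x j

/-- The transformed matrix. -/
noncomputable def pgA {d r : ℕ} (F : (Fin d → ℝ) → ℝ) (N : ℝ) (B : Matrix (Idx d 1) (Fin r) ℝ)
    (tq : Fin r) (it : Fin r → Fin d) (x : Fin d → ℝ) : Matrix (Idx d 1) (Fin r) ℝ :=
  PM F N x * B * Matrix.updateCol 1 tq (pgXi tq it x)

theorem pgA_mm (F : (Fin d → ℝ) → ℝ) (N : ℝ) (x : Fin d → ℝ) :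
    mm (pgA F N B tq it x) = mm (PM F N x * B) := by
  unfold pgA
  rw [mm_mul_right]
  have : (Matrix.updateCol (1 : Matrix (Fin r) (Fin r) ℝ) tq (pgXi tq it x)).det = 1 := by
    rw [← Matrix.cramer_apply, Matrix.cramer_one]
    simp [pgXi]
  rw [this, abs_one, one_mul]

theorem pgA_ne (F : (Fin d → ℝ) → ℝ) (N : ℝ) (x : Fin d → ℝ) (a : Idx d 1) (t : Fin r)
    (ht : t ≠ tq) : pgA F N B tq it x a t = (PM F N x).mulVec (fun b => B b t) a := by
  unfold pgA
  rw [Matrix.mul_apply]
  rw [Finset.sum_eq_single t]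
  · rw [Matrix.updateCol_ne ht, Matrix.one_apply_eq, mul_one]
    rfl
  · intro s _ hs
    rw [Matrix.updateCol_ne ht, Matrix.one_apply_ne hs, mul_zero]
  · simp

theorem pgA_self (F : (Fin d → ℝ) → ℝ) (N : ℝ) (x : Fin d → ℝ) (a : Idx d 1) :
    pgA F N B tq it x a tq = (PM F N x).mulVec (B.mulVec (pgXi tq it x)) a := by
  unfold pgA
  rw [Matrix.mulVec_mulVec, Matrix.mul_apply]
  simp only [Matrix.updateCol_self]
  rfl

theorem PgQ.inr_zero (h : PgQ e B tq it) (t : Fin r) (ht : t ≠ tq) :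
    B (some (Sum.inr 0)) t = 0 := by
  have := h.id tq t
  rw [h.q, if_neg (Ne.symm ht)] at this
  exact this

theorem PgQ.inr_one (h : PgQ e B tq it) (ξ : Fin r → ℝ) :
    B.mulVec ξ (some (Sum.inr 0)) = ξ tq := by
  rw [Matrix.mulVec, dotProduct, Finset.sum_eq_single tq]
  · have := h.id tq tq
    rw [h.q, if_pos rfl] at this
    rw [this, one_mul]
  · intro t _ ht
    rw [h.inr_zero t ht, zero_mul]
  · simp

theorem PgQ.inl_le (h : PgQ e B tq it) (t : Fin r) (ht : t ≠ tq) (j : Fin d) :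
    |B (some (Sum.inl j)) t| ≤ 1 := by
  apply h.le
  rw [h.i t ht]
  rfl

theorem PgQ.y_zero (h : PgQ e B tq it) (x : Fin d → ℝ) (s : Fin r) (hs : s ≠ tq) :
    pgY B tq it x (it s) = 0 := by
  unfold pgY pgPos
  rw [← h.i s hs, Matrix.mulVec, dotProduct]
  simp only [h.id s]
  rw [Finset.sum_eq_single s]
  · simp [pgXi, hs]
  · intro t _ ht
    rw [if_neg (Ne.symm ht), zero_mul]
  · simp

theorem PgQ.none_ne (h : PgQ e B tq it) (F : (Fin d → ℝ) → ℝ) (N : ℝ) (x : Fin d → ℝ)
    (t : Fin r) (ht : t ≠ tq) : pgA F N B tq it x none t = N * pgG F B t x := by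
  rw [pgA_ne F N x none t ht, pm_none_zero _ _ _ _ (h.inr_zero t ht)]
  rfl

theorem PgQ.none_self (h : PgQ e B tq it) (F : (Fin d → ℝ) → ℝ) (N : ℝ) (x : Fin d → ℝ) :
    pgA F N B tq it x none tq = N * pgT F B (pgXi tq it x) x := by
  rw [pgA_self, pm_none_one _ _ _ _ (by rw [h.inr_one]; simp [pgXi])]
  rfl

theorem PgQ.inl_ne (h : PgQ e B tq it) (F : (Fin d → ℝ) → ℝ) (N : ℝ) (x : Fin d → ℝ)
    (t : Fin r) (ht : t ≠ tq) (j : Fin d) :
    pgA F N B tq it x (some (Sum.inl j)) t = B (some (Sum.inl j)) t := by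
  rw [pgA_ne F N x _ t ht, pm_inl, h.inr_zero t ht, mul_zero, sub_zero]

theorem PgQ.inl_self (h : PgQ e B tq it) (F : (Fin d → ℝ) → ℝ) (N : ℝ) (x : Fin d → ℝ)
    (j : Fin d) : pgA F N B tq it x (some (Sum.inl j)) tq = pgY B tq it x j := by
  rw [pgA_self, pm_inl, h.inr_one]
  simp [pgXi, pgY, pgPos]

theorem PgQ.inr_ne (h : PgQ e B tq it) (F : (Fin d → ℝ) → ℝ) (N : ℝ) (x : Fin d → ℝ)
    (t : Fin r) (ht : t ≠ tq) : pgA F N B tq it x (some (Sum.inr 0)) t = 0 := by
  rw [pgA_ne F N x _ t ht, pm_inr, h.inr_zero t ht, mul_zero]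

theorem PgQ.inr_self (h : PgQ e B tq it) (F : (Fin d → ℝ) → ℝ) (N : ℝ) (x : Fin d → ℝ) :
    pgA F N B tq it x (some (Sum.inr 0)) tq = 1 / N := by
  rw [pgA_self, pm_inr, h.inr_one]
  simp [pgXi]

/-- The pivot rows are rows of the identity matrix. -/
theorem PgQ.row (h : PgQ e B tq it) (F : (Fin d → ℝ) → ℝ) (N : ℝ) (x : Fin d → ℝ)
    (s : Fin r) (hs : s ≠ tq) (t : Fin r) :
    pgA F N B tq it x (e s) t = if s = t then 1 else 0 := by
  by_cases ht : t = tq
  · subst ht
    rw [if_neg hs, h.i s hs, h.inl_self]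
    exact h.y_zero x s hs
  · rw [h.i s hs, h.inl_ne F N x t ht, ← h.i s hs]
    exact h.id s t

/-- The minor with the pivot rows and one more row. -/
theorem PgQ.minor_one (h : PgQ e B tq it) (F : (Fin d → ℝ) → ℝ) (N : ℝ) (x : Fin d → ℝ)
    (a : Idx d 1) : |pgA F N B tq it x a tq| ≤ mm (PM F N x * B) := by
  rw [← pgA_mm (tq := tq) (it := it)]
  have h1 := le_mm (pgA F N B tq it x) (Function.update e tq a)
  rw [pg_det_one _ tq] at h1
  · simpa using h1
  · intro s hs t
    rw [Matrix.submatrix_apply, Function.update_of_ne hs]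
    exact h.row F N x s hs t

/-- The minors with two special rows. -/
theorem PgQ.minor_two (h : PgQ e B tq it) (F : (Fin d → ℝ) → ℝ) (N : ℝ) (x : Fin d → ℝ)
    (t₁ : Fin r) (ht₁ : t₁ ≠ tq) (a a' : Idx d 1) :
    |pgA F N B tq it x a t₁ * pgA F N B tq it x a' tq -
      pgA F N B tq it x a tq * pgA F N B tq it x a' t₁| ≤ mm (PM F N x * B) := by
  rw [← pgA_mm (tq := tq) (it := it)]
  have h1 := le_mm (pgA F N B tq it x) (Function.update (Function.update e t₁ a) tq a')
  rw [pg_det_two _ t₁ tq ht₁] at h1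
  · simpa [Function.update_of_ne ht₁] using h1
  · intro s hs1 hs t
    rw [Matrix.submatrix_apply, Function.update_of_ne hs, Function.update_of_ne hs1]
    exact h.row F N x s hs t

variable (N : ℝ) (hN : 0 < N) (F : (Fin d → ℝ) → ℝ) (x : Fin d → ℝ)

include hN in
theorem PgQ.lo_N (h : PgQ e B tq it) : 1 / N ≤ mm (PM F N x * B) := by
  have h1 := h.minor_one F N x (some (Sum.inr 0))
  rw [h.inr_self, abs_of_pos (by positivity)] at h1
  exact h1

theorem PgQ.lo_y (h : PgQ e B tq it) (j : Fin d) : |pgY B tq it x j| ≤ mm (PM F N x * B) := by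
  have h1 := h.minor_one F N x (some (Sum.inl j))
  rw [h.inl_self] at h1
  exact h1

include hN in
theorem PgQ.lo_h (h : PgQ e B tq it) : N * |pgT F B (pgXi tq it x) x| ≤ mm (PM F N x * B) := by
  have h1 := h.minor_one F N x none
  rw [h.none_self, abs_mul, abs_of_pos hN] at h1
  exact h1

include hN in
theorem PgQ.lo_g (h : PgQ e B tq it) (t : Fin r) (ht : t ≠ tq) :
    |pgG F B t x| ≤ mm (PM F N x * B) := by
  have h1 := h.minor_two F N x t ht none (some (Sum.inr 0))
  rw [h.inr_self, h.inr_ne F N x t ht, h.none_ne F N x t ht, mul_zero, sub_zero] at h1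
  have h2 : N * pgG F B t x * (1 / N) = pgG F B t x := by field_simp
  rw [h2] at h1
  exact h1

include hN in
theorem PgQ.lo_gy (h : PgQ e B tq it) (t : Fin r) (ht : t ≠ tq) (j : Fin d) :
    N * |pgG F B t x| * |pgY B tq it x j| ≤ 2 * mm (PM F N x * B) := by
  have h1 := h.minor_two F N x t ht none (some (Sum.inl j))
  rw [h.inl_self, h.inl_ne F N x t ht, h.none_ne F N x t ht, h.none_self] at h1
  have h2 := h.lo_h N hN F x
  have h3 := h.inl_le t ht j
  have h4 : |N * pgG F B t x * pgY B tq it x j| = N * |pgG F B t x| * |pgY B tq it x j| := by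
    rw [abs_mul, abs_mul, abs_of_pos hN]
  have h5 : |N * pgT F B (pgXi tq it x) x * B (some (Sum.inl j)) t| ≤ mm (PM F N x * B) := by
    rw [abs_mul, abs_mul, abs_of_pos hN]
    calc N * |pgT F B (pgXi tq it x) x| * |B (some (Sum.inl j)) t|
        ≤ N * |pgT F B (pgXi tq it x) x| * 1 := by gcongr
      _ ≤ _ := by rw [mul_one]; exact h2
  have h6 := abs_sub_abs_le_abs_sub (N * pgG F B t x * pgY B tq it x j)
    (N * pgT F B (pgXi tq it x) x * B (some (Sum.inl j)) t)
  rw [h4] at h6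
  linarith

include hN in
theorem PgQ.up (h : PgQ e B tq it) (R g : ℝ) (hR1 : 1 / N ≤ R)
    (hR2 : ∀ j, |pgY B tq it x j| ≤ R) (hg0 : 0 ≤ g) (hg : ∀ t, t ≠ tq → |pgG F B t x| ≤ g) :
    mm (PM F N x * B) ≤
      (r.factorial : ℝ) * (R + N * |pgT F B (pgXi tq it x) x| + R * (N * g)) := by
  have hR : 0 ≤ R := le_trans (by positivity) hR1
  rw [← pgA_mm (tq := tq) (it := it)]
  refine pg_upper (pgA F N B tq it x) none tq R _ (N * g) hR (by positivity) (by positivity)
    ?_ ?_ ?_ ?_
  · intro a ha t ht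
    rcases a with _ | (j | j)
    · exact absurd rfl ha
    · rw [h.inl_ne F N x t ht]
      exact h.inl_le t ht j
    · rw [Subsingleton.elim j 0, h.inr_ne F N x t ht, abs_zero]
      exact zero_le_one
  · intro a ha
    rcases a with _ | (j | j)
    · exact absurd rfl ha
    · rw [h.inl_self]
      exact hR2 j
    · rw [Subsingleton.elim j 0, h.inr_self, abs_of_pos (by positivity)]
      exact hR1
  · intro t ht
    rw [h.none_ne F N x t ht, abs_mul, abs_of_pos hN]
    exact mul_le_mul_of_nonneg_left (hg t ht) hN.le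
  · rw [h.none_self, abs_mul, abs_of_pos hN]

end Q

end Pool.Agent.Lib.MP_a37012_nt
end

section

/-!
# Codimension at least two: comparison of functions and polynomials, typical points
-/

set_option autoImplicit false

open MeasureTheory MvPolynomial

namespace Pool.Agent.Lib.MP_a37012_nt

/-- The matrices of the functions and of the approximating polynomials differ by a bounded
unipotent factor. -/
theorem pt_cmp {d m : ℕ} (F : Fin m → (Fin d → ℝ) → ℝ) (P : Fin m → MvPolynomial (Fin d) ℝ)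
    (Q K T : ℝ) (x : Fin d → ℝ) (hT : 0 < T) (hQ : 0 ≤ Q) (hK : 0 ≤ K)
    (h0 : ∀ i, Q * T * |F i x - eval x (P i)| ≤ 1)
    (h1 : ∀ a i, K⁻¹ * T * |pd a (F i) x - eval x (pderiv a (P i))| ≤ 1) :
    ∃ X Y : Matrix (Idx d m) (Idx d m) ℝ, (∀ a b, |X a b| ≤ 1) ∧ (∀ a b, |Y a b| ≤ 1) ∧
      HF F Q K T x = X * evalM (HM P Q K T) x ∧ evalM (HM P Q K T) x = Y * HF F Q K T x := by
  classical
  set E : Matrix (Idx d m) (Idx d m) ℝ := Matrix.of fun a b =>
    match a, b with
    | none, some (Sum.inr j) => Q * T * (F j x - eval x (P j))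
    | some (Sum.inl i), some (Sum.inr j) => K⁻¹ * T * (pd i (F j) x - eval x (pderiv i (P j)))
    | _, _ => 0 with hE
  have hkey : ∀ (M : Matrix (Idx d m) (Idx d m) ℝ),
      (∀ j, M (some (Sum.inr j)) none = 0) →
      (∀ j a, M (some (Sum.inr j)) (some (Sum.inl a)) = 0) →
      (∀ j k, M (some (Sum.inr j)) (some (Sum.inr k)) = T⁻¹ * if j = k then 1 else 0) →
      ∀ a b, (E * M) a b = match a, b with
        | none, some (Sum.inr j) => Q * (F j x - eval x (P j))
        | some (Sum.inl i), some (Sum.inr j) => K⁻¹ * (pd i (F j) x - eval x (pderiv i (P j)))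
        | _, _ => 0 := by
    intro M hM1 hM2 hM3 a b
    rw [Matrix.mul_apply, Fintype.sum_option, Fintype.sum_sum_type]
    rcases a with _ | (i | i) <;> rcases b with _ | (a | a) <;>
      simp only [hE, Matrix.of_apply, hM1, hM2, hM3, zero_mul, mul_zero, Finset.sum_const_zero,
        add_zero, zero_add]
    · rw [Finset.sum_eq_single a]
      · simp only [if_true, mul_one]
        field_simp
      · intro c _ hc
        simp [hc]
      · simp
    · rw [Finset.sum_eq_single a]
      · simp only [if_true, mul_one]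
        field_simp
      · intro c _ hc
        simp [hc]
      · simp
  have hE1 : ∀ a b, |E a b| ≤ 1 := by
    intro a b
    rcases a with _ | (i | i) <;> rcases b with _ | (a | a) <;>
      simp only [hE, Matrix.of_apply, abs_zero, zero_le_one]
    · rw [abs_mul, abs_of_nonneg (by positivity : 0 ≤ Q * T)]
      exact h0 a
    · rw [abs_mul, abs_of_nonneg (by positivity : 0 ≤ K⁻¹ * T)]
      exact h1 i a
  have hE0 : ∀ a, E a a = 0 := by
    intro a
    rcases a with _ | (i | i) <;> simp [hE]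
  have hHF := hkey (HF F Q K T x) (by intro j; simp [HF, UF]) (by intro j a; simp [HF, UF])
    (by intro j k; simp [HF, UF, wt])
  have hHM := hkey (evalM (HM P Q K T) x) (by intro j; simp [evalM, HM, UM])
    (by intro j a; simp [evalM, HM, UM])
    (by intro j k; by_cases hjk : j = k <;> simp [evalM, HM, UM, wt, hjk])
  have hdiff : ∀ a b, HF F Q K T x a b - evalM (HM P Q K T) x a b = match a, b with
        | none, some (Sum.inr j) => Q * (F j x - eval x (P j))
        | some (Sum.inl i), some (Sum.inr j) => K⁻¹ * (pd i (F j) x - eval x (pderiv i (P j)))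
        | _, _ => 0 := by
    intro a b
    rcases a with _ | (i | i) <;> rcases b with _ | (a | a)
    · simp [HF, UF, evalM, HM, UM, wt]
    · simp [HF, UF, evalM, HM, UM, wt]
    · simp only [HF, UF, evalM, HM, UM, wt, Matrix.of_apply, Matrix.map_apply, map_mul, eval_C]
      ring
    · simp [HF, UF, evalM, HM, UM, wt]
    · by_cases hia : i = a <;> simp [HF, UF, evalM, HM, UM, wt, hia]
    · simp only [HF, UF, evalM, HM, UM, wt, Matrix.of_apply, Matrix.map_apply, map_mul, eval_C]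
      ring
    · simp [HF, UF, evalM, HM, UM, wt]
    · simp [HF, UF, evalM, HM, UM, wt]
    · by_cases hia : i = a <;> simp [HF, UF, evalM, HM, UM, wt, hia]
  refine ⟨1 + E, 1 - E, ?_, ?_, ?_, ?_⟩
  · intro a b
    by_cases hab : a = b
    · subst hab
      simp [hE0]
    · simpa [Matrix.one_apply, hab] using hE1 a b
  · intro a b
    by_cases hab : a = b
    · subst hab
      simp [hE0]
    · simpa [Matrix.one_apply, hab] using hE1 a b
  · ext a b
    rw [add_mul, one_mul, Matrix.add_apply, hHM a b, ← hdiff a b]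
    ring
  · ext a b
    rw [sub_mul, one_mul, Matrix.sub_apply, hHF a b, ← hdiff a b]
    ring

/-- The approximation property at a point and a level. -/
def PtApp {d m : ℕ} (F : Fin m → (Fin d → ℝ) → ℝ) (P : Fin m → MvPolynomial (Fin d) ℝ)
    (θ : ℝ) (J : ℕ) (x : Fin d → ℝ) : Prop :=
  (∀ i, θ ^ (2 * m * J) * θ ^ (2 * J) * |F i x - eval x (P i)| ≤ 1) ∧
  (∀ a i, θ ^ ((m - 1) * J) * θ ^ (2 * J) * |pd a (F i) x - eval x (pderiv a (P i))| ≤ 1)

theorem pt_cmp_level {d m : ℕ} (F : Fin m → (Fin d → ℝ) → ℝ)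
    (P : Fin m → MvPolynomial (Fin d) ℝ) (θ : ℝ) (hθ : 0 < θ) (J : ℕ) (x : Fin d → ℝ)
    (h : PtApp F P θ J x) :
    ∃ X Y : Matrix (Idx d m) (Idx d m) ℝ, (∀ a b, |X a b| ≤ 1) ∧ (∀ a b, |Y a b| ≤ 1) ∧
      HFj F θ J x = X * HPj P θ J x ∧ HPj P θ J x = Y * HFj F θ J x := by
  unfold HFj HPj
  refine pt_cmp F P _ _ _ x (by positivity) (by positivity) (by positivity) h.1 ?_
  intro a i
  rw [inv_inv]
  exact h.2 a i

/-- The comparison constant. -/
noncomputable def ptK (d m : ℕ) : ℝ := (Fintype.card (Idx d m) : ℝ) ^ Fintype.card (Idx d m)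

theorem pt_card_pos (d m : ℕ) : 1 ≤ (Fintype.card (Idx d m) : ℝ) := by
  have : 0 < Fintype.card (Idx d m) := Fintype.card_pos
  exact_mod_cast this

theorem ptK_one (d m : ℕ) : 1 ≤ ptK d m := one_le_pow₀ (pt_card_pos d m)

theorem pt_mm_mul {ι : Type} [Fintype ι] {r : ℕ} (hr : r ≤ Fintype.card ι) (X : Matrix ι ι ℝ)
    (A : Matrix ι (Fin r) ℝ) (c : ℝ) (hc1 : 1 ≤ c) (hc : ∀ a b, |X a b| ≤ c) :
    mm (X * A) ≤ (Fintype.card ι * c) ^ Fintype.card ι * mm A := by
  rcases Nat.eq_zero_or_pos (Fintype.card ι) with h0 | h0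
  · have hr0 : r = 0 := by omega
    subst hr0
    have := mm_mul_left X A c hc
    rw [h0]
    simpa using this
  · refine (mm_mul_left X A c hc).trans ?_
    have h1 : (1 : ℝ) ≤ Fintype.card ι := by exact_mod_cast h0
    have h2 : 1 ≤ (Fintype.card ι : ℝ) * c := one_le_mul_of_one_le_of_one_le h1 hc1
    exact mul_le_mul_of_nonneg_right (pow_le_pow_right₀ h2 hr) (mm_nonneg A)

theorem pt_basR_le {ι : Type} [Fintype ι] (W : Submodule ℚ (ι → ℚ)) :
    basR W ≤ Fintype.card ι := by
  rw [basR_eq]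
  refine (Submodule.finrank_le W).trans ?_
  rw [Module.finrank_fintype_fun_eq_card]

theorem pt_cov_mul {ι : Type} [Fintype ι] (X H : Matrix ι ι ℝ) (W : Submodule ℚ (ι → ℚ))
    (c : ℝ) (hc1 : 1 ≤ c) (hc : ∀ a b, |X a b| ≤ c) :
    cov (X * H) W ≤ (Fintype.card ι * c) ^ Fintype.card ι * cov H W := by
  unfold cov
  rw [Matrix.mul_assoc]
  exact pt_mm_mul (pt_basR_le W) X _ c hc1 hc

theorem pt_cov_cmp {d m : ℕ} (F : Fin m → (Fin d → ℝ) → ℝ)
    (P : Fin m → MvPolynomial (Fin d) ℝ) (θ : ℝ) (hθ : 0 < θ) (J : ℕ) (x : Fin d → ℝ)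
    (h : PtApp F P θ J x) (W : Submodule ℚ (Idx d m → ℚ)) :
    cov (HFj F θ J x) W ≤ ptK d m * cov (HPj P θ J x) W ∧
    cov (HPj P θ J x) W ≤ ptK d m * cov (HFj F θ J x) W := by
  obtain ⟨X, Y, hX, hY, h1, h2⟩ := pt_cmp_level F P θ hθ J x h
  constructor
  · have := pt_cov_mul X (HPj P θ J x) W 1 le_rfl hX
    rw [← h1, mul_one] at this
    exact this
  · have := pt_cov_mul Y (HFj F θ J x) W 1 le_rfl hY
    rw [← h2, mul_one] at this
    exact this

theorem pt_cov_nonneg {ι : Type} [Fintype ι] (H : Matrix ι ι ℝ) (W : Submodule ℚ (ι → ℚ)) :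
    0 ≤ cov H W := mm_nonneg _

/-- Passing from level `J` to level `J + b` for polynomials. -/
theorem pt_cov_level {d m : ℕ} (P : Fin m → MvPolynomial (Fin d) ℝ) (θ : ℝ) (hθ : 1 ≤ θ)
    (J b : ℕ) (x : Fin d → ℝ) (W : Submodule ℚ (Idx d m → ℚ)) :
    cov (HPj P θ J x) W ≤
      (Fintype.card (Idx d m) * θ ^ (2 * b)) ^ Fintype.card (Idx d m) *
        cov (HPj P θ (J + b) x) W := by
  classical
  have hθ0 : 0 < θ := by linarith
  set Dg : Idx d m → ℝ := fun a => match a with
    | none => (θ ^ (2 * m * b))⁻¹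
    | some (Sum.inl _) => (θ ^ ((m - 1) * b))⁻¹
    | some (Sum.inr _) => θ ^ (2 * b) with hDg
  have h1 : HPj P θ J x = Matrix.diagonal Dg * HPj P θ (J + b) x := by
    ext a c
    rw [Matrix.diagonal_mul]
    unfold HPj evalM HM
    simp only [Matrix.map_apply, Matrix.of_apply, map_mul, eval_C]
    rw [← mul_assoc]
    congr 1
    rcases a with _ | (i | i)
    · simp only [hDg, wt]
      rw [show 2 * m * (J + b) = 2 * m * b + 2 * m * J by ring, pow_add]
      field_simp
    · simp only [hDg, wt, inv_inv]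
      rw [show (m - 1) * (J + b) = (m - 1) * b + (m - 1) * J by ring, pow_add]
      field_simp
    · simp only [hDg, wt]
      rw [show 2 * (J + b) = 2 * b + 2 * J by ring, pow_add]
      field_simp
  have h2 : ∀ a c, |Matrix.diagonal Dg a c| ≤ θ ^ (2 * b) := by
    intro a c
    have hone : (1 : ℝ) ≤ θ ^ (2 * b) := one_le_pow₀ hθ
    by_cases hac : a = c
    · subst hac
      rw [Matrix.diagonal_apply_eq]
      rcases a with _ | (i | i)
      · simp only [hDg]
        rw [abs_of_pos (by positivity)]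
        exact (inv_le_one_of_one_le₀ (one_le_pow₀ hθ)).trans hone
      · simp only [hDg]
        rw [abs_of_pos (by positivity)]
        exact (inv_le_one_of_one_le₀ (one_le_pow₀ hθ)).trans hone
      · simp only [hDg]
        rw [abs_of_pos (by positivity)]
    · rw [Matrix.diagonal_apply_ne _ hac, abs_zero]
      linarith
  rw [h1]
  exact pt_cov_mul _ _ W _ (one_le_pow₀ hθ) h2

/-- The covolumes of the polynomial matrices are comparable with polynomials. -/
theorem pt_poly {d m l : ℕ} (hl : 1 ≤ l) (P : Fin m → MvPolynomial (Fin d) ℝ)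
    (hP : ∀ i, (P i).totalDegree ≤ l) (θ : ℝ) (J : ℕ) {r : ℕ} (hr : r ≤ Fintype.card (Idx d m))
    (B : Matrix (Idx d m) (Fin r) ℤ) (y : Fin d → ℝ) :
    ∃ p : MvPolynomial (Fin d) ℝ, p.totalDegree ≤ Fintype.card (Idx d m) * l ∧
      |eval y p| = mm (HPj P θ J y * toR B) ∧ ∀ x, |eval x p| ≤ mm (HPj P θ J x * toR B) := by
  obtain ⟨e, he⟩ := exists_mm (HPj P θ J y * toR B)
  obtain ⟨p, hp1, hp2⟩ := km_minor_poly l
    (HM P (θ ^ (2 * m * J)) ((θ ^ ((m - 1) * J))⁻¹) (θ ^ (2 * J)))
    (totalDegree_HM P _ _ _ l hl hP) B e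
  refine ⟨p, hp1.trans (Nat.mul_le_mul_right l hr), ?_, ?_⟩
  · rw [← hp2, ← he]
    rfl
  · intro x
    rw [← hp2]
    exact le_mm (HPj P θ J x * toR B) e

/-- Remez inequality in homogeneous form. -/
theorem pt_remez (d D : ℕ) (η : ℝ) (hη : 0 < η) : ∃ ε : ℝ, 0 < ε ∧ ε ≤ 1 ∧
    ∀ p : MvPolynomial (Fin d) ℝ, p.totalDegree ≤ D → ∀ (j : ℕ) (k : Fin d → ℤ),
      ∀ y ∈ cube j k, volume {x | x ∈ cube j k ∧ |eval x p| < ε * |eval y p|} ≤
        ENNReal.ofReal η * volume (cube j k) := by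
  obtain ⟨ε, hε, h⟩ := remez d D η hη
  refine ⟨min ε 1, lt_min hε one_pos, min_le_right _ _, ?_⟩
  intro p hp j k y hy
  rcases eq_or_ne (eval y p) 0 with h0 | h0
  · have : {x | x ∈ cube j k ∧ |eval x p| < min ε 1 * |eval y p|} = ∅ := by
      ext x
      simp only [Set.mem_ofPred_eq, Set.mem_empty_iff_false, iff_false, not_and, h0, abs_zero,
        mul_zero, not_lt]
      exact fun _ => abs_nonneg _
    rw [this, measure_empty]
    exact zero_le
  · have hS : 0 < |eval y p| := abs_pos.mpr h0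
    have h1 := h (C (|eval y p|)⁻¹ * p) ((totalDegree_mul _ _).trans (by
      rw [totalDegree_C, zero_add]; exact hp)) j k ⟨y, hy, by
        rw [map_mul, eval_C, abs_mul, abs_of_pos (inv_pos.mpr hS), inv_mul_cancel₀ hS.ne']⟩
    refine le_trans (measure_mono ?_) h1
    rintro x ⟨hx, hx2⟩
    refine ⟨hx, ?_⟩
    rw [map_mul, eval_C, abs_mul, abs_of_pos (inv_pos.mpr hS), inv_mul_lt_iff₀ hS]
    refine hx2.trans_le ?_
    rw [mul_comm]
    exact mul_le_mul_of_nonneg_left (min_le_left _ _) hS.le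

/-- Remez inequality for covolumes. -/
theorem pt_mm_remez (d m l : ℕ) (hl : 1 ≤ l) (η : ℝ) (hη : 0 < η) : ∃ ε : ℝ, 0 < ε ∧ ε ≤ 1 ∧
    ∀ P : Fin m → MvPolynomial (Fin d) ℝ, (∀ i, (P i).totalDegree ≤ l) → ∀ (θ : ℝ) (J : ℕ)
      (r : ℕ) (_ : r ≤ Fintype.card (Idx d m)) (B : Matrix (Idx d m) (Fin r) ℤ)
      (j : ℕ) (k : Fin d → ℤ), ∀ y ∈ cube j k,
      volume {x | x ∈ cube j k ∧ mm (HPj P θ J x * toR B) < ε * mm (HPj P θ J y * toR B)} ≤
        ENNReal.ofReal η * volume (cube j k) := by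
  obtain ⟨ε, hε, hε1, h⟩ := pt_remez d (Fintype.card (Idx d m) * l) η hη
  refine ⟨ε, hε, hε1, ?_⟩
  intro P hP θ J r hr B j k y hy
  obtain ⟨p, hp1, hp2, hp3⟩ := pt_poly hl P hP θ J hr B y
  refine le_trans (measure_mono ?_) (h p hp1 j k y hy)
  rintro x ⟨hx, hx2⟩
  rw [← hp2] at hx2
  exact ⟨hx, (hp3 x).trans_lt hx2⟩

/-- A point of a subcube where the covolume is not small. -/
theorem pt_child (d m l : ℕ) (hl : 1 ≤ l) : ∃ c : ℝ, 0 < c ∧ c ≤ 1 ∧
    ∀ P : Fin m → MvPolynomial (Fin d) ℝ, (∀ i, (P i).totalDegree ≤ l) → ∀ (θ : ℝ) (J : ℕ)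
      (W : Submodule ℚ (Idx d m → ℚ)) (b j : ℕ) (k k' : Fin d → ℤ),
      cube (j + b) k' ⊆ cube j k → ∀ y ∈ cube j k, ∃ x ∈ cube (j + b) k',
        c ^ b * cov (HPj P θ J y) W ≤ cov (HPj P θ J x) W := by
  obtain ⟨ε, hε, hε1, h⟩ := pt_mm_remez d m l hl (1 / 2 / 2 ^ d) (by positivity)
  refine ⟨ε, hε, hε1, ?_⟩
  intro P hP θ J W b
  induction b with
  | zero =>
    intro j k k' hsub y hy
    have hk : k' = k := by
      obtain ⟨x, hx⟩ := km_nonempty_cube (j + 0) k'
      rw [← km_mem_cube.mp hx, ← km_mem_cube.mp (hsub hx)]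
      rfl
    subst hk
    exact ⟨y, hy, by simp⟩
  | succ b ih =>
    intro j k k'' hsub y hy
    obtain ⟨x₀, hx₀⟩ := km_nonempty_cube (j + (b + 1)) k''
    set k' := kmIdx (j + b) x₀ with hk'
    have hs1 : cube (j + b) k' ⊆ cube j k := by
      intro z hz
      rw [km_mem_cube] at hz ⊢
      rw [← km_mem_cube.mp (hsub hx₀)]
      exact km_idx_mono (Nat.le_add_right j b) (hz.trans hk')
    have hs2 : cube (j + (b + 1)) k'' ⊆ cube (j + b) k' := by
      intro z hz
      rw [km_mem_cube] at hz hx₀ ⊢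
      rw [hk']
      exact km_idx_mono (by omega) (hz.trans hx₀.symm)
    obtain ⟨x', hx', hx'2⟩ := ih j k k' hs1 y hy
    have h1 := h P hP θ J (basR W) (pt_basR_le W) (basM W) (j + b) k' x' hx'
    by_contra hcon
    push Not at hcon
    have h2 : cube (j + (b + 1)) k'' ⊆ {x | x ∈ cube (j + b) k' ∧
        mm (HPj P θ J x * toR (basM W)) < ε * mm (HPj P θ J x' * toR (basM W))} := by
      intro z hz
      refine ⟨hs2 hz, ?_⟩
      have h3 := hcon z hz
      unfold cov at h3 hx'2
      calc mm (HPj P θ J z * toR (basM W))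
          < ε ^ (b + 1) * mm (HPj P θ J y * toR (basM W)) := h3
        _ = ε * (ε ^ b * mm (HPj P θ J y * toR (basM W))) := by ring
        _ ≤ ε * mm (HPj P θ J x' * toR (basM W)) := mul_le_mul_of_nonneg_left hx'2 hε.le
    have h4 := (measure_mono h2).trans h1
    rw [km_volume_parent (j + b) k' k''] at h4
    have h5 : ENNReal.ofReal (1 / 2 / 2 ^ d) * (2 ^ d * volume (cube (j + b + 1) k'')) =
        ENNReal.ofReal (1 / 2) * volume (cube (j + b + 1) k'') := by
      rw [← mul_assoc]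
      congr 1
      have : (2 : ENNReal) ^ d = ENNReal.ofReal (2 ^ d) := by
        rw [ENNReal.ofReal_pow (by norm_num)]
        norm_num
      rw [this, ← ENNReal.ofReal_mul (by positivity)]
      congr 1
      field_simp
    rw [h5] at h4
    have h6 : volume (cube (j + (b + 1)) k'') ≠ 0 := by
      rw [km_volume_cube]
      exact pow_ne_zero _ (by simp)
    have h7 : volume (cube (j + (b + 1)) k'') ≠ ⊤ := by
      rw [km_volume_cube]
      exact ENNReal.pow_ne_top ENNReal.ofReal_ne_top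
    have h8 : ENNReal.ofReal (1 / 2) * volume (cube (j + b + 1) k'') <
        1 * volume (cube (j + b + 1) k'') := by
      refine ENNReal.mul_lt_mul_left h6 h7 ?_
      rw [ENNReal.ofReal_lt_one]
      norm_num
    rw [one_mul] at h8
    exact absurd h4 (not_le.mpr h8)

end Pool.Agent.Lib.MP_a37012_nt
end

section

/-!
# Hypersurfaces: subspaces whose position part is not everything
-/

set_option autoImplicit false

open MeasureTheory MvPolynomial

namespace Pool.Agent.Lib.MP_a37012_nt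

variable {d r : ℕ} {e : Fin r → Idx d 1} {B : Matrix (Idx d 1) (Fin r) ℝ} {tq : Fin r}
  {it : Fin r → Fin d}

theorem pg_y_poly (B : Matrix (Idx d 1) (Fin r) ℝ) (tq : Fin r) (it : Fin r → Fin d)
    (j : Fin d) : ∃ p : MvPolynomial (Fin d) ℝ, p.totalDegree ≤ 1 ∧
      ∀ x, eval x p = pgY B tq it x j := by
  classical
  refine ⟨(∑ s, C (B (some (Sum.inl j)) s) * (if s = tq then 1 else X (it s))) - X j, ?_, ?_⟩
  · refine (totalDegree_sub _ _).trans (max_le ?_ (by rw [totalDegree_X]))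
    refine totalDegree_finsetSum_le fun s _ => ?_
    refine (totalDegree_mul _ _).trans ?_
    rw [totalDegree_C, zero_add]
    split_ifs
    · rw [totalDegree_one]; omega
    · rw [totalDegree_X]
  · intro x
    rw [map_sub, map_sum, eval_X]
    unfold pgY pgPos
    congr 1
    rw [Matrix.mulVec, dotProduct]
    refine Finset.sum_congr rfl fun s _ => ?_
    rw [map_mul, eval_C]
    unfold pgXi
    split_ifs <;> simp

theorem PgQ.y_lip (h : PgQ e B tq it) (x x' : Fin d → ℝ) (δ : ℝ) (hδ : ∀ i, |x i - x' i| ≤ δ)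
    (j : Fin d) : |pgY B tq it x j - pgY B tq it x' j| ≤ (r : ℝ) * δ := by
  classical
  have h1 : pgY B tq it x j - pgY B tq it x' j =
      (∑ s ∈ Finset.univ.erase tq, B (some (Sum.inl j)) s * (x (it s) - x' (it s))) -
        (x j - x' j) := by
    unfold pgY pgPos
    simp only [Matrix.mulVec, dotProduct]
    rw [← Finset.add_sum_erase Finset.univ _ (Finset.mem_univ tq),
      ← Finset.add_sum_erase Finset.univ _ (Finset.mem_univ tq)]
    have h2 : ∀ y : Fin d → ℝ, ∑ s ∈ Finset.univ.erase tq, B (some (Sum.inl j)) s *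
        pgXi tq it y s = ∑ s ∈ Finset.univ.erase tq, B (some (Sum.inl j)) s * y (it s) := by
      intro y
      refine Finset.sum_congr rfl fun s hs => ?_
      rw [pgXi, if_neg (Finset.mem_erase.mp hs).1]
    rw [h2, h2]
    simp only [mul_sub, Finset.sum_sub_distrib]
    have h3 : pgXi tq it x tq = 1 := by simp [pgXi]
    have h4 : pgXi tq it x' tq = 1 := by simp [pgXi]
    rw [h3, h4]
    ring
  have hr : 0 < r := Fin.pos tq
  have hcard : ((Finset.univ.erase tq).card : ℝ) = r - 1 := by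
    rw [Finset.card_erase_of_mem (Finset.mem_univ tq), Finset.card_univ, Fintype.card_fin,
      Nat.cast_sub (by omega)]
    simp
  rw [h1]
  refine (abs_sub _ _).trans ?_
  have h5 : |∑ s ∈ Finset.univ.erase tq, B (some (Sum.inl j)) s * (x (it s) - x' (it s))| ≤
      (r - 1) * δ := by
    refine (Finset.abs_sum_le_sum_abs _ _).trans ?_
    calc ∑ s ∈ Finset.univ.erase tq, |B (some (Sum.inl j)) s * (x (it s) - x' (it s))|
        ≤ ∑ _s ∈ Finset.univ.erase tq, δ := by
          refine Finset.sum_le_sum fun s hs => ?_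
          rw [abs_mul]
          calc |B (some (Sum.inl j)) s| * |x (it s) - x' (it s)|
              ≤ 1 * |x (it s) - x' (it s)| :=
                mul_le_mul_of_nonneg_right (h.inl_le s (Finset.mem_erase.mp hs).1 j)
                  (abs_nonneg _)
            _ ≤ δ := by rw [one_mul]; exact hδ _
      _ = (r - 1) * δ := by rw [Finset.sum_const, nsmul_eq_mul, hcard]
  have h6 := hδ j
  linarith

/-- A point of the cube where the offset is not small. -/
theorem PgQ.y_osc (h : PgQ e B tq it) (j₁ : Fin d) (hj₁ : ∀ s, s ≠ tq → it s ≠ j₁) (j : ℕ)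
    (k : Fin d → ℤ) : ∃ x ∈ cube j k, 1 / 2 ^ j / 4 ≤ |pgY B tq it x j₁| := by
  classical
  have _ := h
  set c : Fin d → ℝ := fun i => (k i : ℝ) / 2 ^ j with hc
  have h2 : (0 : ℝ) < 2 ^ j := by positivity
  have hs : (0 : ℝ) < 1 / 2 ^ j := by positivity
  have hc1 : c ∈ cube j k := by
    intro i
    refine ⟨le_rfl, ?_⟩
    simp only [hc]
    rw [add_div]
    linarith
  set c' : Fin d → ℝ := Function.update c j₁ (c j₁ + 1 / 2 ^ j / 2) with hc'
  have hc2 : c' ∈ cube j k := by
    intro i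
    by_cases hi : i = j₁
    · subst hi
      rw [hc', Function.update_self]
      simp only [hc]
      rw [add_div]
      constructor <;> linarith
    · rw [hc', Function.update_of_ne hi]
      exact hc1 i
  have h3 : pgY B tq it c j₁ - pgY B tq it c' j₁ = 1 / 2 ^ j / 2 := by
    have h4 : pgXi tq it c = pgXi tq it c' := by
      funext s
      unfold pgXi
      by_cases hs : s = tq
      · rw [if_pos hs, if_pos hs]
      · rw [if_neg hs, if_neg hs, hc', Function.update_of_ne (hj₁ s hs)]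
    unfold pgY
    rw [h4, hc', Function.update_self]
    ring
  by_cases h5 : 1 / 2 ^ j / 4 ≤ |pgY B tq it c j₁|
  · exact ⟨c, hc1, h5⟩
  · refine ⟨c', hc2, ?_⟩
    push Not at h5
    rw [abs_lt] at h5
    rw [le_abs]
    right
    linarith

theorem pg_T_sub (F : (Fin d → ℝ) → ℝ) (B : Matrix (Idx d 1) (Fin r) ℝ) (ξ ξ' : Fin r → ℝ)
    (x : Fin d → ℝ) : pgT F B ξ' x - pgT F B ξ x = ∑ s, (ξ' s - ξ s) * pgG F B s x := by
  unfold pgT tanG pgG pgPos
  simp only [Matrix.mulVec, dotProduct]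
  have h1 : ∀ ζ : Fin r → ℝ, ∑ i, pd i F x * (∑ s, B (some (Sum.inl i)) s * ζ s - x i) =
      (∑ s, ζ s * ∑ i, pd i F x * B (some (Sum.inl i)) s) - ∑ i, pd i F x * x i := by
    intro ζ
    simp only [mul_sub, Finset.sum_sub_distrib]
    congr 1
    simp only [Finset.mul_sum]
    rw [Finset.sum_comm]
    refine Finset.sum_congr rfl fun s _ => Finset.sum_congr rfl fun i _ => ?_
    ring
  rw [h1, h1]
  simp only [mul_sub, sub_mul, Finset.sum_sub_distrib]
  have h2 : ∀ ζ : Fin r → ℝ, ∑ s, B none s * ζ s = ∑ s, ζ s * B none s := fun ζ =>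
    Finset.sum_congr rfl fun s _ => mul_comm _ _
  rw [h2 ξ, h2 ξ']
  ring

/-- The size of the offset. -/
noncomputable def pgR {d r : ℕ} (N : ℝ) (B : Matrix (Idx d 1) (Fin r) ℝ) (tq : Fin r)
    (it : Fin r → Fin d) (x : Fin d → ℝ) : ℝ := max (1 / N) ‖pgY B tq it x‖

theorem pgR_cases (hd : 1 ≤ d) (N : ℝ) (B : Matrix (Idx d 1) (Fin r) ℝ) (tq : Fin r)
    (it : Fin r → Fin d) (x : Fin d → ℝ) :
    pgR N B tq it x = 1 / N ∨ ∃ j, pgR N B tq it x = |pgY B tq it x j| := by
  have : Nonempty (Fin d) := ⟨⟨0, hd⟩⟩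
  unfold pgR
  rcases max_choice (1 / N) ‖pgY B tq it x‖ with h | h
  · exact Or.inl h
  · right
    rw [h]
    obtain ⟨j, _, hj⟩ := Finset.exists_max_image (Finset.univ : Finset (Fin d))
      (fun j => |pgY B tq it x j|) Finset.univ_nonempty
    refine ⟨j, le_antisymm ?_ ?_⟩
    · rw [pi_norm_le_iff_of_nonneg (abs_nonneg _)]
      intro i
      exact hj i (Finset.mem_univ i)
    · exact norm_le_pi_norm (pgY B tq it x) j

theorem pgR_le (N : ℝ) (B : Matrix (Idx d 1) (Fin r) ℝ) (tq : Fin r)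
    (it : Fin r → Fin d) (x : Fin d → ℝ) :
    1 / N ≤ pgR N B tq it x ∧ ∀ j, |pgY B tq it x j| ≤ pgR N B tq it x :=
  ⟨le_max_left _ _, fun j => (norm_le_pi_norm (pgY B tq it x) j).trans (le_max_right _ _)⟩

theorem PgQ.lo_R (hd : 1 ≤ d) (N : ℝ) (hN : 0 < N) (F : (Fin d → ℝ) → ℝ) (x : Fin d → ℝ)
    (h : PgQ e B tq it) : pgR N B tq it x ≤ mm (PM F N x * B) := by
  rcases pgR_cases hd N B tq it x with h1 | ⟨j, h1⟩
  · rw [h1]
    exact h.lo_N N hN F x
  · rw [h1]
    exact h.lo_y N F x j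

theorem PgQ.lo_Rg (hd : 1 ≤ d) (N : ℝ) (hN : 0 < N) (F : (Fin d → ℝ) → ℝ) (x : Fin d → ℝ)
    (h : PgQ e B tq it) (t : Fin r) (ht : t ≠ tq) :
    N * pgR N B tq it x * |pgG F B t x| ≤ 2 * mm (PM F N x * B) := by
  have hm := mm_nonneg (PM F N x * B)
  rcases pgR_cases hd N B tq it x with h1 | ⟨j, h1⟩
  · rw [h1]
    have h2 := h.lo_g N hN F x t ht
    have h3 : N * (1 / N) * |pgG F B t x| = |pgG F B t x| := by field_simp
    rw [h3]
    linarith
  · rw [h1]
    have h2 := h.lo_gy N hN F x t ht j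
    calc N * |pgY B tq it x j| * |pgG F B t x| = N * |pgG F B t x| * |pgY B tq it x j| := by ring
      _ ≤ _ := h2

/-- The upper bound in terms of the three quantities. -/
theorem PgQ.up' (N : ℝ) (hN : 0 < N) (F : (Fin d → ℝ) → ℝ) (x : Fin d → ℝ)
    (h : PgQ e B tq it) (C : ℝ) (hC : (r.factorial : ℝ) ≤ C) :
    mm (PM F N x * B) ≤ C * (pgR N B tq it x + N * |pgT F B (pgXi tq it x) x| +
      pgR N B tq it x * (N * ∑ t ∈ Finset.univ.erase tq, |pgG F B t x|)) := by
  obtain ⟨h1, h2⟩ := pgR_le N B tq it x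
  have hR : 0 ≤ pgR N B tq it x := le_trans (by positivity) h1
  have hG : 0 ≤ ∑ t ∈ Finset.univ.erase tq, |pgG F B t x| :=
    Finset.sum_nonneg fun t _ => abs_nonneg _
  refine (h.up N hN F x _ (∑ t ∈ Finset.univ.erase tq, |pgG F B t x|) h1 h2 hG ?_).trans ?_
  · intro t ht
    exact Finset.single_le_sum (f := fun t => |pgG F B t x|) (fun t _ => abs_nonneg _)
      (Finset.mem_erase.mpr ⟨ht, Finset.mem_univ t⟩)
  · exact mul_le_mul_of_nonneg_right hC (by positivity)

end Pool.Agent.Lib.MP_a37012_nt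
end
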