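import Pool.Agent.Lib.MP_a37012_nt.Mg.G004
import Pool.Agent.Lib.MP_a37012_nt.Normal
import Pool.Agent.Lib.MP_a37012_nt.Mg.G003

section

/-!
# Hypersurfaces: goodness of the minors for subspaces with incomplete position part
-/

set_option autoImplicit false

open MeasureTheory MvPolynomial

namespace Pool.Agent.Lib.MP_a37012_nt

theorem pg_caseA (d : ℕ) (hd : 1 ≤ d) (V' : Set (Fin d → ℝ)) (F : (Fin d → ℝ) → ℝ) (κ : ℝ)
    (hgood : ∀ η : ℝ, 0 < η → ∃ ε : ℝ, 0 < ε ∧
      ∀ (p : ℝ) (v : Fin d → ℝ) (j : ℕ) (k : Fin d → ℤ), cube j k ⊆ V' →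
        (∀ x ∈ cube j k, ‖v - x‖ ≤ κ) → GoodOn (tanG F p v) ε η j k)
    (j₀ : ℕ) (k₀ : Fin d → ℤ) (hsub : cube j₀ k₀ ⊆ V') (ρ : ℝ) (hρ : 0 < ρ)
    (hκρ : 2 * (ρ + 1 / 2 ^ j₀) ≤ κ) (η : ℝ) (hη : 0 < η) :
    ∃ ε : ℝ, 0 < ε ∧ ε ≤ ρ ∧ ∀ (N : ℝ) (_ : 0 < N) (r : ℕ) (_ : r ≤ d + 2) (e : Fin r → Idx d 1)
      (B : Matrix (Idx d 1) (Fin r) ℝ) (tq : Fin r) (it : Fin r → Fin d) (_ : PgQ e B tq it)
      (j₁ : Fin d) (_ : ∀ s, s ≠ tq → it s ≠ j₁) (L : ℝ) (_ : 1 ≤ L)
      (j : ℕ) (k : Fin d → ℤ), cube j k ⊆ cube j₀ k₀ →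
      (∃ x ∈ cube j k, ρ ≤ L * mm (PM F N x * B)) →
      volume {x | x ∈ cube j k ∧ L * mm (PM F N x * B) < ε} ≤
        ENNReal.ofReal η * volume (cube j k) := by
  classical
  obtain ⟨ε₁, hε₁, hε₁1, hrem⟩ := pt_remez d 1 (η / 2) (by positivity)
  obtain ⟨ε₂', hε₂', hgd'⟩ := hgood (η / 2) (by positivity)
  -- constants
  set C : ℝ := ((d + 2).factorial : ℝ) with hC
  have hC1 : 1 ≤ C := by
    rw [hC]
    exact_mod_cast Nat.one_le_iff_ne_zero.mpr (Nat.factorial_ne_zero _)
  have hC0 : 0 < C := by linarith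
  set n : ℝ := (d : ℝ) + 2 with hn
  have hn0 : 0 < n := by positivity
  set ρ₂ : ℝ := ρ / (2 * C * (1 + 2 * n)) with hρ₂
  have hρ₂0 : 0 < ρ₂ := by positivity
  set εA : ℝ := ε₁ * (ρ / (2 * C)) with hεA
  set εB : ℝ := ε₂' * ρ₂ / (1 + 32 * n / ε₁) with hεB
  have hεA0 : 0 < εA := by positivity
  have hεB0 : 0 < εB := by positivity
  refine ⟨min (min εA εB) ρ, lt_min (lt_min hεA0 hεB0) hρ, min_le_right _ _, ?_⟩
  intro N hN r hr e B tq it h j₁ hj₁ L hL j k hjk hx
  set ε : ℝ := min (min εA εB) ρ with hε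
  have hεle : ε ≤ εA := (min_le_left _ _).trans (min_le_left _ _)
  have hεle2 : ε ≤ εB := (min_le_left _ _).trans (min_le_right _ _)
  have hL0 : 0 < L := by linarith
  obtain ⟨xs, hxs, hxsρ⟩ := hx
  have hr0 : 0 < r := Fin.pos tq
  have hrn : (r : ℝ) ≤ n := by
    rw [hn]
    exact_mod_cast hr
  have hfact : (r.factorial : ℝ) ≤ C := by
    rw [hC]
    exact_mod_cast Nat.factorial_le hr
  set s : ℝ := 1 / 2 ^ j with hs
  have hs0 : 0 < s := by positivity
  set R : (Fin d → ℝ) → ℝ := fun x => pgR N B tq it x with hR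
  have hRN : ∀ x, 1 / N ≤ R x := fun x => (pgR_le N B tq it x).1
  have hR0 : ∀ x, 0 < R x := fun x => lt_of_lt_of_le (by positivity) (hRN x)
  set G : (Fin d → ℝ) → ℝ := fun x => ∑ t ∈ Finset.univ.erase tq, |pgG F B t x| with hG
  have hG0 : ∀ x, 0 ≤ G x := fun x => Finset.sum_nonneg fun t _ => abs_nonneg _
  set H : (Fin d → ℝ) → ℝ := fun x => |pgT F B (pgXi tq it x) x| with hH
  have hmm0 : ∀ x, 0 ≤ mm (PM F N x * B) := fun x => mm_nonneg _
  have hloR : ∀ x, R x ≤ mm (PM F N x * B) := fun x => h.lo_R hd N hN F x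
  have hvol : ∀ (A A' : Set (Fin d → ℝ)), volume A ≤ ENNReal.ofReal (η / 2) * volume (cube j k) →
      volume A' ≤ ENNReal.ofReal (η / 2) * volume (cube j k) → ∀ A'' ⊆ A ∪ A',
      volume A'' ≤ ENNReal.ofReal η * volume (cube j k) := by
    intro A A' h1 h2 A'' h3
    refine (measure_mono h3).trans ((measure_union_le _ _).trans ((add_le_add h1 h2).trans ?_))
    rw [← add_mul, ← ENNReal.ofReal_add (by positivity) (by positivity), add_halves]
  -- goodness of the offset
  have hgoodR : ∀ x' ∈ cube j k,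
      volume {x | x ∈ cube j k ∧ R x < ε₁ * R x'} ≤
        ENNReal.ofReal (η / 2) * volume (cube j k) := by
    intro x' hx'
    rcases pgR_cases hd N B tq it x' with h1 | ⟨i, h1⟩
    · have : {x | x ∈ cube j k ∧ R x < ε₁ * R x'} = ∅ := by
        ext x
        simp only [Set.mem_ofPred_eq, Set.mem_empty_iff_false, iff_false, not_and, not_lt]
        intro _
        calc ε₁ * R x' ≤ 1 * R x' := mul_le_mul_of_nonneg_right hε₁1 (hR0 x').le
          _ = 1 / N := by rw [one_mul]; exact h1
          _ ≤ R x := hRN x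
      rw [this, measure_empty]
      exact zero_le
    · obtain ⟨p, hp1, hp2⟩ := pg_y_poly B tq it i
      refine le_trans (measure_mono ?_) (hrem p hp1 j k x' hx')
      rintro x ⟨hx, hx2⟩
      refine ⟨hx, ?_⟩
      rw [hp2, hp2, ← h1]
      exact ((pgR_le N B tq it x).2 i).trans_lt hx2
  have hup := h.up' N hN F xs C hfact
  change mm (PM F N xs * B) ≤ C * (R xs + N * H xs + R xs * (N * G xs)) at hup
  by_cases hα : ρ ≤ 2 * C * (L * R xs)
  · -- the offset is large at the point
    have hE := hgoodR xs hxs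
    refine hvol _ ∅ hE (by simp) _ ?_
    rintro x ⟨hx, hx2⟩
    left
    refine ⟨hx, ?_⟩
    have h1 : L * R x < L * (ε₁ * R xs) := by
      calc L * R x ≤ L * mm (PM F N x * B) := mul_le_mul_of_nonneg_left (hloR x) hL0.le
        _ < ε := hx2
        _ ≤ ε₁ * (ρ / (2 * C)) := hεle
        _ ≤ ε₁ * (L * R xs) := by
            refine mul_le_mul_of_nonneg_left ?_ hε₁.le
            rw [div_le_iff₀ (by positivity)]
            linarith
        _ = L * (ε₁ * R xs) := by ring
    exact lt_of_mul_lt_mul_left h1 hL0.le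
  · push Not at hα
    -- the size of the offset on the cube
    set Rq : ℝ := R xs + s with hRq
    have hRq0 : 0 < Rq := by have := hR0 xs; positivity
    have hRsmall : R xs ≤ ρ := by
      have h1 : R xs ≤ 2 * C * (L * R xs) := by
        have h2 : R xs ≤ L * R xs := le_mul_of_one_le_left (hR0 xs).le hL
        have h3 : L * R xs ≤ 2 * C * (L * R xs) :=
          le_mul_of_one_le_left (mul_nonneg hL0.le (hR0 xs).le) (by linarith)
        linarith
      linarith
    have hsj : s ≤ 1 / 2 ^ j₀ := by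
      -- the cube is contained in the bigger one
      have hvv := measure_mono (μ := volume) hjk
      rw [km_volume_cube, km_volume_cube, ← ENNReal.ofReal_pow (by positivity),
        ← ENNReal.ofReal_pow (by positivity), ENNReal.ofReal_le_ofReal_iff (by positivity)] at hvv
      exact le_of_pow_le_pow_left₀ (by omega) (by positivity) hvv
    have hRqκ : 2 * Rq ≤ κ := by
      rw [hRq]
      linarith
    have hx' : ∃ x' ∈ cube j k, Rq / 8 ≤ R x' := by
      by_cases h1 : s ≤ R xs
      · refine ⟨xs, hxs, ?_⟩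
        rw [hRq]
        have := hR0 xs
        linarith
      · push Not at h1
        obtain ⟨x', hx', hx'2⟩ := h.y_osc j₁ hj₁ j k
        refine ⟨x', hx', ?_⟩
        refine le_trans ?_ (hx'2.trans ((pgR_le N B tq it x').2 j₁))
        rw [hRq]
        change (R xs + s) / 8 ≤ s / 4
        linarith
    obtain ⟨x', hx', hx'2⟩ := hx'
    have hE₁ := hgoodR x' hx'
    -- the frame
    set ξ₀ : Fin r → ℝ := pgXi tq it xs with hξ₀
    set fr : Option (Fin r) → (Fin r → ℝ) := fun o => match o with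
      | none => ξ₀
      | some t => fun u => ξ₀ u + if u = t then Rq else 0 with hfr
    -- one of the frame functions is large at the point
    have hbig : ∃ o : Option (Fin r), o ≠ some tq ∧ ρ₂ ≤ L * (N * |pgT F B (fr o) xs|) := by
      by_contra hcon
      push Not at hcon
      have h1 : L * (N * H xs) < ρ₂ := hcon none (by simp)
      have h2 : ∀ t ∈ Finset.univ.erase tq, L * (N * (Rq * |pgG F B t xs|)) ≤ 2 * ρ₂ := by
        intro t ht
        have ht' := (Finset.mem_erase.mp ht).1
        have h3 := hcon (some t) (by simpa using ht')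
        have h4 := pg_T_sub F B ξ₀ (fr (some t)) xs
        have h5 : ∑ u, (fr (some t) u - ξ₀ u) * pgG F B u xs = Rq * pgG F B t xs := by
          rw [Finset.sum_eq_single t]
          · simp [hfr]
          · intro u _ hu
            simp [hfr, hu]
          · simp
        rw [h5] at h4
        have h6 : Rq * |pgG F B t xs| ≤ |pgT F B (fr (some t)) xs| + |pgT F B ξ₀ xs| := by
          have e0 : Rq * |pgG F B t xs| = |Rq * pgG F B t xs| := by
            rw [abs_mul, abs_of_pos hRq0]
          rw [e0, ← h4]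
          exact abs_sub _ _
        have h7 : L * (N * (Rq * |pgG F B t xs|)) ≤
            L * (N * |pgT F B (fr (some t)) xs|) + L * (N * H xs) := by
          calc L * (N * (Rq * |pgG F B t xs|)) ≤
              L * (N * (|pgT F B (fr (some t)) xs| + |pgT F B ξ₀ xs|)) := by gcongr
            _ = _ := by simp only [hH]; ring
        linarith
      have h3 : L * (N * (Rq * G xs)) ≤ n * (2 * ρ₂) := by
        have h4 : L * (N * (Rq * G xs)) =
            ∑ t ∈ Finset.univ.erase tq, L * (N * (Rq * |pgG F B t xs|)) := by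
          simp only [hG, Finset.mul_sum]
        rw [h4]
        refine (Finset.sum_le_sum h2).trans ?_
        rw [Finset.sum_const, nsmul_eq_mul]
        refine mul_le_mul_of_nonneg_right ?_ (by positivity)
        refine le_trans ?_ hrn
        have : (Finset.univ.erase tq).card ≤ r := by
          rw [Finset.card_erase_of_mem (Finset.mem_univ tq), Finset.card_univ, Fintype.card_fin]
          omega
        exact_mod_cast this
      have h5 : L * (R xs * (N * G xs)) ≤ L * (N * (Rq * G xs)) := by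
        have h6 : R xs ≤ Rq := by rw [hRq]; linarith
        calc L * (R xs * (N * G xs)) = L * (N * (R xs * G xs)) := by ring
          _ ≤ L * (N * (Rq * G xs)) := by
              have := hG0 xs
              gcongr
      have h7 : L * mm (PM F N xs * B) ≤
          C * (L * R xs + L * (N * H xs) + L * (R xs * (N * G xs))) := by
        calc L * mm (PM F N xs * B) ≤ L * (C * (R xs + N * H xs + R xs * (N * G xs))) := by gcongr
          _ = _ := by ring
      have h8 : C * (L * (N * H xs) + L * (R xs * (N * G xs))) < C * ((1 + 2 * n) * ρ₂) := by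
        refine mul_lt_mul_of_pos_left ?_ hC0
        linarith
      have h9 : C * ((1 + 2 * n) * ρ₂) = ρ / 2 := by
        rw [hρ₂]
        field_simp
      linarith
    obtain ⟨o, ho, hoρ⟩ := hbig
    -- goodness of the frame function
    have hpos : ∀ x ∈ cube j k, ‖pgPos B (fr o) - x‖ ≤ κ := by
      intro x hx
      have hdist : ∀ i, |xs i - x i| ≤ s := by
        intro i
        have h1 := cube_dist hxs hx
        have h2 := norm_le_pi_norm (xs - x) i
        rw [Real.norm_eq_abs, Pi.sub_apply] at h2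
        exact h2.trans h1
      have h1 : ∀ i, |pgPos B ξ₀ i - x i| ≤ Rq := by
        intro i
        have h2 : pgPos B ξ₀ i - x i = pgY B tq it xs i + (xs i - x i) := by
          unfold pgY
          rw [hξ₀]
          ring
        rw [h2]
        exact (abs_add_le _ _).trans (add_le_add ((pgR_le N B tq it xs).2 i) (hdist i))
      rw [pi_norm_le_iff_of_nonneg (by linarith)]
      intro i
      rw [Real.norm_eq_abs, Pi.sub_apply]
      rcases o with _ | t
      · exact (h1 i).trans (by linarith)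
      · have ht : t ≠ tq := by simpa using ho
        have h3 : pgPos B (fr (some t)) i = pgPos B ξ₀ i + B (some (Sum.inl i)) t * Rq := by
          unfold pgPos
          simp only [Matrix.mulVec, dotProduct, hfr, mul_add, Finset.sum_add_distrib]
          congr 1
          rw [Finset.sum_eq_single t]
          · simp
          · intro u _ hu
            simp [hu]
          · simp
        have h4 : |B (some (Sum.inl i)) t * Rq| ≤ Rq := by
          rw [abs_mul, abs_of_pos hRq0]
          exact mul_le_of_le_one_left hRq0.le (h.inl_le t ht i)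
        have h5 : pgPos B (fr (some t)) i - x i =
            (pgPos B ξ₀ i - x i) + B (some (Sum.inl i)) t * Rq := by rw [h3]; ring
        rw [h5]
        refine (abs_add_le _ _).trans ?_
        have := h1 i
        linarith
    have hTpos : 0 < |pgT F B (fr o) xs| := by
      by_contra hcon
      push Not at hcon
      have h1 : |pgT F B (fr o) xs| = 0 := le_antisymm hcon (abs_nonneg _)
      rw [h1, mul_zero, mul_zero] at hoρ
      linarith
    have hE₂ := hgd' (B.mulVec (fr o) none) (pgPos B (fr o)) j k (hjk.trans hsub) hpos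
      |pgT F B (fr o) xs| hTpos ⟨xs, hxs, le_rfl⟩
    refine hvol _ _ hE₁ hE₂ _ ?_
    rintro x ⟨hx, hx2⟩
    by_contra hcon
    rw [Set.mem_union, not_or] at hcon
    obtain ⟨hc1, hc2⟩ := hcon
    have hRx : ε₁ * (Rq / 8) ≤ R x := by
      by_contra hlt
      push Not at hlt
      apply hc1
      refine ⟨hx, hlt.trans_le ?_⟩
      exact mul_le_mul_of_nonneg_left hx'2 hε₁.le
    have hTx : ε₂' * |pgT F B (fr o) xs| ≤ |pgT F B (fr o) x| := by
      by_contra hlt
      push Not at hlt
      exact hc2 ⟨hx, hlt⟩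
    -- bound for the frame function in terms of the minors
    have hdist : ∀ i, |xs i - x i| ≤ s := by
      intro i
      have h1 := cube_dist hxs hx
      have h2 := norm_le_pi_norm (xs - x) i
      rw [Real.norm_eq_abs, Pi.sub_apply] at h2
      exact h2.trans h1
    have hdiff : ∀ u, u ≠ tq → |fr o u - pgXi tq it x u| ≤ 2 * Rq := by
      intro u hu
      have h1 : |ξ₀ u - pgXi tq it x u| ≤ s := by
        rw [hξ₀, pgXi, pgXi, if_neg hu, if_neg hu]
        exact hdist _
      have h2 : s ≤ Rq := by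
        rw [hRq]
        have := hR0 xs
        linarith
      rcases o with _ | t
      · exact h1.trans (by linarith)
      · have h3 : fr (some t) u - pgXi tq it x u =
            (ξ₀ u - pgXi tq it x u) + if u = t then Rq else 0 := by
          simp only [hfr]
          ring
        rw [h3]
        refine (abs_add_le _ _).trans ?_
        have h4 : |if u = t then Rq else 0| ≤ Rq := by
          split_ifs
          · rw [abs_of_pos hRq0]
          · rw [abs_zero]; exact hRq0.le
        linarith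
    have hdiff0 : fr o tq - pgXi tq it x tq = 0 := by
      have h1 : ξ₀ tq = 1 := by rw [hξ₀]; simp [pgXi]
      have h2 : pgXi tq it x tq = 1 := by simp [pgXi]
      rcases o with _ | t
      · change ξ₀ tq - pgXi tq it x tq = 0
        rw [h1, h2, sub_self]
      · have ht : t ≠ tq := by simpa using ho
        have h3 : fr (some t) tq = ξ₀ tq := by
          simp [hfr, Ne.symm ht]
        rw [h3, h1, h2, sub_self]
    have hTle : |pgT F B (fr o) x| ≤ H x + 2 * Rq * G x := by
      have h1 := pg_T_sub F B (pgXi tq it x) (fr o) x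
      rw [← Finset.add_sum_erase Finset.univ _ (Finset.mem_univ tq), hdiff0, zero_mul,
        zero_add] at h1
      have h2 : |pgT F B (fr o) x| ≤ |pgT F B (pgXi tq it x) x| +
          |pgT F B (fr o) x - pgT F B (pgXi tq it x) x| := by
        have := abs_add_le (pgT F B (pgXi tq it x) x)
          (pgT F B (fr o) x - pgT F B (pgXi tq it x) x)
        rwa [add_sub_cancel] at this
      refine h2.trans ?_
      rw [h1]
      have h3 : |∑ u ∈ Finset.univ.erase tq, (fr o u - pgXi tq it x u) * pgG F B u x| ≤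
          2 * Rq * G x := by
        refine (Finset.abs_sum_le_sum_abs _ _).trans ?_
        simp only [hG, Finset.mul_sum]
        refine Finset.sum_le_sum fun u hu => ?_
        rw [abs_mul]
        exact mul_le_mul_of_nonneg_right (hdiff u (Finset.mem_erase.mp hu).1) (abs_nonneg _)
      simp only [hH]
      linarith
    set M := mm (PM F N x * B) with hM
    have hM0 : 0 ≤ M := hmm0 x
    have hNH : N * H x ≤ M := h.lo_h N hN F x
    have hNG : N * (Rq * G x) ≤ 16 * n / ε₁ * M := by
      have h1 : ∀ t ∈ Finset.univ.erase tq, N * (ε₁ * (Rq / 8)) * |pgG F B t x| ≤ 2 * M := by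
        intro t ht
        calc N * (ε₁ * (Rq / 8)) * |pgG F B t x| ≤ N * R x * |pgG F B t x| := by gcongr
          _ ≤ 2 * M := h.lo_Rg hd N hN F x t (Finset.mem_erase.mp ht).1
      have h2 : N * (ε₁ * (Rq / 8)) * G x ≤ n * (2 * M) := by
        simp only [hG, Finset.mul_sum]
        refine (Finset.sum_le_sum h1).trans ?_
        rw [Finset.sum_const, nsmul_eq_mul]
        refine mul_le_mul_of_nonneg_right ?_ (by positivity)
        refine le_trans ?_ hrn
        have : (Finset.univ.erase tq).card ≤ r := by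
          rw [Finset.card_erase_of_mem (Finset.mem_univ tq), Finset.card_univ, Fintype.card_fin]
          omega
        exact_mod_cast this
      have h3 : N * (Rq * G x) = 8 / ε₁ * (N * (ε₁ * (Rq / 8)) * G x) := by field_simp
      rw [h3]
      calc 8 / ε₁ * (N * (ε₁ * (Rq / 8)) * G x) ≤ 8 / ε₁ * (n * (2 * M)) := by gcongr
        _ = 16 * n / ε₁ * M := by ring
    have hfin : ε₂' * ρ₂ ≤ L * M * (1 + 32 * n / ε₁) := by
      calc ε₂' * ρ₂ ≤ ε₂' * (L * (N * |pgT F B (fr o) xs|)) := by gcongr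
        _ = L * (N * (ε₂' * |pgT F B (fr o) xs|)) := by ring
        _ ≤ L * (N * |pgT F B (fr o) x|) := by gcongr
        _ ≤ L * (N * (H x + 2 * Rq * G x)) := by gcongr
        _ = L * (N * H x + 2 * (N * (Rq * G x))) := by ring
        _ ≤ L * (M + 2 * (16 * n / ε₁ * M)) := by gcongr
        _ = L * M * (1 + 32 * n / ε₁) := by ring
    have hlast : εB ≤ L * M := by
      rw [hεB, div_le_iff₀ (by positivity)]
      exact hfin
    have : L * M < εB := hx2.trans_le hεle2
    linarith

end Pool.Agent.Lib.MP_a37012_nt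
end

section

/-!
# Hypersurfaces: the remaining cases
-/

set_option autoImplicit false

open MeasureTheory MvPolynomial

namespace Pool.Agent.Lib.MP_a37012_nt

theorem pg_caseB (d : ℕ) (V' : Set (Fin d → ℝ)) (F : (Fin d → ℝ) → ℝ)
    (hgood : ∀ η : ℝ, 0 < η → ∃ ε : ℝ, 0 < ε ∧
      ∀ (p : ℝ) (v : Fin d → ℝ) (j : ℕ) (k : Fin d → ℤ), cube j k ⊆ V' →
        GoodOn (fun x => F x - p - ∑ i, v i * x i) ε η j k)
    (j₀ : ℕ) (k₀ : Fin d → ℤ) (hsub : cube j₀ k₀ ⊆ V')
    (hgrad : ∀ η : ℝ, 0 < η → ∃ ε : ℝ, 0 < ε ∧ ε ≤ 1 ∧ ∀ (v : Fin d → ℝ) (j : ℕ) (k : Fin d → ℤ),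
      cube j k ⊆ cube j₀ k₀ → ∀ S : ℝ, 0 < S → (∃ x ∈ cube j k, ∃ i, S ≤ |v i - pd i F x|) →
      volume {x | x ∈ cube j k ∧ ∀ i, |v i - pd i F x| < ε * S} ≤
        ENNReal.ofReal η * volume (cube j k))
    (ρ : ℝ) (hρ : 0 < ρ) (η : ℝ) (hη : 0 < η) :
    ∃ ε : ℝ, 0 < ε ∧ ε ≤ ρ ∧ ∀ (N : ℝ) (_ : 0 < N) (r : ℕ) (_ : r ≤ d + 2) (e : Fin r → Idx d 1)
      (B : Matrix (Idx d 1) (Fin r) ℝ) (tq : Fin r) (it : Fin r → Fin d) (_ : PgQ e B tq it)
      (_ : ∀ i, ∃ s, s ≠ tq ∧ it s = i) (L : ℝ) (_ : 1 ≤ L)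
      (j : ℕ) (k : Fin d → ℤ), cube j k ⊆ cube j₀ k₀ →
      (∃ x ∈ cube j k, ρ ≤ L * mm (PM F N x * B)) →
      volume {x | x ∈ cube j k ∧ L * mm (PM F N x * B) < ε} ≤
        ENNReal.ofReal η * volume (cube j k) := by
  classical
  obtain ⟨ε₂, hε₂, hgd⟩ := hgood η hη
  obtain ⟨ε₃, hε₃, hε₃1, hgr⟩ := hgrad η hη
  set C : ℝ := ((d + 2).factorial : ℝ) with hC
  have hC1 : 1 ≤ C := by
    rw [hC]
    exact_mod_cast Nat.one_le_iff_ne_zero.mpr (Nat.factorial_ne_zero _)
  have hC0 : 0 < C := by linarith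
  set n : ℝ := (d : ℝ) + 2 with hn
  have hn0 : 0 < n := by positivity
  set ρ₃ : ℝ := ρ / (3 * C) with hρ₃
  have hρ₃0 : 0 < ρ₃ := by positivity
  refine ⟨min (min ρ₃ (ε₂ * ρ₃)) (min (ε₃ * (ρ₃ / n)) ρ),
    lt_min (lt_min hρ₃0 (by positivity)) (lt_min (by positivity) hρ),
    (min_le_right _ _).trans (min_le_right _ _), ?_⟩
  intro N hN r hr e B tq it h hsurj L hL j k hjk hx
  set ε : ℝ := min (min ρ₃ (ε₂ * ρ₃)) (min (ε₃ * (ρ₃ / n)) ρ) with hε
  have hle1 : ε ≤ ρ₃ := (min_le_left _ _).trans (min_le_left _ _)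
  have hle2 : ε ≤ ε₂ * ρ₃ := (min_le_left _ _).trans (min_le_right _ _)
  have hle3 : ε ≤ ε₃ * (ρ₃ / n) := (min_le_right _ _).trans (min_le_left _ _)
  have hL0 : 0 < L := by linarith
  obtain ⟨xs, hxs, hxsρ⟩ := hx
  have hrn : (r : ℝ) ≤ n := by
    rw [hn]
    exact_mod_cast hr
  have hfact : (r.factorial : ℝ) ≤ C := by
    rw [hC]
    exact_mod_cast Nat.factorial_le hr
  have hinj : Function.Injective e := by
    intro s t hst
    by_contra hne
    have h1 := h.id s t
    have h2 := h.id t t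
    rw [hst] at h1
    rw [if_neg hne, h2, if_pos rfl] at h1
    exact one_ne_zero h1
  choose σ hσ1 hσ2 using hsurj
  have hσ3 : ∀ t, t ≠ tq → σ (it t) = t := by
    intro t ht
    apply hinj
    rw [h.i _ (hσ1 _), hσ2, h.i t ht]
  have hy : ∀ x, pgY B tq it x = 0 := by
    intro x
    funext i
    have := h.y_zero x (σ i) (hσ1 i)
    rw [hσ2] at this
    exact this
  have hpos : ∀ x, pgPos B (pgXi tq it x) = x := by
    intro x
    funext i
    have := congrFun (hy x) i
    unfold pgY at this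
    simp only [Pi.zero_apply] at this
    linarith
  have hRN : ∀ x, pgR N B tq it x = 1 / N := by
    intro x
    unfold pgR
    rw [hy x, norm_zero]
    exact max_eq_left (by positivity)
  set v : Fin d → ℝ := fun i => B none (σ i) with hv
  set p : ℝ := B none tq with hp
  have hG : ∀ t, t ≠ tq → ∀ x, pgG F B t x = v (it t) - pd (it t) F x := by
    intro t ht x
    unfold pgG
    have h1 : ∑ a, pd a F x * B (some (Sum.inl a)) t = pd (it t) F x := by
      rw [Finset.sum_eq_single (it t)]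
      · rw [← h.i t ht, h.id t t, if_pos rfl, mul_one]
      · intro a _ ha
        have h2 : e (σ a) = some (Sum.inl a) := by rw [h.i _ (hσ1 a), hσ2]
        rw [← h2, h.id (σ a) t, if_neg, mul_zero]
        intro h3
        apply ha
        rw [← h3, hσ2]
      · simp
    rw [h1]
    simp only [hv]
    rw [hσ3 t ht]
  have hG2 : ∀ i x, v i - pd i F x = pgG F B (σ i) x := by
    intro i x
    rw [hG (σ i) (hσ1 i) x, hσ2]
  have hT : ∀ x, |pgT F B (pgXi tq it x) x| = |F x - p - ∑ i, v i * x i| := by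
    intro x
    unfold pgT tanG
    rw [hpos x]
    simp only [sub_self, mul_zero, Finset.sum_const_zero, sub_zero]
    have h1 : B.mulVec (pgXi tq it x) none = p + ∑ i, v i * x i := by
      rw [Matrix.mulVec, dotProduct, ← Finset.add_sum_erase Finset.univ _ (Finset.mem_univ tq)]
      congr 1
      · simp [pgXi, hp]
      · refine Finset.sum_nbij' it σ ?_ ?_ ?_ ?_ ?_
        · intro t _
          exact Finset.mem_univ _
        · intro i _
          exact Finset.mem_erase.mpr ⟨hσ1 i, Finset.mem_univ _⟩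
        · intro t ht
          exact hσ3 t (Finset.mem_erase.mp ht).1
        · intro i _
          exact hσ2 i
        · intro t ht
          have ht' := (Finset.mem_erase.mp ht).1
          simp only [hv, pgXi, if_neg ht']
          rw [hσ3 t ht']
    rw [h1, ← abs_neg]
    congr 1
    ring
  have hup := h.up' N hN F xs C hfact
  rw [hRN] at hup
  set Gs : ℝ := ∑ t ∈ Finset.univ.erase tq, |pgG F B t xs| with hGs
  have hGs0 : 0 ≤ Gs := Finset.sum_nonneg fun t _ => abs_nonneg _
  have hup2 : L * mm (PM F N xs * B) ≤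
      C * (L * (1 / N) + L * (N * |pgT F B (pgXi tq it xs) xs|) + L * Gs) := by
    calc L * mm (PM F N xs * B) ≤
        L * (C * (1 / N + N * |pgT F B (pgXi tq it xs) xs| + 1 / N * (N * Gs))) := by gcongr
      _ = _ := by field_simp
  have hcases : ρ₃ ≤ L * (1 / N) ∨ ρ₃ ≤ L * (N * |pgT F B (pgXi tq it xs) xs|) ∨
      ρ₃ ≤ L * Gs := by
    by_contra hcon
    push Not at hcon
    obtain ⟨h1, h2, h3⟩ := hcon
    have h4 : C * (L * (1 / N) + L * (N * |pgT F B (pgXi tq it xs) xs|) + L * Gs) <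
        C * (3 * ρ₃) := mul_lt_mul_of_pos_left (by linarith) hC0
    have h5 : C * (3 * ρ₃) = ρ := by
      rw [hρ₃]
      field_simp
    linarith
  rcases hcases with h1 | h1 | h1
  · have : {x | x ∈ cube j k ∧ L * mm (PM F N x * B) < ε} = ∅ := by
      ext x
      simp only [Set.mem_ofPred_eq, Set.mem_empty_iff_false, iff_false, not_and, not_lt]
      intro _
      calc ε ≤ ρ₃ := hle1
        _ ≤ L * (1 / N) := h1
        _ ≤ L * mm (PM F N x * B) := mul_le_mul_of_nonneg_left (h.lo_N N hN F x) hL0.le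
    rw [this, measure_empty]
    exact zero_le
  · have hTpos : 0 < |F xs - p - ∑ i, v i * xs i| := by
      rw [← hT]
      by_contra hcon
      push Not at hcon
      have h2 : |pgT F B (pgXi tq it xs) xs| = 0 := le_antisymm hcon (abs_nonneg _)
      rw [h2, mul_zero, mul_zero] at h1
      linarith
    refine le_trans (measure_mono ?_) (hgd p v j k (hjk.trans hsub) _ hTpos ⟨xs, hxs, le_rfl⟩)
    rintro x ⟨hx, hx2⟩
    refine ⟨hx, ?_⟩
    simp only
    rw [← hT x, ← hT xs]
    have h2 : (L * N) * |pgT F B (pgXi tq it x) x| <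
        (L * N) * (ε₂ * |pgT F B (pgXi tq it xs) xs|) := by
      calc (L * N) * |pgT F B (pgXi tq it x) x| = L * (N * |pgT F B (pgXi tq it x) x|) := by ring
        _ ≤ L * mm (PM F N x * B) := mul_le_mul_of_nonneg_left (h.lo_h N hN F x) hL0.le
        _ < ε := hx2
        _ ≤ ε₂ * ρ₃ := hle2
        _ ≤ ε₂ * (L * (N * |pgT F B (pgXi tq it xs) xs|)) := by gcongr
        _ = _ := by ring
    exact lt_of_mul_lt_mul_left h2 (by positivity)
  · have hGpos : 0 < Gs := by
      by_contra hcon
      push Not at hcon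
      have h2 : Gs = 0 := le_antisymm hcon hGs0
      rw [h2, mul_zero] at h1
      linarith
    have hex : ∃ t, t ≠ tq ∧ Gs / n ≤ |pgG F B t xs| := by
      by_contra hcon
      push Not at hcon
      have h2 : Gs < Gs := by
        have h3 : (Finset.univ.erase tq).Nonempty := by
          by_contra h4
          rw [Finset.not_nonempty_iff_eq_empty] at h4
          rw [hGs, h4, Finset.sum_empty] at hGpos
          exact lt_irrefl _ hGpos
        calc Gs < ∑ _t ∈ Finset.univ.erase tq, Gs / n := by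
              rw [hGs]
              exact Finset.sum_lt_sum_of_nonempty h3 fun t ht => hcon t (Finset.mem_erase.mp ht).1
          _ = (Finset.univ.erase tq).card * (Gs / n) := by
              rw [Finset.sum_const, nsmul_eq_mul]
          _ ≤ n * (Gs / n) := by
              refine mul_le_mul_of_nonneg_right ?_ (by positivity)
              refine le_trans ?_ hrn
              have : (Finset.univ.erase tq).card ≤ r := by
                rw [Finset.card_erase_of_mem (Finset.mem_univ tq), Finset.card_univ,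
                  Fintype.card_fin]
                omega
              exact_mod_cast this
          _ = Gs := by field_simp
      exact lt_irrefl _ h2
    obtain ⟨t, ht, ht2⟩ := hex
    rw [hG t ht] at ht2
    refine le_trans (measure_mono ?_) (hgr v j k hjk (Gs / n) (by positivity)
      ⟨xs, hxs, it t, ht2⟩)
    rintro x ⟨hx, hx2⟩
    refine ⟨hx, fun i => ?_⟩
    rw [hG2]
    have h2 : L * |pgG F B (σ i) x| < L * (ε₃ * (Gs / n)) := by
      calc L * |pgG F B (σ i) x| ≤ L * mm (PM F N x * B) :=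
            mul_le_mul_of_nonneg_left (h.lo_g N hN F x (σ i) (hσ1 i)) hL0.le
        _ < ε := hx2
        _ ≤ ε₃ * (ρ₃ / n) := hle3
        _ ≤ ε₃ * (L * Gs / n) := by gcongr
        _ = _ := by ring
    exact lt_of_mul_lt_mul_left h2 hL0.le

/-- A large value of a slope of the primal matrix in the case of a full position part. -/
theorem pg_osc_full (d : ℕ) (F : (Fin d → ℝ) → ℝ) (N : ℝ) (hN : 0 < N) {r : ℕ}
    {e : Fin r → Idx d 1} {B : Matrix (Idx d 1) (Fin r) ℝ} {tq : Fin r} {it : Fin r → Fin d}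
    (h : PgQ e B tq it) (s : Fin r) (hs : s ≠ tq) (hsurj : ∀ i, ∃ s, s ≠ tq ∧ it s = i)
    (x : Fin d → ℝ) : |B none s - pd (it s) F x| ≤ mm (PM F N x * B) := by
  have h1 := h.lo_g N hN F x s hs
  have h2 : pgG F B s x = B none s - pd (it s) F x := by
    unfold pgG
    congr 1
    rw [Finset.sum_eq_single (it s)]
    · rw [← h.i s hs, h.id s s, if_pos rfl, mul_one]
    · intro a _ ha
      obtain ⟨s', hs', hs'2⟩ := hsurj a
      have h2 : e s' = some (Sum.inl a) := by rw [h.i _ hs', hs'2]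
      rw [← h2, h.id s' s, if_neg, mul_zero]
      intro h3
      apply ha
      rw [← hs'2, h3]
    · simp
  rw [h2] at h1
  exact h1

/-- Without a denominator pivot the minors are large. -/
theorem pg_caseC1 (d : ℕ) (F : (Fin d → ℝ) → ℝ) (N : ℝ) (hN : 1 ≤ N) {r : ℕ}
    {e : Fin r → Idx d 1} {B : Matrix (Idx d 1) (Fin r) ℝ} (h : PgNorm e B)
    (hq : ∀ t, e t ≠ some (Sum.inr 0)) (x : Fin d → ℝ) : 1 ≤ mm (PM F N x * B) := by
  classical
  have hz : ∀ t, B (some (Sum.inr 0)) t = 0 := by
    intro t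
    apply h.zero
    rcases het : e t with _ | (i | i)
    · simp [cls]
    · simp [cls]
    · exact absurd (by rw [het, Subsingleton.elim i 0]) (hq t)
  have hent : ∀ a t, (PM F N x * B) a t = (PM F N x).mulVec (fun b => B b t) a := fun a t => rfl
  have hrow : ∀ s, e s ≠ none → ∀ t, (PM F N x * B) (e s) t = if s = t then 1 else 0 := by
    intro s hs t
    rcases hes : e s with _ | (i | i)
    · exact absurd hes hs
    · rw [hent, pm_inl, hz, mul_zero, sub_zero, ← hes]
      exact h.id s t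
    · exact absurd (by rw [hes, Subsingleton.elim i 0]) (hq s)
  have h1 := le_mm (PM F N x * B) e
  refine le_trans ?_ h1
  by_cases hp : ∃ tp, e tp = none
  · obtain ⟨tp, htp⟩ := hp
    have hinj : ∀ s, s ≠ tp → e s ≠ none := by
      intro s hs hes
      have h2 := h.id s tp
      have h3 := h.id tp tp
      rw [hes, ← htp] at h2
      rw [if_neg hs, h3, if_pos rfl] at h2
      exact one_ne_zero h2
    rw [pg_det_one _ tp]
    · rw [Matrix.submatrix_apply, id, htp, hent, pm_none_zero _ _ _ _ (hz tp)]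
      have h4 : ∀ a, B (some (Sum.inl a)) tp = 0 := by
        intro a
        apply h.zero
        rw [htp]
        simp [cls]
      have h5 : B none tp = 1 := by
        have := h.id tp tp
        rw [htp, if_pos rfl] at this
        exact this
      rw [h5]
      simp only [h4, mul_zero, Finset.sum_const_zero, sub_zero, mul_one]
      rw [abs_of_pos (by linarith)]
      exact hN
    · intro s hs t
      rw [Matrix.submatrix_apply, id]
      exact hrow s (hinj s hs) t
  · push Not at hp
    have h2 : (PM F N x * B).submatrix e id = 1 := by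
      ext s t
      rw [Matrix.submatrix_apply, id, hrow s (hp s), Matrix.one_apply]
    rw [h2, Matrix.det_one, abs_one]

/-- With a denominator pivot and a height pivot the minors are large. -/
theorem pg_caseC2 (d : ℕ) (F : (Fin d → ℝ) → ℝ) (N : ℝ) (hN : 1 ≤ N) {r : ℕ}
    {e : Fin r → Idx d 1} {B : Matrix (Idx d 1) (Fin r) ℝ} (h : PgNorm e B) (tp tq : Fin r)
    (hp : e tp = none) (hq : e tq = some (Sum.inr 0)) (x : Fin d → ℝ) :
    1 ≤ mm (PM F N x * B) := by
  classical
  have hN0 : 0 < N := by linarith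
  have hinj : Function.Injective e := by
    intro s t hst
    by_contra hne
    have h1 := h.id s t
    have h2 := h.id t t
    rw [hst] at h1
    rw [if_neg hne, h2, if_pos rfl] at h1
    exact one_ne_zero h1
  have hne : tp ≠ tq := by
    intro h0
    rw [h0, hq] at hp
    exact absurd hp (by simp)
  set ξ : Fin r → ℝ := fun s => if s = tq then 1 else
    match e s with
    | some (Sum.inl i) => x i
    | _ => 0 with hξ
  have hξq : ξ tq = 1 := by simp [hξ]
  set A : Matrix (Idx d 1) (Fin r) ℝ := PM F N x * B * Matrix.updateCol 1 tq ξ with hA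
  have hmm : mm A = mm (PM F N x * B) := by
    rw [hA, mm_mul_right]
    have : (Matrix.updateCol (1 : Matrix (Fin r) (Fin r) ℝ) tq ξ).det = 1 := by
      rw [← Matrix.cramer_apply, Matrix.cramer_one]
      simp [hξq]
    rw [this, abs_one, one_mul]
  have hAne : ∀ a t, t ≠ tq → A a t = (PM F N x).mulVec (fun b => B b t) a := by
    intro a t ht
    rw [hA, Matrix.mul_apply, Finset.sum_eq_single t]
    · rw [Matrix.updateCol_ne ht, Matrix.one_apply_eq, mul_one]
      rfl
    · intro s _ hs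
      rw [Matrix.updateCol_ne ht, Matrix.one_apply_ne hs, mul_zero]
    · simp
  have hAq : ∀ a, A a tq = (PM F N x).mulVec (B.mulVec ξ) a := by
    intro a
    rw [hA, Matrix.mulVec_mulVec, Matrix.mul_apply]
    simp only [Matrix.updateCol_self]
    rfl
  have hBξ : ∀ s, B.mulVec ξ (e s) = ξ s := by
    intro s
    rw [Matrix.mulVec, dotProduct]
    simp only [h.id s]
    rw [Finset.sum_eq_single s]
    · simp
    · intro t _ ht
      rw [if_neg (Ne.symm ht), zero_mul]
    · simp
  have hz : ∀ t, t ≠ tq → B (some (Sum.inr 0)) t = 0 := by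
    intro t ht
    rw [← hq, h.id tq t, if_neg (Ne.symm ht)]
  have hBq : B.mulVec ξ (some (Sum.inr 0)) = 1 := by
    rw [← hq, hBξ, hξq]
  rw [← hmm]
  refine le_trans ?_ (le_mm A e)
  rw [pg_det_two _ tp tq hne]
  · simp only [Matrix.submatrix_apply, id]
    rw [hp, hq, hAne none tp hne, hAne _ tp hne, hAq, pm_inr, pm_inr, hBq, hz tp hne, mul_zero,
      mul_zero, sub_zero, pm_none_zero _ _ _ _ (hz tp hne)]
    have h4 : ∀ a, B (some (Sum.inl a)) tp = 0 := by
      intro a
      apply h.zero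
      rw [hp]
      simp [cls]
    have h5 : B none tp = 1 := by
      have := h.id tp tp
      rw [hp, if_pos rfl] at this
      exact this
    rw [h5]
    simp only [h4, mul_zero, Finset.sum_const_zero, sub_zero, mul_one]
    rw [mul_one_div_cancel hN0.ne', abs_one]
  · intro s hs1 hs2 t
    rw [Matrix.submatrix_apply, id]
    rcases hes : e s with _ | (i | i)
    · exact absurd (hinj (hes.trans hp.symm)) hs1
    · by_cases ht : t = tq
      · subst ht
        rw [hAq, pm_inl, hBq, ← hes, hBξ, if_neg hs2]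
        simp [hξ, hs2, hes]
      · rw [hAne _ t ht, pm_inl, hz t ht, mul_zero, sub_zero, ← hes]
        exact h.id s t
    · exact absurd (hinj ((by rw [hes, Subsingleton.elim i 0] : e s = some (Sum.inr 0)).trans
        hq.symm)) hs2

end Pool.Agent.Lib.MP_a37012_nt
end

section

/-!
# Hypersurfaces: goodness of all minors of the primal matrix
-/

set_option autoImplicit false

open MeasureTheory MvPolynomial

namespace Pool.Agent.Lib.MP_a37012_nt

/-- The normal form and the largest minors. -/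
theorem pg_mm_norm {d r : ℕ} (U : Matrix (Idx d 1) (Idx d 1) ℝ) (B : Matrix (Idx d 1) (Fin r) ℤ)
    (B' : Matrix (Idx d 1) (Fin r) ℝ) (δ : ℝ)
    (h : ∀ e' : Fin r → Idx d 1,
      ((U * toR B).submatrix e' id).det = ((U * B').submatrix e' id).det * δ) :
    mm (U * toR B) = |δ| * mm (U * B') := by
  apply le_antisymm
  · obtain ⟨e, he⟩ := exists_mm (U * toR B)
    rw [← he, h, abs_mul, mul_comm]
    exact mul_le_mul_of_nonneg_left (le_mm _ _) (abs_nonneg _)
  · obtain ⟨e, he⟩ := exists_mm (U * B')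
    rw [← he, mul_comm, ← abs_mul, ← h]
    exact le_mm _ _

theorem pm_good (d : ℕ) (hd : 1 ≤ d) (V' : Set (Fin d → ℝ)) (hV' : IsOpen V')
    (hne : V'.Nonempty) (F : (Fin d → ℝ) → ℝ) (hF : ContDiffOn ℝ (2 : ℕ) F V') (κ : ℝ) (hκ : 0 < κ)
    (a b : Fin d) (c₀ : ℝ) (hc₀ : 0 < c₀) (hab : ∀ x ∈ V', c₀ ≤ |pd a (pd b F) x|)
    (hgood : ∀ η : ℝ, 0 < η → ∃ ε : ℝ, 0 < ε ∧
      ∀ (p : ℝ) (v : Fin d → ℝ) (j : ℕ) (k : Fin d → ℤ), cube j k ⊆ V' →
        GoodOn (fun x => F x - p - ∑ i, v i * x i) ε η j k ∧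
        ((∀ x ∈ cube j k, ‖v - x‖ ≤ κ) → GoodOn (tanG F p v) ε η j k)) :
    ∃ (j₀ : ℕ) (k₀ : Fin d → ℤ) (N₀ ρ : ℝ), closure (cube j₀ k₀) ⊆ V' ∧ 0 < ρ ∧ ρ ≤ 1 ∧
      ∀ η : ℝ, 0 < η → ∃ ε : ℝ, 0 < ε ∧ ε ≤ ρ ∧ ∀ N : ℝ, N₀ ≤ N →
        ∀ (r : ℕ) (B : Matrix (Idx d 1) (Fin r) ℤ),
        LinearIndependent ℤ (fun t : Fin r => fun a => B a t) →
        (∃ x ∈ cube j₀ k₀, ρ ≤ mm (PM F N x * toR B)) ∧
        ∀ (j : ℕ) (k : Fin d → ℤ), cube j k ⊆ cube j₀ k₀ →
          (∃ x ∈ cube j k, ρ ≤ mm (PM F N x * toR B)) →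
          volume {x | x ∈ cube j k ∧ mm (PM F N x * toR B) < ε} ≤
            ENNReal.ofReal η * volume (cube j k) := by
  classical
  obtain ⟨y₁, hy₁⟩ := hne
  -- the initial cube
  obtain ⟨r₁, hr₁, hball⟩ := Metric.isOpen_iff.mp hV' y₁ hy₁
  obtain ⟨ja, hja⟩ := exists_pow_lt_of_lt_one (show 0 < κ / 4 by positivity)
    (show (1 / 2 : ℝ) < 1 by norm_num)
  obtain ⟨j₀, hj₀, hj₀s⟩ := km_small_cube (Metric.isOpen_ball (x := y₁) (ε := r₁ / 2))
    (Metric.mem_ball_self (by positivity)) ja
  set k₀ := kmIdx j₀ y₁ with hk₀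
  have hcl : closure (cube j₀ k₀) ⊆ V' := by
    refine (closure_mono hj₀s).trans ?_
    exact (Metric.closure_ball_subset_closedBall).trans
      ((Metric.closedBall_subset_ball (by linarith)).trans hball)
  have hsub : cube j₀ k₀ ⊆ V' := subset_closure.trans hcl
  have hside : (1 : ℝ) / 2 ^ j₀ ≤ κ / 4 := by
    have h1 : ((1 : ℝ) / 2) ^ j₀ ≤ (1 / 2) ^ ja :=
      pow_le_pow_of_le_one (by norm_num) (by norm_num) hj₀
    rw [one_div, inv_pow, ← one_div] at h1
    linarith
  set ρ : ℝ := min (min 1 (κ / 4)) (min (1 / 2 ^ j₀ / 4) (c₀ / 2 ^ j₀ / 4)) with hρ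
  have hρ0 : 0 < ρ :=
    lt_min (lt_min one_pos (by positivity)) (lt_min (by positivity) (by positivity))
  have hρ1 : ρ ≤ 1 := (min_le_left _ _).trans (min_le_left _ _)
  have hρκ : ρ ≤ κ / 4 := (min_le_left _ _).trans (min_le_right _ _)
  have hρy : ρ ≤ 1 / 2 ^ j₀ / 4 := (min_le_right _ _).trans (min_le_left _ _)
  have hρg : ρ ≤ c₀ / 2 ^ j₀ / 4 := (min_le_right _ _).trans (min_le_right _ _)
  refine ⟨j₀, k₀, 1, ρ, hcl, hρ0, hρ1, ?_⟩
  intro η hη
  obtain ⟨εA, hεA, hεAρ, hA⟩ := pg_caseA d hd V' F κ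
    (fun η hη => by
      obtain ⟨ε, hε, h⟩ := hgood η hη
      exact ⟨ε, hε, fun p v j k hk => (h p v j k hk).2⟩) j₀ k₀ hsub ρ hρ0 (by linarith) η hη
  obtain ⟨εB, hεB, hεBρ, hB⟩ := pg_caseB d V' F
    (fun η hη => by
      obtain ⟨ε, hε, h⟩ := hgood η hη
      exact ⟨ε, hε, fun p v j k hk => (h p v j k hk).1⟩) j₀ k₀ hsub
    (fun η hη => pg_grad d V' hV' F hF a b c₀ hc₀ hab j₀ k₀ hcl η hη) ρ hρ0 η hη
  refine ⟨min εA εB, lt_min hεA hεB, (min_le_left _ _).trans hεAρ, ?_⟩
  intro N hN r B hLI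
  have hN0 : 0 < N := by linarith
  have hr : r ≤ d + 2 := by
    have hBq : LinearIndependent ℚ (kmCol B) := by
      have h1 : LinearIndependent ℤ (kmCol B) := by
        have h2 : kmCol B = kmCast (Idx d 1) ∘ (fun t : Fin r => fun a => B a t) := rfl
        rw [h2]
        exact hLI.map' (kmCast (Idx d 1)) (kmCast_ker _)
      exact (LinearIndependent.iff_fractionRing ℤ ℚ).mp h1
    have h3 := hBq.fintype_card_le_finrank
    rw [Fintype.card_fin, Module.finrank_fintype_fun_eq_card] at h3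
    have h4 : Fintype.card (Idx d 1) = d + 1 + 1 := by
      simp only [Idx, Fintype.card_option, Fintype.card_sum, Fintype.card_fin]
    omega
  obtain ⟨e, B', δ, hδ, hdet, hid, hzero, hle⟩ := normalize B hLI
  have hnorm : PgNorm e B' := ⟨hid, hzero, hle⟩
  have hmm : ∀ x, mm (PM F N x * toR B) = |δ| * mm (PM F N x * B') := fun x =>
    pg_mm_norm _ B B' δ fun e' => hdet _ e'
  simp only [hmm]
  have hδ0 : 0 ≤ |δ| := abs_nonneg _
  -- the trivial cases
  have htriv : (∀ x, 1 ≤ mm (PM F N x * B')) →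
      (∃ x ∈ cube j₀ k₀, ρ ≤ |δ| * mm (PM F N x * B')) ∧
        ∀ (j : ℕ) (k : Fin d → ℤ), cube j k ⊆ cube j₀ k₀ →
          (∃ x ∈ cube j k, ρ ≤ |δ| * mm (PM F N x * B')) →
          volume {x | x ∈ cube j k ∧ |δ| * mm (PM F N x * B') < min εA εB} ≤
            ENNReal.ofReal η * volume (cube j k) := by
    intro h1
    have h2 : ∀ x, 1 ≤ |δ| * mm (PM F N x * B') := fun x =>
      one_le_mul_of_one_le_of_one_le hδ (h1 x)
    constructor
    · obtain ⟨x, hx⟩ := km_nonempty_cube j₀ k₀
      exact ⟨x, hx, hρ1.trans (h2 x)⟩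
    · intro j k _ _
      have : {x | x ∈ cube j k ∧ |δ| * mm (PM F N x * B') < min εA εB} = ∅ := by
        ext x
        simp only [Set.mem_ofPred_eq, Set.mem_empty_iff_false, iff_false, not_and, not_lt]
        intro _
        exact (min_le_left _ _).trans (hεAρ.trans (hρ1.trans (h2 x)))
      rw [this, measure_empty]
      exact zero_le
  by_cases hq : ∀ t, e t ≠ some (Sum.inr 0)
  · exact htriv fun x => pg_caseC1 d F N hN hnorm hq x
  push Not at hq
  obtain ⟨tq, htq⟩ := hq
  by_cases hp : ∃ tp, e tp = none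
  · obtain ⟨tp, htp⟩ := hp
    exact htriv fun x => pg_caseC2 d F N hN hnorm tp tq htp htq x
  push Not at hp
  have hinj : Function.Injective e := by
    intro s t hst
    by_contra hne
    have h1 := hid s t
    have h2 := hid t t
    rw [hst] at h1
    rw [if_neg hne, h2, if_pos rfl] at h1
    exact one_ne_zero h1
  have hi : ∀ t, ∃ i : Fin d, t ≠ tq → e t = some (Sum.inl i) := by
    intro t
    by_cases ht : t = tq
    · exact ⟨⟨0, hd⟩, fun h => absurd ht h⟩
    · rcases het : e t with _ | (i | i)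
      · exact absurd het (hp t)
      · exact ⟨i, fun _ => rfl⟩
      · exact absurd (hinj ((by rw [het, Subsingleton.elim i 0] : e t = some (Sum.inr 0)).trans
          htq.symm)) ht
  choose it hit using hi
  have hQ : PgQ e B' tq it := { toPgNorm := hnorm, q := htq, i := fun t ht => hit t ht }
  by_cases hsurj : ∀ i, ∃ s, s ≠ tq ∧ it s = i
  · constructor
    · obtain ⟨s, hs, hsb⟩ := hsurj b
      obtain ⟨x, hx, hx2⟩ := pg_grad_osc d V' hV' F hF a b c₀ hc₀ hab (B' none s) j₀ k₀ hsub
      refine ⟨x, hx, ?_⟩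
      have h1 := pg_osc_full d F N hN0 hQ s hs hsurj x
      rw [hsb] at h1
      calc ρ ≤ c₀ / 2 ^ j₀ / 4 := hρg
        _ ≤ mm (PM F N x * B') := hx2.trans h1
        _ ≤ |δ| * mm (PM F N x * B') := le_mul_of_one_le_left (mm_nonneg _) hδ
    · intro j k hjk hx
      refine le_trans (measure_mono ?_) (hB N hN0 r hr e B' tq it hQ hsurj |δ| hδ j k hjk hx)
      rintro x ⟨hx, hx2⟩
      exact ⟨hx, hx2.trans_le (min_le_right _ _)⟩
  · push Not at hsurj
    obtain ⟨j₁, hj₁⟩ := hsurj
    constructor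
    · obtain ⟨x, hx, hx2⟩ := hQ.y_osc j₁ hj₁ j₀ k₀
      refine ⟨x, hx, ?_⟩
      have h1 := hQ.lo_y N F x j₁
      calc ρ ≤ 1 / 2 ^ j₀ / 4 := hρy
        _ ≤ mm (PM F N x * B') := hx2.trans h1
        _ ≤ |δ| * mm (PM F N x * B') := le_mul_of_one_le_left (mm_nonneg _) hδ
    · intro j k hjk hx
      refine le_trans (measure_mono ?_) (hA N hN0 r hr e B' tq it hQ j₁ hj₁ |δ| hδ j k hjk hx)
      rintro x ⟨hx, hx2⟩
      exact ⟨hx, hx2.trans_le (min_le_left _ _)⟩

end Pool.Agent.Lib.MP_a37012_nt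
end
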