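import Mathlib
import Pool.Agent.Lib.MP_a37012_nt.Taylor

section

/-!
# A neighbourhood with uniform nondegeneracy and a nonvanishing second derivative
-/

set_option autoImplicit false

open MeasureTheory MvPolynomial

namespace Pool.Agent.Lib.MP_a37012_nt

/-- Uniform nondegeneracy near a nondegenerate point. -/
theorem pt_nd (d m l : ℕ) (hm : 1 ≤ m) (V : Set (Fin d → ℝ)) (hV : IsOpen V)
    (F : Fin m → (Fin d → ℝ) → ℝ) (hF : ∀ i, ContDiffOn ℝ l (F i) V) (y₀ : Fin d → ℝ)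
    (hy₀ : y₀ ∈ V)
    (hnd : ∀ z : Fin m → ℝ, z ≠ 0 → ∃ I : List (Fin d), 2 ≤ I.length ∧ I.length ≤ l ∧
        ∑ i, z i * pds I (F i) y₀ ≠ 0) :
    ∃ r c : ℝ, 0 < r ∧ 0 < c ∧ Metric.closedBall y₀ r ⊆ V ∧
      ∀ x ∈ Metric.closedBall y₀ r, ∀ z : Fin m → ℝ, ∃ I : List (Fin d), 2 ≤ I.length ∧
        I.length ≤ l ∧ c * ‖z‖ ≤ |∑ i, z i * pds I (F i) x| := by
  classical
  have hfin : Set.Finite {I : List (Fin d) | 2 ≤ I.length ∧ I.length ≤ l} :=
    (List.finite_length_le (Fin d) l).subset fun I hI => hI.2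
  set S := {I : List (Fin d) | 2 ≤ I.length ∧ I.length ≤ l} with hS
  have : Fintype S := hfin.fintype
  have hSne : Nonempty S := by
    obtain ⟨I, h1, h2, _⟩ := hnd (fun _ => 1) (by
      intro h0
      have := congrFun h0 ⟨0, hm⟩
      simp at this)
    exact ⟨⟨I, h1, h2⟩⟩
  -- the linear map at the base point
  set f : (Fin m → ℝ) →ₗ[ℝ] (S → ℝ) :=
    { toFun := fun z I => ∑ i, z i * pds I.1 (F i) y₀
      map_add' := by
        intro z w
        funext I
        simp only [Pi.add_apply, add_mul, Finset.sum_add_distrib]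
      map_smul' := by
        intro c z
        funext I
        simp only [Pi.smul_apply, smul_eq_mul, RingHom.id_apply, Finset.mul_sum, mul_assoc] }
    with hf
  have hker : LinearMap.ker f = ⊥ := by
    rw [LinearMap.ker_eq_bot']
    intro z hz
    by_contra hne
    obtain ⟨I, h1, h2, h3⟩ := hnd z hne
    exact h3 (congrFun hz ⟨I, h1, h2⟩)
  obtain ⟨K, hK, hanti⟩ := f.exists_antilipschitzWith hker
  have hK0 : (0 : ℝ) < K := by exact_mod_cast hK
  have hbase : ∀ z : Fin m → ℝ, ∃ I : S, (K : ℝ)⁻¹ * ‖z‖ ≤ |∑ i, z i * pds I.1 (F i) y₀| := by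
    intro z
    have h1 : ‖z‖ ≤ K * ‖f z‖ := by
      have := hanti.le_mul_dist z 0
      simpa using this
    by_contra hcon
    push Not at hcon
    have h2 : ‖f z‖ < (K : ℝ)⁻¹ * ‖z‖ := by
      obtain ⟨I₀⟩ := hSne
      rw [pi_norm_lt_iff (lt_of_le_of_lt (abs_nonneg _) (hcon I₀))]
      intro I
      rw [Real.norm_eq_abs]
      exact hcon I
    have h3 : K * ‖f z‖ < ‖z‖ := by
      calc K * ‖f z‖ < K * ((K : ℝ)⁻¹ * ‖z‖) := by gcongr
        _ = ‖z‖ := by field_simp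
    linarith
  -- continuity
  have hm0 : (0 : ℝ) < m := by exact_mod_cast hm
  have hcont : ∀ᶠ x in nhds y₀, ∀ I : S, ∀ i,
      |pds I.1 (F i) x - pds I.1 (F i) y₀| < (K : ℝ)⁻¹ / (2 * m) := by
    rw [Filter.eventually_all]
    intro I
    rw [Filter.eventually_all]
    intro i
    have h1 : ContinuousAt (pds I.1 (F i)) y₀ :=
      ((tay_pds hV (hF i) I.1 0 (by simpa using I.2.2)).continuousOn).continuousAt
        (hV.mem_nhds hy₀)
    have h2 := Metric.continuousAt_iff'.mp h1 ((K : ℝ)⁻¹ / (2 * m)) (by positivity)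
    filter_upwards [h2] with x hx
    rwa [Real.dist_eq] at hx
  obtain ⟨r, hr, hball⟩ := Metric.eventually_nhds_iff_ball.mp
    (hcont.and (hV.eventually_mem hy₀))
  refine ⟨r / 2, (K : ℝ)⁻¹ / 2, by positivity, by positivity, ?_, ?_⟩
  · intro x hx
    exact (hball x (Metric.closedBall_subset_ball (by linarith) hx)).2
  · intro x hx z
    obtain ⟨h1, -⟩ := hball x (Metric.closedBall_subset_ball (by linarith) hx)
    obtain ⟨I, hI⟩ := hbase z
    refine ⟨I.1, I.2.1, I.2.2, ?_⟩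
    have h2 : |∑ i, z i * pds I.1 (F i) x - ∑ i, z i * pds I.1 (F i) y₀| ≤
        (K : ℝ)⁻¹ / 2 * ‖z‖ := by
      rw [← Finset.sum_sub_distrib]
      refine (Finset.abs_sum_le_sum_abs _ _).trans ?_
      calc ∑ i, |z i * pds I.1 (F i) x - z i * pds I.1 (F i) y₀|
          ≤ ∑ _i : Fin m, ‖z‖ * ((K : ℝ)⁻¹ / (2 * m)) := by
            refine Finset.sum_le_sum fun i _ => ?_
            rw [← mul_sub, abs_mul]
            exact mul_le_mul (norm_le_pi_norm z i) (h1 I i).le (abs_nonneg _) (norm_nonneg _)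
        _ = (K : ℝ)⁻¹ / 2 * ‖z‖ := by
            rw [Finset.sum_const, Finset.card_univ, Fintype.card_fin, nsmul_eq_mul]
            field_simp
    have h3 := abs_sub_abs_le_abs_sub (∑ i, z i * pds I.1 (F i) y₀) (∑ i, z i * pds I.1 (F i) x)
    rw [abs_sub_comm] at h3
    linarith

/-- A point near a nondegenerate point where some second derivative is nonzero. -/
theorem pt_second (d m l : ℕ) (hm : 1 ≤ m) (V : Set (Fin d → ℝ)) (hV : IsOpen V)
    (F : Fin m → (Fin d → ℝ) → ℝ) (y₀ : Fin d → ℝ) (hy₀ : y₀ ∈ V)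
    (hnd : ∀ z : Fin m → ℝ, z ≠ 0 → ∃ I : List (Fin d), 2 ≤ I.length ∧ I.length ≤ l ∧
        ∑ i, z i * pds I (F i) y₀ ≠ 0) :
    ∃ y ∈ V, ∃ i a b, pds [a, b] (F i) y ≠ 0 := by
  by_contra hcon
  push Not at hcon
  have hzero : ∀ I : List (Fin d), 2 ≤ I.length → ∀ i, ∀ x ∈ V, pds I (F i) x = 0 := by
    intro I
    induction I with
    | nil => intro h; simp at h
    | cons a I ih =>
      intro hI i x hx
      rcases I with _ | ⟨b, I⟩
      · simp at hI
      · rcases I with _ | ⟨c, I⟩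
        · exact hcon x hx i a b
        · have h1 := ih (by simp) i
          change pd a (pds (b :: c :: I) (F i)) x = 0
          rw [tay_pd_congr hV (g := fun _ => 0) h1 a x hx]
          simp [pd]
  obtain ⟨I, h1, _, h3⟩ := hnd (fun _ => 1) (by
    intro h0
    have := congrFun h0 ⟨0, hm⟩
    simp at this)
  apply h3
  refine Finset.sum_eq_zero fun i _ => ?_
  rw [hzero I h1 i y₀ hy₀, mul_zero]

/-- The set-up for the tree argument. -/
theorem pt_setup (d m l : ℕ) (hm : 1 ≤ m) (hl : 2 ≤ l) (V : Set (Fin d → ℝ)) (hV : IsOpen V)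
    (F : Fin m → (Fin d → ℝ) → ℝ) (hF : ∀ i, ContDiffOn ℝ l (F i) V) (y₀ : Fin d → ℝ)
    (hy₀ : y₀ ∈ V)
    (hnd : ∀ z : Fin m → ℝ, z ≠ 0 → ∃ I : List (Fin d), 2 ≤ I.length ∧ I.length ≤ l ∧
        ∑ i, z i * pds I (F i) y₀ ≠ 0) :
    ∃ (y₁ : Fin d → ℝ) (r c : ℝ), 0 < r ∧ 0 < c ∧ Metric.closedBall y₁ r ⊆ V ∧
      (∀ x ∈ Metric.closedBall y₁ r, ∀ z : Fin m → ℝ, ∃ I : List (Fin d), 2 ≤ I.length ∧
        I.length ≤ l ∧ c * ‖z‖ ≤ |∑ i, z i * pds I (F i) x|) ∧
      ∃ i a b, ∀ x ∈ Metric.closedBall y₁ r, c ≤ |pds [a, b] (F i) x| := by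
  obtain ⟨r₀, c₀, hr₀, hc₀, hb₀, hnd₀⟩ := pt_nd d m l hm V hV F hF y₀ hy₀ hnd
  obtain ⟨y₁, hy₁, i, a, b, hab⟩ := pt_second d m l hm (Metric.ball y₀ r₀) Metric.isOpen_ball F
    y₀ (Metric.mem_ball_self hr₀) hnd
  have hy₁V : y₁ ∈ V := hb₀ (Metric.ball_subset_closedBall hy₁)
  have h1 : ContinuousAt (pds [a, b] (F i)) y₁ :=
    ((tay_pds hV (hF i) [a, b] 0 (by simpa using hl)).continuousOn).continuousAt
      (hV.mem_nhds hy₁V)
  have hpos : 0 < |pds [a, b] (F i) y₁| := abs_pos.mpr hab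
  have h2 := Metric.continuousAt_iff'.mp h1 (|pds [a, b] (F i) y₁| / 2) (by positivity)
  obtain ⟨r, hr, hball⟩ := Metric.eventually_nhds_iff_ball.mp
    (h2.and (Metric.isOpen_ball.eventually_mem hy₁))
  refine ⟨y₁, r / 2, min c₀ (|pds [a, b] (F i) y₁| / 2), by positivity,
    lt_min hc₀ (by positivity), ?_, ?_, i, a, b, ?_⟩
  · intro x hx
    exact hb₀ (Metric.ball_subset_closedBall
      (hball x (Metric.closedBall_subset_ball (by linarith) hx)).2)
  · intro x hx z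
    obtain ⟨I, hI1, hI2, hI3⟩ := hnd₀ x (Metric.ball_subset_closedBall
      (hball x (Metric.closedBall_subset_ball (by linarith) hx)).2) z
    exact ⟨I, hI1, hI2, (mul_le_mul_of_nonneg_right (min_le_left _ _) (norm_nonneg _)).trans hI3⟩
  · intro x hx
    have h3 := (hball x (Metric.closedBall_subset_ball (by linarith) hx)).1
    rw [Real.dist_eq] at h3
    have h4 := abs_sub_abs_le_abs_sub (pds [a, b] (F i) y₁) (pds [a, b] (F i) x)
    rw [abs_sub_comm] at h4
    refine (min_le_right _ _).trans ?_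
    linarith

end Pool.Agent.Lib.MP_a37012_nt
end

section

/-!
# Codimension at least two: choice of the numerical parameters
-/

set_option autoImplicit false

namespace Pool.Agent.Lib.MP_a37012_nt

/-- Choice of the number of levels, of the proportion and of the exponent. -/
theorem pt_num (θ L₀ L₁ : ℝ) (hθ : 1 < θ) (hL₀ : 1 ≤ L₀) (hL₁ : 1 ≤ L₁) (g : ℝ → ℝ)
    (hg : ∀ η, 0 < η → 0 < g η) :
    ∃ (η δ : ℝ) (b : ℕ), 0 < η ∧ 0 < δ ∧ 1 ≤ b ∧
      (g η * θ ^ b) ^ (-δ) + η * (L₀ * L₁ ^ b) ^ δ ≤ 3 / 8 := by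
  obtain ⟨C₁, hC₁⟩ := pow_unbounded_of_one_lt L₁ hθ
  set η : ℝ := 1 / (8 ^ (C₁ + 1) * L₀) with hη
  have hη0 : 0 < η := by positivity
  set g₀ := g η with hg₀
  have hg₀0 : 0 < g₀ := hg η hη0
  have hlθ : 0 < Real.log θ := Real.log_pos hθ
  have hl2 : 0 < Real.log 2 := Real.log_pos (by norm_num)
  have hl8 : 0 < Real.log 8 := Real.log_pos (by norm_num)
  obtain ⟨b, hb⟩ := exists_nat_ge (max 1 (max (Real.log 8 / Real.log θ)
    (Real.log 8 * |Real.log g₀| / (Real.log θ * Real.log 2))))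
  have hb1 : (1 : ℝ) ≤ b := (le_max_left _ _).trans hb
  have hb2 : Real.log 8 / Real.log θ ≤ b := (le_max_left _ _).trans ((le_max_right _ _).trans hb)
  have hb3 : Real.log 8 * |Real.log g₀| / (Real.log θ * Real.log 2) ≤ b :=
    (le_max_right _ _).trans ((le_max_right _ _).trans hb)
  have hb0 : (0 : ℝ) < b := by linarith
  set δ : ℝ := Real.log 8 / (b * Real.log θ) with hδ
  have hδ0 : 0 < δ := by positivity
  have hδ1 : δ ≤ 1 := by
    rw [hδ, div_le_one (by positivity)]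
    rw [div_le_iff₀ hlθ] at hb2
    exact hb2
  have hθδ : (θ ^ b) ^ δ = 8 := by
    rw [← Real.rpow_natCast, ← Real.rpow_mul (by linarith)]
    rw [show (b : ℝ) * δ = Real.log 8 / Real.log θ by rw [hδ]; field_simp]
    rw [Real.rpow_def_of_pos (by linarith), mul_div_cancel₀ _ hlθ.ne', Real.exp_log (by norm_num)]
  have hθb : 0 < θ ^ b := by positivity
  refine ⟨η, δ, b, hη0, hδ0, by exact_mod_cast hb1, ?_⟩
  have h1 : (g₀ * θ ^ b) ^ (-δ) ≤ 1 / 4 := by
    rw [Real.mul_rpow hg₀0.le hθb.le, Real.rpow_neg hθb.le, hθδ]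
    have h2 : g₀ ^ (-δ) ≤ 2 := by
      rw [Real.rpow_def_of_pos hg₀0]
      rw [← Real.le_log_iff_exp_le (by norm_num)]
      have h3 : δ * |Real.log g₀| ≤ Real.log 2 := by
        rw [div_le_iff₀ (by positivity)] at hb3
        rw [hδ, div_mul_eq_mul_div, div_le_iff₀ (by positivity)]
        linarith
      have h4 : Real.log g₀ * -δ ≤ |Real.log g₀| * δ := by
        have := neg_abs_le (Real.log g₀)
        nlinarith
      linarith
    linarith
  have h5 : (L₀ * L₁ ^ b) ^ δ ≤ L₀ * 8 ^ C₁ := by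
    have h6 : (L₁ ^ b) ^ δ ≤ 8 ^ C₁ := by
      have h7 : L₁ ^ b ≤ (θ ^ b) ^ C₁ := by
        rw [← pow_mul, mul_comm, pow_mul]
        exact pow_le_pow_left₀ (by linarith) hC₁.le b
      calc (L₁ ^ b) ^ δ ≤ ((θ ^ b) ^ C₁) ^ δ :=
            Real.rpow_le_rpow (by positivity) h7 hδ0.le
        _ = ((θ ^ b) ^ δ) ^ C₁ := by
            generalize θ ^ b = y at hθb
            rw [← Real.rpow_natCast y C₁, ← Real.rpow_natCast (y ^ δ) C₁, ← Real.rpow_mul hθb.le,
              ← Real.rpow_mul hθb.le, mul_comm]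
        _ = 8 ^ C₁ := by rw [hθδ]
    have h8 : L₀ ^ δ ≤ L₀ := by
      calc L₀ ^ δ ≤ L₀ ^ (1 : ℝ) := Real.rpow_le_rpow_of_exponent_le hL₀ hδ1
        _ = L₀ := Real.rpow_one _
    rw [Real.mul_rpow (by linarith) (by positivity)]
    exact mul_le_mul h8 h6 (by positivity) (by linarith)
  have h9 : η * (L₀ * L₁ ^ b) ^ δ ≤ 1 / 8 := by
    calc η * (L₀ * L₁ ^ b) ^ δ ≤ η * (L₀ * 8 ^ C₁) := by gcongr
      _ = 1 / 8 := by
          rw [hη]
          have : L₀ ≠ 0 := by linarith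
          field_simp
          ring
  linarith

end Pool.Agent.Lib.MP_a37012_nt
end
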