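import Pool.Agent.Lib.MP_a37012_nt.Defs3
import Pool.Agent.Lib.MP_a37012_nt.Taylor

section

/-!
# Height functions on the tree of dyadic cubes
-/

set_option autoImplicit false

namespace Pool.Agent.Lib.MP_a37012_nt

section T2

variable {ι : Type}

/-- The largest value on subspaces of dimension `k`. -/
noncomputable def emm_al (φ : Submodule ℚ (ι → ℚ) → ℝ) (k : ℕ) : ℝ :=
  ⨆ W : {W : Submodule ℚ (ι → ℚ) // Module.finrank ℚ W = k}, φ W

/-- The height function. -/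
noncomputable def emm_h [Fintype ι] (w δ : ℝ) (φ : Submodule ℚ (ι → ℚ) → ℝ) : ℝ :=
  ∑ k ∈ Finset.range (Fintype.card ι + 1), w ^ (k * (Fintype.card ι - k)) * emm_al φ k ^ δ

theorem emm_al_nonneg (φ : Submodule ℚ (ι → ℚ) → ℝ) (h : ∀ W, 0 < φ W) (k : ℕ) :
    0 ≤ emm_al φ k :=
  Real.iSup_nonneg fun W => (h W).le

theorem emm_le_al (φ : Submodule ℚ (ι → ℚ) → ℝ) (M : ℝ) (h : ∀ W, φ W ≤ M)
    (W : Submodule ℚ (ι → ℚ)) (k : ℕ) (hk : Module.finrank ℚ W = k) : φ W ≤ emm_al φ k := by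
  subst hk
  unfold emm_al
  refine le_ciSup (f := fun V : {V : Submodule ℚ (ι → ℚ) //
    Module.finrank ℚ V = Module.finrank ℚ W} => φ V) ⟨M, ?_⟩ ⟨W, rfl⟩
  rintro _ ⟨V, rfl⟩
  exact h V

theorem emm_al_le (φ : Submodule ℚ (ι → ℚ) → ℝ) (k : ℕ) (M : ℝ) (hM : 0 ≤ M)
    (h : ∀ W : Submodule ℚ (ι → ℚ), Module.finrank ℚ W = k → φ W ≤ M) : emm_al φ k ≤ M :=
  Real.iSup_le (fun W => h W W.2) hM

theorem emm_star (φ : Submodule ℚ (ι → ℚ) → ℝ) (M : ℝ) (hM : ∀ W, φ W ≤ M) (h : ∀ W, 0 < φ W)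
    (k : ℕ) : IsEmpty {W : Submodule ℚ (ι → ℚ) // Module.finrank ℚ W = k} ∨
      ∃ W : Submodule ℚ (ι → ℚ), Module.finrank ℚ W = k ∧ emm_al φ k / 2 ≤ φ W ∧
        0 < emm_al φ k := by
  rcases isEmpty_or_nonempty {W : Submodule ℚ (ι → ℚ) // Module.finrank ℚ W = k} with he | hne
  · exact Or.inl he
  · right
    obtain ⟨W₀, hW₀⟩ := hne
    have hpos : 0 < emm_al φ k := lt_of_lt_of_le (h W₀) (emm_le_al φ M hM W₀ k hW₀)
    have : Nonempty {W : Submodule ℚ (ι → ℚ) // Module.finrank ℚ W = k} := ⟨⟨W₀, hW₀⟩⟩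
    have hlt : emm_al φ k / 2 < ⨆ W : {W : Submodule ℚ (ι → ℚ) // Module.finrank ℚ W = k}, φ W := by
      change emm_al φ k / 2 < emm_al φ k
      linarith
    obtain ⟨W, hW⟩ := exists_lt_of_lt_ciSup hlt
    exact ⟨W, W.2, hW.le, hpos⟩

theorem emm_step_k [Fintype ι] {U : Type} [Fintype U] (φ : Submodule ℚ (ι → ℚ) → ℝ)
    (ψ : U → Submodule ℚ (ι → ℚ) → ℝ)
    (M C Λ L δ : ℝ) (hδ : 0 < δ) (hC : 1 ≤ C) (hΛ : 1 ≤ Λ) (hL : 1 ≤ L)
    (hLam : (Λ / L) ^ δ ≤ 1 / 8)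
    (hφ : ∀ W, 0 < φ W) (hM : ∀ W, φ W ≤ M) (hψ : ∀ u W, 0 < ψ u W)
    (hψφ : ∀ u W, ψ u W ≤ Λ * φ W)
    (hsub : ∀ W W', φ W * φ W' ≤ C * φ (W ⊓ W') * φ (W ⊔ W'))
    (havg : ∀ W, W ≠ ⊥ → W ≠ ⊤ → ∑ u, ψ u W ^ δ ≤ 3 / 8 * Fintype.card U * φ W ^ δ)
    (k : ℕ) (hk : 1 ≤ k) (hkn : k + 1 ≤ Fintype.card ι) :
    (∑ u, emm_al (ψ u) k ^ δ ≤ Fintype.card U * (1 / 2 * emm_al φ k ^ δ)) ∨
    ∃ i, 1 ≤ i ∧ i ≤ k ∧ k + i ≤ Fintype.card ι ∧ ∀ u, emm_al (ψ u) k ^ δ ≤
      (Λ ^ δ * Real.sqrt ((2 * L * C) ^ δ)) *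
        Real.sqrt (emm_al φ (k - i) ^ δ * emm_al φ (k + i) ^ δ) := by
  classical
  have hMψ : ∀ u W, ψ u W ≤ Λ * M := fun u W =>
    (hψφ u W).trans (mul_le_mul_of_nonneg_left (hM W) (by linarith))
  have hfn : Module.finrank ℚ (ι → ℚ) = Fintype.card ι := Module.finrank_fintype_fun_eq_card ℚ
  rcases emm_star φ M hM hφ k with he | ⟨Ws, hWs, hstar, hpos⟩
  · left
    have h0 : ∀ χ : Submodule ℚ (ι → ℚ) → ℝ, emm_al χ k = 0 := fun χ => by
      unfold emm_al
      exact Real.iSup_of_isEmpty _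
    simp [h0, Real.zero_rpow hδ.ne']
  have halle : ∀ u, emm_al (ψ u) k ≤ Λ * emm_al φ k := by
    intro u
    apply emm_al_le _ _ _ (by positivity)
    intro W hW
    exact (hψφ u W).trans (mul_le_mul_of_nonneg_left (emm_le_al φ M hM W k hW) (by linarith))
  by_cases hcase : ∀ W : Submodule ℚ (ι → ℚ), Module.finrank ℚ W = k → W ≠ Ws →
      φ W ≤ emm_al φ k / L
  · left
    have hne_bot : Ws ≠ ⊥ := by
      rintro rfl
      rw [finrank_bot] at hWs
      omega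
    have hne_top : Ws ≠ ⊤ := by
      rintro rfl
      rw [finrank_top, hfn] at hWs
      omega
    have h1 : ∀ u, emm_al (ψ u) k ^ δ ≤ ψ u Ws ^ δ + 1 / 8 * emm_al φ k ^ δ := by
      intro u
      have hmax : emm_al (ψ u) k ≤ max (ψ u Ws) (Λ / L * emm_al φ k) := by
        apply emm_al_le _ _ _ (le_max_of_le_left (hψ u Ws).le)
        intro W hW
        by_cases hWW : W = Ws
        · rw [hWW]; exact le_max_left _ _
        · refine le_max_of_le_right ((hψφ u W).trans ?_)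
          have := mul_le_mul_of_nonneg_left (hcase W hW hWW) (by linarith : (0:ℝ) ≤ Λ)
          calc Λ * φ W ≤ Λ * (emm_al φ k / L) := this
            _ = Λ / L * emm_al φ k := by ring
      have hal0 := emm_al_nonneg (ψ u) (hψ u) k
      have hL0 : (0:ℝ) ≤ Λ / L := by positivity
      rcases le_total (ψ u Ws) (Λ / L * emm_al φ k) with hh | hh
      · rw [max_eq_right hh] at hmax
        have h2 := Real.rpow_le_rpow hal0 hmax hδ.le
        rw [Real.mul_rpow hL0 hpos.le] at h2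
        have h3 : (Λ / L) ^ δ * emm_al φ k ^ δ ≤ 1 / 8 * emm_al φ k ^ δ :=
          mul_le_mul_of_nonneg_right hLam (Real.rpow_nonneg hpos.le _)
        have h4 : 0 ≤ ψ u Ws ^ δ := Real.rpow_nonneg (hψ u Ws).le _
        linarith
      · rw [max_eq_left hh] at hmax
        have h2 := Real.rpow_le_rpow hal0 hmax hδ.le
        have h4 : 0 ≤ emm_al φ k ^ δ := Real.rpow_nonneg hpos.le _
        linarith
    have h5 : φ Ws ^ δ ≤ emm_al φ k ^ δ :=
      Real.rpow_le_rpow (hφ Ws).le (emm_le_al φ M hM Ws k hWs) hδ.le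
    have h6 : (0:ℝ) ≤ Fintype.card U := Nat.cast_nonneg _
    calc ∑ u, emm_al (ψ u) k ^ δ ≤ ∑ u, (ψ u Ws ^ δ + 1 / 8 * emm_al φ k ^ δ) :=
          Finset.sum_le_sum fun u _ => h1 u
      _ = ∑ u, ψ u Ws ^ δ + Fintype.card U * (1 / 8 * emm_al φ k ^ δ) := by
          rw [Finset.sum_add_distrib]; simp
      _ ≤ 3 / 8 * Fintype.card U * φ Ws ^ δ + Fintype.card U * (1 / 8 * emm_al φ k ^ δ) := by
          have := havg Ws hne_bot hne_top
          linarith
      _ ≤ 3 / 8 * Fintype.card U * emm_al φ k ^ δ + Fintype.card U * (1 / 8 * emm_al φ k ^ δ) := by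
          have := mul_le_mul_of_nonneg_left h5 (by positivity : (0:ℝ) ≤ 3 / 8 * Fintype.card U)
          linarith
      _ = Fintype.card U * (1 / 2 * emm_al φ k ^ δ) := by ring
  · right
    push Not at hcase
    obtain ⟨W, hW, hWW, hbig⟩ := hcase
    have hinf_le : Module.finrank ℚ (W ⊓ Ws : Submodule ℚ (ι → ℚ)) ≤ k :=
      hW ▸ Submodule.finrank_mono inf_le_left
    have hinf_lt : Module.finrank ℚ (W ⊓ Ws : Submodule ℚ (ι → ℚ)) < k := by
      rcases hinf_le.lt_or_eq with h | h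
      · exact h
      · exfalso
        apply hWW
        have e1 : W ⊓ Ws = W := Submodule.eq_of_le_of_finrank_eq inf_le_left (h.trans hW.symm)
        have e2 : W ⊓ Ws = Ws := Submodule.eq_of_le_of_finrank_eq inf_le_right (h.trans hWs.symm)
        rw [← e1, e2]
    have hsum := Submodule.finrank_sup_add_finrank_inf_eq W Ws
    rw [hW, hWs] at hsum
    have hsup_le : Module.finrank ℚ (W ⊔ Ws : Submodule ℚ (ι → ℚ)) ≤ Fintype.card ι :=
      (Submodule.finrank_le _).trans hfn.le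
    set j := Module.finrank ℚ (W ⊓ Ws : Submodule ℚ (ι → ℚ)) with hj
    refine ⟨k - j, by omega, by omega, by omega, ?_⟩
    have hkj : k - (k - j) = j := by omega
    have hkj' : Module.finrank ℚ (W ⊔ Ws : Submodule ℚ (ι → ℚ)) = k + (k - j) := by omega
    rw [hkj]
    have ha1 : φ (W ⊓ Ws) ≤ emm_al φ j := emm_le_al φ M hM _ _ rfl
    have ha2 : φ (W ⊔ Ws) ≤ emm_al φ (k + (k - j)) := emm_le_al φ M hM _ _ hkj'
    have hL0 : (0:ℝ) < L := by linarith
    have hC0 : (0:ℝ) < C := by linarith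
    have ha0 : 0 ≤ emm_al φ j := emm_al_nonneg φ hφ j
    have hb0 : 0 ≤ emm_al φ (k + (k - j)) := emm_al_nonneg φ hφ _
    have hprod : emm_al φ k ^ 2 ≤ (2 * L * C) * (emm_al φ j * emm_al φ (k + (k - j))) := by
      have h1 : emm_al φ k / L * (emm_al φ k / 2) ≤ φ W * φ Ws :=
        mul_le_mul hbig.le hstar (by positivity) (hφ W).le
      have h2 := hsub W Ws
      have h3 : φ (W ⊓ Ws) * φ (W ⊔ Ws) ≤ emm_al φ j * emm_al φ (k + (k - j)) :=
        mul_le_mul ha1 ha2 (hφ _).le ha0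
      have h4 : emm_al φ k / L * (emm_al φ k / 2) ≤
          C * (emm_al φ j * emm_al φ (k + (k - j))) := by
        calc _ ≤ _ := h1
          _ ≤ C * φ (W ⊓ Ws) * φ (W ⊔ Ws) := h2
          _ = C * (φ (W ⊓ Ws) * φ (W ⊔ Ws)) := by ring
          _ ≤ _ := mul_le_mul_of_nonneg_left h3 hC0.le
      have h5 : emm_al φ k ^ 2 = (2 * L) * (emm_al φ k / L * (emm_al φ k / 2)) := by
        field_simp
      rw [h5]
      calc (2 * L) * (emm_al φ k / L * (emm_al φ k / 2)) ≤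
          (2 * L) * (C * (emm_al φ j * emm_al φ (k + (k - j)))) :=
            mul_le_mul_of_nonneg_left h4 (by positivity)
        _ = _ := by ring
    intro u
    have h1 : emm_al (ψ u) k ^ δ ≤ Λ ^ δ * emm_al φ k ^ δ := by
      rw [← Real.mul_rpow (by linarith) hpos.le]
      exact Real.rpow_le_rpow (emm_al_nonneg _ (hψ u) k) (halle u) hδ.le
    have h2 : emm_al φ k ^ δ ≤ Real.sqrt ((2 * L * C) ^ δ) *
        Real.sqrt (emm_al φ j ^ δ * emm_al φ (k + (k - j)) ^ δ) := by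
      rw [← Real.sqrt_mul (Real.rpow_nonneg (by positivity) _), ← Real.mul_rpow ha0 hb0,
        ← Real.mul_rpow (by positivity) (mul_nonneg ha0 hb0)]
      apply Real.le_sqrt_of_sq_le
      rw [← Real.rpow_natCast, ← Real.rpow_mul hpos.le, mul_comm, Real.rpow_mul hpos.le,
        Real.rpow_natCast]
      exact Real.rpow_le_rpow (by positivity) hprod hδ.le
    calc emm_al (ψ u) k ^ δ ≤ Λ ^ δ * emm_al φ k ^ δ := h1
      _ ≤ Λ ^ δ * (Real.sqrt ((2 * L * C) ^ δ) *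
        Real.sqrt (emm_al φ j ^ δ * emm_al φ (k + (k - j)) ^ δ)) :=
          mul_le_mul_of_nonneg_left h2 (Real.rpow_nonneg (by linarith) _)
      _ = _ := by ring

theorem emm_exp (n k i : ℕ) (hi : i ≤ k) (hkn : k + i ≤ n) :
    2 * (k * (n - k)) = 2 * i ^ 2 + (k - i) * (n - (k - i)) + (k + i) * (n - (k + i)) := by
  obtain ⟨p, rfl⟩ := Nat.exists_eq_add_of_le hi
  obtain ⟨q, rfl⟩ := Nat.exists_eq_add_of_le hkn
  have e1 : i + p + i + q - (i + p) = i + q := by omega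
  have e2 : i + p - i = p := by omega
  have e3 : i + p + i + q - p = 2 * i + q := by omega
  have e4 : i + p + i + q - (i + p + i) = q := by omega
  rw [e1, e2, e3, e4]
  ring

theorem emm_h_nonneg [Fintype ι] (w δ : ℝ) (hw : 0 < w) (φ : Submodule ℚ (ι → ℚ) → ℝ)
    (h : ∀ W, 0 < φ W) : 0 ≤ emm_h w δ φ :=
  Finset.sum_nonneg fun k _ =>
    mul_nonneg (by positivity) (Real.rpow_nonneg (emm_al_nonneg φ h k) _)

theorem emm_term_le [Fintype ι] (w δ : ℝ) (hw : 0 < w) (φ : Submodule ℚ (ι → ℚ) → ℝ)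
    (h : ∀ W, 0 < φ W) (k : ℕ) (hk : k ≤ Fintype.card ι) :
    w ^ (k * (Fintype.card ι - k)) * emm_al φ k ^ δ ≤ emm_h w δ φ := by
  unfold emm_h
  exact Finset.single_le_sum (f := fun k => w ^ (k * (Fintype.card ι - k)) * emm_al φ k ^ δ)
    (fun k _ => mul_nonneg (by positivity) (Real.rpow_nonneg (emm_al_nonneg φ h k) _))
    (Finset.mem_range.mpr (by omega))

theorem emm_step [Fintype ι] {U : Type} [Fintype U] (φ : Submodule ℚ (ι → ℚ) → ℝ)
    (ψ : U → Submodule ℚ (ι → ℚ) → ℝ)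
    (M C Λ L δ w : ℝ) (hδ : 0 < δ) (hC : 1 ≤ C) (hΛ : 1 ≤ Λ) (hL : 1 ≤ L)
    (hLam : (Λ / L) ^ δ ≤ 1 / 8) (hw : 0 < w) (hw1 : w ≤ 1)
    (hwK : (Fintype.card ι + 1) * (w * (Λ ^ δ * Real.sqrt ((2 * L * C) ^ δ))) ≤ 1 / 4)
    (hφ : ∀ W, 0 < φ W) (hM : ∀ W, φ W ≤ M) (hψ : ∀ u W, 0 < ψ u W)
    (hψφ : ∀ u W, ψ u W ≤ Λ * φ W) (hbot : ∀ u, ψ u ⊥ ≤ 1) (htop : ∀ u, ψ u ⊤ ≤ 1)
    (hsub : ∀ W W', φ W * φ W' ≤ C * φ (W ⊓ W') * φ (W ⊔ W'))
    (havg : ∀ W, W ≠ ⊥ → W ≠ ⊤ → ∑ u, ψ u W ^ δ ≤ 3 / 8 * Fintype.card U * φ W ^ δ) :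
    ∑ u, emm_h w δ (ψ u) ≤
      Fintype.card U * (3 / 4 * emm_h w δ φ + (Fintype.card ι + 1)) := by
  classical
  set n := Fintype.card ι with hn
  set K : ℝ := Λ ^ δ * Real.sqrt ((2 * L * C) ^ δ) with hK
  have hK0 : 0 ≤ K := mul_nonneg (Real.rpow_nonneg (by linarith) _) (Real.sqrt_nonneg _)
  have hfn : Module.finrank ℚ (ι → ℚ) = n := Module.finrank_fintype_fun_eq_card ℚ
  have hh0 : 0 ≤ emm_h w δ φ := emm_h_nonneg w δ hw φ hφ
  have hN0 : (0:ℝ) ≤ Fintype.card U := Nat.cast_nonneg _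
  have hone : ∀ (u : U) (k : ℕ), (∀ W : Submodule ℚ (ι → ℚ), Module.finrank ℚ W = k →
      ψ u W ≤ 1) → emm_al (ψ u) k ^ δ ≤ 1 := fun u k h =>
    Real.rpow_le_one (emm_al_nonneg _ (hψ u) k) (emm_al_le _ _ _ zero_le_one h) hδ.le
  have key : ∀ k ∈ Finset.range (n + 1), w ^ (k * (n - k)) * ∑ u, emm_al (ψ u) k ^ δ ≤
      Fintype.card U * (1 / 2 * (w ^ (k * (n - k)) * emm_al φ k ^ δ) +
        w * K * emm_h w δ φ + 1) := by
    intro k hk
    have hk' : k ≤ n := by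
      have := Finset.mem_range.mp hk
      omega
    have hwk0 : 0 < w ^ (k * (n - k)) := by positivity
    have hwk1 : w ^ (k * (n - k)) ≤ 1 := pow_le_one₀ hw.le hw1
    have ht0 : 0 ≤ w ^ (k * (n - k)) * emm_al φ k ^ δ :=
      mul_nonneg hwk0.le (Real.rpow_nonneg (emm_al_nonneg φ hφ k) _)
    have hwKh : 0 ≤ w * K * emm_h w δ φ := by positivity
    have htriv : (∀ u, emm_al (ψ u) k ^ δ ≤ 1) → w ^ (k * (n - k)) * ∑ u, emm_al (ψ u) k ^ δ ≤
      Fintype.card U * (1 / 2 * (w ^ (k * (n - k)) * emm_al φ k ^ δ) +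
        w * K * emm_h w δ φ + 1) := by
      intro h
      have h1 : ∑ u, emm_al (ψ u) k ^ δ ≤ Fintype.card U := by
        calc ∑ u, emm_al (ψ u) k ^ δ ≤ ∑ _u : U, (1:ℝ) := Finset.sum_le_sum fun u _ => h u
          _ = _ := by simp
      have h2 : 0 ≤ ∑ u, emm_al (ψ u) k ^ δ :=
        Finset.sum_nonneg fun u _ => Real.rpow_nonneg (emm_al_nonneg _ (hψ u) k) _
      calc w ^ (k * (n - k)) * ∑ u, emm_al (ψ u) k ^ δ ≤ 1 * ∑ u, emm_al (ψ u) k ^ δ :=
            mul_le_mul_of_nonneg_right hwk1 h2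
        _ ≤ Fintype.card U * 1 := by linarith
        _ ≤ _ := mul_le_mul_of_nonneg_left (by linarith) hN0
    rcases Nat.eq_zero_or_pos k with hk0 | hk0
    · apply htriv
      intro u
      apply hone
      intro W hW
      rw [hk0] at hW
      rw [Submodule.finrank_eq_zero.mp hW]
      exact hbot u
    rcases hk'.eq_or_lt with hkn | hkn
    · apply htriv
      intro u
      apply hone
      intro W hW
      rw [Submodule.eq_top_of_finrank_eq (hW.trans (hkn.trans hfn.symm))]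
      exact htop u
    rcases emm_step_k φ ψ M C Λ L δ hδ hC hΛ hL hLam hφ hM hψ hψφ hsub havg k hk0
      (by omega) with h | ⟨i, hi1, hik, hin, h⟩
    · calc w ^ (k * (n - k)) * ∑ u, emm_al (ψ u) k ^ δ ≤
          w ^ (k * (n - k)) * (Fintype.card U * (1 / 2 * emm_al φ k ^ δ)) :=
            mul_le_mul_of_nonneg_left h hwk0.le
        _ = Fintype.card U * (1 / 2 * (w ^ (k * (n - k)) * emm_al φ k ^ δ)) := by ring
        _ ≤ _ := mul_le_mul_of_nonneg_left (by linarith) hN0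
    · set a := emm_al φ (k - i) ^ δ with ha
      set b := emm_al φ (k + i) ^ δ with hb
      have ha0 : 0 ≤ a := Real.rpow_nonneg (emm_al_nonneg φ hφ _) _
      have hb0 : 0 ≤ b := Real.rpow_nonneg (emm_al_nonneg φ hφ _) _
      have hA := emm_term_le w δ hw φ hφ (k - i) (by omega)
      have hB := emm_term_le w δ hw φ hφ (k + i) (by omega)
      rw [← hn, ← ha] at hA
      rw [← hn, ← hb] at hB
      have hsq : w ^ (k * (n - k)) * Real.sqrt (a * b) ≤ w * emm_h w δ φ := by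
        have e1 : w ^ (k * (n - k)) * Real.sqrt (a * b) =
            Real.sqrt ((w ^ (k * (n - k))) ^ 2 * (a * b)) := by
          rw [Real.sqrt_mul (sq_nonneg (w ^ (k * (n - k)))) (a * b), Real.sqrt_sq hwk0.le]
        rw [e1]
        apply Real.sqrt_le_iff.mpr
        refine ⟨by positivity, ?_⟩
        have e2 : (w ^ (k * (n - k))) ^ 2 * (a * b) = w ^ (2 * i ^ 2) *
            ((w ^ ((k - i) * (n - (k - i))) * a) * (w ^ ((k + i) * (n - (k + i))) * b)) := by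
          rw [← pow_mul, mul_comm (k * (n - k)) 2, emm_exp n k i hik hin, pow_add, pow_add]
          ring
        rw [e2, mul_pow]
        have e3 : w ^ (2 * i ^ 2) ≤ w ^ 2 := by
          apply pow_le_pow_of_le_one hw.le hw1
          nlinarith
        have e4 : (w ^ ((k - i) * (n - (k - i))) * a) * (w ^ ((k + i) * (n - (k + i))) * b) ≤
            emm_h w δ φ ^ 2 := by
          rw [sq]
          exact mul_le_mul hA hB (by positivity) hh0
        exact mul_le_mul e3 e4 (by positivity) (by positivity)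
      calc w ^ (k * (n - k)) * ∑ u, emm_al (ψ u) k ^ δ ≤
          w ^ (k * (n - k)) * ∑ _u : U, K * Real.sqrt (a * b) :=
            mul_le_mul_of_nonneg_left (Finset.sum_le_sum fun u _ => h u) hwk0.le
        _ = Fintype.card U * (K * (w ^ (k * (n - k)) * Real.sqrt (a * b))) := by
            simp; ring
        _ ≤ Fintype.card U * (K * (w * emm_h w δ φ)) :=
            mul_le_mul_of_nonneg_left (mul_le_mul_of_nonneg_left hsq hK0) hN0
        _ = Fintype.card U * (w * K * emm_h w δ φ) := by ring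
        _ ≤ _ := mul_le_mul_of_nonneg_left (by linarith) hN0
  have hswap : ∑ u, emm_h w δ (ψ u) =
      ∑ k ∈ Finset.range (n + 1), w ^ (k * (n - k)) * ∑ u, emm_al (ψ u) k ^ δ := by
    unfold emm_h
    rw [Finset.sum_comm]
    apply Finset.sum_congr rfl
    intro k _
    rw [Finset.mul_sum]
  rw [hswap]
  calc ∑ k ∈ Finset.range (n + 1), w ^ (k * (n - k)) * ∑ u, emm_al (ψ u) k ^ δ ≤
      ∑ k ∈ Finset.range (n + 1), Fintype.card U *
        (1 / 2 * (w ^ (k * (n - k)) * emm_al φ k ^ δ) + w * K * emm_h w δ φ + 1) :=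
        Finset.sum_le_sum key
    _ = Fintype.card U * (1 / 2 * emm_h w δ φ + (n + 1) * (w * K) * emm_h w δ φ + (n + 1)) := by
        rw [← Finset.mul_sum, Finset.sum_add_distrib, Finset.sum_add_distrib, ← Finset.mul_sum]
        simp only [Finset.sum_const, Finset.card_range, nsmul_eq_mul, mul_one]
        unfold emm_h
        push_cast
        ring
    _ ≤ Fintype.card U * (3 / 4 * emm_h w δ φ + (n + 1)) := by
        apply mul_le_mul_of_nonneg_left _ hN0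
        have := mul_le_mul_of_nonneg_right hwK hh0
        linarith

theorem emm_card (d N : ℕ) : (Fintype.card (Fin d → Fin N) : ℝ) = (N : ℝ) ^ d := by simp

theorem emm_markov {U : Type} [Fintype U] (P : U → Prop) (f : U → ℝ) (c : ℝ)
    (hf : ∀ u, 0 ≤ f u) (h : ∀ u, P u → c ≤ f u) : (Nat.card {u // P u} : ℝ) * c ≤ ∑ u, f u := by
  classical
  rw [Nat.card_eq_fintype_card, Fintype.card_subtype, ← nsmul_eq_mul, ← Finset.sum_const]
  refine le_trans (Finset.sum_le_sum (g := f) ?_)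
    (Finset.sum_le_sum_of_subset_of_nonneg (Finset.filter_subset _ _) (fun u _ _ => hf u))
  intro u hu
  exact h u (Finset.mem_filter.mp hu).2

/-- Descendants of descendants. -/
theorem emm_equiv (d b t : ℕ) : ∃ e : (Fin d → Fin (2 ^ (b * t))) × (Fin d → Fin (2 ^ b)) ≃
    (Fin d → Fin (2 ^ (b * (t + 1)))),
    ∀ p i, ((e p i : ℕ) : ℤ) = 2 ^ b * ((p.1 i : ℕ) : ℤ) + ((p.2 i : ℕ) : ℤ) := by
  have hcard : 2 ^ (b * t) * 2 ^ b = 2 ^ (b * (t + 1)) := by
    rw [← pow_add]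
    rfl
  refine ⟨(Equiv.arrowProdEquivProdArrow (Fin d) (fun _ => Fin (2 ^ (b * t)))
    (fun _ => Fin (2 ^ b))).symm.trans (Equiv.arrowCongr (Equiv.refl (Fin d))
      (finProdFinEquiv.trans (finCongr hcard))), ?_⟩
  intro p i
  simp [Equiv.arrowCongr, Equiv.arrowProdEquivProdArrow]
  ring

theorem emm_avg (d : ℕ) (b : ℕ) (Λ G η δ : ℝ) (hΛ : 1 ≤ Λ) (hG : 0 < G) (hδ : 0 < δ)
    (hnum : G ^ (-δ) + η * Λ ^ δ ≤ 3 / 8) (x : ℝ) (hx : 0 < x)
    (y : (Fin d → Fin (2 ^ b)) → ℝ) (hy : ∀ u, 0 < y u) (hxy : ∀ u, x ≤ Λ * y u)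
    (hbad : (Nat.card {u : Fin d → Fin (2 ^ b) // y u < G * x} : ℝ) ≤ η * (2 ^ b) ^ d) :
    ∑ u, (y u)⁻¹ ^ δ ≤ 3 / 8 * Fintype.card (Fin d → Fin (2 ^ b)) * x⁻¹ ^ δ := by
  classical
  have hcard : (Fintype.card (Fin d → Fin (2 ^ b)) : ℝ) = (2 ^ b) ^ d := by simp
  have hx0 : 0 ≤ x⁻¹ ^ δ := Real.rpow_nonneg (by positivity) _
  have h1 : ∀ u, (y u)⁻¹ ^ δ ≤ G ^ (-δ) * x⁻¹ ^ δ +
      (if y u < G * x then Λ ^ δ * x⁻¹ ^ δ else 0) := by
    intro u
    have hG0 : 0 ≤ G ^ (-δ) * x⁻¹ ^ δ := mul_nonneg (Real.rpow_nonneg hG.le _) hx0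
    split_ifs with h
    · have h2 : (y u)⁻¹ ≤ Λ * x⁻¹ := by
        rw [inv_le_iff_one_le_mul₀ (hy u)]
        have := hxy u
        have h3 : x * x⁻¹ ≤ Λ * y u * x⁻¹ := mul_le_mul_of_nonneg_right this (by positivity)
        rw [mul_inv_cancel₀ hx.ne'] at h3
        linarith
      have h4 : (y u)⁻¹ ^ δ ≤ Λ ^ δ * x⁻¹ ^ δ := by
        rw [← Real.mul_rpow (by linarith) (by positivity)]
        exact Real.rpow_le_rpow (inv_nonneg.mpr (hy u).le) h2 hδ.le
      linarith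
    · push Not at h
      have h2 : (y u)⁻¹ ≤ G⁻¹ * x⁻¹ := by
        rw [← mul_inv]
        exact inv_anti₀ (by positivity) h
      have h4 : (y u)⁻¹ ^ δ ≤ G⁻¹ ^ δ * x⁻¹ ^ δ := by
        rw [← Real.mul_rpow (by positivity) (by positivity)]
        exact Real.rpow_le_rpow (inv_nonneg.mpr (hy u).le) h2 hδ.le
      rw [Real.inv_rpow hG.le, ← Real.rpow_neg hG.le] at h4
      linarith
  have h2 : ∑ u, (if y u < G * x then Λ ^ δ * x⁻¹ ^ δ else 0) =
      (Nat.card {u : Fin d → Fin (2 ^ b) // y u < G * x} : ℝ) * (Λ ^ δ * x⁻¹ ^ δ) := by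
    rw [Finset.sum_ite, Finset.sum_const_zero, add_zero, Finset.sum_const, nsmul_eq_mul,
      Nat.card_eq_fintype_card, Fintype.card_subtype]
  calc ∑ u, (y u)⁻¹ ^ δ ≤ ∑ u, (G ^ (-δ) * x⁻¹ ^ δ +
      (if y u < G * x then Λ ^ δ * x⁻¹ ^ δ else 0)) := Finset.sum_le_sum fun u _ => h1 u
    _ = (2 ^ b) ^ d * (G ^ (-δ) * x⁻¹ ^ δ) +
        (Nat.card {u : Fin d → Fin (2 ^ b) // y u < G * x} : ℝ) * (Λ ^ δ * x⁻¹ ^ δ) := by
        rw [Finset.sum_add_distrib, h2, Finset.sum_const, Finset.card_univ, nsmul_eq_mul, hcard]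
    _ ≤ (2 ^ b) ^ d * (G ^ (-δ) * x⁻¹ ^ δ) + η * (2 ^ b) ^ d * (Λ ^ δ * x⁻¹ ^ δ) := by
        have := mul_le_mul_of_nonneg_right hbad
          (mul_nonneg (Real.rpow_nonneg (by linarith : (0:ℝ) ≤ Λ) δ) hx0)
        linarith
    _ = (G ^ (-δ) + η * Λ ^ δ) * ((2 ^ b) ^ d * x⁻¹ ^ δ) := by ring
    _ ≤ 3 / 8 * ((2 ^ b) ^ d * x⁻¹ ^ δ) := mul_le_mul_of_nonneg_right hnum (by positivity)
    _ = _ := by rw [hcard]; ring

theorem emm (d : ℕ) (ι : Type) [Fintype ι] [DecidableEq ι] (b : ℕ) (C Λ G η δ c₀ : ℝ)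
    (hC : 1 ≤ C) (hΛ : 1 ≤ Λ) (hG : 0 < G) (hη : 0 ≤ η) (hδ : 0 < δ)
    (hnum : G ^ (-δ) + η * Λ ^ δ ≤ 3 / 8) (hc₀ : 0 < c₀) :
    ∃ A : ℝ, 1 ≤ A ∧ ∀ (Ψ : ℕ → (Fin d → ℤ) → Submodule ℚ (ι → ℚ) → ℝ) (k₀ : Fin d → ℤ),
      (∀ (t : ℕ) (k : Fin d → ℤ), (∀ i, 2 ^ (b * t) * k₀ i ≤ k i ∧ k i < 2 ^ (b * t) * (k₀ i + 1)) →
        (∀ W, 0 < Ψ t k W) ∧ 1 ≤ Ψ t k ⊥ ∧ 1 ≤ Ψ t k ⊤ ∧
        (∀ W W', Ψ t k (W ⊓ W') * Ψ t k (W ⊔ W') ≤ C * Ψ t k W * Ψ t k W') ∧
        (∀ W, ∀ u : Fin d → Fin (2 ^ b),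
          Ψ t k W ≤ Λ * Ψ (t + 1) (fun i => 2 ^ b * k i + (u i : ℕ)) W) ∧
        (∀ W, W ≠ ⊥ → W ≠ ⊤ →
          (Nat.card {u : Fin d → Fin (2 ^ b) //
            Ψ (t + 1) (fun i => 2 ^ b * k i + (u i : ℕ)) W < G * Ψ t k W} : ℝ) ≤
            η * (2 ^ b) ^ d)) →
      (∀ W, c₀ ≤ Ψ 0 k₀ W) →
      ∀ t : ℕ, (Nat.card {u : Fin d → Fin (2 ^ (b * t)) //
          ∃ W, Ψ t (fun i => 2 ^ (b * t) * k₀ i + (u i : ℕ)) W < A⁻¹} : ℝ) ≤
          1 / 8 * (2 ^ (b * t)) ^ d := by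
  classical
  set n := Fintype.card ι with hn
  have hΛ0 : (0:ℝ) < Λ := by linarith
  -- choice of `L`
  obtain ⟨L, hL1, hL⟩ : ∃ L : ℝ, 1 ≤ L ∧ (Λ / L) ^ δ ≤ 1 / 8 := by
    refine ⟨Λ * 8 ^ (1 / δ), ?_, ?_⟩
    · have h8 : (1:ℝ) ≤ 8 ^ (1 / δ) := Real.one_le_rpow (by norm_num) (by positivity)
      nlinarith
    · have h8 : (0:ℝ) < 8 ^ (1 / δ) := by positivity
      have e : Λ / (Λ * 8 ^ (1 / δ)) = (8 ^ (1 / δ))⁻¹ := by
        field_simp
      rw [e, Real.inv_rpow h8.le, ← Real.rpow_mul (by norm_num), one_div_mul_cancel hδ.ne',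
        Real.rpow_one]
      norm_num
  set K : ℝ := Λ ^ δ * Real.sqrt ((2 * L * C) ^ δ) with hK
  have hK0 : 0 ≤ K := mul_nonneg (Real.rpow_nonneg (by linarith) _) (Real.sqrt_nonneg _)
  -- choice of `w`
  obtain ⟨w, hw, hw1, hwK⟩ : ∃ w : ℝ, 0 < w ∧ w ≤ 1 ∧ (n + 1) * (w * K) ≤ 1 / 4 := by
    refine ⟨1 / (4 * (n + 1) * (K + 1)), by positivity, ?_, ?_⟩
    · rw [div_le_one (by positivity)]
      have h1 : (0:ℝ) ≤ n := Nat.cast_nonneg _
      nlinarith [mul_nonneg h1 hK0]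
    · have h1 : (0:ℝ) ≤ n := Nat.cast_nonneg _
      rw [show ((n:ℝ) + 1) * (1 / (4 * (n + 1) * (K + 1)) * K) = 1 / 4 * (K / (K + 1)) by
        field_simp]
      have : K / (K + 1) ≤ 1 := by
        rw [div_le_one (by positivity)]
        linarith
      linarith
  set B : ℝ := (n + 1) * (c₀⁻¹ ^ δ) + 4 * (n + 1) with hB
  have hB0 : 0 < B := by
    have : 0 ≤ c₀⁻¹ ^ δ := Real.rpow_nonneg (by positivity) _
    have h1 : (0:ℝ) ≤ n := Nat.cast_nonneg _
    positivity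
  -- choice of `A`
  obtain ⟨A, hA1, hA⟩ : ∃ A : ℝ, 1 ≤ A ∧ 8 * B ≤ w ^ (n * n) * A ^ δ := by
    refine ⟨max 1 ((8 * B / w ^ (n * n)) ^ (1 / δ)), le_max_left _ _, ?_⟩
    have h1 : (8 * B / w ^ (n * n)) ≤ (max 1 ((8 * B / w ^ (n * n)) ^ (1 / δ))) ^ δ := by
      calc (8 * B / w ^ (n * n)) = ((8 * B / w ^ (n * n)) ^ (1 / δ)) ^ δ := by
            rw [← Real.rpow_mul (by positivity), one_div_mul_cancel hδ.ne', Real.rpow_one]
        _ ≤ _ := Real.rpow_le_rpow (by positivity) (le_max_right _ _) hδ.le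
    calc 8 * B = w ^ (n * n) * (8 * B / w ^ (n * n)) := by field_simp
      _ ≤ _ := mul_le_mul_of_nonneg_left h1 (by positivity)
  refine ⟨A, hA1, ?_⟩
  intro Ψ k₀ hΨ h0 t
  have hA0 : 0 < A := by linarith
  -- range of the indices
  have hrange : ∀ (t : ℕ) (u : Fin d → Fin (2 ^ (b * t))), ∀ i,
      2 ^ (b * t) * k₀ i ≤ (fun i => 2 ^ (b * t) * k₀ i + ((u i : ℕ) : ℤ)) i ∧
      (fun i => 2 ^ (b * t) * k₀ i + ((u i : ℕ) : ℤ)) i < 2 ^ (b * t) * (k₀ i + 1) := by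
    intro t u i
    have h1 : ((u i : ℕ) : ℤ) < 2 ^ (b * t) := by
      have := (u i).2
      exact_mod_cast this
    have h2 : (0:ℤ) ≤ ((u i : ℕ) : ℤ) := Int.natCast_nonneg _
    constructor
    · simp only
      linarith
    · simp only
      linarith
  have hchild : ∀ (t : ℕ) (e : (Fin d → Fin (2 ^ (b * t))) × (Fin d → Fin (2 ^ b)) ≃
      (Fin d → Fin (2 ^ (b * (t + 1))))),
      (∀ p i, ((e p i : ℕ) : ℤ) = 2 ^ b * ((p.1 i : ℕ) : ℤ) + ((p.2 i : ℕ) : ℤ)) → ∀ p,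
      (fun i => 2 ^ (b * (t + 1)) * k₀ i + ((e p i : ℕ) : ℤ)) =
        fun i => 2 ^ b * (2 ^ (b * t) * k₀ i + ((p.1 i : ℕ) : ℤ)) + ((p.2 i : ℕ) : ℤ) := by
    intro t e he p
    funext i
    rw [he p i, Nat.mul_add, mul_one, pow_add]
    ring
  -- bounds
  have hbdd : ∀ (t : ℕ) (u : Fin d → Fin (2 ^ (b * t))) (W : Submodule ℚ (ι → ℚ)),
      c₀ ≤ Λ ^ t * Ψ t (fun i => 2 ^ (b * t) * k₀ i + ((u i : ℕ) : ℤ)) W := by
    intro t
    induction t with
    | zero =>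
      intro u W
      have e1 : (fun i => 2 ^ (b * 0) * k₀ i + ((u i : ℕ) : ℤ)) = k₀ := by
        funext i
        have h2 : ((u i : ℕ) : ℤ) = 0 := by
          have h3 := (u i).2
          simp only [mul_zero, pow_zero] at h3
          omega
        rw [h2]
        simp
      rw [e1, pow_zero, one_mul]
      exact h0 W
    | succ t ih =>
      intro u W
      obtain ⟨e, he⟩ := emm_equiv d b t
      obtain ⟨p, rfl⟩ := e.surjective u
      rw [hchild t e he p]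
      have h1 := ih p.1 W
      obtain ⟨-, -, -, -, h2, -⟩ := hΨ t _ (hrange t p.1)
      have h3 := h2 W p.2
      calc c₀ ≤ Λ ^ t * Ψ t (fun i => 2 ^ (b * t) * k₀ i + ((p.1 i : ℕ) : ℤ)) W := h1
        _ ≤ Λ ^ t * (Λ * Ψ (t + 1) (fun i => 2 ^ b * (2 ^ (b * t) * k₀ i + ((p.1 i : ℕ) : ℤ)) +
            ((p.2 i : ℕ) : ℤ)) W) := mul_le_mul_of_nonneg_left h3 (by positivity)
        _ = _ := by ring
  -- the sum of the heights
  have hsum : ∀ t : ℕ, ∑ u : Fin d → Fin (2 ^ (b * t)), emm_h w δ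
      (fun W => (Ψ t (fun i => 2 ^ (b * t) * k₀ i + ((u i : ℕ) : ℤ)) W)⁻¹) ≤
      (2 ^ (b * t)) ^ d * B := by
    intro t
    induction t with
    | zero =>
      have hle : ∀ u : Fin d → Fin (2 ^ (b * 0)), emm_h w δ
          (fun W => (Ψ 0 (fun i => 2 ^ (b * 0) * k₀ i + ((u i : ℕ) : ℤ)) W)⁻¹) ≤ B := by
        intro u
        unfold emm_h
        have hpos := (hΨ 0 _ (hrange 0 u)).1
        calc _ ≤ ∑ k ∈ Finset.range (n + 1), c₀⁻¹ ^ δ := by
              apply Finset.sum_le_sum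
              intro k _
              have h1 : emm_al (fun W => (Ψ 0 (fun i => 2 ^ (b * 0) * k₀ i + ((u i : ℕ) : ℤ)) W)⁻¹) k
                  ≤ c₀⁻¹ := by
                apply emm_al_le _ _ _ (by positivity)
                intro W _
                have h2 := hbdd 0 u W
                rw [pow_zero, one_mul] at h2
                exact inv_anti₀ hc₀ h2
              have h3 : 0 ≤ emm_al (fun W =>
                  (Ψ 0 (fun i => 2 ^ (b * 0) * k₀ i + ((u i : ℕ) : ℤ)) W)⁻¹) k :=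
                emm_al_nonneg _ (fun W => inv_pos.mpr (hpos W)) k
              calc _ ≤ 1 * (emm_al (fun W =>
                  (Ψ 0 (fun i => 2 ^ (b * 0) * k₀ i + ((u i : ℕ) : ℤ)) W)⁻¹) k) ^ δ :=
                    mul_le_mul_of_nonneg_right (pow_le_one₀ hw.le hw1) (Real.rpow_nonneg h3 _)
                _ ≤ _ := by
                    rw [one_mul]
                    exact Real.rpow_le_rpow h3 h1 hδ.le
          _ = (n + 1) * c₀⁻¹ ^ δ := by simp
          _ ≤ B := by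
              rw [hB]
              have h1 : (0:ℝ) ≤ n := Nat.cast_nonneg _
              linarith
      calc _ ≤ ∑ _u : Fin d → Fin (2 ^ (b * 0)), B := Finset.sum_le_sum fun u _ => hle u
        _ = _ := by
            rw [Finset.sum_const, Finset.card_univ, nsmul_eq_mul, emm_card]
            push_cast
            rfl
    | succ t ih =>
      obtain ⟨e, he⟩ := emm_equiv d b t
      rw [← e.sum_comp, Fintype.sum_prod_type]
      have hstep : ∀ u : Fin d → Fin (2 ^ (b * t)), ∑ c : Fin d → Fin (2 ^ b), emm_h w δ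
          (fun W => (Ψ (t + 1) (fun i => 2 ^ (b * (t + 1)) * k₀ i +
            ((e (u, c) i : ℕ) : ℤ)) W)⁻¹) ≤ (2 ^ b) ^ d * (3 / 4 * emm_h w δ
          (fun W => (Ψ t (fun i => 2 ^ (b * t) * k₀ i + ((u i : ℕ) : ℤ)) W)⁻¹) + (n + 1)) := by
        intro u
        obtain ⟨hp1, hp2, hp3, hp4, hp5, hp6⟩ := hΨ t _ (hrange t u)
        have hcard : (Fintype.card (Fin d → Fin (2 ^ b)) : ℝ) = (2 ^ b) ^ d := by simp
        rw [← hcard]
        have hpc : ∀ c : Fin d → Fin (2 ^ b), (∀ W, 0 < Ψ (t + 1) (fun i => 2 ^ (b * (t + 1)) * k₀ i +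
            ((e (u, c) i : ℕ) : ℤ)) W) ∧ 1 ≤ Ψ (t + 1) (fun i => 2 ^ (b * (t + 1)) * k₀ i +
            ((e (u, c) i : ℕ) : ℤ)) ⊥ ∧ 1 ≤ Ψ (t + 1) (fun i => 2 ^ (b * (t + 1)) * k₀ i +
            ((e (u, c) i : ℕ) : ℤ)) ⊤ := fun c =>
          ⟨(hΨ (t + 1) _ (hrange (t + 1) (e (u, c)))).1,
            (hΨ (t + 1) _ (hrange (t + 1) (e (u, c)))).2.1,
            (hΨ (t + 1) _ (hrange (t + 1) (e (u, c)))).2.2.1⟩
        have hle : ∀ (c : Fin d → Fin (2 ^ b)) (W : Submodule ℚ (ι → ℚ)),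
            Ψ t (fun i => 2 ^ (b * t) * k₀ i + ((u i : ℕ) : ℤ)) W ≤
            Λ * Ψ (t + 1) (fun i => 2 ^ (b * (t + 1)) * k₀ i +
            ((e (u, c) i : ℕ) : ℤ)) W := by
          intro c W
          rw [hchild t e he (u, c)]
          exact hp5 W c
        apply emm_step (ι := ι) (fun W => (Ψ t (fun i => 2 ^ (b * t) * k₀ i +
          ((u i : ℕ) : ℤ)) W)⁻¹) (fun c W => (Ψ (t + 1) (fun i => 2 ^ (b * (t + 1)) * k₀ i +
            ((e (u, c) i : ℕ) : ℤ)) W)⁻¹) (Λ ^ t / c₀) C Λ L δ w hδ hC hΛ hL1 hL hw hw1 hwK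
        · exact fun W => inv_pos.mpr (hp1 W)
        · intro W
          rw [inv_le_comm₀ (hp1 W) (by positivity), inv_div, div_le_iff₀ (by positivity)]
          have := hbdd t u W
          linarith
        · exact fun c W => inv_pos.mpr ((hpc c).1 W)
        · intro c W
          have h1 := hle c W
          have h2 := (hpc c).1 W
          have h3 := hp1 W
          rw [inv_le_iff_one_le_mul₀ h2]
          calc (1:ℝ) = Ψ t (fun i => 2 ^ (b * t) * k₀ i + ((u i : ℕ) : ℤ)) W *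
                (Ψ t (fun i => 2 ^ (b * t) * k₀ i + ((u i : ℕ) : ℤ)) W)⁻¹ :=
                (mul_inv_cancel₀ h3.ne').symm
            _ ≤ (Λ * Ψ (t + 1) (fun i => 2 ^ (b * (t + 1)) * k₀ i +
                ((e (u, c) i : ℕ) : ℤ)) W) * (Ψ t (fun i => 2 ^ (b * t) * k₀ i +
                  ((u i : ℕ) : ℤ)) W)⁻¹ := mul_le_mul_of_nonneg_right h1 (inv_nonneg.mpr h3.le)
            _ = _ := by ring
        · exact fun c => inv_le_one_of_one_le₀ (hpc c).2.1
        · exact fun c => inv_le_one_of_one_le₀ (hpc c).2.2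
        · intro W W'
          have h1 := hp4 W W'
          have a1 := hp1 W
          have a2 := hp1 W'
          have a3 := hp1 (W ⊓ W')
          have a4 := hp1 (W ⊔ W')
          rw [← mul_inv, mul_assoc, ← mul_inv, inv_le_iff_one_le_mul₀ (by positivity)]
          calc (1:ℝ) = (Ψ t (fun i => 2 ^ (b * t) * k₀ i + ((u i : ℕ) : ℤ)) (W ⊓ W') *
                Ψ t (fun i => 2 ^ (b * t) * k₀ i + ((u i : ℕ) : ℤ)) (W ⊔ W')) *
                (Ψ t (fun i => 2 ^ (b * t) * k₀ i + ((u i : ℕ) : ℤ)) (W ⊓ W') *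
                Ψ t (fun i => 2 ^ (b * t) * k₀ i + ((u i : ℕ) : ℤ)) (W ⊔ W'))⁻¹ :=
                (mul_inv_cancel₀ (by positivity)).symm
            _ ≤ (C * Ψ t (fun i => 2 ^ (b * t) * k₀ i + ((u i : ℕ) : ℤ)) W *
                Ψ t (fun i => 2 ^ (b * t) * k₀ i + ((u i : ℕ) : ℤ)) W') *
                (Ψ t (fun i => 2 ^ (b * t) * k₀ i + ((u i : ℕ) : ℤ)) (W ⊓ W') *
                Ψ t (fun i => 2 ^ (b * t) * k₀ i + ((u i : ℕ) : ℤ)) (W ⊔ W'))⁻¹ :=
                mul_le_mul_of_nonneg_right h1 (by positivity)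
            _ = _ := by ring
        · intro W hWb hWt
          have h1 := hp6 W hWb hWt
          have h2 := emm_avg d b Λ G η δ hΛ hG hδ hnum
            (Ψ t (fun i => 2 ^ (b * t) * k₀ i + ((u i : ℕ) : ℤ)) W) (hp1 W)
            (fun c => Ψ (t + 1) (fun i => 2 ^ (b * (t + 1)) * k₀ i +
              ((e (u, c) i : ℕ) : ℤ)) W) (fun c => (hpc c).1 W) (fun c => hle c W)
          apply h2
          convert h1 using 5 with c
          rw [hchild t e he (u, c)]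
      calc _ ≤ ∑ u : Fin d → Fin (2 ^ (b * t)), (2 ^ b) ^ d * (3 / 4 * emm_h w δ
          (fun W => (Ψ t (fun i => 2 ^ (b * t) * k₀ i + ((u i : ℕ) : ℤ)) W)⁻¹) + (n + 1)) :=
            Finset.sum_le_sum fun u _ => hstep u
        _ = (2 ^ b) ^ d * (3 / 4 * (∑ u : Fin d → Fin (2 ^ (b * t)), emm_h w δ
          (fun W => (Ψ t (fun i => 2 ^ (b * t) * k₀ i + ((u i : ℕ) : ℤ)) W)⁻¹)) +
            (2 ^ (b * t)) ^ d * (n + 1)) := by
            rw [← Finset.mul_sum, Finset.sum_add_distrib, ← Finset.mul_sum, Finset.sum_const,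
              Finset.card_univ, nsmul_eq_mul, emm_card]
            push_cast
            rfl
        _ ≤ (2 ^ b) ^ d * (3 / 4 * ((2 ^ (b * t)) ^ d * B) + (2 ^ (b * t)) ^ d * (n + 1)) := by
            apply mul_le_mul_of_nonneg_left _ (by positivity)
            linarith
        _ = ((2 ^ b) ^ d * (2 ^ (b * t)) ^ d) * (3 / 4 * B + (n + 1)) := by ring
        _ ≤ ((2 ^ b) ^ d * (2 ^ (b * t)) ^ d) * B := by
            apply mul_le_mul_of_nonneg_left _ (by positivity)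
            have h1 : 0 ≤ c₀⁻¹ ^ δ := Real.rpow_nonneg (by positivity) _
            have h2 : (0:ℝ) ≤ n := Nat.cast_nonneg _
            have h3 : 4 * (n + 1) ≤ B := by
              rw [hB]
              have := mul_nonneg (by linarith : (0:ℝ) ≤ n + 1) h1
              linarith
            linarith
        _ = _ := by
            rw [← mul_pow, ← pow_add, Nat.mul_add, mul_one, add_comm b]
  -- Markov
  have hfin := hsum t
  have hcardbad : (Nat.card {u : Fin d → Fin (2 ^ (b * t)) //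
      ∃ W, Ψ t (fun i => 2 ^ (b * t) * k₀ i + ((u i : ℕ) : ℤ)) W < A⁻¹} : ℝ) *
      (w ^ (n * n) * A ^ δ) ≤ ∑ u : Fin d → Fin (2 ^ (b * t)), emm_h w δ
      (fun W => (Ψ t (fun i => 2 ^ (b * t) * k₀ i + ((u i : ℕ) : ℤ)) W)⁻¹) := by
    have hpos : ∀ u : Fin d → Fin (2 ^ (b * t)), ∀ W, 0 <
        (Ψ t (fun i => 2 ^ (b * t) * k₀ i + ((u i : ℕ) : ℤ)) W)⁻¹ := fun u W =>
      inv_pos.mpr ((hΨ t _ (hrange t u)).1 W)
    apply emm_markov
    · exact fun u => emm_h_nonneg w δ hw _ (hpos u)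
    intro u hu
    obtain ⟨W, hW⟩ := hu
    have hk : Module.finrank ℚ W ≤ n :=
      (Submodule.finrank_le _).trans (Module.finrank_fintype_fun_eq_card ℚ).le
    have h1 := emm_term_le w δ hw _ (hpos u) (Module.finrank ℚ W) hk
    refine le_trans ?_ h1
    have h2 : A ≤ emm_al (fun W => (Ψ t (fun i => 2 ^ (b * t) * k₀ i +
        ((u i : ℕ) : ℤ)) W)⁻¹) (Module.finrank ℚ W) := by
      refine le_trans ?_ (emm_le_al _ (Λ ^ t / c₀) ?_ W _ rfl)
      · rw [le_inv_comm₀ hA0 ((hΨ t _ (hrange t u)).1 W)]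
        exact hW.le
      · intro V
        have hV := (hΨ t _ (hrange t u)).1 V
        rw [inv_le_comm₀ hV (by positivity), inv_div, div_le_iff₀ (by positivity)]
        have := hbdd t u V
        linarith
    apply mul_le_mul _ (Real.rpow_le_rpow hA0.le h2 hδ.le) (Real.rpow_nonneg hA0.le _)
      (by positivity)
    apply pow_le_pow_of_le_one hw.le hw1
    exact Nat.mul_le_mul hk (Nat.sub_le _ _)
  have hN0 : (0:ℝ) ≤ (Nat.card {u : Fin d → Fin (2 ^ (b * t)) //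
      ∃ W, Ψ t (fun i => 2 ^ (b * t) * k₀ i + ((u i : ℕ) : ℤ)) W < A⁻¹} : ℝ) :=
    Nat.cast_nonneg _
  have h9 := mul_le_mul_of_nonneg_left hA hN0
  have h10 : (Nat.card {u : Fin d → Fin (2 ^ (b * t)) //
      ∃ W, Ψ t (fun i => 2 ^ (b * t) * k₀ i + ((u i : ℕ) : ℤ)) W < A⁻¹} : ℝ) * (8 * B) ≤
      (2 ^ (b * t)) ^ d * B := by linarith
  have h11 : (Nat.card {u : Fin d → Fin (2 ^ (b * t)) //
      ∃ W, Ψ t (fun i => 2 ^ (b * t) * k₀ i + ((u i : ℕ) : ℤ)) W < A⁻¹} : ℝ) * 8 ≤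
      (2 ^ (b * t)) ^ d := by
    by_contra hcon
    push Not at hcon
    have := mul_lt_mul_of_pos_right hcon hB0
    linarith
  linarith

end T2

end Pool.Agent.Lib.MP_a37012_nt
end

section

/-!
# Taylor polynomials with a uniform small remainder
-/

set_option autoImplicit false

open MvPolynomial

namespace Pool.Agent.Lib.MP_a37012_nt

/-- The polynomial of degree at most `l` with prescribed symmetric derivatives at a point. -/
theorem tayo_exists {d : ℕ} (l : ℕ) (x₀ : Fin d → ℝ) (a : List (Fin d) → ℝ)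
    (ha : ∀ I J : List (Fin d), I.Perm J → I.length ≤ l → a I = a J) :
    ∃ p : MvPolynomial (Fin d) ℝ, p.totalDegree ≤ l ∧
      (∀ I : List (Fin d), I.length ≤ l → eval x₀ (mpds I p) = a I) ∧
      ∀ I : List (Fin d), l < I.length → mpds I p = 0 := by
  obtain ⟨q, hq1, hq2, hq3⟩ := tay_exists_zero (l + 1) a
    (fun I J h1 h2 => ha I J h1 (by omega))
  refine ⟨bind₁ (fun j => X j - C (x₀ j)) q, ?_, ?_, ?_⟩
  · conv_lhs => rw [q.as_sum, map_sum]
    refine totalDegree_finsetSum_le fun β hβ => ?_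
    rw [bind₁_monomial]
    refine (totalDegree_mul _ _).trans ?_
    rw [totalDegree_C, zero_add]
    refine (totalDegree_finsetProd _ _).trans ?_
    have h1 : ∀ i ∈ β.support, ((X i - C (x₀ i) : MvPolynomial (Fin d) ℝ) ^ β i).totalDegree ≤
        β i := by
      intro i _
      refine (totalDegree_pow _ _).trans ?_
      have h2 : (X i - C (x₀ i) : MvPolynomial (Fin d) ℝ).totalDegree ≤ 1 := by
        refine (totalDegree_sub _ _).trans ?_
        rw [totalDegree_X, totalDegree_C]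
        simp
      calc β i * _ ≤ β i * 1 := Nat.mul_le_mul_left _ h2
        _ = β i := mul_one _
    refine (Finset.sum_le_sum h1).trans ?_
    have := hq1 β hβ
    rw [Finsupp.degree_apply] at this
    exact Nat.lt_succ_iff.mp this
  · intro I hI
    rw [tay_mpds_shift, tay_eval_shift, hq2 I (by omega)]
  · intro I hI
    rw [tay_mpds_shift, hq3 I (by omega), map_zero]

/-- A polynomial with vanishing first derivatives is constant. -/
theorem tayo_const {d : ℕ} (p : MvPolynomial (Fin d) ℝ) (hp : ∀ i, pderiv i p = 0)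
    (x x₀ : Fin d → ℝ) : eval x p = eval x₀ p := by
  have hd : Differentiable ℝ (fun y : Fin d → ℝ => eval y p - eval x₀ p) :=
    (tay_eval_differentiable p).sub (differentiable_const _)
  have h1 := tay_mvt (V := Set.univ) (K := Set.univ) isOpen_univ convex_univ (Set.subset_univ _)
    (fun y : Fin d → ℝ => eval y p - eval x₀ p) hd.differentiableOn x₀ (Set.mem_univ _)
    (by simp) 0 le_rfl 0 ?_ x (Set.mem_univ _)
  · simp only [mul_zero, zero_mul, abs_nonpos_iff] at h1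
    exact sub_eq_zero.mp h1
  · intro i y _
    have h2 : pd i (fun y : Fin d → ℝ => eval y p - eval x₀ p) y = 0 := by
      have h3 : pd i (fun y : Fin d → ℝ => eval y p - eval x₀ p) y =
          pd i (fun y => eval y p) y := by
        unfold pd
        rw [fderiv_sub_const]
      rw [h3, tay_pd_eval, hp, map_zero]
    rw [h2]
    simp

/-- Uniform continuity of all the partial derivatives of order at most `l`. -/
theorem tayo_unif {d : ℕ} {V : Set (Fin d → ℝ)} (hV : IsOpen V) {l : ℕ}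
    {K : Set (Fin d → ℝ)} (hK : IsCompact K) (hKV : K ⊆ V)
    {h : (Fin d → ℝ) → ℝ} (hh : ContDiffOn ℝ l h V) (ε : ℝ) (hε : 0 < ε) :
    ∃ ρ : ℝ, 0 < ρ ∧ ρ ≤ 1 ∧ ∀ I : List (Fin d), I.length ≤ l → ∀ x ∈ K, ∀ y ∈ K,
      ‖x - y‖ ≤ ρ → |pds I h x - pds I h y| ≤ ε := by
  have h1 : ∀ I : List (Fin d), ∃ ρ : ℝ, 0 < ρ ∧ (I.length ≤ l → ∀ x ∈ K, ∀ y ∈ K,
      ‖x - y‖ ≤ ρ → |pds I h x - pds I h y| ≤ ε) := by
    intro I
    by_cases hI : I.length ≤ l
    · have h2 : ContinuousOn (pds I h) K :=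
        ((tay_pds hV hh I 0 (by omega)).continuousOn).mono hKV
      have h3 := hK.uniformContinuousOn_of_continuous h2
      rw [Metric.uniformContinuousOn_iff_le] at h3
      obtain ⟨ρ, hρ, h4⟩ := h3 ε hε
      refine ⟨ρ, hρ, fun _ x hx y hy hxy => ?_⟩
      have := h4 x hx y hy (by rwa [dist_eq_norm])
      rwa [Real.dist_eq] at this
    · exact ⟨1, one_pos, fun h => absurd h hI⟩
  choose ρ hρ0 hρ using h1
  have hfin : Set.Finite {I : List (Fin d) | I.length ≤ l} := List.finite_length_le _ _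
  have h5 : ∃ r : ℝ, 0 < r ∧ ∀ I ∈ hfin.toFinset, r ≤ ρ I := by
    have hne : ([] : List (Fin d)) ∈ hfin.toFinset := by simp
    obtain ⟨I₀, _, hI₀⟩ := hfin.toFinset.exists_min_image ρ ⟨_, hne⟩
    exact ⟨ρ I₀, hρ0 I₀, hI₀⟩
  obtain ⟨r, hr0, hr⟩ := h5
  refine ⟨min r 1, lt_min hr0 one_pos, min_le_right _ _, fun I hI x hx y hy hxy => ?_⟩
  refine hρ I hI x hx y hy (hxy.trans ((min_le_left _ _).trans (hr I ?_)))
  rw [Set.Finite.mem_toFinset]
  exact hI

/-- Taylor polynomials of order `l` of a function of class `C^l`, uniformly on a compact convex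
set, with small remainders. -/
theorem taylor_o {d : ℕ} (l : ℕ) (hl : 1 ≤ l) (V : Set (Fin d → ℝ)) (hV : IsOpen V)
    (K : Set (Fin d → ℝ)) (hK : IsCompact K) (hKc : Convex ℝ K) (hKV : K ⊆ V)
    (h : (Fin d → ℝ) → ℝ) (hh : ContDiffOn ℝ l h V) (ω : ℝ) (hω : 0 < ω) :
    ∃ ρ : ℝ, 0 < ρ ∧ ∀ x₀ ∈ K, ∃ P : MvPolynomial (Fin d) ℝ, P.totalDegree ≤ l ∧
      (∀ I : List (Fin d), I.length ≤ l → eval x₀ (mpds I P) = pds I h x₀) ∧
      ∀ x ∈ K, ‖x - x₀‖ ≤ ρ →
        |h x - eval x P| ≤ ω * ‖x - x₀‖ ^ l ∧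
        (∀ i, |pd i h x - eval x (pderiv i P)| ≤ ω * ‖x - x₀‖ ^ (l - 1)) ∧
        ∀ I : List (Fin d), I.length ≤ l → |pds I h x - eval x (mpds I P)| ≤ ω := by
  have hD : (1 : ℝ) ≤ max 1 (d : ℝ) := le_max_left _ _
  have hDl : (0 : ℝ) < (max 1 (d : ℝ)) ^ l := by positivity
  obtain ⟨ρ, hρ0, hρ1, hρ⟩ := tayo_unif hV hK hKV hh (ω / (max 1 (d : ℝ)) ^ l) (by positivity)
  set ε : ℝ := ω / (max 1 (d : ℝ)) ^ l with hε
  have hε0 : 0 < ε := by positivity
  have hMM : ∀ k, k ≤ l → (d : ℝ) ^ k * ε ≤ ω := by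
    intro k hk
    have h1 : (d : ℝ) ^ k ≤ (max 1 (d : ℝ)) ^ k :=
      pow_le_pow_left₀ (Nat.cast_nonneg _) (le_max_right _ _) _
    have h2 : (max 1 (d : ℝ)) ^ k ≤ (max 1 (d : ℝ)) ^ l := pow_le_pow_right₀ hD hk
    calc (d : ℝ) ^ k * ε ≤ (max 1 (d : ℝ)) ^ l * ε :=
          mul_le_mul_of_nonneg_right (h1.trans h2) hε0.le
      _ = ω := by rw [hε]; field_simp
  refine ⟨ρ, hρ0, fun x₀ hx₀ => ?_⟩
  obtain ⟨P, hP1, hP2, hP3⟩ := tayo_exists l x₀ (fun I => pds I h x₀)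
    (fun I J hIJ hlI => tay_perm hV hh hIJ hlI x₀ (hKV hx₀))
  refine ⟨P, hP1, hP2, ?_⟩
  set K' : Set (Fin d → ℝ) := K ∩ Metric.closedBall x₀ ρ with hK'
  have hK'c : Convex ℝ K' := hKc.inter (convex_closedBall _ _)
  have hK'V : K' ⊆ V := fun x hx => hKV hx.1
  have hx₀' : x₀ ∈ K' := ⟨hx₀, Metric.mem_closedBall_self hρ0.le⟩
  have main : ∀ k, ∀ I : List (Fin d), I.length + k = l → ∀ x ∈ K',
      |pds I h x - eval x (mpds I P)| ≤ (d : ℝ) ^ k * ε * ‖x - x₀‖ ^ k := by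
    intro k
    induction k with
    | zero =>
      intro I hI x hx
      have h1 : eval x (mpds I P) = eval x₀ (mpds I P) := by
        refine tayo_const _ (fun i => ?_) x x₀
        exact hP3 (i :: I) (by simp only [List.length_cons]; omega)
      rw [h1, hP2 I (by omega)]
      simp only [pow_zero, one_mul, mul_one]
      refine hρ I (by omega) x hx.1 x₀ hx₀ ?_
      have := hx.2
      rwa [mem_closedBall_iff_norm] at this
    | succ k ih =>
      intro I hI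
      have hdiff : DifferentiableOn ℝ (pds I h) V :=
        (tay_pds hV hh I 1 (by omega)).differentiableOn (by simp)
      have hdiff2 : DifferentiableOn ℝ (fun x => pds I h x - eval x (mpds I P)) V :=
        hdiff.sub (tay_eval_differentiable _).differentiableOn
      have key := tay_mvt hV hK'c hK'V (fun x => pds I h x - eval x (mpds I P)) hdiff2 x₀ hx₀'
        (by simp only [hP2 I (by omega), sub_self]) ((d : ℝ) ^ k * ε) (by positivity) k ?_
      · intro x hx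
        refine (key x hx).trans_eq ?_
        ring
      · intro i x hx
        have h1 : pd i (fun x => pds I h x - eval x (mpds I P)) x =
            pds (i :: I) h x - eval x (mpds (i :: I) P) := by
          have h2 : pd i (fun x => pds I h x - eval x (mpds I P)) x =
              pd i (pds I h) x - pd i (fun x => eval x (mpds I P)) x := by
            unfold pd
            have h3 : (fun x => pds I h x - eval x (mpds I P)) =
                (pds I h) - (fun x => eval x (mpds I P)) := rfl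
            rw [h3, fderiv_sub (hdiff.differentiableAt (hV.mem_nhds (hK'V hx)))
              (tay_eval_differentiable _ x)]
            rfl
          rw [h2, tay_pd_eval]
          rfl
        rw [h1]
        exact ih (i :: I) (by simp only [List.length_cons]; omega) x hx
  intro x hx hxρ
  have hx' : x ∈ K' := ⟨hx, by rwa [mem_closedBall_iff_norm]⟩
  refine ⟨?_, ?_, ?_⟩
  · refine (main l [] (by simp) x hx').trans ?_
    exact mul_le_mul_of_nonneg_right (hMM l le_rfl) (by positivity)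
  · intro i
    refine (main (l - 1) [i] (by simp only [List.length_cons, List.length_nil]; omega)
      x hx').trans ?_
    exact mul_le_mul_of_nonneg_right (hMM (l - 1) (by omega)) (by positivity)
  · intro I hI
    refine (main (l - I.length) I (by omega) x hx').trans ?_
    have h1 : ‖x - x₀‖ ^ (l - I.length) ≤ 1 := pow_le_one₀ (norm_nonneg _) (hxρ.trans hρ1)
    calc (d : ℝ) ^ (l - I.length) * ε * ‖x - x₀‖ ^ (l - I.length)
        ≤ (d : ℝ) ^ (l - I.length) * ε * 1 := mul_le_mul_of_nonneg_left h1 (by positivity)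
      _ ≤ ω := by rw [mul_one]; exact hMM _ (by omega)

end Pool.Agent.Lib.MP_a37012_nt
end
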