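import Pool.Agent.Lib.MP_a37012_nt.Mg.G004
import Pool.Agent.Lib.MP_a37012_nt.Mg.G006
import Pool.Agent.Lib.MP_a37012_nt.Mg.G002
import Pool.Agent.Lib.MP_a37012_nt.Mg.G007

section

/-!
# Growth of the maximal minors along the levels
-/

set_option autoImplicit false

open MeasureTheory MvPolynomial

namespace Pool.Agent.Lib.MP_a37012_nt

section algebra

variable {d : ℕ}

theorem gr_pderiv_prod {κ : Type} [DecidableEq κ] (b : Fin d) (s : Finset κ)
    (f : κ → MvPolynomial (Fin d) ℝ) :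
    pderiv b (∏ i ∈ s, f i) = ∑ i ∈ s, ∏ j ∈ s, (if j = i then pderiv b (f j) else f j) := by
  induction s using Finset.induction_on with
  | empty => simp
  | insert a s ha ih =>
    rw [Finset.prod_insert ha, pderiv_mul, ih, Finset.sum_insert ha, Finset.prod_insert ha,
      if_pos rfl]
    congr 1
    · congr 1
      refine Finset.prod_congr rfl fun j hj => ?_
      rw [if_neg]
      rintro rfl
      exact ha hj
    · rw [Finset.mul_sum]
      refine Finset.sum_congr rfl fun i hi => ?_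
      rw [Finset.prod_insert ha, if_neg]
      rintro rfl
      exact ha hi

theorem gr_pderiv_det {n : ℕ} (b : Fin d)
    (A : Matrix (Fin n) (Fin n) (MvPolynomial (Fin d) ℝ)) :
    pderiv b A.det = ∑ i, (A.updateRow i (fun t => pderiv b (A i t))).det := by
  simp only [Matrix.det_apply']
  rw [map_sum, Finset.sum_comm]
  refine Finset.sum_congr rfl fun σ _ => ?_
  rw [pderiv_mul]
  have h0 : pderiv b (((Equiv.Perm.sign σ : ℤ) : MvPolynomial (Fin d) ℝ)) = 0 := by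
    rcases Int.units_eq_one_or (Equiv.Perm.sign σ) with h | h
    · rw [h]; simp
    · rw [h]; simp
  rw [h0, zero_mul, zero_add, gr_pderiv_prod, Finset.mul_sum]
  refine Fintype.sum_equiv σ _ _ fun i => ?_
  congr 1
  refine Finset.prod_congr rfl fun t _ => ?_
  by_cases h : t = i
  · subst h
    rw [if_pos rfl, Matrix.updateRow_self]
  · rw [if_neg h, Matrix.updateRow_ne]
    exact fun h' => h (σ.injective h')

theorem gr_det_swap {n : ℕ} {R : Type} [CommRing R] (E : Matrix (Fin n) (Fin n) R) {s₀ s₁ : Fin n}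
    (h : s₀ ≠ s₁) (u v : Fin n → R) :
    ((E.updateRow s₁ u).updateRow s₀ v).det + ((E.updateRow s₁ v).updateRow s₀ u).det = 0 := by
  have hz : ∀ w : Fin n → R, ((E.updateRow s₁ w).updateRow s₀ w).det = 0 := by
    intro w
    refine Matrix.det_zero_of_row_eq h ?_
    rw [Matrix.updateRow_self, Matrix.updateRow_ne h.symm, Matrix.updateRow_self]
  have h1 := hz (u + v)
  rw [Matrix.det_updateRow_add, Matrix.updateRow_comm _ h.symm, Matrix.det_updateRow_add,
    Matrix.updateRow_comm _ h.symm, Matrix.det_updateRow_add] at h1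
  rw [Matrix.updateRow_comm _ h, Matrix.updateRow_comm _ h, Matrix.updateRow_comm _ h,
    Matrix.updateRow_comm _ h, hz, hz, zero_add, add_zero] at h1
  rw [add_comm]
  exact h1

/-- The polynomial matrix of values, gradients and coefficients. -/
noncomputable def gN {d m r : ℕ} (P : Fin m → MvPolynomial (Fin d) ℝ) (B : Matrix (Idx d m) (Fin r) ℝ) :
    Matrix (Idx d m) (Fin r) (MvPolynomial (Fin d) ℝ)
  | none, t => gp P fun ρ => B ρ t
  | some (Sum.inl a), t => pderiv a (gp P fun ρ => B ρ t)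
  | some (Sum.inr i), t => C (B (some (Sum.inr i)) t)

theorem gN_none {m r : ℕ} (P : Fin m → MvPolynomial (Fin d) ℝ) (B : Matrix (Idx d m) (Fin r) ℝ)
    (t : Fin r) : gN P B none t = gp P fun ρ => B ρ t := rfl

theorem gN_inl {m r : ℕ} (P : Fin m → MvPolynomial (Fin d) ℝ) (B : Matrix (Idx d m) (Fin r) ℝ)
    (a : Fin d) (t : Fin r) : gN P B (some (Sum.inl a)) t = pderiv a (gp P fun ρ => B ρ t) := rfl

theorem gN_inr {m r : ℕ} (P : Fin m → MvPolynomial (Fin d) ℝ) (B : Matrix (Idx d m) (Fin r) ℝ)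
    (i : Fin m) (t : Fin r) : gN P B (some (Sum.inr i)) t = C (B (some (Sum.inr i)) t) := rfl

theorem gr_eval_gN {m r : ℕ} (P : Fin m → MvPolynomial (Fin d) ℝ)
    (B : Matrix (Idx d m) (Fin r) ℝ) (x : Fin d → ℝ) (ρ : Idx d m) (t : Fin r) :
    eval x (gN P B ρ t) = (evalM (UM P) x * B) ρ t := by
  rcases ρ with _ | (a | i)
  · rw [UM_none]; rfl
  · rw [UM_inl]; rfl
  · rw [UM_inr, gN, eval_C]

theorem gr_eval_det {m r : ℕ} (P : Fin m → MvPolynomial (Fin d) ℝ)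
    (B : Matrix (Idx d m) (Fin r) ℝ) (x : Fin d → ℝ) (e : Fin r → Idx d m) :
    eval x ((gN P B).submatrix e id).det = ((evalM (UM P) x * B).submatrix e id).det := by
  rw [RingHom.map_det]
  congr 1
  ext s t
  simp only [RingHom.mapMatrix_apply, Matrix.map_apply, Matrix.submatrix_apply, id]
  exact gr_eval_gN P B x _ _

/-- The exceptional set of rows. -/
def gE (d m : ℕ) : Fin (m + 1) → Idx d m := Fin.cons none fun i => some (Sum.inr i)

theorem gr_identity {m : ℕ} (P : Fin m → MvPolynomial (Fin d) ℝ)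
    (B : Matrix (Idx d m) (Fin (m + 1)) ℝ) (i₀ : Fin m) (a b : Fin d) :
    pderiv b ((gN P B).submatrix (Function.update (gE d m) i₀.succ (some (Sum.inl a))) id).det +
      pderiv a ((gN P B).submatrix (Function.update (gE d m) i₀.succ (some (Sum.inl b))) id).det =
      2 * (pderiv b (pderiv a (P i₀)) * ((gN P B).submatrix (gE d m) id).det) := by
  classical
  set E := (gN P B).submatrix (gE d m) id with hE
  have h01 : (0 : Fin (m + 1)) ≠ i₀.succ := (Fin.succ_ne_zero i₀).symm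
  have hsub : ∀ a : Fin d,
      (gN P B).submatrix (Function.update (gE d m) i₀.succ (some (Sum.inl a))) id =
      E.updateRow i₀.succ (fun t => pderiv a (gp P fun ρ => B ρ t)) := by
    intro a
    ext s t
    by_cases hs : s = i₀.succ
    · subst hs; simp [gN]
    · simp [hs, hE]
  have hE0 : ∀ t, E 0 t = gp P fun ρ => B ρ t := fun t => rfl
  have hEs : ∀ i t, E (Fin.succ i) t = C (B (some (Sum.inr i)) t) := fun i t => rfl
  -- the second derivatives of the columns in terms of the rows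
  have hrow : ∀ a b : Fin d, (fun t => pderiv b (pderiv a (gp P fun ρ => B ρ t))) =
      ∑ s, (Fin.cons 0 (fun i => pderiv b (pderiv a (P i))) : Fin (m + 1) → _) s • E s := by
    intro a b
    funext t
    rw [Finset.sum_apply, Fin.sum_univ_succ, Fin.cons_zero]
    simp only [Fin.cons_succ, Pi.smul_apply, smul_eq_mul, zero_mul, zero_add, hEs]
    rw [pderiv_gp, map_add, pderiv_C, zero_add, map_sum]
    refine Finset.sum_congr rfl fun i _ => ?_
    rw [pderiv_C_mul, mul_comm]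
  have hder : ∀ a b : Fin d,
      pderiv b ((gN P B).submatrix (Function.update (gE d m) i₀.succ (some (Sum.inl a))) id).det =
      ((E.updateRow i₀.succ (fun t => pderiv a (gp P fun ρ => B ρ t))).updateRow 0
        (fun t => pderiv b (gp P fun ρ => B ρ t))).det +
      pderiv b (pderiv a (P i₀)) * E.det := by
    intro a b
    rw [hsub, gr_pderiv_det, Fin.sum_univ_succ]
    congr 1
    rw [Finset.sum_eq_single i₀]
    · rw [Matrix.updateRow_idem, Matrix.updateRow_self]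
      rw [hrow, Matrix.det_updateRow_sum, Fin.cons_succ, smul_eq_mul]
    · intro i _ hi
      refine Matrix.det_eq_zero_of_row_eq_zero i.succ fun t => ?_
      rw [Matrix.updateRow_self, Matrix.updateRow_ne (fun h => hi (Fin.succ_injective _ h)), hEs,
        pderiv_C]
    · simp
  rw [hder, hder, pderiv_comm' a b]
  have := gr_det_swap E h01 (fun t => pderiv a (gp P fun ρ => B ρ t))
    (fun t => pderiv b (gp P fun ρ => B ρ t))
  linear_combination this

end algebra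

section analysis

theorem gr_good (d D : ℕ) : ∃ ε : ℝ, 0 < ε ∧ ε ≤ 1 ∧ ∀ p : MvPolynomial (Fin d) ℝ,
    p.totalDegree ≤ D → ∀ (j : ℕ) (k : Fin d → ℤ), ∀ x ∈ cube j k,
      volume {y | y ∈ cube j k ∧ |eval y p| < ε * |eval x p|} ≤
        ENNReal.ofReal (1 / 3) * volume (cube j k) := by
  obtain ⟨ε₀, hε₀, h⟩ := remez d D (1 / 3) (by norm_num)
  refine ⟨min ε₀ 1, lt_min hε₀ one_pos, min_le_right _ _, ?_⟩
  intro p hp j k x hx
  rcases (abs_nonneg (eval x p)).eq_or_lt with h0 | h0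
  · have : {y | y ∈ cube j k ∧ |eval y p| < min ε₀ 1 * |eval x p|} = ∅ := by
      ext y
      simp only [Set.mem_ofPred_eq, Set.mem_empty_iff_false, iff_false, not_and, not_lt]
      intro _
      rw [← h0, mul_zero]
      exact abs_nonneg _
    rw [this, measure_empty]
    exact zero_le
  · have h1 := h (C (|eval x p|⁻¹) * p) ((totalDegree_mul _ _).trans (by
      rw [totalDegree_C, zero_add]; exact hp)) j k ⟨x, hx, by
        rw [map_mul, eval_C, abs_mul, abs_inv, abs_abs, inv_mul_cancel₀ h0.ne']⟩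
    refine (measure_mono ?_).trans h1
    rintro y ⟨hy, hlt⟩
    refine ⟨hy, ?_⟩
    rw [map_mul, eval_C, abs_mul, abs_inv, abs_abs, inv_mul_lt_iff₀ h0, mul_comm]
    refine hlt.trans_le ?_
    gcongr
    exact min_le_left _ _

theorem gr_two (d D : ℕ) : ∃ ε : ℝ, 0 < ε ∧ ε ≤ 1 ∧ ∀ p q : MvPolynomial (Fin d) ℝ,
    p.totalDegree ≤ D → q.totalDegree ≤ D → ∀ (j : ℕ) (k : Fin d → ℤ), ∀ x₁ ∈ cube j k,
      ∀ x₂ ∈ cube j k, ∃ y ∈ cube j k, ε * |eval x₁ p| ≤ |eval y p| ∧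
        ε * |eval x₂ q| ≤ |eval y q| := by
  obtain ⟨ε, hε, hε1, h⟩ := gr_good d D
  refine ⟨ε, hε, hε1, ?_⟩
  intro p q hp hq j k x₁ hx₁ x₂ hx₂
  by_contra hcon
  push Not at hcon
  have hsub : cube j k ⊆ {y | y ∈ cube j k ∧ |eval y p| < ε * |eval x₁ p|} ∪
      {y | y ∈ cube j k ∧ |eval y q| < ε * |eval x₂ q|} := by
    intro y hy
    by_cases h1 : |eval y p| < ε * |eval x₁ p|
    · exact Or.inl ⟨hy, h1⟩
    · exact Or.inr ⟨hy, hcon y hy (not_lt.mp h1)⟩
  have h1 := (measure_mono hsub).trans (measure_union_le (μ := volume) _ _)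
  have h2 := h1.trans (add_le_add (h p hp j k x₁ hx₁) (h q hq j k x₂ hx₂))
  rw [← add_mul, ← ENNReal.ofReal_add (by norm_num) (by norm_num)] at h2
  have hv : volume (cube j k) ≠ 0 := by
    rw [km_volume_cube]
    exact pow_ne_zero _ (by rw [Ne, ENNReal.ofReal_eq_zero, not_le]; positivity)
  have hv' : volume (cube j k) ≠ ⊤ := by
    rw [km_volume_cube]
    exact ENNReal.pow_ne_top ENNReal.ofReal_ne_top
  have h3 : ENNReal.ofReal (1 / 3 + 1 / 3) * volume (cube j k) < 1 * volume (cube j k) := by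
    refine ENNReal.mul_lt_mul_left hv hv' ?_
    rw [← ENNReal.ofReal_one, ENNReal.ofReal_lt_ofReal_iff one_pos]
    norm_num
  rw [one_mul] at h3
  exact absurd h2 (not_le.mpr h3)

theorem gr_sup {d : ℕ} (p : MvPolynomial (Fin d) ℝ) (j : ℕ) (k : Fin d → ℤ) :
    ∃ y₀ ∈ cube j k, ∀ y ∈ cube j k, |eval y p| ≤ 2 * |eval y₀ p| := by
  obtain ⟨x₀, hx₀⟩ := km_nonempty_cube j k
  have hbdd : BddAbove ((fun y => |eval y p|) '' cube j k) := by
    have h1 : BddAbove ((fun y => |eval y p|) '' closure (cube j k)) :=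
      (cube_compact j k).bddAbove_image (MvPolynomial.continuous_eval p).abs.continuousOn
    exact h1.mono (Set.image_mono subset_closure)
  set S := sSup ((fun y => |eval y p|) '' cube j k) with hS
  have hle : ∀ y ∈ cube j k, |eval y p| ≤ S := fun y hy => le_csSup hbdd ⟨y, hy, rfl⟩
  rcases le_or_gt S 0 with h0 | h0
  · refine ⟨x₀, hx₀, fun y hy => (hle y hy).trans (h0.trans ?_)⟩
    positivity
  · obtain ⟨_, ⟨y₀, hy₀, rfl⟩, h2⟩ := exists_lt_of_lt_csSup (⟨_, x₀, hx₀, rfl⟩ :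
      ((fun y => |eval y p|) '' cube j k).Nonempty) (show S / 2 < S by linarith)
    refine ⟨y₀, hy₀, fun y hy => (hle y hy).trans ?_⟩
    simp only at h2
    linarith

theorem gr_col (d m l : ℕ) (c₀ : ℝ) (hc₀ : 0 < c₀) : ∃ K : ℝ, 1 ≤ K ∧
    ∀ P : Fin m → MvPolynomial (Fin d) ℝ, (∀ i, (P i).totalDegree ≤ l) →
      ∀ (j : ℕ) (k : Fin d → ℤ),
      (∀ z : Fin m → ℝ, ∃ x ∈ cube j k, ∃ I : List (Fin d), 2 ≤ I.length ∧ I.length ≤ l ∧
        c₀ * ‖z‖ ≤ |∑ i, z i * eval x (mpds I (P i))|) →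
      ∀ (β : Idx d m → ℝ) (S : ℝ), (∀ y ∈ cube j k, |eval y (gp P β)| ≤ S) →
        (∀ a, ∀ y ∈ cube j k, |eval y (pderiv a (gp P β))| ≤ K * 2 ^ j * S) ∧
        ∀ i, |β (some (Sum.inr i))| ≤ K * 2 ^ (j * l) * S := by
  obtain ⟨K, hK, hmar⟩ := xds_markov d (l + 1)
  have hK0 : 0 < K := by linarith
  refine ⟨K + K ^ l / c₀, by have : 0 ≤ K ^ l / c₀ := by positivity
                             linarith, ?_⟩
  intro P hP j k hA β S hS
  have hS0 : 0 ≤ S := by
    obtain ⟨x₀, hx₀⟩ := km_nonempty_cube j k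
    exact (abs_nonneg _).trans (hS x₀ hx₀)
  have hm := hmar (fun a b => if a = b then 1 else 0) (by
    intro a b; split_ifs <;> simp) (gp P β) (totalDegree_gp_le P l hP β) j k S hS
  simp only [xds_one] at hm
  have hKl : 0 ≤ K ^ l / c₀ := by positivity
  constructor
  · intro a y hy
    have h1 := hm [a] y hy
    simp only [mpds, List.length_cons, List.length_nil, zero_add, pow_one] at h1
    refine h1.trans ?_
    gcongr
    linarith
  · intro i
    obtain ⟨x, hx, I, hI2, hIl, hI⟩ := hA (fun i => β (some (Sum.inr i)))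
    have h1 := hm I x hx
    rw [mpds_gp P β I hI2, map_sum] at h1
    simp only [map_mul, eval_C] at h1
    have h2 : (K * 2 ^ j) ^ I.length ≤ (K * 2 ^ j) ^ l := by
      refine pow_le_pow_right₀ ?_ hIl
      exact one_le_mul_of_one_le_of_one_le hK (one_le_pow₀ (by norm_num))
    have h3 : |β (some (Sum.inr i))| ≤ ‖fun i => β (some (Sum.inr i))‖ :=
      norm_le_pi_norm (fun i => β (some (Sum.inr i))) i
    have h4 : c₀ * |β (some (Sum.inr i))| ≤ K ^ l * 2 ^ (j * l) * S := by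
      calc c₀ * |β (some (Sum.inr i))| ≤ c₀ * ‖fun i => β (some (Sum.inr i))‖ := by gcongr
        _ ≤ _ := hI
        _ ≤ (K * 2 ^ j) ^ I.length * S := h1
        _ ≤ (K * 2 ^ j) ^ l * S := by gcongr
        _ = _ := by rw [mul_pow, ← pow_mul]
    calc |β (some (Sum.inr i))| = (c₀ * |β (some (Sum.inr i))|) / c₀ := by field_simp
      _ ≤ (K ^ l * 2 ^ (j * l) * S) / c₀ := by gcongr
      _ = (K ^ l / c₀) * 2 ^ (j * l) * S := by ring
      _ ≤ _ := by gcongr; linarith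

end analysis

section weights

variable {d m r : ℕ}

theorem gr_wt_add (θ : ℝ) (j b : ℕ) (ρ : Idx d m) :
    wt (θ ^ (2 * m * (j + b))) ((θ ^ ((m - 1) * (j + b)))⁻¹) (θ ^ (2 * (j + b))) ρ =
    wt (θ ^ (2 * m * b)) ((θ ^ ((m - 1) * b))⁻¹) (θ ^ (2 * b)) ρ *
    wt (θ ^ (2 * m * j)) ((θ ^ ((m - 1) * j))⁻¹) (θ ^ (2 * j)) ρ := by
  rcases ρ with _ | (a | i)
  · simp only [wt]; ring
  · simp only [wt, inv_inv]; ring
  · simp only [wt, mul_add, pow_add, mul_inv]; ring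

theorem gr_step (P : Fin m → MvPolynomial (Fin d) ℝ) (θ : ℝ) (j b : ℕ)
    (B : Matrix (Idx d m) (Fin r) ℤ) (x : Fin d → ℝ) (e : Fin r → Idx d m) :
    ((HPj P θ (j + b) x * toR B).submatrix e id).det =
      (∏ t, wt (θ ^ (2 * m * b)) ((θ ^ ((m - 1) * b))⁻¹) (θ ^ (2 * b)) (e t)) *
        ((HPj P θ j x * toR B).submatrix e id).det := by
  unfold HPj
  rw [det_weights, det_weights, ← mul_assoc, ← Finset.prod_mul_distrib]
  congr 1
  exact Finset.prod_congr rfl fun t _ => gr_wt_add θ j b _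

theorem gr_prod (hm : 2 ≤ m) (θ : ℝ) (hθ : 1 ≤ θ) (b : ℕ) (e : Fin r → Idx d m)
    (he : Function.Injective e) (h0 : ∃ t, e t = none) :
    θ ^ b ≤ ∏ t, wt (θ ^ (2 * m * b)) ((θ ^ ((m - 1) * b))⁻¹) (θ ^ (2 * b)) (e t) ∨
      ((∀ t a, e t ≠ some (Sum.inl a)) ∧ ∀ i, ∃ t, e t = some (Sum.inr i)) := by
  classical
  have hθ0 : 0 < θ := by linarith
  set w : Idx d m → ℝ := wt (θ ^ (2 * m * b)) ((θ ^ ((m - 1) * b))⁻¹) (θ ^ (2 * b)) with hw
  set s : Finset (Idx d m) := Finset.univ.image e with hs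
  have h1 : (∏ t, w (e t)) = ∏ ρ, if ρ ∈ s then w ρ else 1 := by
    rw [Finset.prod_ite_mem, Finset.univ_inter, hs, Finset.prod_image fun a _ b _ h => he h]
  have h2 : (none : Idx d m) ∈ s := by
    obtain ⟨t, ht⟩ := h0
    exact Finset.mem_image.mpr ⟨t, Finset.mem_univ _, ht⟩
  rw [Fintype.prod_option, Fintype.prod_sum_type, if_pos h2] at h1
  have hwn : w none = θ ^ (2 * m * b) := rfl
  have hwl : ∀ a, w (some (Sum.inl a)) = θ ^ ((m - 1) * b) := fun a => by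
    rw [hw, wt, inv_inv]
  have hwr : ∀ i, w (some (Sum.inr i)) = (θ ^ (2 * b))⁻¹ := fun i => rfl
  simp only [hwn, hwl, hwr] at h1
  simp only [Finset.prod_ite, Finset.prod_const, one_pow, mul_one] at h1
  set n₁ := (Finset.univ.filter fun a : Fin d => (some (Sum.inl a) : Idx d m) ∈ s).card with hn₁
  set n₂ := (Finset.univ.filter fun i : Fin m => (some (Sum.inr i) : Idx d m) ∈ s).card with hn₂
  have hn₂m : n₂ ≤ m := by
    rw [hn₂]
    exact (Finset.card_filter_le _ _).trans (by simp)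
  rw [h1]
  have hA : 1 ≤ (θ ^ ((m - 1) * b)) ^ n₁ := one_le_pow₀ (one_le_pow₀ hθ)
  have hB : θ ^ (2 * b * n₂) * ((θ ^ (2 * b))⁻¹) ^ n₂ = 1 := by
    rw [pow_mul, ← mul_pow, mul_inv_cancel₀ (by positivity), one_pow]
  have hsplit : θ ^ (2 * m * b) = θ ^ (2 * b * (m - n₂)) * θ ^ (2 * b * n₂) := by
    rw [← pow_add]
    congr 1
    obtain ⟨q, hq⟩ := Nat.exists_eq_add_of_le hn₂m
    rw [hq, Nat.add_sub_cancel_left]
    ring
  have hval : θ ^ (2 * m * b) * ((θ ^ ((m - 1) * b)) ^ n₁ * ((θ ^ (2 * b))⁻¹) ^ n₂) =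
      θ ^ (2 * b * (m - n₂)) * (θ ^ ((m - 1) * b)) ^ n₁ := by
    rw [hsplit]
    calc θ ^ (2 * b * (m - n₂)) * θ ^ (2 * b * n₂) *
          ((θ ^ ((m - 1) * b)) ^ n₁ * ((θ ^ (2 * b))⁻¹) ^ n₂)
        = θ ^ (2 * b * (m - n₂)) * (θ ^ ((m - 1) * b)) ^ n₁ *
          (θ ^ (2 * b * n₂) * ((θ ^ (2 * b))⁻¹) ^ n₂) := by ring
      _ = _ := by rw [hB, mul_one]
  rw [hval]
  by_cases hc : n₂ = m
  · by_cases hc1 : n₁ = 0
    · right
      rw [hn₁, Finset.card_eq_zero, Finset.filter_eq_empty_iff] at hc1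
      have hc2 : (Finset.univ.filter fun i : Fin m => (some (Sum.inr i) : Idx d m) ∈ s) =
          Finset.univ := by
        rw [← Finset.card_eq_iff_eq_univ, Fintype.card_fin]
        exact hc
      refine ⟨fun t a h => hc1 (Finset.mem_univ a) ?_, fun i => ?_⟩
      · exact Finset.mem_image.mpr ⟨t, Finset.mem_univ _, h⟩
      · have := Finset.mem_univ i
        rw [← hc2, Finset.mem_filter] at this
        obtain ⟨t, _, ht⟩ := Finset.mem_image.mp this.2
        exact ⟨t, ht⟩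
    · left
      have h3 : θ ^ b ≤ (θ ^ ((m - 1) * b)) ^ n₁ := by
        rw [← pow_mul]
        refine pow_le_pow_right₀ hθ ?_
        have : 1 ≤ m - 1 := by omega
        have h4 : 1 ≤ n₁ := Nat.one_le_iff_ne_zero.mpr hc1
        calc b = 1 * b * 1 := by ring
          _ ≤ (m - 1) * b * n₁ := by gcongr
      have h5 : 1 ≤ θ ^ (2 * b * (m - n₂)) := one_le_pow₀ hθ
      calc θ ^ b ≤ (θ ^ ((m - 1) * b)) ^ n₁ := h3
        _ = 1 * (θ ^ ((m - 1) * b)) ^ n₁ := (one_mul _).symm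
        _ ≤ _ := by gcongr
  · left
    have h3 : θ ^ b ≤ θ ^ (2 * b * (m - n₂)) := by
      refine pow_le_pow_right₀ hθ ?_
      have : 1 ≤ m - n₂ := by omega
      calc b = 1 * b * 1 := by ring
        _ ≤ 2 * b * (m - n₂) := by gcongr; norm_num
    calc θ ^ b ≤ θ ^ (2 * b * (m - n₂)) := h3
      _ = θ ^ (2 * b * (m - n₂)) * 1 := (mul_one _).symm
      _ ≤ _ := by gcongr

theorem gr_exc (e : Fin r → Idx d m) (he : Function.Injective e) (h0 : ∃ t, e t = none)
    (h1 : ∀ t a, e t ≠ some (Sum.inl a)) (h2 : ∀ i, ∃ t, e t = some (Sum.inr i)) :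
    ∃ φ : Fin r ≃ Fin (m + 1), ∀ t, e t = gE d m (φ t) := by
  have h3 : ∀ t, ∃ u, e t = gE d m u := by
    intro t
    rcases ht : e t with _ | (a | i)
    · exact ⟨0, rfl⟩
    · exact absurd ht (h1 t a)
    · exact ⟨i.succ, rfl⟩
  choose φ hφ using h3
  have hinj : Function.Injective φ := by
    intro t t' h
    apply he
    rw [hφ, hφ, h]
  have hsurj : Function.Surjective φ := by
    intro u
    have hE : Function.Injective (gE d m) := by
      intro u v huv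
      induction u using Fin.cases with
      | zero =>
        induction v using Fin.cases with
        | zero => rfl
        | succ v => simp [gE] at huv
      | succ u =>
        induction v using Fin.cases with
        | zero => simp [gE] at huv
        | succ v => simpa [gE] using huv
    have h4 : ∃ t, e t = gE d m u := by
      induction u using Fin.cases with
      | zero => exact h0
      | succ i => exact h2 i
    obtain ⟨t, ht⟩ := h4
    exact ⟨t, hE (by rw [← hφ, ht])⟩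
  exact ⟨Equiv.ofBijective φ ⟨hinj, hsurj⟩, fun t => hφ t⟩

theorem gr_prod_upd (θ : ℝ) (j : ℕ) (i₀ : Fin m) (a : Fin d) (hθ : 0 < θ) (hm : 2 ≤ m) :
    ∏ t, wt (θ ^ (2 * m * j)) ((θ ^ ((m - 1) * j))⁻¹) (θ ^ (2 * j))
      (Function.update (gE d m) i₀.succ (some (Sum.inl a)) t) = θ ^ ((m + 1) * j) := by
  rw [Fin.prod_univ_succ, Function.update_of_ne (Fin.succ_ne_zero i₀).symm]
  rw [← Finset.mul_prod_erase Finset.univ _ (Finset.mem_univ i₀), Function.update_self]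
  rw [Finset.prod_congr rfl (g := fun _ => (θ ^ (2 * j))⁻¹) (fun i hi => by
    rw [Function.update_of_ne (fun h => (Finset.ne_of_mem_erase hi) (Fin.succ_injective _ h))]
    rfl)]
  rw [Finset.prod_const, Finset.card_erase_of_mem (Finset.mem_univ i₀), Finset.card_univ,
    Fintype.card_fin]
  simp only [gE, Fin.cons_zero, wt, inv_inv]
  obtain ⟨q, rfl⟩ : ∃ q, m = q + 1 := ⟨m - 1, by omega⟩
  rw [Nat.add_sub_cancel]
  have h1 : θ ^ (2 * (q + 1) * j) * (θ ^ (q * j) * (θ ^ (2 * j))⁻¹ ^ q) =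
      θ ^ ((q + 1 + 1) * j) * (θ ^ (2 * j * q) * ((θ ^ (2 * j))⁻¹ ^ q)) := by
    have : θ ^ (2 * (q + 1) * j) * θ ^ (q * j) = θ ^ ((q + 1 + 1) * j) * θ ^ (2 * j * q) := by
      rw [← pow_add, ← pow_add]
      congr 1
      ring
    rw [← mul_assoc, this, mul_assoc]
  rw [h1, pow_mul θ (2 * j) q, ← mul_pow, mul_inv_cancel₀ (by positivity), one_pow, mul_one]

theorem gr_prod_exc (θ : ℝ) (j : ℕ) (hθ : 0 < θ) :
    ∏ t, wt (θ ^ (2 * m * j)) ((θ ^ ((m - 1) * j))⁻¹) (θ ^ (2 * j)) (gE d m t) = 1 := by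
  rw [Fin.prod_univ_succ]
  simp only [gE, Fin.cons_zero, Fin.cons_succ, wt]
  rw [Finset.prod_const, Finset.card_univ, Fintype.card_fin, inv_pow, ← pow_mul]
  rw [show 2 * j * m = 2 * m * j by ring]
  exact mul_inv_cancel₀ (by positivity)

end weights

/-- The exceptional minor is dominated by the minors with a gradient row. -/
theorem gr_dom (d m l : ℕ) (c₀ : ℝ) (hc₀ : 0 < c₀) : ∃ κ : ℝ, 0 < κ ∧
    ∀ P : Fin m → MvPolynomial (Fin d) ℝ, (∀ i, (P i).totalDegree ≤ l) →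
      ∀ (j : ℕ) (k : Fin d → ℤ),
      (∃ i a b, ∀ x ∈ cube j k, c₀ ≤ |eval x (mpds [a, b] (P i))|) →
      ∀ (B : Matrix (Idx d m) (Fin (m + 1)) ℝ), ∀ y ∈ cube j k, ∃ y' ∈ cube j k,
        ∃ (i₀ : Fin m) (a : Fin d),
        κ * (|((evalM (UM P) y * B).submatrix (gE d m) id).det| / 2 ^ j) ≤
          |((evalM (UM P) y' * B).submatrix
            (Function.update (gE d m) i₀.succ (some (Sum.inl a))) id).det| := by
  obtain ⟨K, hK, hmar⟩ := markov d ((m + 1) * (l + 1))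
  have hK0 : 0 < K := by linarith
  refine ⟨c₀ / (2 * K), by positivity, ?_⟩
  intro P hP j k ⟨i₀, a, b, hab⟩ B y hy
  by_contra hcon
  push Not at hcon
  set D := |((evalM (UM P) y * B).submatrix (gE d m) id).det| with hD
  have hdeg : ∀ e : Fin (m + 1) → Idx d m,
      ((gN P B).submatrix e id).det.totalDegree ≤ (m + 1) * (l + 1) := by
    intro e
    have hNdeg : ∀ ρ t, (gN P B ρ t).totalDegree ≤ l + 1 := by
      intro ρ t
      rcases ρ with _ | (a | i)
      · rw [gN_none]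
        exact totalDegree_gp_le P l hP _
      · rw [gN_inl]
        exact (totalDegree_pderiv_le _ _).trans (totalDegree_gp_le P l hP _)
      · rw [gN_inr, totalDegree_C]; omega
    rw [Matrix.det_apply]
    refine totalDegree_finsetSum_le fun σ _ => ?_
    have h1 : (Equiv.Perm.sign σ • ∏ i, ((gN P B).submatrix e id) (σ i) i).totalDegree ≤
        (∏ i, ((gN P B).submatrix e id) (σ i) i).totalDegree := by
      rcases Int.units_eq_one_or (Equiv.Perm.sign σ) with h | h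
      · rw [h, one_smul]
      · rw [h, Units.neg_smul, one_smul, totalDegree_neg]
    refine h1.trans ((totalDegree_finsetProd _ _).trans ?_)
    calc ∑ i : Fin (m + 1), (((gN P B).submatrix e id) (σ i) i).totalDegree
        ≤ ∑ _i : Fin (m + 1), (l + 1) := Finset.sum_le_sum fun i _ => hNdeg _ _
      _ = (m + 1) * (l + 1) := by
          rw [Finset.sum_const, Finset.card_univ, Fintype.card_fin, smul_eq_mul]
  have hD0 : 0 < D := by
    have h1 := hcon y hy i₀ a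
    have h2 : 0 < c₀ / (2 * K) * (D / 2 ^ j) := lt_of_le_of_lt (abs_nonneg _) h1
    by_contra h3
    push Not at h3
    have : D = 0 := le_antisymm h3 (abs_nonneg _)
    rw [this] at h2
    simp at h2
  have hS : ∀ a', ∀ x ∈ cube j k, |eval x ((gN P B).submatrix
      (Function.update (gE d m) i₀.succ (some (Sum.inl a'))) id).det| ≤
      c₀ / (2 * K) * (D / 2 ^ j) := by
    intro a' x hx
    rw [gr_eval_det]
    exact (hcon x hx i₀ a').le
  have h1 := hmar _ (hdeg _) j k _ (hS a) b y hy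
  have h2 := hmar _ (hdeg _) j k _ (hS b) a y hy
  have h3 := congrArg (eval y) (gr_identity P B i₀ a b)
  rw [map_add, map_mul, map_mul, gr_eval_det] at h3
  have h4 : |eval y (2 : MvPolynomial (Fin d) ℝ) * (eval y (pderiv b (pderiv a (P i₀))) *
      ((evalM (UM P) y * B).submatrix (gE d m) id).det)| ≤
      K * 2 ^ j * (c₀ / (2 * K) * (D / 2 ^ j)) + K * 2 ^ j * (c₀ / (2 * K) * (D / 2 ^ j)) := by
    rw [← h3]
    exact (abs_add_le _ _).trans (add_le_add h1 h2)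
  have h5 : eval y (2 : MvPolynomial (Fin d) ℝ) = 2 := by simp
  rw [h5, abs_mul, abs_mul, abs_two] at h4
  have h6 : c₀ ≤ |eval y (pderiv b (pderiv a (P i₀)))| := by
    have := hab y hy
    simp only [mpds] at this
    rwa [pderiv_comm'] at this
  have h7 : K * 2 ^ j * (c₀ / (2 * K) * (D / 2 ^ j)) = c₀ * D / 2 := by
    field_simp
  rw [h7] at h4
  have h8 : 2 * (c₀ * D) ≤ 2 * (|eval y (pderiv b (pderiv a (P i₀)))| * D) := by gcongr
  have h9 : 0 < c₀ * D := by positivity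
  linarith

theorem gr_entry {d m r : ℕ} (P : Fin m → MvPolynomial (Fin d) ℝ) (Q K T : ℝ)
    (B : Matrix (Idx d m) (Fin r) ℝ) (x : Fin d → ℝ) (ρ : Idx d m) (t : Fin r) :
    (evalM (HM P Q K T) x * B) ρ t = wt Q K T ρ * (evalM (UM P) x * B) ρ t := by
  rw [Matrix.mul_apply, Matrix.mul_apply, Finset.mul_sum]
  refine Finset.sum_congr rfl fun σ _ => ?_
  simp [evalM, HM]
  ring

theorem growth (d m l : ℕ) (hd : 1 ≤ d) (hm : 2 ≤ m) (hl : 2 ≤ l) (θ : ℝ) (hθ : 0 < θ)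
    (hθl : θ ^ (2 * (m + 1)) = 2 ^ l) (c₀ : ℝ) (hc₀ : 0 < c₀) :
    ∃ c : ℝ, 0 < c ∧ ∀ P : Fin m → MvPolynomial (Fin d) ℝ, (∀ i, (P i).totalDegree ≤ l) →
      ∀ (j : ℕ) (k : Fin d → ℤ),
      (∀ z : Fin m → ℝ, ∃ x ∈ cube j k, ∃ I : List (Fin d), 2 ≤ I.length ∧ I.length ≤ l ∧
        c₀ * ‖z‖ ≤ |∑ i, z i * eval x (mpds I (P i))|) →
      (∃ i a b, ∀ x ∈ cube j k, c₀ ≤ |eval x (mpds [a, b] (P i))|) →
      ∀ (b r : ℕ) (B : Matrix (Idx d m) (Fin r) ℤ),
        LinearIndependent ℤ (fun t : Fin r => fun a => B a t) → 1 ≤ r → r ≤ d + m →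
        ∀ x ∈ cube j k, ∃ y ∈ cube j k,
          c * θ ^ b * mm (HPj P θ j x * toR B) ≤ mm (HPj P θ (j + b) y * toR B) := by
  classical
  obtain ⟨ε, hε, hε1, htwo⟩ := gr_two d ((d + m) * (l + 1))
  obtain ⟨K, hK, hcol⟩ := gr_col d m l c₀ hc₀
  obtain ⟨κ, hκ, hdom⟩ := gr_dom d m l c₀ hc₀
  have hK0 : 0 < K := by linarith
  have hθm : 2 ≤ θ ^ (m + 1) := by
    have h1 : (θ ^ (m + 1)) ^ 2 = 2 ^ l := by rw [← pow_mul, mul_comm (m + 1) 2, hθl]
    have h2 : (2 : ℝ) ^ 2 ≤ 2 ^ l := pow_le_pow_right₀ (by norm_num) hl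
    rw [← h1] at h2
    exact le_of_pow_le (by positivity) two_ne_zero h2
  have hθ1 : 1 ≤ θ := by
    by_contra h
    push Not at h
    have := pow_le_one₀ hθ.le h.le (n := m + 1)
    linarith
  have hdm : (0 : ℝ) < d + m := by
    have : (1 : ℝ) ≤ d := by exact_mod_cast hd
    positivity
  set δ : ℝ := ε / (2 * K) with hδ
  have hδ0 : 0 < δ := by positivity
  refine ⟨δ * ε / (d + m) * min 1 κ, by
    have : 0 < min 1 κ := lt_min one_pos hκ
    positivity, ?_⟩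
  intro P hP j k hA hB b r B hlin hr1 hr x hx
  rcases (mm_nonneg (HPj P θ j x * toR B)).eq_or_lt with h0 | h0
  · exact ⟨x, hx, by rw [← h0, mul_zero]; exact mm_nonneg _⟩
  set μ := mm (HPj P θ j x * toR B) with hμ
  obtain ⟨e', he'⟩ := exists_mm (HPj P θ j x * toR B)
  obtain ⟨p, hp, hpe⟩ := km_minor_poly l
    (HM P (θ ^ (2 * m * j)) ((θ ^ ((m - 1) * j))⁻¹) (θ ^ (2 * j)))
    (totalDegree_HM P _ _ _ l (by omega) hP) B e'
  have hpx : |eval x p| = μ := by
    rw [← hpe x]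
    exact he'
  have hr1' : 0 < r := hr1
  set t₀ : Fin r := ⟨0, hr1'⟩ with ht₀
  set β : Idx d m → ℝ := fun ρ => toR B ρ t₀ with hβ
  obtain ⟨y₀, hy₀, hsup⟩ := gr_sup (gp P β) j k
  have hdm1 : 1 ≤ d + m := by omega
  obtain ⟨y, hy, hy1, hy2⟩ := htwo (gp P β) p
    ((totalDegree_gp_le P l hP β).trans (by nlinarith))
    (hp.trans (Nat.mul_le_mul hr (Nat.le_succ l))) j k y₀ hy₀ x hx
  obtain ⟨hcol1, hcol2⟩ := hcol P hP j k hA β (2 * |eval y₀ (gp P β)|) hsup
  have hSle : ε * (2 * |eval y₀ (gp P β)|) ≤ 2 * |eval y (gp P β)| := by linarith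
  set A := HPj P θ j y * toR B with hAdef
  have hAnone : A none t₀ = θ ^ (2 * m * j) * eval y (gp P β) := by
    rw [hAdef, HPj, gr_entry, UM_none]
    rfl
  have hAinl : ∀ a, A (some (Sum.inl a)) t₀ = θ ^ ((m - 1) * j) * eval y (pderiv a (gp P β)) := by
    intro a
    rw [hAdef, HPj, gr_entry, UM_inl, wt, inv_inv]
  have hAinr : ∀ i, A (some (Sum.inr i)) t₀ = (θ ^ (2 * j))⁻¹ * β (some (Sum.inr i)) := by
    intro i
    rw [hAdef, HPj, gr_entry, UM_inr, wt]
  -- the value entry does not vanish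
  have hgy : eval y (gp P β) ≠ 0 := by
    intro hz
    rw [hz, abs_zero] at hy1
    have h1 : |eval y₀ (gp P β)| = 0 := by
      have := abs_nonneg (eval y₀ (gp P β))
      nlinarith
    rw [h1, mul_zero] at hcol1 hcol2
    have h2 : ∀ i, β (some (Sum.inr i)) = 0 := by
      intro i
      have := hcol2 i
      rw [mul_zero] at this
      exact abs_nonpos_iff.mp this
    have h3 : ∀ a, β (some (Sum.inl a)) = 0 := by
      intro a
      have := hcol1 a y hy
      rw [mul_zero] at this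
      have h4 := abs_nonpos_iff.mp this
      rw [pderiv_gp, map_add, eval_C, map_sum, Finset.sum_eq_zero, add_zero] at h4
      · exact h4
      · intro i _
        rw [h2 i, C_0, zero_mul, map_zero]
    have h5 : β none = 0 := by
      have h6 := hz
      unfold gp at h6
      simp only [h2, h3, C_0, zero_mul, Finset.sum_const_zero, add_zero, eval_C] at h6
      exact h6
    refine hlin.ne_zero t₀ ?_
    funext ρ
    have h7 : β ρ = 0 := by
      rcases ρ with _ | (a | i)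
      · exact h5
      · exact h3 a
      · exact h2 i
    have h8 : ((B ρ t₀ : ℤ) : ℝ) = 0 := h7
    exact_mod_cast h8
  have hrow : ∀ ρ, δ * |A ρ t₀| ≤ |A none t₀| := by
    have hpos : ∀ n : ℕ, 0 < θ ^ n := fun n => pow_pos hθ n
    rw [hAnone, abs_mul, abs_of_pos (hpos _)]
    have hg0 : 0 ≤ |eval y (gp P β)| := abs_nonneg _
    have h2j : (2 : ℝ) ^ j ≤ θ ^ ((m + 1) * j) := by
      rw [pow_mul]
      exact pow_le_pow_left₀ (by norm_num) hθm j
    have hm1 : (m - 1) * j + (m + 1) * j = 2 * m * j := by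
      obtain ⟨q, rfl⟩ : ∃ q, m = q + 1 := ⟨m - 1, by omega⟩
      rw [Nat.add_sub_cancel]
      ring
    intro ρ
    rcases ρ with _ | (a | i)
    · rw [hAnone, abs_mul, abs_of_pos (hpos _)]
      have : δ ≤ 1 := by
        rw [hδ, div_le_one (by positivity)]
        linarith
      have h1 : 0 ≤ θ ^ (2 * m * j) * |eval y (gp P β)| := by positivity
      nlinarith
    · rw [hAinl, abs_mul, abs_of_pos (hpos _)]
      have h1 := hcol1 a y hy
      calc δ * (θ ^ ((m - 1) * j) * |eval y (pderiv a (gp P β))|)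
          ≤ δ * (θ ^ ((m - 1) * j) * (K * 2 ^ j * (2 * |eval y₀ (gp P β)|))) := by gcongr
        _ = θ ^ ((m - 1) * j) * 2 ^ j * (ε * (2 * |eval y₀ (gp P β)|)) / 2 := by
            rw [hδ]; field_simp
        _ ≤ θ ^ ((m - 1) * j) * 2 ^ j * (2 * |eval y (gp P β)|) / 2 := by gcongr
        _ = θ ^ ((m - 1) * j) * 2 ^ j * |eval y (gp P β)| := by ring
        _ ≤ θ ^ ((m - 1) * j) * θ ^ ((m + 1) * j) * |eval y (gp P β)| := by gcongr
        _ = _ := by rw [← pow_add, hm1]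
    · rw [hAinr, abs_mul, abs_inv, abs_of_pos (hpos _)]
      have h1 := hcol2 i
      have h2 : (2 : ℝ) ^ (j * l) = θ ^ (2 * j) * θ ^ (2 * m * j) := by
        rw [mul_comm j l, pow_mul, ← hθl, ← pow_mul, ← pow_add]
        congr 1
        ring
      calc δ * ((θ ^ (2 * j))⁻¹ * |β (some (Sum.inr i))|)
          ≤ δ * ((θ ^ (2 * j))⁻¹ * (K * 2 ^ (j * l) * (2 * |eval y₀ (gp P β)|))) := by gcongr
        _ = (θ ^ (2 * j))⁻¹ * 2 ^ (j * l) * (ε * (2 * |eval y₀ (gp P β)|)) / 2 := by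
            rw [hδ]; field_simp
        _ ≤ (θ ^ (2 * j))⁻¹ * 2 ^ (j * l) * (2 * |eval y (gp P β)|) / 2 := by gcongr
        _ = (θ ^ (2 * j))⁻¹ * 2 ^ (j * l) * |eval y (gp P β)| := by ring
        _ = _ := by
            rw [h2, inv_mul_cancel_left₀ (hpos _).ne']
  obtain ⟨e, ⟨s, hs⟩, hmm⟩ := mm_row A none t₀ δ hδ0 (by
    rw [hAnone]
    exact mul_ne_zero (pow_pos hθ _).ne' hgy) hrow
  have hμy : ε * μ ≤ mm A := by
    rw [← hpx]
    refine hy2.trans ?_
    rw [← hpe y]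
    exact le_mm _ e'
  set M := |(A.submatrix e id).det| with hM
  have hM1 : δ * ε / (d + m) * μ ≤ M := by
    have h1 : δ * (ε * μ) ≤ (d + m) * M := by
      calc δ * (ε * μ) ≤ δ * mm A := by gcongr
        _ ≤ r * M := hmm
        _ ≤ (d + m) * M := by
            have : (r : ℝ) ≤ d + m := by exact_mod_cast hr
            have hM0 : 0 ≤ M := abs_nonneg _
            gcongr
    rw [div_mul_eq_mul_div, div_le_iff₀ hdm]
    linarith
  have hM0 : 0 < M := lt_of_lt_of_le (by positivity) hM1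
  have hinj : Function.Injective e := by
    intro s t hst
    by_contra hne
    have : (A.submatrix e id).det = 0 := by
      refine Matrix.det_zero_of_row_eq hne ?_
      funext u
      simp [hst]
    rw [hM, this, abs_zero] at hM0
    exact lt_irrefl _ hM0
  have hθb : 0 < θ ^ b := pow_pos hθ b
  rcases gr_prod hm θ hθ1 b e hinj ⟨s, hs⟩ with hcase | ⟨hc1, hc2⟩
  · refine ⟨y, hy, ?_⟩
    have h1 := le_mm (HPj P θ (j + b) y * toR B) e
    rw [gr_step, abs_mul, abs_of_pos (hθb.trans_le hcase)] at h1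
    refine le_trans ?_ h1
    calc δ * ε / (d + m) * min 1 κ * θ ^ b * μ ≤ δ * ε / (d + m) * 1 * θ ^ b * μ := by
          gcongr
          exact min_le_left _ _
      _ = θ ^ b * (δ * ε / (d + m) * μ) := by ring
      _ ≤ _ := mul_le_mul hcase hM1 (by positivity) (hθb.le.trans hcase)
  · obtain ⟨φ, hφ⟩ := gr_exc e hinj ⟨s, hs⟩ hc1 hc2
    have hrm : r = m + 1 := by
      have := Fintype.card_congr φ
      simpa using this
    subst hrm
    have hMh : M = |((evalM (UM P) y * toR B).submatrix (gE d m) id).det| := by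
      have h1 : A.submatrix e id = (A.submatrix (gE d m) id).submatrix φ id := by
        ext u v
        simp [hφ]
      rw [hM, h1, Matrix.det_permute, abs_mul]
      have h2 : |(((Equiv.Perm.sign φ : ℤˣ) : ℤ) : ℝ)| = 1 := by
        rcases Int.units_eq_one_or (Equiv.Perm.sign φ) with h | h
        · rw [h]; simp
        · rw [h]; simp
      rw [h2, one_mul, hAdef, HPj, det_weights, gr_prod_exc θ j hθ, one_mul]
    obtain ⟨y', hy', i₀, a, hya⟩ := hdom P hP j k hB (toR B) y hy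
    refine ⟨y', hy', ?_⟩
    have h1 := le_mm (HPj P θ (j + b) y' * toR B)
      (Function.update (gE d m) i₀.succ (some (Sum.inl a)))
    rw [HPj, det_weights, gr_prod_upd θ (j + b) i₀ a hθ hm, abs_mul,
      abs_of_pos (pow_pos hθ _)] at h1
    refine le_trans ?_ h1
    rw [← hMh] at hya
    have h2 : 2 ^ j * θ ^ b ≤ θ ^ ((m + 1) * (j + b)) := by
      rw [mul_add, pow_add]
      have h3 : (2 : ℝ) ^ j ≤ θ ^ ((m + 1) * j) := by
        rw [pow_mul]
        exact pow_le_pow_left₀ (by norm_num) hθm j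
      have h4 : θ ^ b ≤ θ ^ ((m + 1) * b) := by
        refine pow_le_pow_right₀ hθ1 ?_
        nlinarith
      gcongr
    calc δ * ε / (d + m) * min 1 κ * θ ^ b * μ ≤ δ * ε / (d + m) * κ * θ ^ b * μ := by
          gcongr
          exact min_le_right _ _
      _ = κ * θ ^ b * (δ * ε / (d + m) * μ) := by ring
      _ ≤ κ * θ ^ b * M := by gcongr
      _ = 2 ^ j * θ ^ b * (κ * (M / 2 ^ j)) := by field_simp
      _ ≤ θ ^ ((m + 1) * (j + b)) * |((evalM (UM P) y' * toR B).submatrix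
            (Function.update (gE d m) i₀.succ (some (Sum.inl a))) id).det| := by gcongr

end Pool.Agent.Lib.MP_a37012_nt
end

section

/-!
# Codimension at least two: one step of the height function argument
-/

set_option autoImplicit false

open MeasureTheory MvPolynomial

namespace Pool.Agent.Lib.MP_a37012_nt

theorem pt_det {d m : ℕ} (F : Fin m → (Fin d → ℝ) → ℝ) (θ : ℝ) (hθ : 1 ≤ θ) (J : ℕ)
    (x : Fin d → ℝ) : 1 ≤ (HFj F θ J x).det := by
  have hθ0 : 0 < θ := by linarith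
  unfold HFj
  rw [det_HF, inv_inv]
  have h1 : θ ^ (2 * m * J) * ((θ ^ (2 * J))⁻¹) ^ m = 1 := by
    rw [inv_pow, ← pow_mul, show 2 * J * m = 2 * m * J by ring, mul_inv_cancel₀ (by positivity)]
  calc (1 : ℝ) ≤ (θ ^ ((m - 1) * J)) ^ d := one_le_pow₀ (one_le_pow₀ hθ)
    _ = (θ ^ (2 * m * J) * ((θ ^ (2 * J))⁻¹) ^ m) * (θ ^ ((m - 1) * J)) ^ d := by
        rw [h1, one_mul]
    _ = _ := by ring

/-- Remez inequality for covolumes, for functions close to polynomials. -/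
theorem pt_F_remez (d m l : ℕ) (hl : 1 ≤ l) (η : ℝ) (hη : 0 < η) : ∃ ε : ℝ, 0 < ε ∧
    ∀ (F : Fin m → (Fin d → ℝ) → ℝ) (P : Fin m → MvPolynomial (Fin d) ℝ),
      (∀ i, (P i).totalDegree ≤ l) → ∀ (θ : ℝ) (J : ℕ) (_ : 0 < θ)
      (W : Submodule ℚ (Idx d m → ℚ)) (j : ℕ) (k : Fin d → ℤ),
      (∀ x ∈ cube j k, PtApp F P θ J x) → ∀ y ∈ cube j k,
      volume {x | x ∈ cube j k ∧ cov (HFj F θ J x) W < ε * cov (HFj F θ J y) W} ≤
        ENNReal.ofReal η * volume (cube j k) := by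
  obtain ⟨ε, hε, hε1, h⟩ := pt_mm_remez d m l hl η hη
  have hK := ptK_one d m
  have hK0 : 0 < ptK d m := by linarith
  refine ⟨ε / ptK d m ^ 2, by positivity, ?_⟩
  intro F P hP θ J hθ W j k happ y hy
  refine le_trans (measure_mono ?_) (h P hP θ J (basR W) (pt_basR_le W) (basM W) j k y hy)
  rintro x ⟨hx, hx2⟩
  refine ⟨hx, ?_⟩
  have h1 := (pt_cov_cmp F P θ hθ J x (happ x hx) W).2
  have h2 := (pt_cov_cmp F P θ hθ J y (happ y hy) W).1
  change cov (HPj P θ J x) W < ε * cov (HPj P θ J y) W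
  calc cov (HPj P θ J x) W ≤ ptK d m * cov (HFj F θ J x) W := h1
    _ < ptK d m * (ε / ptK d m ^ 2 * cov (HFj F θ J y) W) := by gcongr
    _ ≤ ptK d m * (ε / ptK d m ^ 2 * (ptK d m * cov (HPj P θ J y) W)) := by gcongr
    _ = ε * cov (HPj P θ J y) W := by field_simp

/-- Two sets of small measure do not cover a cube. -/
theorem pt_two {d : ℕ} (j : ℕ) (k : Fin d → ℤ) (p q : (Fin d → ℝ) → Prop)
    (hp : volume {x | x ∈ cube j k ∧ p x} ≤ ENNReal.ofReal (1 / 4) * volume (cube j k))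
    (hq : volume {x | x ∈ cube j k ∧ q x} ≤ ENNReal.ofReal (1 / 4) * volume (cube j k)) :
    ∃ x ∈ cube j k, ¬ p x ∧ ¬ q x := by
  by_contra hcon
  push Not at hcon
  have h1 : cube j k ⊆ {x | x ∈ cube j k ∧ p x} ∪ {x | x ∈ cube j k ∧ q x} := by
    intro x hx
    by_cases hpx : p x
    · exact Or.inl ⟨hx, hpx⟩
    · exact Or.inr ⟨hx, hcon x hx hpx⟩
  have h2 := (measure_mono h1).trans ((measure_union_le _ _).trans (add_le_add hp hq))
  rw [← add_mul, ← ENNReal.ofReal_add (by norm_num) (by norm_num)] at h2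
  have h6 : volume (cube j k) ≠ 0 := by
    rw [km_volume_cube]
    exact pow_ne_zero _ (by simp)
  have h7 : volume (cube j k) ≠ ⊤ := by
    rw [km_volume_cube]
    exact ENNReal.pow_ne_top ENNReal.ofReal_ne_top
  have h8 : ENNReal.ofReal (1 / 4 + 1 / 4) * volume (cube j k) < 1 * volume (cube j k) := by
    refine ENNReal.mul_lt_mul_left h6 h7 ?_
    rw [ENNReal.ofReal_lt_one]
    norm_num
  rw [one_mul] at h8
  exact absurd h2 (not_le.mpr h8)

/-- (S1) Submultiplicativity of the suprema. -/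
theorem pt_submul (d m l : ℕ) (hl : 1 ≤ l) : ∃ C : ℝ, 1 ≤ C ∧
    ∀ (F : Fin m → (Fin d → ℝ) → ℝ) (P : Fin m → MvPolynomial (Fin d) ℝ),
      (∀ i, (P i).totalDegree ≤ l) → ∀ (θ : ℝ) (J : ℕ) (_ : 1 ≤ θ)
      (W W' : Submodule ℚ (Idx d m → ℚ)) (j : ℕ) (k : Fin d → ℤ),
      (∀ x ∈ cube j k, PtApp F P θ J x) → ∀ y ∈ cube j k, ∀ y' ∈ cube j k, ∃ x ∈ cube j k,
        cov (HFj F θ J y) (W ⊓ W') * cov (HFj F θ J y') (W ⊔ W') ≤
          C * cov (HFj F θ J x) W * cov (HFj F θ J x) W' := by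
  classical
  obtain ⟨ε, hε, h⟩ := pt_F_remez d m l hl (1 / 4) (by norm_num)
  obtain ⟨C, hC, hsub⟩ := cov_submul (Idx d m)
  have hC0 : 0 < C := by linarith
  refine ⟨max 1 (C / ε ^ 2), le_max_left _ _, ?_⟩
  intro F P hP θ J hθ W W' j k happ y hy y' hy'
  have hθ0 : 0 < θ := by linarith
  obtain ⟨x, hx, h1, h2⟩ := pt_two j k _ _ (h F P hP θ J hθ0 (W ⊓ W') j k happ y hy)
    (h F P hP θ J hθ0 (W ⊔ W') j k happ y' hy')
  push Not at h1 h2
  refine ⟨x, hx, ?_⟩
  have h3 := hsub (HFj F θ J x) (by linarith [pt_det F θ hθ J x]) W W'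
  have h4 : ε ^ 2 * (cov (HFj F θ J y) (W ⊓ W') * cov (HFj F θ J y') (W ⊔ W')) ≤
      C * cov (HFj F θ J x) W * cov (HFj F θ J x) W' := by
    calc ε ^ 2 * (cov (HFj F θ J y) (W ⊓ W') * cov (HFj F θ J y') (W ⊔ W'))
        = (ε * cov (HFj F θ J y) (W ⊓ W')) * (ε * cov (HFj F θ J y') (W ⊔ W')) := by ring
      _ ≤ cov (HFj F θ J x) (W ⊓ W') * cov (HFj F θ J x) (W ⊔ W') :=
          mul_le_mul h1 h2 (mul_nonneg hε.le (pt_cov_nonneg _ _)) (pt_cov_nonneg _ _)
      _ ≤ _ := h3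
  have h5 : 0 ≤ cov (HFj F θ J x) W * cov (HFj F θ J x) W' :=
    mul_nonneg (pt_cov_nonneg _ _) (pt_cov_nonneg _ _)
  calc cov (HFj F θ J y) (W ⊓ W') * cov (HFj F θ J y') (W ⊔ W')
      = (ε ^ 2 * (cov (HFj F θ J y) (W ⊓ W') * cov (HFj F θ J y') (W ⊔ W'))) / ε ^ 2 := by
        field_simp
    _ ≤ (C * cov (HFj F θ J x) W * cov (HFj F θ J x) W') / ε ^ 2 := by gcongr
    _ = C / ε ^ 2 * (cov (HFj F θ J x) W * cov (HFj F θ J x) W') := by ring
    _ ≤ max 1 (C / ε ^ 2) * (cov (HFj F θ J x) W * cov (HFj F θ J x) W') :=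
        mul_le_mul_of_nonneg_right (le_max_right _ _) h5
    _ = _ := by ring

/-- (S2) The covolumes do not decrease too much in one step. -/
theorem pt_lam (d m l : ℕ) (hl : 1 ≤ l) (θ : ℝ) (hθ : 1 ≤ θ) : ∃ L₀ L₁ : ℝ, 1 ≤ L₀ ∧ 1 ≤ L₁ ∧
    ∀ (F : Fin m → (Fin d → ℝ) → ℝ) (P : Fin m → MvPolynomial (Fin d) ℝ),
      (∀ i, (P i).totalDegree ≤ l) → ∀ (b j : ℕ) (k : Fin d → ℤ),
      (∀ x ∈ cube j k, PtApp F P θ j x) → (∀ x ∈ cube j k, PtApp F P θ (j + b) x) →
      ∀ (W : Submodule ℚ (Idx d m → ℚ)), ∀ y ∈ cube j k, ∀ k', cube (j + b) k' ⊆ cube j k →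
        ∃ x ∈ cube (j + b) k',
          cov (HFj F θ j y) W ≤ L₀ * L₁ ^ b * cov (HFj F θ (j + b) x) W := by
  obtain ⟨c, hc, hc1, h⟩ := pt_child d m l hl
  set n := Fintype.card (Idx d m) with hn
  have hn1 : (1 : ℝ) ≤ n := pt_card_pos d m
  have hK := ptK_one d m
  have hK0 : 0 < ptK d m := by linarith
  have hθ0 : 0 < θ := by linarith
  refine ⟨ptK d m ^ 3, (θ ^ (2 * n)) * c⁻¹, one_le_pow₀ hK,
    one_le_mul_of_one_le_of_one_le (one_le_pow₀ hθ) ((one_le_inv₀ hc).mpr hc1), ?_⟩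
  intro F P hP b j k happ1 happ2 W y hy k' hsub
  obtain ⟨x, hx, hx2⟩ := h P hP θ (j + b) W b j k k' hsub y hy
  refine ⟨x, hx, ?_⟩
  have h1 := (pt_cov_cmp F P θ hθ0 j y (happ1 y hy) W).1
  have h2 := pt_cov_level P θ hθ j b y W
  have h3 := (pt_cov_cmp F P θ hθ0 (j + b) x (happ2 x (hsub hx)) W).2
  have hcb : 0 < c ^ b := by positivity
  have h4 : cov (HPj P θ (j + b) y) W ≤ (c ^ b)⁻¹ * cov (HPj P θ (j + b) x) W := by
    rw [← div_eq_inv_mul, le_div_iff₀ hcb, mul_comm]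
    exact hx2
  calc cov (HFj F θ j y) W ≤ ptK d m * cov (HPj P θ j y) W := h1
    _ ≤ ptK d m * ((n * θ ^ (2 * b)) ^ n * cov (HPj P θ (j + b) y) W) := by gcongr
    _ ≤ ptK d m * ((n * θ ^ (2 * b)) ^ n * ((c ^ b)⁻¹ * cov (HPj P θ (j + b) x) W)) := by gcongr
    _ ≤ ptK d m * ((n * θ ^ (2 * b)) ^ n * ((c ^ b)⁻¹ *
          (ptK d m * cov (HFj F θ (j + b) x) W))) := by gcongr
    _ = ptK d m ^ 3 * (θ ^ (2 * n) * c⁻¹) ^ b * cov (HFj F θ (j + b) x) W := by
        have e1 : ptK d m = (n : ℝ) ^ n := rfl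
        rw [mul_pow (n : ℝ), ← pow_mul, mul_pow (θ ^ (2 * n)), ← pow_mul, ← e1, inv_pow]
        rw [show 2 * b * n = 2 * n * b by ring]
        ring

/-- (S3) Growth of the covolumes in one step. -/
theorem pt_growth (d m l : ℕ) (hd : 1 ≤ d) (hm : 2 ≤ m) (hl : 2 ≤ l) (θ : ℝ) (hθ : 0 < θ)
    (hθl : θ ^ (2 * (m + 1)) = 2 ^ l) (c₀ : ℝ) (hc₀ : 0 < c₀) :
    ∃ g : ℝ → ℝ, (∀ η, 0 < η → 0 < g η) ∧
    ∀ (F : Fin m → (Fin d → ℝ) → ℝ) (P : Fin m → MvPolynomial (Fin d) ℝ),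
      (∀ i, (P i).totalDegree ≤ l) → ∀ (b j : ℕ) (k : Fin d → ℤ),
      (∀ x ∈ cube j k, PtApp F P θ j x) → (∀ x ∈ cube j k, PtApp F P θ (j + b) x) →
      (∀ z : Fin m → ℝ, ∃ x ∈ cube j k, ∃ I : List (Fin d), 2 ≤ I.length ∧ I.length ≤ l ∧
        c₀ * ‖z‖ ≤ |∑ i, z i * eval x (mpds I (P i))|) →
      (∃ i a b, ∀ x ∈ cube j k, c₀ ≤ |eval x (mpds [a, b] (P i))|) →
      ∀ (η : ℝ) (_ : 0 < η) (W : Submodule ℚ (Idx d m → ℚ)), W ≠ ⊥ → W ≠ ⊤ → ∀ y ∈ cube j k,
        volume {x | x ∈ cube j k ∧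
          cov (HFj F θ (j + b) x) W < g η * θ ^ b * cov (HFj F θ j y) W} ≤
          ENNReal.ofReal η * volume (cube j k) := by
  obtain ⟨c, hc, hgr⟩ := growth d m l hd hm hl θ hθ hθl c₀ hc₀
  have hrem : ∀ η : ℝ, ∃ ε : ℝ, 0 < η → 0 < ε ∧
      ∀ P : Fin m → MvPolynomial (Fin d) ℝ, (∀ i, (P i).totalDegree ≤ l) → ∀ (θ : ℝ) (J : ℕ)
      (r : ℕ) (_ : r ≤ Fintype.card (Idx d m)) (B : Matrix (Idx d m) (Fin r) ℤ)
      (j : ℕ) (k : Fin d → ℤ), ∀ y ∈ cube j k,
      volume {x | x ∈ cube j k ∧ mm (HPj P θ J x * toR B) < ε * mm (HPj P θ J y * toR B)} ≤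
        ENNReal.ofReal η * volume (cube j k) := by
    intro η
    by_cases hη : 0 < η
    · obtain ⟨ε, h1, _, h3⟩ := pt_mm_remez d m l (by omega) η hη
      exact ⟨ε, fun _ => ⟨h1, h3⟩⟩
    · exact ⟨0, fun h => absurd h hη⟩
  choose ε hε using hrem
  have hK := ptK_one d m
  have hK0 : 0 < ptK d m := by linarith
  refine ⟨fun η => ε η * c / ptK d m ^ 2, fun η hη => by
    have := (hε η hη).1
    positivity, ?_⟩
  intro F P hP b j k happ1 happ2 hA hB η hη W hbot htop y hy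
  obtain ⟨hε0, hε1⟩ := hε η hη
  have hr1 : 1 ≤ basR W := by
    rw [basR_eq]
    by_contra hcon
    apply hbot
    exact Submodule.finrank_eq_zero.mp (by omega)
  have hr2 : basR W ≤ d + m := by
    rw [basR_eq]
    have h1 := Submodule.finrank_lt htop
    rw [Module.finrank_fintype_fun_eq_card] at h1
    have h2 : Fintype.card (Idx d m) = d + m + 1 := by
      simp only [Idx, Fintype.card_option, Fintype.card_sum, Fintype.card_fin]
    omega
  have hli : LinearIndependent ℤ (fun t : Fin (basR W) => fun a => basM W a t) := by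
    have h1 : LinearIndependent ℤ (kmCol (basM W)) :=
      (LinearIndependent.iff_fractionRing ℤ ℚ).mpr (basM_spec W).1.1
    have h2 : kmCol (basM W) = kmCast (Idx d m) ∘ (fun t : Fin (basR W) => fun a => basM W a t) :=
      rfl
    rw [h2] at h1
    exact LinearIndependent.of_comp _ h1
  obtain ⟨y', hy', hy'2⟩ := hgr P hP j k hA hB b (basR W) (basM W) hli hr1 hr2 y hy
  refine le_trans (measure_mono ?_)
    (hε1 P hP θ (j + b) (basR W) (pt_basR_le W) (basM W) j k y' hy')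
  rintro x ⟨hx, hx2⟩
  refine ⟨hx, ?_⟩
  have h1 := (pt_cov_cmp F P θ hθ (j + b) x (happ2 x hx) W).2
  have h2 := (pt_cov_cmp F P θ hθ j y (happ1 y hy) W).1
  change c * θ ^ b * cov (HPj P θ j y) W ≤ cov (HPj P θ (j + b) y') W at hy'2
  change cov (HPj P θ (j + b) x) W < ε η * cov (HPj P θ (j + b) y') W
  calc cov (HPj P θ (j + b) x) W ≤ ptK d m * cov (HFj F θ (j + b) x) W := h1
    _ < ptK d m * (ε η * c / ptK d m ^ 2 * θ ^ b * cov (HFj F θ j y) W) := by gcongr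
    _ ≤ ptK d m * (ε η * c / ptK d m ^ 2 * θ ^ b * (ptK d m * cov (HPj P θ j y) W)) := by gcongr
    _ = ε η * (c * θ ^ b * cov (HPj P θ j y) W) := by field_simp
    _ ≤ ε η * cov (HPj P θ (j + b) y') W := by gcongr

end Pool.Agent.Lib.MP_a37012_nt
end

section

/-!
# Codimension at least two: the tree of dyadic cubes
-/

set_option autoImplicit false

open MeasureTheory MvPolynomial

namespace Pool.Agent.Lib.MP_a37012_nt

/-- Subcubes by indices. -/
theorem pt_sub {d : ℕ} (j a : ℕ) (k₀ k : Fin d → ℤ)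
    (h : ∀ i, 2 ^ a * k₀ i ≤ k i ∧ k i < 2 ^ a * (k₀ i + 1)) : cube (j + a) k ⊆ cube j k₀ := by
  intro x hx i
  obtain ⟨h1, h2⟩ := hx i
  obtain ⟨h3, h4⟩ := h i
  have ha : (0 : ℝ) < 2 ^ a := by positivity
  have hj : (0 : ℝ) < 2 ^ j := by positivity
  have h3' : (2 : ℝ) ^ a * k₀ i ≤ k i := by exact_mod_cast h3
  have h4' : (k i : ℝ) + 1 ≤ 2 ^ a * (k₀ i + 1) := by
    have : k i + 1 ≤ 2 ^ a * (k₀ i + 1) := by omega
    exact_mod_cast this
  constructor
  · refine le_trans ?_ h1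
    rw [pow_add, div_le_div_iff₀ hj (by positivity)]
    calc (k₀ i : ℝ) * (2 ^ j * 2 ^ a) = (2 ^ a * k₀ i) * 2 ^ j := by ring
      _ ≤ k i * 2 ^ j := by gcongr
  · refine lt_of_lt_of_le h2 ?_
    rw [pow_add, div_le_div_iff₀ (by positivity) hj]
    calc ((k i : ℝ) + 1) * 2 ^ j ≤ (2 ^ a * (k₀ i + 1)) * 2 ^ j := by gcongr
      _ = (k₀ i + 1) * (2 ^ j * 2 ^ a) := by ring

/-- Counting subcubes by measure. -/
theorem pt_count {d : ℕ} (j a : ℕ) (k : Fin d → ℤ) (S : Set (Fin d → ℝ)) (η : ℝ) (hη : 0 ≤ η)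
    (p : (Fin d → Fin (2 ^ a)) → Prop)
    (hp : ∀ u, p u → cube (j + a) (fun i => 2 ^ a * k i + (u i : ℕ)) ⊆ S)
    (hS : volume S ≤ ENNReal.ofReal η * volume (cube j k)) :
    (Nat.card {u : Fin d → Fin (2 ^ a) // p u} : ℝ) ≤ η * (2 ^ a) ^ d := by
  classical
  have hvol : ∀ u : Fin d → Fin (2 ^ a), volume (cube (j + a) (fun i => 2 ^ a * k i + (u i : ℕ))) =
      ENNReal.ofReal (1 / 2 ^ (j + a)) ^ d := fun u => km_volume_cube _ _
  have hdisj : Pairwise (Function.onFun Disjoint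
      fun u : {u : Fin d → Fin (2 ^ a) // p u} =>
        cube (j + a) (fun i => 2 ^ a * k i + ((u.1 i : ℕ) : ℤ))) := by
    intro u u' hne
    rw [Function.onFun, Set.disjoint_left]
    intro x hx hx'
    apply hne
    rw [km_mem_cube] at hx hx'
    apply Subtype.ext
    funext i
    have := congrFun (hx.symm.trans hx') i
    exact Fin.ext (by omega)
  have h1 : ∑ u : {u : Fin d → Fin (2 ^ a) // p u},
      volume (cube (j + a) (fun i => 2 ^ a * k i + ((u.1 i : ℕ) : ℤ))) ≤ volume S := by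
    have h0 := measure_iUnion (μ := volume) hdisj fun u => km_measurable_cube _ _
    rw [tsum_fintype] at h0
    rw [← h0]
    exact measure_mono (Set.iUnion_subset fun u => hp u.1 u.2)
  rw [Finset.sum_congr rfl fun u _ => hvol u.1, Finset.sum_const, Finset.card_univ,
    nsmul_eq_mul] at h1
  have h2 := h1.trans hS
  rw [km_volume_cube, ← ENNReal.ofReal_pow (by positivity), ← ENNReal.ofReal_pow (by positivity),
    ← ENNReal.ofReal_natCast, ← ENNReal.ofReal_mul (by positivity), ← ENNReal.ofReal_mul hη,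
    ENNReal.ofReal_le_ofReal_iff (by positivity)] at h2
  rw [Nat.card_eq_fintype_card]
  rw [one_div, inv_pow, pow_add, one_div, inv_pow] at h2
  have h3 : (0 : ℝ) < (2 ^ j * 2 ^ a) ^ d := by positivity
  calc (Fintype.card {u : Fin d → Fin (2 ^ a) // p u} : ℝ)
      = (Fintype.card {u : Fin d → Fin (2 ^ a) // p u} : ℝ) * ((2 ^ j * 2 ^ a) ^ d)⁻¹ *
          (2 ^ j * 2 ^ a) ^ d := by field_simp
    _ ≤ η * ((2 ^ j) ^ d)⁻¹ * (2 ^ j * 2 ^ a) ^ d := by gcongr
    _ = η * (2 ^ a) ^ d := by rw [mul_pow]; field_simp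

/-- Product of suprema. -/
theorem pt_sup_mul (S S' : Set ℝ) (hS : S.Nonempty) (hS' : S'.Nonempty) (hb : BddAbove S) (h0 : ∀ s ∈ S, 0 ≤ s) (h0' : ∀ s ∈ S', 0 ≤ s) (M : ℝ)
    (h : ∀ s ∈ S, ∀ s' ∈ S', s * s' ≤ M) : sSup S * sSup S' ≤ M := by
  have hM : 0 ≤ M := by
    obtain ⟨s, hs⟩ := hS
    obtain ⟨s', hs'⟩ := hS'
    exact (mul_nonneg (h0 s hs) (h0' s' hs')).trans (h s hs s' hs')
  have hpos : 0 ≤ sSup S := by
    obtain ⟨s, hs⟩ := hS
    exact (h0 s hs).trans (le_csSup hb hs)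
  rcases hpos.eq_or_lt with h1 | h1
  · rw [← h1, zero_mul]
    exact hM
  · rw [mul_comm, ← le_div_iff₀ h1]
    refine csSup_le hS' fun s' hs' => ?_
    rw [le_div_iff₀ h1]
    rcases (h0' s' hs').eq_or_lt with h2 | h2
    · rw [← h2, zero_mul]
      exact hM
    · rw [mul_comm, ← le_div_iff₀ h2]
      refine csSup_le hS fun s hs => ?_
      rw [le_div_iff₀ h2]
      exact h s hs s' hs'

/-- The covolumes of a polynomial matrix are bounded on cubes. -/
theorem pt_bdd {d m : ℕ} (l : ℕ) (hl : 1 ≤ l) (P : Fin m → MvPolynomial (Fin d) ℝ)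
    (hP : ∀ i, (P i).totalDegree ≤ l) (θ : ℝ) (J : ℕ) (W : Submodule ℚ (Idx d m → ℚ)) (j : ℕ)
    (k : Fin d → ℤ) : ∃ M : ℝ, ∀ x ∈ cube j k, cov (HPj P θ J x) W ≤ M := by
  classical
  have h1 : ∀ e : Fin (basR W) → Idx d m, ∃ M : ℝ, ∀ x ∈ cube j k,
      |((HPj P θ J x * toR (basM W)).submatrix e id).det| ≤ M := by
    intro e
    obtain ⟨p, _, hp⟩ := km_minor_poly l
      (HM P (θ ^ (2 * m * J)) ((θ ^ ((m - 1) * J))⁻¹) (θ ^ (2 * J)))
      (totalDegree_HM P _ _ _ l hl hP) (basM W) e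
    obtain ⟨M, hM⟩ := (cube_compact j k).exists_bound_of_continuousOn
      (f := fun x => eval x p) (MvPolynomial.continuous_eval p).continuousOn
    refine ⟨M, fun x hx => ?_⟩
    have := hM x (subset_closure hx)
    rw [Real.norm_eq_abs, ← hp] at this
    exact this
  choose M hM using h1
  refine ⟨∑ e, |M e|, fun x hx => ?_⟩
  obtain ⟨e, he⟩ := exists_mm (HPj P θ J x * toR (basM W))
  unfold cov
  rw [← he]
  exact (hM e x hx).trans ((le_abs_self _).trans
    (Finset.single_le_sum (f := fun e => |M e|) (fun i _ => abs_nonneg _) (Finset.mem_univ e)))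

/-- The height function. -/
noncomputable def ptPsi {d m : ℕ} (F : Fin m → (Fin d → ℝ) → ℝ) (θ : ℝ) (J : ℕ)
    (k : Fin d → ℤ) (W : Submodule ℚ (Idx d m → ℚ)) : ℝ :=
  sSup ((fun x => cov (HFj F θ J x) W) '' cube J k)

theorem pt_tree (d m l : ℕ) (hd : 1 ≤ d) (hm : 2 ≤ m) (hl : 2 ≤ l) (θ : ℝ) (hθ : 0 < θ)
    (hθl : θ ^ (2 * (m + 1)) = 2 ^ l) (c₀ : ℝ) (hc₀ : 0 < c₀) :
    ∃ b : ℕ, 1 ≤ b ∧ ∀ (F : Fin m → (Fin d → ℝ) → ℝ) (j₁ : ℕ) (k₁ : Fin d → ℤ),
      (∀ (t : ℕ) (k : Fin d → ℤ), cube (j₁ + b * t) k ⊆ cube j₁ k₁ →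
        ∃ P : Fin m → MvPolynomial (Fin d) ℝ, (∀ i, (P i).totalDegree ≤ l) ∧
        (∀ x ∈ cube (j₁ + b * t) k, PtApp F P θ (j₁ + b * t) x) ∧
        (∀ x ∈ cube (j₁ + b * t) k, PtApp F P θ (j₁ + b * t + b) x) ∧
        (∀ z : Fin m → ℝ, ∃ x ∈ cube (j₁ + b * t) k, ∃ I : List (Fin d), 2 ≤ I.length ∧
          I.length ≤ l ∧ c₀ * ‖z‖ ≤ |∑ i, z i * eval x (mpds I (P i))|) ∧
        (∃ i a b', ∀ x ∈ cube (j₁ + b * t) k, c₀ ≤ |eval x (mpds [a, b'] (P i))|)) →
      ∃ A : ℝ, 1 ≤ A ∧ ∀ t : ℕ, (Nat.card {u : Fin d → Fin (2 ^ (b * t)) //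
          ∃ W, ptPsi F θ (j₁ + b * t) (fun i => 2 ^ (b * t) * k₁ i + (u i : ℕ)) W < A⁻¹} : ℝ) ≤
          1 / 8 * (2 ^ (b * t)) ^ d := by
  classical
  have hθ1 : 1 < θ := by
    by_contra hcon
    push Not at hcon
    have h1 : θ ^ (2 * (m + 1)) ≤ 1 := pow_le_one₀ hθ.le hcon
    rw [hθl] at h1
    have h2 : (1 : ℝ) < 2 ^ l := one_lt_pow₀ (by norm_num) (by omega)
    linarith
  obtain ⟨C, hC, hsub⟩ := pt_submul d m l (by omega)
  obtain ⟨L₀, L₁, hL₀, hL₁, hlam⟩ := pt_lam d m l (by omega) θ hθ1.le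
  obtain ⟨g, hg, hgrow⟩ := pt_growth d m l hd hm hl θ hθ hθl c₀ hc₀
  obtain ⟨η, δ, b, hη, hδ, hb, hnum⟩ := pt_num θ L₀ L₁ hθ1 hL₀ hL₁ (fun η => g η / 2)
    (fun η hη => by have := hg η hη; positivity)
  refine ⟨b, hb, ?_⟩
  intro F j₁ k₁ hyp
  have hgη := hg η hη
  set Λ : ℝ := L₀ * L₁ ^ b with hΛ
  have hΛ1 : 1 ≤ Λ := one_le_mul_of_one_le_of_one_le hL₀ (one_le_pow₀ hL₁)
  set G : ℝ := g η / 2 * θ ^ b with hG
  have hG0 : 0 < G := by positivity
  obtain ⟨x₀, hx₀⟩ := km_nonempty_cube j₁ k₁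
  obtain ⟨c₁, hc₁, hlow⟩ := cov_lower (HFj F θ (j₁ + b * 0) x₀)
    (by linarith [pt_det F θ hθ1.le (j₁ + b * 0) x₀])
  obtain ⟨A, hA, hemm⟩ := emm d (Idx d m) b C Λ G η δ c₁ hC hΛ1 hG0 hη.le hδ hnum hc₁
  refine ⟨A, hA, ?_⟩
  -- properties of the height function on the cubes of the tree
  have hbdd : ∀ (t : ℕ) (k : Fin d → ℤ), cube (j₁ + b * t) k ⊆ cube j₁ k₁ →
      ∀ W : Submodule ℚ (Idx d m → ℚ),
        BddAbove ((fun x => cov (HFj F θ (j₁ + b * t) x) W) '' cube (j₁ + b * t) k) := by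
    intro t k hk W
    obtain ⟨P, hP, happ1, -, -, -⟩ := hyp t k hk
    obtain ⟨M, hM⟩ := pt_bdd l (by omega) P hP θ (j₁ + b * t) W (j₁ + b * t) k
    refine ⟨ptK d m * M, ?_⟩
    rintro _ ⟨x, hx, rfl⟩
    refine ((pt_cov_cmp F P θ hθ _ x (happ1 x hx) W).1).trans ?_
    exact mul_le_mul_of_nonneg_left (hM x hx) (by linarith [ptK_one d m])
  have hle : ∀ (t : ℕ) (k : Fin d → ℤ), cube (j₁ + b * t) k ⊆ cube j₁ k₁ →
      ∀ (W : Submodule ℚ (Idx d m → ℚ)), ∀ x ∈ cube (j₁ + b * t) k,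
        cov (HFj F θ (j₁ + b * t) x) W ≤ ptPsi F θ (j₁ + b * t) k W := by
    intro t k hk W x hx
    exact le_csSup (hbdd t k hk W) ⟨x, hx, rfl⟩
  have hne : ∀ (J : ℕ) (k : Fin d → ℤ) (W : Submodule ℚ (Idx d m → ℚ)),
      ((fun x => cov (HFj F θ J x) W) '' cube J k).Nonempty := by
    intro J k W
    obtain ⟨x, hx⟩ := km_nonempty_cube J k
    exact ⟨_, x, hx, rfl⟩
  have hpos : ∀ (t : ℕ) (k : Fin d → ℤ), cube (j₁ + b * t) k ⊆ cube j₁ k₁ →
      ∀ (W : Submodule ℚ (Idx d m → ℚ)), 0 < ptPsi F θ (j₁ + b * t) k W := by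
    intro t k hk W
    obtain ⟨x, hx⟩ := km_nonempty_cube (j₁ + b * t) k
    obtain ⟨c₂, hc₂, hlow2⟩ := cov_lower (HFj F θ (j₁ + b * t) x)
      (by linarith [pt_det F θ hθ1.le (j₁ + b * t) x])
    exact (hc₂.trans_le (hlow2 W)).trans_le (hle t k hk W x hx)
  refine hemm (fun t k W => ptPsi F θ (j₁ + b * t) k W) k₁ ?_ ?_
  · intro t k hk
    have hks : cube (j₁ + b * t) k ⊆ cube j₁ k₁ := pt_sub j₁ (b * t) k₁ k hk
    obtain ⟨P, hP, happ1, happ2, hAz, hBz⟩ := hyp t k hks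
    refine ⟨hpos t k hks, ?_, ?_, ?_, ?_, ?_⟩
    · obtain ⟨x, hx⟩ := km_nonempty_cube (j₁ + b * t) k
      have := hle t k hks ⊥ x hx
      rw [cov_bot] at this
      exact this
    · obtain ⟨x, hx⟩ := km_nonempty_cube (j₁ + b * t) k
      have h1 := hle t k hks ⊤ x hx
      have h2 := cov_top (HFj F θ (j₁ + b * t) x)
      have h3 := pt_det F θ hθ1.le (j₁ + b * t) x
      have h4 := le_abs_self (HFj F θ (j₁ + b * t) x).det
      linarith
    · intro W W'
      refine pt_sup_mul _ _ (hne _ _ _) (hne _ _ _) (hbdd t k hks _) ?_ ?_ _ ?_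
      · rintro _ ⟨x, _, rfl⟩
        exact pt_cov_nonneg _ _
      · rintro _ ⟨x, _, rfl⟩
        exact pt_cov_nonneg _ _
      · rintro _ ⟨y, hy, rfl⟩ _ ⟨y', hy', rfl⟩
        obtain ⟨x, hx, hx2⟩ := hsub F P hP θ (j₁ + b * t) hθ1.le W W' (j₁ + b * t) k happ1 y hy
          y' hy'
        refine hx2.trans ?_
        have h1 := hle t k hks W x hx
        have h2 := hle t k hks W' x hx
        have h3 := pt_cov_nonneg (HFj F θ (j₁ + b * t) x) W
        have h4 := pt_cov_nonneg (HFj F θ (j₁ + b * t) x) W'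
        have hC0 : 0 ≤ C := by linarith
        have h5 := hpos t k hks W
        gcongr
    · intro W u
      have hcs : cube (j₁ + b * t + b) (fun i => 2 ^ b * k i + ((u i : ℕ) : ℤ)) ⊆
          cube (j₁ + b * t) k := by
        refine pt_sub _ b k _ fun i => ⟨by simp, ?_⟩
        have := (u i).2
        have h2 : ((u i : ℕ) : ℤ) < 2 ^ b := by exact_mod_cast this
        linarith
      have hcs' : cube (j₁ + b * (t + 1)) (fun i => 2 ^ b * k i + ((u i : ℕ) : ℤ)) ⊆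
          cube j₁ k₁ := by
        rw [show j₁ + b * (t + 1) = j₁ + b * t + b by ring]
        exact hcs.trans hks
      refine csSup_le (hne _ _ _) ?_
      rintro _ ⟨y, hy, rfl⟩
      obtain ⟨x, hx, hx2⟩ := hlam F P hP b (j₁ + b * t) k happ1 happ2 W y hy _ hcs
      refine hx2.trans ?_
      have e1 : j₁ + b * t + b = j₁ + b * (t + 1) := by ring
      rw [e1] at hx ⊢
      exact mul_le_mul_of_nonneg_left (hle (t + 1) _ hcs' W x hx) (by linarith)
    · intro W hbot htop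
      have h1 : ptPsi F θ (j₁ + b * t) k W / 2 < ptPsi F θ (j₁ + b * t) k W := by
        have := hpos t k hks W
        linarith
      obtain ⟨_, ⟨y, hy, rfl⟩, hy2⟩ := exists_lt_of_lt_csSup (hne _ _ _) h1
      have h2 := hgrow F P hP b (j₁ + b * t) k happ1 happ2 hAz hBz η hη W hbot htop y hy
      refine pt_count (j₁ + b * t) b k _ η hη.le _ ?_ h2
      intro u hu x hx
      have hcs : cube (j₁ + b * t + b) (fun i => 2 ^ b * k i + ((u i : ℕ) : ℤ)) ⊆
          cube (j₁ + b * t) k := by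
        refine pt_sub _ b k _ fun i => ⟨by simp, ?_⟩
        have := (u i).2
        have h2 : ((u i : ℕ) : ℤ) < 2 ^ b := by exact_mod_cast this
        linarith
      have hcs' : cube (j₁ + b * (t + 1)) (fun i => 2 ^ b * k i + ((u i : ℕ) : ℤ)) ⊆
          cube j₁ k₁ := by
        rw [show j₁ + b * (t + 1) = j₁ + b * t + b by ring]
        exact hcs.trans hks
      refine ⟨hcs hx, ?_⟩
      have e1 : j₁ + b * t + b = j₁ + b * (t + 1) := by ring
      rw [e1] at hx ⊢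
      have h3 := hle (t + 1) _ hcs' W x hx
      calc cov (HFj F θ (j₁ + b * (t + 1)) x) W
          ≤ ptPsi F θ (j₁ + b * (t + 1)) (fun i => 2 ^ b * k i + ((u i : ℕ) : ℤ)) W := h3
        _ < G * ptPsi F θ (j₁ + b * t) k W := hu
        _ ≤ G * (2 * cov (HFj F θ (j₁ + b * t) y) W) := by
            refine mul_le_mul_of_nonneg_left ?_ hG0.le
            simp only at hy2
            linarith
        _ = g η * θ ^ b * cov (HFj F θ (j₁ + b * t) y) W := by rw [hG]; ring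
  · intro W
    have h0 : cube (j₁ + b * 0) k₁ ⊆ cube j₁ k₁ := by simp
    exact (hlow W).trans (hle 0 k₁ h0 W x₀ (by simpa using hx₀))

end Pool.Agent.Lib.MP_a37012_nt
end
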